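import Pool.Agent.MP_c98bf6_al.H94.All
import Pool.Agent.MP_c98bf6_al.H38.Filt

/-! The group algebra of a residually finite `p`-group. -/

set_option autoImplicit false

noncomputable section

namespace H94G
namespace Alg

open Pool.Agent.MP_c98bf6_al.H38

variable {K : Type} [Field K] {p : ℕ} [Fact p.Prime] [CharP K p]

theorem idem {B Q : Type} [Ring B] [Algebra K B] [Group Q] [Finite Q] (hQ : IsPGroup p Q)
    (ρ : Q →* B) (W : Submodule K B) (hW : W ≤ om K ρ ⊤ * W) : W = ⊥ := by
  by_contra hne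
  obtain ⟨w0, hw0, hw1⟩ := (Submodule.ne_bot_iff W).1 hne
  obtain ⟨l0, hl0⟩ := not_forall.1 fun h => hw1 ((Module.forall_dual_apply_eq_zero_iff K w0).1 h)
  let T : Module.Dual K B →+ (Unit → Q → W → K) :=
    { toFun := fun l _ q w => l (ρ q⁻¹ * w)
      map_zero' := rfl
      map_add' := fun _ _ => rfl }
  obtain ⟨_, ⟨l, rfl⟩, h2, h3⟩ := Inh.fixed p hQ ⊤
    (fun b : W → K => by funext w; simp) T.range
    (by
      rintro g - _ ⟨l, rfl⟩
      exact ⟨l ∘ₗ LinearMap.mulLeft K (ρ g⁻¹), by funext _ q w; simp [T, mul_assoc]⟩)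
    ⟨l0, rfl⟩ fun h => hl0 (by simpa [T] using congrFun (congrFun (congrFun h ()) 1) ⟨w0, hw0⟩)
  have h4 : ∀ g, ∀ w ∈ W, l (ρ g * w) = l w := fun g w hw => by
    simpa [T] using congrFun (h3 g⁻¹ trivial () 1) ⟨w, hw⟩
  have h5 : ∀ w ∈ om K ρ ⊤ * W, l w = 0 := fun w hw => by
    refine Submodule.mul_induction_on hw (fun a ha b hb => ?_) fun a b ha hb => by simp [ha, hb]
    refine om_le (D := LinearMap.ker (l ∘ₗ LinearMap.mulRight K b)) ρ (fun g _ => ?_) ha
    simp [sub_mul, h4 g b hb]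
  exact h2 (by funext _ q w; simpa [T, h4 _ _ w.2] using h5 w (hW w.2))

theorem nilp {B Q : Type} [Ring B] [Algebra K B] [Module.Finite K B] [Group Q] [Finite Q]
    (hQ : IsPGroup p Q) (ρ : Q →* B) : ∃ n, om K ρ ⊤ ^ (n + 1) = ⊥ := by
  have h1 : ∀ k, om K ρ ⊤ ^ (k + 1 + 1) ≤ om K ρ ⊤ ^ (k + 1) := fun k => by
    induction k with
    | zero => simpa [sq] using Submodule.mul_le.2 fun a ha b hb => om_mul ρ ha hb
    | succ k ih => rw [pow_succ, pow_succ _ (k + 1)] at *; exact mul_le_mul_left ih _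
  obtain ⟨n, hn⟩ := IsArtinian.monotone_stabilizes (R := K) (M := B)
    ⟨fun k => OrderDual.toDual (om K ρ ⊤ ^ (k + 1)), monotone_nat_of_le_succ h1⟩
  refine ⟨n, idem hQ ρ _ ?_⟩
  rw [← pow_succ']
  exact le_of_eq (hn (n + 1) (by omega))

variable {G : Type} [Group G]

/-- The generators of the augmentation ideal. -/
def yy (K : Type) [Field K] (e : Fin 2 → G) (i : Fin 2) : MonoidAlgebra K G :=
  MonoidAlgebra.of K G (e i) - 1

theorem resid [Group.ResiduallyFinite G] (hG : IsPGroup p G) (e : Fin 2 → G) :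
    ⨅ n : ℕ, (NonUnitalAlgebra.adjoin K (Set.range (yy K e))).toSubmodule ^ (n + 1) = ⊥ := by
  classical
  refine eq_bot_iff.2 fun b hb => ?_
  choose H hH using Group.exists_finiteIndexNormalSubgroup_of_residuallyFinite (G := G)
  let N : Subgroup G := ⨅ c : {c : b.coeff.support × b.coeff.support // c.1.1 ≠ c.2.1},
    (H _ _ c.2).toSubgroup
  have : N.Normal := Subgroup.normal_iInf_normal fun c => (H _ _ c.2).isNormal'
  have : N.FiniteIndex := Subgroup.finiteIndex_iInf fun c => (H _ _ c.2).isFiniteIndex'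
  have hinj : Set.InjOn (QuotientGroup.mk' N) b.coeff.support := fun g hg g' hg' h => by
    by_contra hne
    exact hH g g' hne (QuotientGroup.eq.2 (Subgroup.mem_iInf.1 (QuotientGroup.eq.1 h)
      ⟨(⟨g, hg⟩, ⟨g', hg'⟩), hne⟩))
  have : Module.Finite K (MonoidAlgebra K (G ⧸ N)) :=
    Module.Finite.of_basis (MonoidAlgebra.basis (G ⧸ N) K)
  obtain ⟨n, hn⟩ := nilp (K := K) (hG.to_quotient N) (MonoidAlgebra.of K (G ⧸ N))
  let φ := MonoidAlgebra.mapDomainAlgHom K K (QuotientGroup.mk' N)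
  have h1 : (NonUnitalAlgebra.adjoin K (Set.range (yy K e))).toSubmodule.map φ.toLinearMap ≤
      om K (MonoidAlgebra.of K (G ⧸ N)) ⊤ := by
    rintro _ ⟨a, ha, rfl⟩
    change φ a ∈ _
    induction ha using NonUnitalAlgebra.adjoin_induction with
    | mem a ha =>
      obtain ⟨i, rfl⟩ := ha
      rw [yy, map_sub, map_one]
      simpa [φ] using
        mem_om (K := K) (MonoidAlgebra.of K (G ⧸ N)) (Subgroup.mem_top (e i : G ⧸ N))
    | add a b _ _ ha hb => rw [map_add]; exact add_mem ha hb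
    | zero => simp
    | mul a b _ _ ha hb => rw [map_mul]; exact om_mul _ ha hb
    | smul c a _ ha => rw [map_smul]; exact Submodule.smul_mem _ _ ha
  have h2 : φ b = 0 := by
    have h3 := Submodule.mem_map_of_mem (f := φ.toLinearMap) ((Submodule.mem_iInf _).1 hb n)
    rw [Submodule.map_pow] at h3
    simpa [hn] using pow_le_pow_left' h1 (n + 1) h3
  rw [Submodule.mem_bot, ← MonoidAlgebra.coeff_eq_zero]
  ext g
  by_contra hg
  have h4 := Finsupp.mapDomain_apply' _ b.coeff le_rfl hinj (Finsupp.mem_support_iff.2 hg)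
  have h5 : Finsupp.mapDomain (QuotientGroup.mk' N) b.coeff = 0 :=
    congrArg MonoidAlgebra.coeff h2
  rw [h5] at h4
  exact hg h4.symm

omit [CharP K p] in
theorem words [Infinite G] (hG : IsPGroup p G) {e : Fin 2 → G}
    (he : Subgroup.closure (Set.range e) = ⊤) (n : ℕ) :
    ∃ w : Fin n → Fin 2, (List.ofFn fun i => yy K e (w i)).prod ≠ 0 := by
  by_contra! hw
  let W : Submodule K (MonoidAlgebra K G) :=
    Submodule.span K ((fun l : List (Fin 2) => (l.map (yy K e)).prod) '' {l | l.length ≤ n})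
  have h1 : ∀ i, ∀ w ∈ W, MonoidAlgebra.of K G (e i) * w ∈ W := fun i w hw' => by
    have : yy K e i * w ∈ W := by
      refine Submodule.span_le (p := W.comap (LinearMap.mulLeft K (yy K e i))).2 ?_ hw'
      rintro _ ⟨l, hl, rfl⟩
      rcases (show l.length ≤ n from hl).lt_or_eq with h | h
      · exact Submodule.subset_span ⟨i :: l, h, by simp⟩
      · subst h
        have h0 : (l.map (yy K e)).prod = 0 := by
          rw [← hw l.get, ← List.ofFn_get l, List.map_ofFn]; simp [Function.comp_def]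
        simp [h0]
    simpa [yy, sub_mul] using add_mem this hw'
  have h2 : ∀ i (k : ℕ), ∀ w ∈ W, MonoidAlgebra.of K G (e i ^ k) * w ∈ W := fun i k => by
    induction k with
    | zero => intro w hw'; rwa [pow_zero, map_one, one_mul]
    | succ k ih => intro w hw'; rw [pow_succ, map_mul, mul_assoc]; exact ih _ (h1 i w hw')
  have h3 : ∀ g : G, MonoidAlgebra.of K G g ∈ W := fun g => by
    have hg : g ∈ Subgroup.closure (Set.range e) := he ▸ Subgroup.mem_top g
    induction hg using Subgroup.closure_induction_left with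
    | one => exact Submodule.subset_span ⟨[], by simp, (map_one _).symm⟩
    | mul_left a ha b _ ih => obtain ⟨i, rfl⟩ := ha; rw [map_mul]; exact h1 i _ ih
    | inv_mul_cancel a ha b _ ih =>
      obtain ⟨i, rfl⟩ := ha
      obtain ⟨k, hk⟩ := hG (e i)
      obtain ⟨m, hm⟩ := Nat.exists_eq_succ_of_ne_zero (pow_ne_zero k (Fact.out : p.Prime).ne_zero)
      rw [hm, pow_succ] at hk
      rw [← eq_inv_of_mul_eq_one_left hk, map_mul]
      exact h2 i m _ ih
  have h4 : W = ⊤ := eq_top_iff.2 fun b _ => MonoidAlgebra.induction_on b h3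
    (fun _ _ => add_mem) fun c _ => W.smul_mem c
  have : Module.Finite K (MonoidAlgebra K G) :=
    ⟨h4 ▸ Submodule.fg_span ((List.finite_length_le (Fin 2) n).image _)⟩
  have := Module.Finite.finite_basis (MonoidAlgebra.basis G K)
  exact not_finite G

end Alg

open Alg in
theorem wrap (K : Type) [Field K] (p : ℕ) [Fact p.Prime] [CharP K p] (G : Type) [Group G]
    [Infinite G] [Group.ResiduallyFinite G] (hG : IsPGroup p G) (e : Fin 2 → G)
    (he : Subgroup.closure (Set.range e) = ⊤)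
    (hc : ∀ g : G, g ≠ 1 → {h : G | h * g = g * h}.Finite) :
    ∃ (B : Type) (_ : Ring B) (_ : Algebra K B) (y : Fin 2 → B) (G : Subgroup Bˣ),
      G = Subgroup.closure {u : Bˣ | ∃ i, (u : B) = 1 + y i} ∧ (∀ i, IsUnit (1 + y i)) ∧
      (∀ g ∈ G, IsNilpotent ((g : B) - 1)) ∧
      (∀ n : ℕ, ∃ w : Fin n → Fin 2, (List.ofFn (fun i => y (w i))).prod ≠ 0) ∧
      (⨅ n : ℕ, (NonUnitalAlgebra.adjoin K (Set.range y)).toSubmodule ^ (n + 1) = ⊥) ∧
      Infinite G ∧ IsPGroup p G ∧ Group.ResiduallyFinite G ∧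
      ∀ g ∈ G, g ≠ 1 → {h : Bˣ | h ∈ G ∧ h * g = g * h}.Finite := by
  let φ : G →* (MonoidAlgebra K G)ˣ := (MonoidAlgebra.of K G).toHomUnits
  have hφ : Function.Injective φ := fun a b h => MonoidAlgebra.of_injective (congrArg Units.val h)
  have hy : ∀ i, 1 + yy K e i = φ (e i) := fun i => by simp [yy, φ]
  have : CharP (MonoidAlgebra K G) p :=
    charP_of_injective_algebraMap (algebraMap K (MonoidAlgebra K G)).injective p
  let ε := MonoidHom.ofInjective hφ
  refine ⟨MonoidAlgebra K G, inferInstance, inferInstance, yy K e, φ.range, ?_,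
    fun i => hy i ▸ Units.isUnit _, ?_, words hG he, resid hG e,
    Infinite.of_injective _ ε.injective, hG.of_equiv ε, ?_, ?_⟩
  · rw [MonoidHom.range_eq_map, ← he, MonoidHom.map_closure]
    congr 1
    ext u
    simp [hy, Units.ext_iff, eq_comm]
  · rintro _ ⟨g, rfl⟩
    obtain ⟨k, hk⟩ := hG g
    refine ⟨p ^ k, ?_⟩
    rw [sub_pow_char_pow_of_commute p k (Commute.one_right _), ← Units.val_pow_eq_pow_val,
      ← map_pow, hk]
    simp
  · refine Group.residuallyFinite_iff_forall_finiteIndexNormalSubgroup.2 fun g hg => ?_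
    rw [← ε.symm.map_eq_one_iff]
    exact Group.eq_one_iff_forall_finiteIndexNormalSubroup _ fun H =>
      hg (H.comap ε.symm.toMonoidHom)
  · rintro _ ⟨g, rfl⟩ hg
    refine ((hc g fun h => hg (by rw [h, map_one])).image φ).subset ?_
    rintro _ ⟨⟨h, rfl⟩, hh⟩
    exact ⟨h, hφ (by simpa using hh), rfl⟩

theorem group (p : ℕ) [Fact p.Prime] (hp : p ≠ 2) : ∃ (G : Type) (_ : Group G) (e : Fin 2 → G),
    Subgroup.closure (Set.range e) = ⊤ ∧ Infinite G ∧ IsPGroup p G ∧ Group.ResiduallyFinite G ∧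
    ∀ g : G, g ≠ 1 → {h : G | h * g = g * h}.Finite := by
  obtain ⟨M, _, h1, h2, h3, h4⟩ := goal p hp
  refine ⟨F ⧸ M, inferInstance, QuotientGroup.mk' M ∘ ![x, y], ?_, h1, fun g => ?_, ?_, h4⟩
  · have : Set.range ![x, y] = Set.range (FreeGroup.of : Bool → F) := by
      ext f; simp [x, y, or_comm]
    rw [Set.range_comp, ← MonoidHom.map_closure, this, FreeGroup.closure_range_of,
      ← MonoidHom.range_eq_map, QuotientGroup.range_mk']
  · induction g using QuotientGroup.induction_on with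
    | H g =>
      obtain ⟨k, hk⟩ := h2 g
      exact ⟨k, by rw [← QuotientGroup.mk_pow, QuotientGroup.eq_one_iff]; exact hk⟩
  · refine Group.residuallyFinite_of_forall_exists_finite_monoidHom.{0} fun g hg => ?_
    induction g using QuotientGroup.induction_on with
    | H g =>
      obtain ⟨N, n1, n2⟩ := h3 g fun h => hg ((QuotientGroup.eq_one_iff _).2 h)
      exact ⟨N.Q, inferInstance, inferInstance, QuotientGroup.map M N.M (.id _) n1,
        fun h => n2 ((QuotientGroup.eq_one_iff _).1 h)⟩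

end H94G
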