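import Pool.Agent.MP_c98bf6_al.H94.Lin

/-! Row CUP: the cap product conditions are open. -/

set_option autoImplicit false

open Module

noncomputable section

namespace H94G

namespace CupR

section Def
variable {ι V : Type} [Fintype ι] [Fintype V] [MulAction F V] {A : Type} [CommRing A]
  {K : Type} [CommRing K] [Algebra K A]

/-- first block -/
def al (u : V ⊕ V ⊕ ι × V → A) : V → A := fun v => u (.inl v)

/-- second block -/
def ff (u : V ⊕ V ⊕ ι × V → A) : V → A := fun v => u (.inr (.inl v))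

/-- third block -/
def bb (u : V ⊕ V ⊕ ι × V → A) : ι → V → A := fun i v => u (.inr (.inr (i, v)))

/-- first block as a linear map -/
def alL (A : Type) [CommRing A] (ι V : Type) : (V ⊕ V ⊕ ι × V → A) →ₗ[A] (V → A) where
  toFun := al
  map_add' _ _ := rfl
  map_smul' _ _ := rfl

/-- third block as a linear map -/
def bbL (A : Type) [CommRing A] (ι V : Type) : (V ⊕ V ⊕ ι × V → A) →ₗ[A] (ι → V → A) where
  toFun := bb
  map_add' _ _ := rfl
  map_smul' _ _ := rfl

/-- the last component -/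
def third (ω : V → Aˣ) (r : ι → F) (z : F) (c : Option ι → V → K) (α f : V → A)
    (b : ι → V → A) : V → A :=
  capc ω (oW z r) c α + (tw ω).D z (dg K f (c none)) + bd ω r b

omit [Fintype V] in
theorem third_add (ω : V → Aˣ) (r : ι → F) (z : F) (c : Option ι → V → K) (α f α' f' : V → A)
    (b b' : ι → V → A) : third ω r z c (α + α') (f + f') (b + b') =
      third ω r z c α f b + third ω r z c α' f' b' := by
  have : dg K (f + f') (c none) = dg K f (c none) + dg K f' (c none) := by
    funext v; simp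
  simp only [third, ← capL_apply, this, map_add]
  abel

omit [Fintype V] in
theorem third_smul (ω : V → Aˣ) (r : ι → F) (z : F) (c : Option ι → V → K) (a : A)
    (α f : V → A) (b : ι → V → A) :
    third ω r z c (a • α) (a • f) (a • b) = a • third ω r z c α f b := by
  have : dg K (a • f) (c none) = a • dg K f (c none) := by
    funext v; simp
  simp only [third, ← capL_apply, this, map_smul, smul_add]

omit [Fintype V] in
theorem third_map {A' : Type} [CommRing A'] [Algebra K A'] (φ : A →ₐ[K] A') {ω : V → Aˣ}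
    {ω' : V → A'ˣ} (h : ∀ v, (ω' v : A') = φ (ω v)) (r : ι → F) (z : F) (c : Option ι → V → K)
    (α f : V → A) (b : ι → V → A) :
    φ ∘ third ω r z c α f b = third ω' r z c (φ ∘ α) (φ ∘ f) fun i => φ ∘ b i := by
  have h1 : φ ∘ capc ω (oW z r) c α = capc ω' (oW z r) c (φ ∘ α) := by
    funext v
    simp only [capc, Function.comp, Finset.sum_apply, map_sum]
    exact Finset.sum_congr rfl fun i _ => congrFun (kap_map φ h _ (c i) α) v
  have h2 : dg K (φ ∘ f) (c none) = φ.toRingHom ∘ dg K f (c none) := by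
    funext v; simp
  have h3 := D_map φ.toRingHom h z (dg K f (c none))
  have h4 := bd_map φ.toRingHom h r b
  unfold third
  rw [← h1, h2, ← h3]
  refine Eq.trans ?_ (congrArg _ h4)
  funext v
  simp

open Classical in
/-- the linear system -/
def Psi (ω : V → Aˣ) (r : ι → F) (S : ι → V → Prop) (z : F) (T : V → Prop)
    (c : Option ι → V → K) : (V ⊕ V ⊕ ι × V → A) →ₗ[A] (ι × V ⊕ V ⊕ V → A) where
  toFun u := Sum.elim (fun q => if S q.1 q.2 then pr ω (al u) q.2 (r q.1) else bb u q.1 q.2)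
    (Sum.elim (fun v => if T v then hol ω v z * pr ω (al u) v z - (1 - hol ω v z) * ff u v
      else ff u v) (third ω r z c (al u) (ff u) (bb u)))
  map_add' u u' := by
    have e1 : al (u + u') = al u + al u' := rfl
    have e2 : ff (u + u') = ff u + ff u' := rfl
    have e3 : bb (u + u') = bb u + bb u' := rfl
    rw [e1, e2, e3, third_add]
    funext q
    rcases q with q | v | v
    · simp only [Sum.elim_inl, Pi.add_apply, pr_add]; split_ifs <;> rfl
    · simp only [Sum.elim_inr, Sum.elim_inl, Pi.add_apply, pr_add]; split_ifs <;> ring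
    · rfl
  map_smul' a u := by
    have e1 : al (a • u) = a • al u := rfl
    have e2 : ff (a • u) = a • ff u := rfl
    have e3 : bb (a • u) = a • bb u := rfl
    rw [e1, e2, e3, third_smul]
    funext q
    rcases q with q | v | v
    · simp only [Sum.elim_inl, Pi.smul_apply, pr_smul, RingHom.id_apply, smul_eq_mul]
      split_ifs <;> rfl
    · simp only [Sum.elim_inr, Sum.elim_inl, Pi.smul_apply, pr_smul, RingHom.id_apply, smul_eq_mul]
      split_ifs <;> ring
    · rfl

theorem Psi_map {A' : Type} [CommRing A'] [Algebra K A'] (φ : A →ₐ[K] A') {ω : V → Aˣ}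
    {ω' : V → A'ˣ} (h : ∀ v, (ω' v : A') = φ (ω v)) (r : ι → F) (S : ι → V → Prop) (z : F)
    (T : V → Prop) (c : Option ι → V → K) (u : V ⊕ V ⊕ ι × V → A) :
    Psi ω' r S z T c (φ.toRingHom ∘ u) = φ.toRingHom ∘ Psi ω r S z T c u := by
  have e1 : al (φ.toRingHom ∘ u) = φ.toRingHom ∘ al u := rfl
  funext q
  rcases q with q | v | v
  · simp only [Psi, LinearMap.coe_mk, AddHom.coe_mk, Sum.elim_inl, Function.comp_apply, e1]
    split_ifs
    · exact (pr_map φ.toRingHom h _ _ _).symm
    · rfl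
  · simp only [Psi, LinearMap.coe_mk, AddHom.coe_mk, Sum.elim_inr, Sum.elim_inl,
      Function.comp_apply, e1]
    split_ifs
    · rw [map_sub, map_mul, map_mul, map_sub, map_one, hol_map φ.toRingHom h,
        pr_map φ.toRingHom h]
      rfl
    · rfl
  · exact (congrFun (third_map φ h r z c (al u) (ff u) (bb u)) v).symm

theorem mem_ker {ω : V → Aˣ} {r : ι → F} {S : ι → V → Prop} {z : F} {T : V → Prop}
    {c : Option ι → V → K} {u : V ⊕ V ⊕ ι × V → A} :
    u ∈ LinearMap.ker (Psi ω r S z T c) ↔ al u ∈ Z1 ω r S ∧ bb u ∈ C2 A S ∧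
      (∀ v, T v → hol ω v z * pr ω (al u) v z = (1 - hol ω v z) * ff u v) ∧
      (∀ v, ¬ T v → ff u v = 0) ∧ third ω r z c (al u) (ff u) (bb u) = 0 := by
  rw [LinearMap.mem_ker]
  constructor
  · intro h
    refine ⟨fun i v hs => ?_, fun i v hs => ?_, fun v hv => ?_, fun v hv => ?_,
      funext fun v => congrFun h (.inr (.inr v))⟩
    · exact (if_pos hs).symm.trans (congrFun h (.inl (i, v)))
    · exact (if_neg hs).symm.trans (congrFun h (.inl (i, v)))
    · exact sub_eq_zero.1 ((if_pos hv).symm.trans (congrFun h (.inr (.inl v))))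
    · exact (if_neg hv).symm.trans (congrFun h (.inr (.inl v)))
  · rintro ⟨h1, h2, h3, h4, h5⟩
    funext q
    rcases q with q | v | v
    · by_cases hs : S q.1 q.2
      · exact (if_pos hs).trans (h1 _ _ hs)
      · exact (if_neg hs).trans (h2 _ _ hs)
    · by_cases hv : T v
      · exact (if_pos hv).trans (sub_eq_zero.2 (h3 v hv))
      · exact (if_neg hv).trans (h4 v hv)
    · exact congrFun h5 v

omit [Fintype ι] [Fintype V] [MulAction F V] in
theorem eq_zero {u : V ⊕ V ⊕ ι × V → A} (h1 : al u = 0) (h2 : ff u = 0) (h3 : bb u = 0) :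
    u = 0 := by
  funext q
  rcases q with v | v | q
  exacts [congrFun h1 v, congrFun h2 v, congrFun (congrFun h3 q.1) q.2]

omit [Fintype V] in
theorem third_plain (ω : V → Aˣ) (r : ι → F) (z : F) {c : Option ι → V → K} (h : c none = 0)
    (α f : V → A) : capc ω (oW z r) c α + (tw ω).D z (dg K f (c none)) =
      capc ω r (fun i => c (some i)) α := by
  rw [capc_oW, h, kap_zero_left, map_zero, map_zero, zero_add, add_zero]

omit [Fintype V] in
theorem capc_zero (ω : V → Aˣ) (r : ι → F) (c : ι → V → K) : capc ω r c (0 : V → A) = 0 := by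
  rw [← capL_apply, map_zero]

end Def

theorem finrank_le_add {L X Y Z : Type} [Field L] [AddCommGroup X] [Module L X] [AddCommGroup Y]
    [Module L Y] [AddCommGroup Z] [Module L Z] [Module.Finite L X] [Module.Finite L Y]
    [Module.Finite L Z] (W : Submodule L X) (f : X →ₗ[L] Y) (g : X →ₗ[L] Z) (P : Submodule L Y)
    (Q : Submodule L Z) (h1 : ∀ u ∈ W, f u ∈ P) (h2 : ∀ u ∈ W, f u = 0 → g u ∈ Q)
    (h3 : ∀ u ∈ W, f u = 0 → g u = 0 → u = 0) : finrank L W ≤ finrank L P + finrank L Q := by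
  have h := (f.domRestrict W).finrank_range_add_finrank_ker
  have a1 : finrank L (LinearMap.range (f.domRestrict W)) ≤ finrank L P :=
    Submodule.finrank_mono (by rintro _ ⟨u, rfl⟩; exact h1 u u.2)
  have a2 : finrank L (LinearMap.ker (f.domRestrict W)) ≤ finrank L Q := by
    refine LinearMap.finrank_le_finrank_of_injective
      (f := ((g.domRestrict W).domRestrict _).codRestrict Q fun u => h2 u.1 u.1.2 u.2) ?_
    rw [injective_iff_map_eq_zero]
    intro u hu
    exact Subtype.ext (Subtype.ext (h3 u.1 u.1.2 u.2 (congrArg Subtype.val hu)))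
  omega

variable (p : ℕ) [Fact p.Prime] {ι V : Type} [Fintype ι] [Fintype V] [MulAction F V]

/-- the numerical condition -/
def PP (r : ι → F) (S : ι → V → Prop) (z : F) (T : V → Prop) (c : Option ι → V → ZMod p)
    (β : V → ℤ) : Prop :=
  finrank (LL p) (LinearMap.ker (Psi (wL p β) r S z T c)) + ncell S < Fintype.card V

theorem solve {β : V → ℤ} {v : V} {z : F} (h : intg β v z ≠ 0) (a : LL p) :
    a = (1 - hol (wL p β) v z) * (a / (1 - hol (wL p β) v z)) :=
  (mul_div_cancel₀ a (sub_ne_zero.2 fun e => h ((hol_wL_eq_one p β v z).1 e.symm))).symm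

theorem cup_of {r : ι → F} {S : ι → V → Prop} {z : F} {T : V → Prop}
    {c : Option ι → V → ZMod p} {β : V → ℤ} (h : PP p r S z T c β)
    (hT : ∀ v, T v → intg β v z ≠ 0) : Cup p r S z T c β := by
  classical
  by_contra hn
  have key : Z1 (wL p β) r S ≤ (LinearMap.ker (Psi (wL p β) r S z T c)).map (alL _ ι V) := by
    intro α hα
    let f : V → LL p := fun v =>
      if T v then hol (wL p β) v z * pr (wL p β) α v z / (1 - hol (wL p β) v z) else 0
    have hf : ∀ v, T v → hol (wL p β) v z * pr (wL p β) α v z = (1 - hol (wL p β) v z) * f v :=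
      fun v hv => by simp only [f, if_pos hv]; exact solve p (hT v hv) _
    obtain ⟨b, hb, e⟩ := not_not.1 fun h' => hn ⟨α, hα, f, hf, h'⟩
    refine ⟨Sum.elim α (Sum.elim f fun q => -b q.1 q.2), mem_ker.2 ⟨hα, Submodule.neg_mem _ hb, hf,
      fun v hv => if_neg hv, ?_⟩, rfl⟩
    change third _ r z c α f (-b) = 0
    rw [third, map_neg, e, add_neg_cancel]
  have h1 := (Submodule.finrank_mono key).trans (Submodule.finrank_map_le _ _)
  have h2 := card_le_finrank_Z1 (wL p β) r S
  unfold PP at h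
  omega

theorem open_PP (hK : SpecKer) {L : Type} [Field L] [Algebra (ZMod p) L]
    (φ : RU p V →ₐ[ZMod p] L) (ω : V → Lˣ) (hω : ∀ v, (ω v : L) = φ (wU p V v)) (r : ι → F)
    (S : ι → V → Prop) (z : F) (T : V → Prop) (c : Option ι → V → ZMod p)
    (h : finrank L (LinearMap.ker (Psi ω r S z T c)) + ncell S < Fintype.card V) :
    ∃ μ : RU p V, φ μ ≠ 0 ∧ ∀ β, spec p β μ ≠ 0 → PP p r S z T c β := by
  obtain ⟨μ, h1, h2⟩ := hK (RU p V) L _ _ (Psi (wU p V) r S z T c) φ.toRingHom _
    (Psi_map φ hω r S z T c)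
  refine ⟨μ, h1, fun β hβ => ?_⟩
  have := h2 (LL p) (specL p β).toRingHom _ (Psi_map (specL p β) (wL_specL p β) r S z T c)
    ((specL_ne p β μ).2 hβ)
  unfold PP
  omega

theorem openAt_PP (hK : SpecKer) {r : ι → F} {S : ι → V → Prop} {z : F} {T : V → Prop}
    {c : Option ι → V → ZMod p} {β : V → ℤ} (h : PP p r S z T c β) :
    OpenAt p (PP p r S z T c) β :=
  let ⟨μ, h1, h2⟩ := open_PP p hK (specL p β) _ (wL_specL p β) r S z T c h
  ⟨μ, (specL_ne p β μ).1 h1, h2⟩

theorem cup0_of {r : ι → F} {S : ι → V → Prop} {c : ι → V → ZMod p} {β : V → ℤ}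
    (h : PP p r S 1 (fun _ => False) (fun o => o.elim 0 c) β) : Cup0 p r S c β := by
  obtain ⟨α, hα, f, -, h'⟩ := cup_of p h fun _ hv => hv.elim
  rw [third_plain _ _ _ rfl] at h'
  exact ⟨α, hα, h'⟩

theorem plain_ker {L : Type} [Field L] [Algebra (ZMod p) L] {ω : V → Lˣ} {r : ι → F}
    {S : ι → V → Prop} {c : ι → V → ZMod p} {u : V ⊕ V ⊕ ι × V → L}
    (hu : u ∈ LinearMap.ker (Psi ω r S 1 (fun _ => False) fun o => o.elim 0 c)) :
    al u ∈ Z1 ω r S ⊓ (Bred ω r S).comap (capL ω r c) ∧ ff u = 0 ∧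
      (al u = 0 → bb u ∈ C2 L S ∧ bd ω r (bb u) = 0) := by
  obtain ⟨h1, h2, -, h4, h5⟩ := mem_ker.1 hu
  rw [third, third_plain _ _ _ rfl] at h5
  refine ⟨⟨h1, -bb u, Submodule.neg_mem _ h2, ?_⟩, funext fun v => h4 v id, fun h0 => ⟨h2, ?_⟩⟩
  · rw [map_neg, capL_apply]
    exact (eq_neg_of_add_eq_zero_left h5).symm
  · rwa [h0, capc_zero, zero_add] at h5

end CupR

open CupR

variable (p : ℕ) [Fact p.Prime]

theorem cupA (hK : SpecKer) : SpecCupA p := by
  intro ι V _ _ _ r S hR β c hc hc0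
  have h1 := finrank_le_add _ (alL (ZMod p) ι V) (bbL (ZMod p) ι V) (Kc r S c) (H2 (ZMod p) r S)
    (fun u hu => (plain_ker p (c := c) hu).1) (fun u hu h0 => (plain_ker p hu).2.2 h0)
    fun u hu h0 h0' => eq_zero h0 (plain_ker p hu).2.1 h0'
  have h2 := hR c hc hc0
  obtain ⟨μ, m1, m2⟩ := open_PP p hK (aug (ZMod p) (V → ℤ)) 1 (aug_wU p) r S 1 (fun _ => False)
    (fun o => o.elim 0 c) (by omega)
  exact cup0_of p (m2 β fun e => m1 (by rw [← aug_spec p β, e, map_zero]))

theorem cupB (hK : SpecKer) : SpecCupB p := by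
  intro ι V _ _ _ r S β c hI hI' ⟨α, hα, hα'⟩
  refine (openAt_PP p hK ?_).mono p fun β' h => cup0_of p h
  have h1 := finrank_le_add _ (alL (LL p) ι V) (bbL (LL p) ι V) _ ⊥
    (fun u hu => (plain_ker p (ω := wL p β) (r := r) (S := S) (c := c) hu).1)
    (fun u hu h0 => hI _ ((plain_ker p hu).2.2 h0).1 ((plain_ker p hu).2.2 h0).2)
    fun u hu h0 h0' => eq_zero h0 (plain_ker p hu).2.1 h0'
  have h2 : Z1 (wL p β) r S ⊓ (Bred (wL p β) r S).comap (capL (wL p β) r c) < Z1 (wL p β) r S :=
    lt_of_le_of_ne inf_le_left fun e => hα' <| by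
      rw [← e] at hα
      simpa using hα.2
  have h3 := Submodule.finrank_lt_finrank_of_lt h2
  have h4 := finrank_Z1 (wL p β) r S
  rw [← wL_neg, (inj_iff _ r S).1 hI'] at h4
  rw [finrank_bot] at h1
  unfold PP
  omega

theorem cupC : SpecCupC p := by
  intro ι V _ _ _ r S z T β c hc hT ⟨α, hα, hα'⟩
  refine ⟨α, hα, fun v => hol (wL p β) v z * pr (wL p β) α v z / (1 - hol (wL p β) v z),
    fun v hv => solve p (hT v hv) _, ?_⟩
  rwa [third_plain _ _ _ hc]

theorem cupD (hK : SpecKer) : SpecCupD p := by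
  intro ι V _ _ _ r S z T β c v0 hc hc0 h0 hT hI hI'
  refine (openAt_PP p hK ?_).mono p fun β' h h' => cup_of p h h'
  have hT0 : T v0 := not_not.1 fun h => hc0 (hc v0 h)
  have key : ∀ u ∈ LinearMap.ker (Psi (wL p β) r S z T c), al u = 0 → u = 0 := fun u hu hu0 => by
    obtain ⟨-, h2, h3, h4, h5⟩ := mem_ker.1 hu
    have hf : ∀ v, v ≠ v0 → ff u v = 0 := fun v hv => by
      by_cases hv' : T v
      · have := h3 v hv'
        rw [hu0, pr, zero_dotProduct, mul_zero] at this
        exact (mul_eq_zero.1 this.symm).resolve_left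
          (sub_ne_zero.2 fun e => hT v hv' hv ((hol_wL_eq_one p β v z).1 e.symm))
      · exact h4 v hv'
    rw [third, hu0, capc_zero, zero_add] at h5
    have h6 := hI (fun o => o.elim (dg (ZMod p) (ff u) (c none)) (bb u))
      (mem_C2_oS.2 ⟨fun v hv => by
        change c none v • ff u v = 0
        rw [hf v hv, smul_zero], h2⟩) (by rw [bd_oW]; exact h5)
    refine eq_zero hu0 (funext fun v => ?_) (funext fun i => congrFun h6 (some i))
    by_cases hv : v = v0
    · have h7 : c none v • ff u v = 0 := congrFun (congrFun h6 none) v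
      exact (smul_eq_zero.1 h7).resolve_left (hv ▸ hc0)
    · exact hf v hv
  have h1 := finrank_le_add (LinearMap.ker (Psi (wL p β) r S z T c)) (alL (LL p) ι V)
    (alL (LL p) ι V) (Z1 (wL p β) (oW z r) (oS (· = v0) S)) ⊥
    (fun u hu => by
      obtain ⟨h1, -, h3, -⟩ := mem_ker.1 hu
      refine mem_Z1_oS.2 ⟨fun v hv => ?_, h1⟩
      have := h3 v0 hT0
      rw [(hol_wL_eq_one p β v0 z).2 h0, one_mul, sub_self, zero_mul] at this
      exact hv ▸ this)
    (fun u _ h => h) fun u hu h _ => key u hu h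
  have h4 := finrank_Z1 (wL p β) (oW z r) (oS (· = v0) S)
  rw [← wL_neg, (inj_iff _ _ _).1 hI', ncell_oS, Nat.card_unique] at h4
  rw [finrank_bot] at h1
  unfold PP
  omega

end H94G
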