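import Pool.Agent.MP_c98bf6_al.H94.Lin

/-! Row EAN: the stabiliser of the `U`-line. -/

set_option autoImplicit false

open Module

noncomputable section

namespace H94G

namespace EAn
variable {ι : Type} {p : ℕ} {r : ι → F} {U : F}

theorem pull_full {V V' : Type} [Fintype V] [Fintype V'] [MulAction F V] [MulAction F V']
    {π : V' → V} (h : Eqv π) {γ : V → ℤ} (hγ : γ ∈ Zc r (full ι V)) :
    γ ∘ π ∈ Zc r (full ι V') := fun i v _ => by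
  have h1 : intg γ (π v) (r i) = 0 := hγ i (π v) trivial
  exact (intg_pull h γ v (r i)).trans h1

theorem intg_rm (N : ON p) (γ : N.Q → ℤ) (g f z : F) :
    intg (γ ∘ N.rm g) (f : N.Q) z = intg γ ((f * g : F) : N.Q) z := by
  rw [intg_pull (N.eqv_rm g), ON.rm_mk]

theorem intg_rm_one (N : ON p) (γ : N.Q → ℤ) (g z : F) :
    intg (γ ∘ N.rm g) 1 z = intg γ (g : N.Q) z := by
  rw [← QuotientGroup.mk_one, intg_rm, one_mul]

theorem intg_zpow {V : Type} [Fintype V] [MulAction F V] (α : V → ℤ) {v : V} {f : F}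
    (h : f • v = v) (n : ℤ) : intg α v (f ^ n) = n * intg α v f := by
  obtain ⟨k, rfl | rfl⟩ := n.eq_nat_or_neg
  · rw [zpow_natCast, intg_pow α h]
  · have h1 : (f ^ k)⁻¹ • v = v := inv_smul_eq_iff.2 (pow_smul_eq h k).symm
    rw [zpow_neg, zpow_natCast, intg_inv, h1, intg_pow α h]; ring

variable (r U) in
/-- The elements whose `U`-loop is homologous to the `U`-loop at `1`. -/
def L (N : ON p) : Subgroup F where
  carrier := {f | InL r U N f}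
  one_mem' := fun _ _ _ _ => by rw [QuotientGroup.mk_one]
  mul_mem' := fun {f g} hf hg o ho γ hγ => by
    rw [← intg_rm, hf o ho _ (pull_full (N.eqv_rm g) hγ), intg_rm_one, hg o ho γ hγ]
  inv_mem' := fun {f} hf o ho γ hγ => by
    rw [← intg_rm_one, ← hf o ho _ (pull_full (N.eqv_rm f⁻¹) hγ), intg_rm, mul_inv_cancel,
      QuotientGroup.mk_one]

theorem mem_L {N : ON p} {f : F} : f ∈ L r U N ↔ InL r U N f := Iff.rfl

theorem le_L (N : ON p) : N.M ≤ L r U N := fun f hf o _ γ _ => by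
  rw [(QuotientGroup.eq_one_iff f).2 hf]

theorem smul_one (N : ON p) (f : F) : f • (1 : N.Q) = (f : N.Q) := by rw [N.smul_def, mul_one]

theorem U_mem_L (N : ON p) : U ∈ L r U N := fun o ho γ _ => by
  have := intg_conj γ (1 : N.Q) (U ^ o) U ((N.smul_eq_iff _ _).2 ho)
  rw [smul_one] at this
  rw [← this]; congr 1; group

theorem L_mono [Fact p.Prime] {N N' : ON p} (h : N'.M ≤ N.M) : L r U N' ≤ L r U N := by
  intro f hf o ho γ hγ
  obtain ⟨k, hk⟩ := N'.pexp (U ^ o)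
  have he : Eqv (N'.orb (1 : N.Q)) := ON.eqv_orb (ON.triv_Q.2 h) _
  have h1 := hf (o * p ^ k) (by rwa [pow_mul]) _ (pull_full he hγ)
  rw [intg_pull he, intg_pull he, ON.orb_one_mk h, ON.orb_one (ON.triv_Q.2 h), pow_mul,
    intg_pow _ ((N.smul_eq_iff _ _).2 ho), intg_pow _ ((N.smul_eq_iff _ _).2 ho)] at h1
  exact mul_left_cancel₀ (by exact_mod_cast pow_ne_zero k (Fact.out : p.Prime).ne_zero) h1

variable (r U) in
/-- The stable image of the groups `L N'` modulo `N`. -/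
def E (N : ON p) : Subgroup F := ⨅ N' : {N' : ON p // N'.Rel r ∧ N'.M ≤ N.M}, L r U N'.1 ⊔ N.M

theorem E_le {N N' : ON p} (h1 : N'.Rel r) (h2 : N'.M ≤ N.M) : E r U N ≤ L r U N' ⊔ N.M :=
  iInf_le (fun N' : {N' : ON p // N'.Rel r ∧ N'.M ≤ N.M} => L r U N'.1 ⊔ N.M) ⟨N', h1, h2⟩

theorem le_E (N : ON p) : N.M ≤ E r U N := le_iInf fun _ => le_sup_right

theorem U_mem_E (N : ON p) : U ∈ E r U N :=
  Subgroup.mem_iInf.2 fun N' => Subgroup.mem_sup_left (U_mem_L N'.1)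

theorem stab [Fact p.Prime] {N : ON p} (h : N.Rel r) : ∃ N1 : ON p, N1.Rel r ∧ N1.M ≤ N.M ∧
    ∀ N' : ON p, N'.Rel r → N'.M ≤ N1.M → E r U N = L r U N' ⊔ N.M := by
  let φ : ON p → Subgroup N.Q := fun N' => (L r U N').map (QuotientGroup.mk' N.M)
  have hφ : ∀ N', (φ N').comap (QuotientGroup.mk' N.M) = L r U N' ⊔ N.M := fun N' => by
    rw [Subgroup.comap_map_eq, QuotientGroup.ker_mk']
  obtain ⟨_, ⟨N1, ⟨h1, h2⟩, rfl⟩, hmin⟩ := (wellFounded_lt (α := Subgroup N.Q)).has_min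
    (φ '' {N' | N'.Rel r ∧ N'.M ≤ N.M}) ⟨_, N, ⟨h, le_rfl⟩, rfl⟩
  have key : ∀ N' : ON p, N'.Rel r → N'.M ≤ N1.M → L r U N' ⊔ N.M = L r U N1 ⊔ N.M := by
    intro N' h3 h4
    have h5 : φ N' ≤ φ N1 := Subgroup.map_mono (L_mono h4)
    rw [← hφ, ← hφ, h5.eq_of_not_lt (hmin _ ⟨N', ⟨h3, h4.trans h2⟩, rfl⟩)]
  refine ⟨N1, h1, h2, fun N' h3 h4 => le_antisymm (E_le h3 (h4.trans h2)) (le_iInf ?_)⟩
  rintro ⟨N2, h5, -⟩
  rw [key N' h3 h4, ← key (N1.inf N2) (h1.inf h5) inf_le_left]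
  exact sup_le_sup_right (L_mono inf_le_right) _

theorem split {K M : Subgroup F} [M.Normal] {e : F} (h : e ∈ K ⊔ M) :
    ∃ l ∈ K, l⁻¹ * e ∈ M := by
  obtain ⟨l, hl, n, hn, rfl⟩ := Subgroup.mem_sup_of_normal_right.1 h
  exact ⟨l, hl, by simpa using hn⟩

theorem E_mono [Fact p.Prime] {N N' : ON p} (h : N.Rel r) (h' : N'.Rel r) (hle : N'.M ≤ N.M) :
    E r U N' ≤ E r U N := by
  obtain ⟨N1, h1, -, h3⟩ := stab (U := U) h
  rw [h3 (N1.inf N') (h1.inf h') inf_le_left]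
  exact (E_le (h1.inf h') inf_le_right).trans (sup_le_sup_left hle _)

theorem E_lift [Fact p.Prime] {N N' : ON p} (h' : N'.Rel r) (hle : N'.M ≤ N.M) {e : F}
    (he : e ∈ E r U N) : ∃ e' ∈ E r U N', e'⁻¹ * e ∈ N.M := by
  obtain ⟨N1, h1, h2, h3⟩ := stab (U := U) h'
  obtain ⟨l, hl, hn⟩ := split (E_le h1 (h2.trans hle) he)
  exact ⟨l, by rw [h3 N1 h1 le_rfl]; exact Subgroup.mem_sup_left hl, hn⟩

variable {H : Subgroup F} {Ns : ON p}

theorem E_small (hH : Ns.M ≤ H) (hT : Tight r U H Ns) {N : ON p} (h : N.Rel r)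
    (hN : N.M ≤ Ns.M) {e : F} (he : e ∈ E r U N) (heH : e ∈ H) :
    e ∈ Subgroup.zpowers U ⊔ N.M := by
  obtain ⟨N0, h1, h2, -, h4⟩ := hT N h hN
  obtain ⟨l, hl, hn⟩ := split (E_le h1 h2 he)
  have hlH : l ∈ H := by simpa using H.mul_mem heH (H.inv_mem (hH (hN hn)))
  have := Subgroup.mul_mem _ (sup_le_sup_left h2 _ (h4 l hlH hl)) (Subgroup.mem_sup_right hn)
  simpa using this

theorem E_comm [Fact p.Prime] (hH : Ns.M ≤ H) {m : ℕ} (hm : U ^ m ∈ Ns.M) (hT : Tight r U H Ns)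
    {N : ON p} (h : N.Rel r) (hN : N.M ≤ Ns.M) {e : F} (he : e ∈ E r U N) :
    Commute (e : N.Q) ((U ^ m : F) : N.Q) := by
  have hp : p.Prime := Fact.out
  obtain ⟨N1, h1, h2, ⟨a, hz, γ, hγ, hc⟩, -⟩ := hT N h hN
  obtain ⟨j, hj⟩ := N.pexp U
  have : NeZero (p ^ j) := ⟨pow_ne_zero _ hp.ne_zero⟩
  let N2 := ON.ker p (Cyc γ (p ^ j))
  have h3 : N2.Rel r := fun i => ON.mem_ker.2 fun v =>
    (Cyc.smul_eq_iff γ _ _ v).2 ⟨(N1.smul_eq_iff _ _).2 (h1 i), by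
      rw [show intg γ v.fst (r i) = 0 from hγ i _ trivial]; exact dvd_zero _⟩
  have h4 : N2.M ≤ N1.M :=
    ON.triv_Q.1 (ON.triv_ker.of_eqv Cov.eqv_fst fun v => ⟨⟨v, 0⟩, rfl⟩)
  obtain ⟨N3, h5, h6, -, h7⟩ := hT N2 h3 (h4.trans (h2.trans hN))
  obtain ⟨l, hl, hn⟩ := split (E_le h5 (h6.trans (h4.trans h2)) he)
  have hg1 : l⁻¹ * U ^ m * l ∈ L r U N3 :=
    mul_mem (mul_mem (inv_mem hl) (pow_mem (U_mem_L N3) m)) hl
  have hg2 : l⁻¹ * U ^ m * l ∈ H := hH (by simpa using Ns.normal.conj_mem _ hm l⁻¹)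
  obtain ⟨_, ⟨k, rfl⟩, hk⟩ := split (h7 _ hg2 hg1)
  have hk2 : ((U ^ k : F) : N2.Q) = ((l⁻¹ * U ^ m * l : F) : N2.Q) := QuotientGroup.eq.2 (h6 hk)
  have hzz : ∀ q : N1.Q, U ^ p ^ a • q = q := fun q => (N1.smul_eq_iff _ q).2 hz
  have hk3 : (((U ^ p ^ a) ^ k : F) : N2.Q) = ((l⁻¹ * U ^ (p ^ a * m) * l : F) : N2.Q) := by
    have e1 : (U ^ p ^ a) ^ k = (U ^ k) ^ p ^ a := by
      rw [← zpow_natCast, ← zpow_natCast (U ^ k), ← zpow_mul, ← zpow_mul, mul_comm]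
    have e2 : l⁻¹ * U ^ (p ^ a * m) * l = (l⁻¹ * U ^ m * l) ^ p ^ a := by
      have := conj_pow (a := l⁻¹) (b := U ^ m) (i := p ^ a)
      rw [inv_inv] at this
      rw [this, ← pow_mul, mul_comm m]
    rw [e1, e2, QuotientGroup.mk_pow, QuotientGroup.mk_pow, hk2]
  have hk4 : ((U ^ p ^ a) ^ k) • (⟨1, 0⟩ : Cyc γ (p ^ j)) =
      (l⁻¹ * U ^ (p ^ a * m) * l) • (⟨1, 0⟩ : Cyc γ (p ^ j)) := by
    rw [← ON.orb_mk (N := N2) ON.triv_ker, ← ON.orb_mk (N := N2) ON.triv_ker, hk3]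
  have hzm : U ^ (p ^ a * m) ∈ N1.M := by rw [pow_mul]; exact pow_mem hz m
  have hk5 := congrArg Cov.snd hk4
  rw [Cyc.smul_snd, Cyc.smul_snd, add_right_inj, ZMod.intCast_eq_intCast_iff_dvd_sub] at hk5
  change _ ∣ intg γ 1 _ - intg γ 1 _ at hk5
  rw [intg_conj _ _ _ _ ((N1.smul_eq_iff _ _).2 hzm), smul_one,
    L_mono (h6.trans h4) hl _ hzm γ hγ, pow_mul, intg_pow _ (hzz 1), intg_zpow _ (hzz 1),
    ← sub_mul, Nat.cast_pow] at hk5
  have hcop : IsCoprime ((p : ℤ) ^ j) (intg γ 1 (U ^ p ^ a)) :=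
    ((Nat.prime_iff_prime_int.1 hp).irreducible.coprime_iff_not_dvd.2 hc).pow_left
  obtain ⟨d, hd⟩ := hcop.dvd_of_dvd_mul_right hk5
  have hk6 : ((U ^ k : F) : N.Q) = ((U ^ m : F) : N.Q) := by
    rw [QuotientGroup.eq, ← zpow_natCast, ← zpow_neg, ← zpow_add, neg_add_eq_sub, hd, zpow_mul,
      ← Nat.cast_pow, zpow_natCast]
    exact zpow_mem hj d
  have hk7 : ((U ^ k : F) : N.Q) = ((l⁻¹ * U ^ m * l : F) : N.Q) :=
    QuotientGroup.eq.2 (h2 (h4 (h6 hk)))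
  have hl2 : (l : N.Q) = e := QuotientGroup.eq.2 hn
  rw [hk6, QuotientGroup.mk_mul, QuotientGroup.mk_mul, QuotientGroup.mk_inv, hl2, mul_assoc,
    eq_inv_mul_iff_mul_eq] at hk7
  exact hk7

/-- Proportional loop functionals are equal. -/
theorem prop_eq [Fact p.Prime] (hp2 : p ≠ 2) {N : ON p} {a : ℕ} (hP : Prim r (U ^ p ^ a) N)
    {f : F} (hf : ∀ γ ∈ Zc r (full ι N.Q), intg γ 1 (U ^ p ^ a) = 0 →
      intg γ (f : N.Q) (U ^ p ^ a) = 0) : f ∈ L r U N := by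
  have hp : p.Prime := Fact.out
  obtain ⟨hz, γ1, hγ1, hc⟩ := hP
  generalize hzz : U ^ p ^ a = z at hz hc hf
  have ha : intg γ1 1 z ≠ 0 := fun e => hc (by rw [e]; exact dvd_zero _)
  have h1 : ∀ γ ∈ Zc r (full ι N.Q),
      intg γ1 1 z * intg γ (f : N.Q) z = intg γ1 (f : N.Q) z * intg γ 1 z := by
    intro γ hγ
    have h2 := hf (intg γ1 1 z • γ + (-intg γ 1 z) • γ1)
      (add_mem (Submodule.smul_mem _ _ hγ) (Submodule.smul_mem _ _ hγ1))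
      (by simp only [intg, pr_add, pr_smul]; ring)
    simp only [intg, pr_add, pr_smul] at h2 ⊢
    linear_combination h2
  have h2 : ∀ (k : ℕ), ∀ γ ∈ Zc r (full ι N.Q), intg γ1 1 z ^ k * intg γ ((f ^ k : F) : N.Q) z =
      intg γ1 (f : N.Q) z ^ k * intg γ 1 z := by
    intro k
    induction k with
    | zero => intro γ _; simp
    | succ k ih =>
      intro γ hγ
      have h3 := h1 _ (pull_full (N.eqv_rm (f ^ k)) hγ)
      rw [intg_rm, intg_rm_one, ← pow_succ'] at h3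
      have h4 := ih γ hγ
      rw [pow_succ (intg γ1 1 z), mul_assoc, h3]
      linear_combination intg γ1 (f : N.Q) z * h4
  obtain ⟨k, hk⟩ := N.pexp f
  have h3 := h2 (p ^ k) γ1 hγ1
  rw [(QuotientGroup.eq_one_iff _).2 hk] at h3
  have hodd : Odd (p ^ k) := (hp.odd_of_ne_two hp2).pow
  have h4 : intg γ1 1 z = intg γ1 (f : N.Q) z :=
    hodd.strictMono_pow.injective (mul_right_cancel₀ ha h3)
  intro o ho γ hγ
  have h5 := h1 γ hγ
  rw [← h4] at h5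
  have h6 := mul_left_cancel₀ ha h5
  have h7 : ∀ q : N.Q, ((p ^ a : ℕ) : ℤ) * intg γ q (U ^ o) = o * intg γ q z := fun q => by
    rw [← intg_pow _ ((N.smul_eq_iff _ q).2 ho), ← intg_pow _ ((N.smul_eq_iff _ q).2 hz), ← hzz,
      ← pow_mul, ← pow_mul, mul_comm]
  refine mul_left_cancel₀ (a := ((p ^ a : ℕ) : ℤ))
    (by exact_mod_cast pow_ne_zero a hp.ne_zero) ?_
  rw [h7, h7, h6]

theorem E_sep [Fact p.Prime] (hp2 : p ≠ 2) (hs : Ns.Rel r) (hH : Ns.M ≤ H) (hT : Tight r U H Ns)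
    {N : ON p} (h : N.Rel r) (hN : N.M ≤ Ns.M) : ∃ N0 : ON p, N0.Rel r ∧ N0.M ≤ N.M ∧
    ∃ a : ℕ, Prim r (U ^ p ^ a) N0 ∧ ∀ t t' : F, t' * t⁻¹ ∉ E r U N0 →
      ∃ γ ∈ Zc r (full ι N0.Q), intg γ (t : N0.Q) (U ^ p ^ a) = 0 ∧
        intg γ (t' : N0.Q) (U ^ p ^ a) ≠ 0 := by
  obtain ⟨N1, h1, -, h3⟩ := stab (U := U) hs
  obtain ⟨N0, h4, h5, ⟨a, hP⟩, h6⟩ := hT (N.inf N1) (h.inf h1) (inf_le_left.trans hN)
  have h7 : N0.M ≤ N.M := h5.trans inf_le_left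
  have hLE : L r U N0 ≤ E r U N0 := by
    intro f hf
    have h8 : f ∈ E r U Ns := by
      rw [h3 N0 h4 (h5.trans inf_le_right)]; exact Subgroup.mem_sup_left hf
    obtain ⟨e, he, hn⟩ := E_lift h4 (h7.trans hN) h8
    have h9 : e ∈ L r U N0 := sup_le le_rfl (le_L N0) (E_le h4 le_rfl he)
    have h10 := h6 _ (hH hn) (mul_mem (inv_mem h9) hf : e⁻¹ * f ∈ L r U N0)
    have h11 : e⁻¹ * f ∈ E r U N0 :=
      sup_le (Subgroup.zpowers_le_of_mem (U_mem_E N0)) (le_E N0) h10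
    simpa using mul_mem he h11
  refine ⟨N0, h4, h7, a, hP, fun t t' ht => ?_⟩
  by_contra hcon
  refine ht (hLE (prop_eq hp2 hP fun γ hγ h0 => ?_))
  by_contra hne
  refine hcon ⟨γ ∘ N0.rm t⁻¹, pull_full (N0.eqv_rm _) hγ, ?_, ?_⟩
  · rw [intg_rm, mul_inv_cancel, QuotientGroup.mk_one, h0]
  · rwa [intg_rm]

end EAn

variable (p : ℕ) [Fact p.Prime]

theorem eAn : SpecE p := fun hp2 _ _ r U _ _ _ hs hH hm hT =>
  ⟨{ E := EAn.E r U
     le := EAn.le_E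
     mem := EAn.U_mem_E
     mono := fun _ _ => EAn.E_mono
     lift := fun _ _ _ h' hle _ he => EAn.E_lift h' hle he
     comm := fun _ h hN _ he => EAn.E_comm hH hm hT h hN he
     small := fun _ h hN _ he heH => EAn.E_small hH hT h hN he heH
     sep := fun _ h hN => EAn.E_sep hp2 hs hH hT h hN }⟩

end H94G
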