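import Pool.Agent.MP_c98bf6_al.H94.Lin

/-! Reductions of integral cocycles, the first order deformation, adding one cell. -/

set_option autoImplicit false

open Module

noncomputable section

namespace H94G

variable (p : ℕ) [Fact p.Prime]

namespace FO

variable {ι V : Type} [Fintype ι] [Fintype V] [MulAction F V]

/-- Reduction mod `p` of an integral cochain. -/
def rd (γ : V → ℤ) : V → ZMod p := fun v => ((γ v : ℤ) : ZMod p)

/-- The reductions of the integral cocycles. -/
def RA (r : ι → F) (S : ι → V → Prop) : Submodule (ZMod p) (V → ZMod p) where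
  carrier := {α | ∃ γ ∈ Zc r S, rd p γ = α}
  add_mem' := by
    rintro _ _ ⟨a, ha, rfl⟩ ⟨b, hb, rfl⟩
    exact ⟨a + b, add_mem ha hb, by funext v; simp [rd]⟩
  zero_mem' := ⟨0, zero_mem _, by funext v; simp [rd]⟩
  smul_mem' := by
    rintro c _ ⟨a, ha, rfl⟩
    exact ⟨(c.cast : ℤ) • a, Submodule.smul_mem _ _ ha, by funext v; simp [rd]⟩

theorem card_le_Zc (r : ι → F) (S : ι → V → Prop) :
    Fintype.card V ≤ finrank ℤ (Zc r S) + ncell S := by
  classical
  let L : (V → ℤ) →ₗ[ℤ] ({c : ι × V // S c.1 c.2} → ℤ) :=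
    { toFun := fun γ c => intg γ c.1.2 (r c.1.1)
      map_add' := fun a b => by funext c; exact pr_add _ _ _ _ _
      map_smul' := fun a b => by funext c; exact pr_smul _ _ _ _ _ }
  have hk : LinearMap.ker L = Zc r S := by
    ext γ
    exact ⟨fun h i v hs => congrFun h ⟨(i, v), hs⟩, fun h => funext fun c => h _ _ c.2⟩
  have h1 := (LinearMap.ker L).finrank_quotient_add_finrank
  rw [L.quotKerEquivRange.finrank_eq, hk, finrank_fintype_fun_eq_card] at h1
  have h2 := (LinearMap.range L).finrank_le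
  rw [finrank_fintype_fun_eq_card] at h2
  rw [ncell, Nat.card_eq_fintype_card]
  omega

theorem card_le_RA (r : ι → F) (S : ι → V → Prop) :
    Fintype.card V ≤ finrank (ZMod p) (RA p r S) + ncell S := by
  have hp : (p : ℤ) ≠ 0 := by exact_mod_cast (Fact.out : p.Prime).ne_zero
  let b := Module.finBasis ℤ (Zc r S)
  have hli : LinearIndependent (ZMod p)
      fun k => (⟨rd p (b k).1, (b k).1, (b k).2, rfl⟩ : RA p r S) := by
    rw [Fintype.linearIndependent_iff]
    intro g hg k
    let g' : _ → ℤ := fun k => ZMod.cast (g k)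
    have hg' : ∀ k, ((g' k : ℤ) : ZMod p) = g k := fun k => ZMod.intCast_zmod_cast (g k)
    let β : Zc r S := ∑ k, g' k • b k
    have h1 : ∀ v, (p : ℤ) ∣ β.1 v := fun v => by
      rw [← ZMod.intCast_zmod_eq_zero_iff_dvd]
      have := congrFun (congrArg Subtype.val hg) v
      simpa [β, rd, Finset.sum_apply, hg'] using this
    choose β' hβ using h1
    have h2 : β.1 = (p : ℤ) • β' := funext hβ
    have h3 : β' ∈ Zc r S := fun i v hs => by
      have := β.2 i v hs
      rw [h2, pr_smul] at this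
      exact (mul_eq_zero.1 this).resolve_left hp
    have h4 : β = (p : ℤ) • (⟨β', h3⟩ : Zc r S) := Subtype.ext h2
    have h5 := congrArg (fun u => b.repr u k) h4
    simp only [β, map_smul, Finsupp.smul_apply, smul_eq_mul] at h5
    rw [show b.repr (∑ k, g' k • b k) k = g' k from congrFun (b.repr_sum_self g') k] at h5
    rw [← hg', h5]
    simp
  have h1 := hli.fintype_card_le_finrank
  rw [Fintype.card_fin] at h1
  have := card_le_Zc r S
  omega

omit [Fintype ι] in
theorem rd_mem_Z1 {r : ι → F} {S : ι → V → Prop} {β : V → ℤ} (h : β ∈ Zc r S) :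
    rd p β ∈ Z1 (1 : V → (ZMod p)ˣ) r S := fun i v hs => by
  have := intg_map (Int.castRingHom (ZMod p)) β v (r i)
  rw [show intg β v (r i) = 0 from h i v hs, map_zero] at this
  exact this.symm

/-- Some reduction avoids all the spaces `Kc`. -/
theorem exists_avoid {r : ι → F} {S : ι → V → Prop} (h : RK p 0 r S) :
    ∃ β ∈ Zc r S, ∀ c ∈ H2 (ZMod p) r S, c ≠ 0 → rd p β ∉ Kc r S c := by
  classical
  by_contra hc
  push Not at hc
  have hp := (Fact.out : p.Prime).one_lt
  have hA := card_le_RA p r S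
  have cd : ∀ {X : Type} [AddCommGroup X] [Module (ZMod p) X] [Fintype X]
      (W : Submodule (ZMod p) X),
      (Finset.univ.filter (· ∈ W)).card = p ^ finrank (ZMod p) W := fun W => by
    rw [← Fintype.card_subtype, ← Nat.card_eq_fintype_card,
      Module.natCard_eq_pow_finrank (K := ZMod p), Nat.card_zmod]
  obtain ⟨c₀, h1, h2, -⟩ := hc 0 (zero_mem _)
  have h3 := h c₀ h1 h2
  obtain ⟨m, hm⟩ : ∃ m, finrank (ZMod p) (RA p r S) =
      finrank (ZMod p) (H2 (ZMod p) r S) + m + 1 :=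
    ⟨finrank (ZMod p) (RA p r S) - finrank (ZMod p) (H2 (ZMod p) r S) - 1, by omega⟩
  have h4 : Finset.univ.filter (· ∈ RA p r S) ⊆
      ((Finset.univ.filter (· ∈ H2 (ZMod p) r S)).erase 0).biUnion
        fun c => Finset.univ.filter (· ∈ Kc r S c) := by
    intro α hα
    obtain ⟨β, hβ, rfl⟩ := (Finset.mem_filter.1 hα).2
    obtain ⟨c, k1, k2, k3⟩ := hc β hβ
    simp only [Finset.mem_biUnion, Finset.mem_erase, Finset.mem_filter, Finset.mem_univ, true_and]
    exact ⟨c, ⟨k2, k1⟩, k3⟩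
  have h5 := (Finset.card_le_card h4).trans (Finset.card_biUnion_le_card_mul _ _ (p ^ m) (by
    intro c hc'
    simp only [Finset.mem_erase, Finset.mem_filter, Finset.mem_univ, true_and] at hc'
    have := h c hc'.2 hc'.1
    rw [cd]
    exact Nat.pow_le_pow_right hp.le (by omega)))
  have h6 := h5.trans (Nat.mul_le_mul_right _ Finset.card_erase_le)
  rw [cd, cd, hm, ← pow_add] at h6
  exact absurd h6 (not_le.2 (Nat.pow_lt_pow_right hp (by omega)))

/-- The derivative at `t = 1`. -/
def der : Lam p →ₗ[ZMod p] ZMod p :=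
  Finsupp.linearCombination (ZMod p) (fun n : ℤ => (n : ZMod p)) ∘ₗ
    (AddMonoidAlgebra.coeffLinearEquiv (ZMod p)).toLinearMap

theorem der_mon (n : ℤ) : der p (mon (ZMod p) n) = n := by
  have : der p (mon (ZMod p) n) = Finsupp.linearCombination (ZMod p) (fun n : ℤ => (n : ZMod p))
    (mon (ZMod p) n : Lam p).coeff := rfl
  rw [this, mon_val, AddMonoidAlgebra.coeff_single, Finsupp.linearCombination_single, one_smul]

theorem der_mul (n : ℤ) (a : Lam p) :
    der p ((mon (ZMod p) n : Lam p) * a) = der p a + aug (ZMod p) ℤ a * n := by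
  induction a using mon_ind with
  | h1 g => rw [← Units.val_mul, ← mon_add, der_mon, der_mon, aug_mon]; push_cast; ring
  | h2 a b ha hb => simp only [mul_add, map_add, ha, hb]; ring
  | h3 c a ha => simp only [mul_smul_comm, map_smul, ha, smul_eq_mul]; ring

/-- Value and derivative at `t = 1` of a chain. -/
def jet : (V → Lam p) →+ (V → ZMod p) × (V → ZMod p) where
  toFun w := (fun v => aug (ZMod p) ℤ (w v), fun v => der p (w v))
  map_zero' := by ext <;> simp
  map_add' _ _ := by ext <;> simp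

omit [Fintype V] in
theorem jet_bd (β : V → ℤ) (r : ι → F) (b : ι → V → Lam p) :
    jet p (bd (wP p β) r b) = (bd 1 r fun i => (jet p (b i)).1,
      capc 1 r (fun i => (jet p (b i)).1) (rd p β) + bd 1 r fun i => (jet p (b i)).2) := by
  have key : ∀ f w, jet p ((tw (wP p β)).D f w) = (ext (ZMod p) 1 (rd p β)).D f (jet p w) :=
    Act.nat_D _ _ (jet p) (fun _ => rfl) fun w => by
      ext v
      · simp [jet, wP]
      · simp [jet, wP, der_mul, rd]
  have key2 : ∀ f w, jet p ((tw (wP p β)).D f w) = ((un (ZMod p) V).D f (jet p w).1,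
      kap 1 f (jet p w).1 (rd p β) + (un (ZMod p) V).D f (jet p w).2) :=
    fun f w => (key f w).trans (ext_D _ _ _ _ _)
  rw [bd_apply, bd_apply, bd_apply, map_sum, capc, ← Finset.sum_add_distrib, prod_mk_sum]
  exact Finset.sum_congr rfl fun i _ => key2 _ _

theorem inj_Lam {r : ι → F} {S : ι → V → Prop} {β : V → ℤ} (hβ : β ∈ Zc r S)
    (h : ∀ c ∈ H2 (ZMod p) r S, c ≠ 0 → rd p β ∉ Kc r S c) : Inj (wP p β) r S := by
  have hs : sG (ZMod p) ℤ ≠ 0 := fun e => by
    have := mon_injective (K := ZMod p) (g := (1 : ℤ)) (h := 0)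
      (by rw [mon_zero]; exact sub_eq_zero.1 e)
    exact one_ne_zero this
  have h1 : ∀ b ∈ C2 (Lam p) S, bd (wP p β) r b = 0 → ∀ i v, aug (ZMod p) ℤ (b i v) = 0 := by
    intro b hb e
    have h2 := jet_bd p β r b
    rw [e, map_zero] at h2
    have h3 := (Prod.ext_iff.1 h2).1.symm
    have h4 := (Prod.ext_iff.1 h2).2.symm
    by_contra h5
    refine h (fun i => (jet p (b i)).1) ⟨fun i v hv => by simp [jet, hb i v hv], h3⟩
      (fun e' => h5 fun i v => congrFun (congrFun e' i) v) ⟨rd_mem_Z1 p hβ, ?_⟩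
    refine ⟨-fun i => (jet p (b i)).2, neg_mem fun i v hv => by simp [jet, hb i v hv], ?_⟩
    rw [map_neg, capL_apply]
    exact neg_eq_of_add_eq_zero_left h4
  have h2 : ∀ k : ℕ, ∀ b ∈ C2 (Lam p) S, bd (wP p β) r b = 0 → ∀ i v,
      sG (ZMod p) ℤ ^ k ∣ b i v := by
    intro k
    induction k with
    | zero => intro b _ _ i v; simp
    | succ k ih =>
      intro b hb e
      choose b₁ h3 using fun i v => s_dvd_Lam p (h1 b hb e i v)
      have h4 : b = sG (ZMod p) ℤ • b₁ := by funext i v; exact h3 i v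
      intro i v
      rw [h3, pow_succ']
      refine mul_dvd_mul_left _ (ih b₁ (fun j u hu => ?_) ?_ i v)
      · exact (mul_eq_zero.1 ((h3 j u).symm.trans (hb j u hu))).resolve_left hs
      · rw [h4, map_smul] at e
        funext u
        exact (mul_eq_zero.1 (congrFun e u)).resolve_left hs
  intro b hb e
  funext i v
  by_contra h0
  obtain ⟨a, h', h3, h4⟩ := exists_val p h0
  have h5 := h2 (a + 1) b hb e i v
  rw [h4, pow_succ, mul_dvd_mul_iff_left (pow_ne_zero a hs)] at h5
  obtain ⟨u, rfl⟩ := h5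
  simp at h3

omit [Fintype V] in
theorem inj_LL [Finite V] {r : ι → F} {S : ι → V → Prop} {β : V → ℤ} (h : Inj (wP p β) r S) :
    Inj (wL p β) r S := by
  intro b hb e
  have hi := IsFractionRing.injective (Lam p) (LL p)
  obtain ⟨g, h0, b', h1⟩ := clear_den p fun k : ι × V => b k.1 k.2
  have h2 := h (fun i v => b' (i, v)) (fun i v hv => hi (by rw [h1, hb i v hv]; simp)) (by
    have h3 := bd_map (algebraMap (Lam p) (LL p)) (wL_val p β) r fun i v => b' (i, v)
    have h4 : (fun i => algebraMap (Lam p) (LL p) ∘ fun v => b' (i, v)) =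
        algebraMap (Lam p) (LL p) g • b := by funext i v; exact h1 (i, v)
    rw [h4, map_smul, e, smul_zero] at h3
    funext v
    exact hi ((congrFun h3 v).trans (map_zero _).symm))
  funext i v
  have h3 := h1 (i, v)
  rw [show b' (i, v) = 0 from congrFun (congrFun h2 i) v, map_zero] at h3
  exact (mul_eq_zero.1 h3.symm).resolve_left ((map_ne_zero_iff _ hi).2 h0)

omit [Fintype ι] [Fintype V] [MulAction F V] in
theorem eq_smul_dl {w : V → ZMod p} {v : V} (h : ∀ u, ¬ u = v → w u = 0) :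
    w = w v • dl (ZMod p) v := by
  funext u
  by_cases hu : u = v
  · subst hu; simp
  · rw [h u hu, Pi.smul_apply, dl_ne hu, smul_zero]

end FO

open FO

theorem aperp : SpecAperp p := by
  intro ι V _ _ _ r S
  have h1 : Aperp p r S = orth (RA p r S) := by
    ext w
    constructor
    · rintro h _ ⟨γ, hγ, rfl⟩
      rw [dotProduct_comm]; exact h γ hγ
    · intro h γ hγ
      rw [dotProduct_comm]; exact h _ ⟨γ, hγ, rfl⟩
  have h2 := finrank_orth (RA p r S)
  have h3 := card_le_RA p r S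
  rw [h1]
  omega

theorem fo : SpecFO p := by
  intro ι V _ _ _ r S h
  obtain ⟨β, h1, h2⟩ := exists_avoid p h
  refine ⟨β, h1, inj_LL p (inj_Lam p h1 h2), inj_LL p (inj_Lam p (neg_mem h1) fun c k1 k2 k3 =>
    h2 c k1 k2 ?_)⟩
  have : rd p β = -rd p (-β) := by funext v; simp [rd]
  rw [this]
  exact neg_mem k3

theorem extc : SpecExt p := by
  intro ι V _ _ _ r S z U T v hT hR hU
  have e0 : ∀ c : Option ι → V → ZMod p, c ∈ H2 (ZMod p) (oW U r) (oS (· = v) S) →
      c none = 0 := by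
    rintro c ⟨h1, h2⟩
    obtain ⟨h3, h4⟩ := mem_C2_oS.1 h1
    have h5 : bd 1 (oW U r) c = 0 := h2
    rw [bd_oW, eq_smul_dl p h3, map_smul] at h5
    by_contra h6
    have h7 : c none v ≠ 0 := fun e => h6 (by rw [eq_smul_dl p h3, e, zero_smul])
    refine hU ((Submodule.smul_mem_iff _ h7).1 ?_)
    rw [eq_neg_of_add_eq_zero_left h5]
    exact neg_mem ⟨_, h4, rfl⟩
  have e1 : H2 (ZMod p) (oW U r) (oS (· = v) S) = H2 (ZMod p) (oW z r) (oS T S) := by
    ext c
    constructor
    · intro h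
      have h0 := e0 c h
      rw [mem_H2, mem_C2_oS, bd_oW, h0, map_zero] at h ⊢
      exact ⟨⟨fun _ _ => rfl, h.1.2⟩, h.2⟩
    · intro h
      have h0 : c none = 0 := funext fun u => (mem_C2_oS.1 h.1).1 u (hT u)
      rw [mem_H2, mem_C2_oS, bd_oW, h0, map_zero] at h ⊢
      exact ⟨⟨fun _ _ => rfl, h.1.2⟩, h.2⟩
  intro c hc h0
  have h1 := hR c (e1 ▸ hc) h0
  have hn := e0 c hc
  obtain ⟨ℓ, l1, l2⟩ := exists_orth hU
  let φ : (V → ZMod p) →ₗ[ZMod p] ZMod p :=
    dotProductBilin (ZMod p) (ZMod p) ℓ ∘ₗ capL 1 (oW U r) c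
  have h2 : Kc (oW U r) (oS (· = v) S) c ⊓ LinearMap.ker φ ≤ Kc (oW z r) (oS T S) c := by
    rintro α ⟨⟨k1, b, k2, k3⟩, k4⟩
    obtain ⟨k5, k6⟩ := mem_C2_oS.1 k2
    have k7 : ℓ ⬝ᵥ capL 1 (oW U r) c α = 0 := k4
    rw [← k3, bd_oW, eq_smul_dl p k5, map_smul, dotProduct_add, l1 _ ⟨_, k6, rfl⟩, add_zero,
      dotProduct_smul, smul_eq_mul] at k7
    have k8 := (mul_eq_zero.1 k7).resolve_right l2
    rw [bd_oW, eq_smul_dl p k5, k8, zero_smul, map_zero, capL_apply, capc_oW, hn,
      kap_zero_left] at k3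
    refine ⟨mem_Z1_oS.2 ⟨fun u hu => absurd hu (hT u), (mem_Z1_oS.1 k1).2⟩,
      fun o => o.elim 0 fun i => b (some i), mem_C2_oS.2 ⟨fun _ _ => rfl, k6⟩, ?_⟩
    rw [bd_oW, capL_apply, capc_oW, hn, kap_zero_left, ← k3]
    simp
  have h3 := Submodule.finrank_mono h2
  have h4 := finrank_inf_ge (Kc (oW U r) (oS (· = v) S) c) (LinearMap.ker φ)
  have h5 := φ.finrank_range_add_finrank_ker
  have h6 : finrank (ZMod p) (LinearMap.range φ) ≤ 1 := by
    simpa using (LinearMap.range φ).finrank_le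
  have h7 : Nat.card {u // u = v} = 1 := by simp
  rw [ncell_oS] at h1 ⊢
  rw [e1, h7]
  omega

end H94G
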