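import Pool.Agent.MP_c98bf6_al.H94.Step

set_option autoImplicit false

noncomputable section

namespace H94G
namespace Final

open Step

variable {p : ℕ}

/-- A stage with a deep level. -/
structure Lv (p : ℕ) where
  σ : State p
  N : ON p
  deep : σ.Deep N

/-- The link between two consecutive stages. -/
def R (u : F) (a b : Lv p) : Prop := ∃ Na : ON p, Na.M ≤ a.N.M ∧ b.N.M ≤ Na.M ∧ Na.Rel a.σ.r ∧
  (∀ h : F, Commute (h : Na.Q) (x : Na.Q) → h ∈ Subgroup.zpowers x ⊔ a.N.M) ∧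
  (∀ i (h : F), Commute (h : Na.Q) (a.σ.τ i : Na.Q) → h ∈ a.σ.E i a.N) ∧
  (∀ g : F, g ^ p ∈ b.N.M → (∃ w : F, w * g * w⁻¹ ∈ Subgroup.zpowers x ⊔ Na.M) ∨
    ∃ i, ∃ w : F, w * g * w⁻¹ ∈ Subgroup.zpowers (a.σ.τ i) ⊔ Na.M) ∧
  (∀ N, b.σ.Deep N → a.σ.Deep N) ∧ (∃ k : ℕ, ∀ N, b.σ.Deep N → u ^ p ^ k ∈ N.M) ∧
  ∀ i' : b.σ.ι, b.σ.τ i' ∈ a.N.M ∨ ∃ i : a.σ.ι, b.σ.τ i' = a.σ.τ i ∧ b.σ.c i' = a.σ.c i

theorem exists_R [Fact p.Prime] (h1 : ∀ σ : State p, σ.CZ ∧ σ.F1) (h2 : SpecStep p) (u : F)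
    (a : Lv p) : ∃ b, R u a b := by
  obtain ⟨Na, a1, a2, a3, a4⟩ := (h1 a.σ).1 a.N a.deep
  obtain ⟨Nb, b1, b2, b3⟩ := (h1 a.σ).2 Na a1
  obtain ⟨σ', c1, c2, c3, c4⟩ := h2 a.σ u Nb b1
  refine ⟨⟨σ', Nb.inf (ON.ker p σ'.V), c2.inf fun i => ON.mem_ker.2 fun v => σ'.closed i v trivial,
    ON.triv_ker.mono inf_le_right⟩, Na, a2, inf_le_left.trans b2, a1.1, a3, a4,
    fun g hg => b3 g hg.1, c1, c3, fun i' => (c4 i').imp_left fun h => a2 (b2 h)⟩

def φ0 (p : ℕ) : F →* Multiplicative (ZMod p × ZMod p) :=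
  FreeGroup.lift fun b => Multiplicative.ofAdd (cond b (0, 1) (1, 0))

theorem pow_p (g : Multiplicative (ZMod p × ZMod p)) : g ^ p = 1 := by
  apply Multiplicative.toAdd.injective
  ext <;> simp

def N0 (p : ℕ) [Fact p.Prime] : ON p where
  M := (φ0 p).ker
  normal := inferInstance
  fi := inferInstance
  pexp f := ⟨1, by rw [MonoidHom.mem_ker, map_pow, pow_one, pow_p]⟩
  xp := by rw [MonoidHom.mem_ker, map_pow, pow_p]

variable [Fact p.Prime]

theorem x_not : x ∉ (N0 p).M := fun h => by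
  have h1 : φ0 p x = 1 := h
  simpa [φ0, x] using congrArg (fun g => (Multiplicative.toAdd g).1) h1

theorem y_not : y ∉ Subgroup.zpowers x ⊔ (N0 p).M := fun h => by
  obtain ⟨_, ⟨k, rfl⟩, m, hm, h1⟩ := Subgroup.mem_sup_of_normal_right.1 h
  have h2 : φ0 p m = 1 := hm
  have h3 := congrArg (fun g => (Multiplicative.toAdd (φ0 p g)).2) h1
  simp only [map_mul, h2, mul_one, map_zpow] at h3
  simp [φ0, x, y] at h3

def σ0 (p : ℕ) [Fact p.Prime] : State p where
  ι := Empty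
  rk := Empty.elim
  l := 0
  τ := Empty.elim
  V := (N0 p).Q
  v0 := 1
  S := Empty.elim
  E := Empty.elim
  c := Empty.elim
  rk_inj i := i.elim
  rk_lt i := i.elim
  closed i := i.elim
  xv h := x_not (((N0 p).smul_eq_iff _ _).1 h)
  gen _ _ _ _ _ _ _ i := i.elim
  rk0 _ _ h := (h (funext fun i => i.elim)).elim
  le i := i.elim
  mem i := i.elim
  mono i := i.elim
  move i := i.elim
  reach i := i.elim
  p1 i := i.elim
  p2x i := i.elim
  p2 i := i.elim
  bound i := i.elim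

def a0 (p : ℕ) [Fact p.Prime] : Lv p :=
  ⟨σ0 p, N0 p, fun i => Empty.elim i, ON.triv_Q.2 le_rfl⟩

theorem root {Q : Type} [Group Q] {a t : Q} {k : ℤ} (h : a = t ^ k) (ht : t ^ p = 1)
    (ha : a ≠ 1) : ∃ j : ℤ, t = a ^ j := by
  have h1 : ¬ (p : ℤ) ∣ k := by
    rintro ⟨j, rfl⟩
    exact ha (by rw [h, zpow_mul, zpow_natCast, ht, one_zpow])
  obtain ⟨u, v, huv⟩ := (Nat.prime_iff_prime_int.1 Fact.out).coprime_iff_not_dvd.2 h1
  refine ⟨v, ?_⟩
  calc t = t ^ ((p : ℤ) * u + k * v) := by rw [mul_comm _ u, mul_comm k, huv, zpow_one]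
    _ = _ := by rw [zpow_add, zpow_mul, zpow_natCast, ht, one_zpow, one_mul, zpow_mul, h]

/-- A conjugate of `g` is a non-trivial power of `t`: the centralizer of `g` conjugates into the
centralizer of `t`. -/
theorem comm_conj {N : ON p} {g t w : F} (h : w * g * w⁻¹ ∈ Subgroup.zpowers t ⊔ N.M)
    (ht : t ^ p ∈ N.M) (hg : g ∉ N.M) {f : F} (hf : Commute (f : N.Q) (g : N.Q)) :
    Commute ((w * f * w⁻¹ : F) : N.Q) (t : N.Q) := by
  obtain ⟨k, hk⟩ := mem_zpowers_sup.1 h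
  obtain ⟨j, hj⟩ := root (p := p) hk
    (by rw [← QuotientGroup.mk_pow, QuotientGroup.eq_one_iff]; exact ht)
    (fun h1 => hg (by
      have := N.normal.conj_mem _ ((QuotientGroup.eq_one_iff _).1 h1) w⁻¹
      simpa [mul_assoc] using this))
  rw [hj]
  refine Commute.zpow_right ?_ j
  simpa using hf.conj (w : N.Q)

section Seq
variable {w : ℕ → F} {a : ℕ → Lv p} (hR : ∀ l, R (w l) (a l) (a (l + 1)))

/-- The limit subgroup. -/
def MM (a : ℕ → Lv p) : Subgroup F := ⨅ l, (a l).N.M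

instance : (MM a).Normal := Subgroup.normal_iInf_normal fun l => (a l).N.normal

omit [Fact p.Prime] in
theorem MM_le (l : ℕ) : MM a ≤ (a l).N.M := iInf_le _ l

omit [Fact p.Prime] in
theorem comm_le {N : ON p} (h : MM a ≤ N.M) {f g : F}
    (hc : Commute (f : F ⧸ MM a) (g : F ⧸ MM a)) : Commute (f : N.Q) (g : N.Q) := by
  refine (commute_iff N f g).2 (h ?_)
  rw [← QuotientGroup.eq_one_iff, QuotientGroup.mk_mul, QuotientGroup.mk_inv, mul_inv_eq_one]
  exact hc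

include hR

omit [Fact p.Prime] in
theorem anti : Antitone fun l => (a l).N.M := antitone_nat_of_succ_le fun l => by
  obtain ⟨Na, h1, h2, -⟩ := hR l
  exact h2.trans h1

omit [Fact p.Prime] in
theorem deep_le {l m : ℕ} (h : l ≤ m) (N : ON p) (hN : (a m).σ.Deep N) : (a l).σ.Deep N := by
  induction m, h using Nat.le_induction with
  | base => exact hN
  | succ m _ ih =>
    obtain ⟨Na, -, -, -, -, -, -, h7, -⟩ := hR m
    exact ih (h7 N hN)

omit [Fact p.Prime] in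
theorem tors (l : ℕ) : ∃ k : ℕ, w l ^ p ^ k ∈ MM a := by
  obtain ⟨Na, -, -, -, -, -, -, -, ⟨k, hk⟩, -⟩ := hR l
  refine ⟨k, Subgroup.mem_iInf.2 fun m => anti hR (le_max_left m (l + 1)) ?_⟩
  exact hk _ (deep_le hR (le_max_right _ _) _ (a _).deep)

omit [Fact p.Prime] in
theorem c_le {l m : ℕ} (h : l ≤ m) (i : (a m).σ.ι) (hi : (a m).σ.τ i ∉ (a l).N.M) :
    (a m).σ.c i ≤ Finset.univ.sup (a l).σ.c := by
  induction m, h using Nat.le_induction with
  | base => exact Finset.le_sup (Finset.mem_univ i)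
  | succ m hm ih =>
    obtain ⟨Na, -, -, -, -, -, -, -, -, h9⟩ := hR m
    rcases h9 i with h | ⟨j, h1, h2⟩
    · exact (hi (anti hR hm h)).elim
    · rw [h2]; exact ih j (h1 ▸ hi)

theorem box {g : F} (hg : g ^ p ∈ MM a) {l m : ℕ} (h : l ≤ m) (hl : g ∉ (a l).N.M) :
    ∃ (E : Subgroup F) (v : F), (a m).N.M.relIndex E ≤ max p (Finset.univ.sup (a l).σ.c) ∧
      ∀ f : F, Commute (f : F ⧸ MM a) (g : F ⧸ MM a) → v * f * v⁻¹ ∈ E := by
  obtain ⟨Na, h1, h2, h3, h4, h5, h6, -⟩ := hR m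
  have h7 : Na.M ≤ (a l).N.M := h1.trans (anti hR h)
  have h8 : MM a ≤ Na.M := (MM_le _).trans h2
  rcases h6 g (MM_le _ hg) with ⟨v, hv⟩ | ⟨i, v, hv⟩
  · exact ⟨_, v, (relIndex_zpowers_le _ x (Fact.out : p.Prime).ne_zero (a m).N.xp).trans
      (le_max_left _ _), fun f hf => h4 _ (comm_conj hv Na.xp (fun h => hl (h7 h)) (comm_le h8 hf))⟩
  · refine ⟨_, v, (((a m).σ.bound i _ (a m).deep.1 (a m).deep.2).trans
      (c_le hR h i fun hi => hl ?_)).trans (le_max_right _ _),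
      fun f hf => h5 i _ (comm_conj hv (h3 i) (fun h => hl (h7 h)) (comm_le h8 hf))⟩
    have := (a l).N.normal.conj_mem _ (sup_le (Subgroup.zpowers_le.2 hi) h7 hv) v⁻¹
    simpa [mul_assoc] using this

omit [Fact p.Prime] in
theorem ev {f : F} (hf : f ∉ MM a) : ∀ᶠ m in Filter.atTop, f ∉ (a m).N.M := by
  obtain ⟨l, hl⟩ : ∃ l, f ∉ (a l).N.M := by simpa [MM, Subgroup.mem_iInf] using hf
  filter_upwards [Filter.eventually_ge_atTop l] with m hm h using hl (anti hR hm h)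

theorem fin1 {g : F} (hg : g ^ p ∈ MM a) (hg' : g ∉ MM a) :
    {h : F ⧸ MM a | Commute h (g : F ⧸ MM a)}.Finite := by
  classical
  obtain ⟨l, hl⟩ := (ev hR hg').exists
  by_contra hinf
  obtain ⟨s, hs, hc⟩ := Set.Infinite.exists_subset_card_eq hinf
    (max p (Finset.univ.sup (a l).σ.c) + 1)
  have h1 : ∀ᶠ m in Filter.atTop, ∀ b ∈ s, ∀ b' ∈ s, b ≠ b' → b.out⁻¹ * b'.out ∉ (a m).N.M := by
    refine (Filter.eventually_all_finset s).2 fun b _ => (Filter.eventually_all_finset s).2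
      fun b' _ => ?_
    by_cases hb : b = b'
    · simp [hb]
    · refine (ev hR fun h => hb ?_).mono fun m hm _ => hm
      simpa using QuotientGroup.eq.2 h
  obtain ⟨m, hm1, hm2⟩ := (h1.and (Filter.eventually_ge_atTop l)).exists
  obtain ⟨E, v, e1, e2⟩ := box hR hg hm2 hl
  have h2 : Function.Injective fun b : s =>
      (QuotientGroup.mk ⟨v * b.1.out * v⁻¹, e2 _ (by simpa using hs b.2)⟩ :
        E ⧸ (a m).N.M.subgroupOf E) := by
    intro b b' hb
    by_contra hne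
    refine hm1 _ b.2 _ b'.2 (fun h => hne (Subtype.ext h)) ?_
    have h3 := (a m).N.normal.conj_mem _ (Subgroup.mem_subgroupOf.1 (QuotientGroup.eq.1 hb)) v⁻¹
    simpa [mul_assoc] using h3
  have h4 := Nat.card_le_card_of_injective _ h2
  have h5 : Nat.card (E ⧸ (a m).N.M.subgroupOf E) = (a m).N.M.relIndex E := rfl
  rw [h5, Nat.card_eq_fintype_card, Fintype.card_coe] at h4
  omega

theorem fin2 (hw : Function.Surjective w) (g : F ⧸ MM a) (hg : g ≠ 1) :
    {h : F ⧸ MM a | h * g = g * h}.Finite := by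
  classical
  induction g using QuotientGroup.induction_on with
  | H g =>
    obtain ⟨l, rfl⟩ := hw g
    have h1 := tors hR l
    have h2 : Nat.find h1 ≠ 0 := fun h => hg (by
      have := Nat.find_spec h1
      rw [h, pow_zero, pow_one] at this
      exact (QuotientGroup.eq_one_iff _).2 this)
    obtain ⟨k, hk⟩ := Nat.exists_eq_succ_of_ne_zero h2
    refine (fin1 hR (g := w l ^ p ^ k) ?_ (Nat.find_min h1 (by omega))).subset fun h hh => ?_
    · rw [← pow_mul, ← pow_succ, ← Nat.succ_eq_add_one, ← hk]; exact Nat.find_spec h1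
    · rw [Set.mem_ofPred_eq, QuotientGroup.mk_pow]
      exact Commute.pow_right hh _

theorem infinite (hw : Function.Surjective w) (h0 : (a 0).N = N0 p) : Infinite (F ⧸ MM a) := by
  rw [← not_finite_iff_infinite]
  intro hfin
  have hp : IsPGroup p (F ⧸ MM a) := fun g => by
    induction g using QuotientGroup.induction_on with
    | H g =>
      obtain ⟨l, rfl⟩ := hw g
      obtain ⟨k, hk⟩ := tors hR l
      exact ⟨k, by rw [← QuotientGroup.mk_pow, QuotientGroup.eq_one_iff]; exact hk⟩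
  have : Nontrivial (F ⧸ MM a) := ⟨⟨(x : F), 1, fun h => x_not (p := p) (by
    rw [← h0]; exact MM_le 0 ((QuotientGroup.eq_one_iff _).1 h))⟩⟩
  have := hp.center_nontrivial
  obtain ⟨⟨z, hz⟩, hz1⟩ := exists_ne (1 : Subgroup.center (F ⧸ MM a))
  induction z using QuotientGroup.induction_on with
  | H z =>
    have hc : ∀ f : F, Commute (f : F ⧸ MM a) (z : F ⧸ MM a) := fun f =>
      Subgroup.mem_center_iff.1 hz _
    obtain ⟨m, hm1, hm2⟩ := ((ev hR (f := z) fun h => hz1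
      (Subtype.ext ((QuotientGroup.eq_one_iff _).2 h))).and (Filter.eventually_ge_atTop 1)).exists
    obtain ⟨Na, h1, h2, -, h4, -⟩ := hR m
    have h5 := h4 z (comm_le ((MM_le _).trans h2) (hc x)).symm
    have h6 := comm_conj (w := 1) (by simpa using h5) (a m).N.xp hm1 (comm_le (MM_le m) (hc y))
    obtain ⟨Nb, -, b2, -, b4, -⟩ := hR 0
    refine y_not (p := p) ?_
    rw [← h0]
    exact b4 y (commute_mono ((anti hR hm2).trans b2) (by simpa using h6))

end Seq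

end Final

open Final in
theorem final (p : ℕ) [Fact p.Prime] : SpecFinal p := by
  intro h1 h2
  obtain ⟨w, hw⟩ := exists_surjective_nat F
  choose nx hnx using exists_R h1 h2
  let a : ℕ → Lv p := fun l => Nat.rec (a0 p) (fun l b => nx (w l) b) l
  have hR : ∀ l, R (w l) (a l) (a (l + 1)) := fun l => hnx _ _
  refine ⟨MM a, inferInstance, infinite hR hw rfl, fun f => ?_, fun f hf => ?_, fin2 hR hw⟩
  · obtain ⟨l, rfl⟩ := hw f
    exact tors hR l
  · obtain ⟨l, hl⟩ := (ev hR hf).exists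
    exact ⟨_, MM_le l, hl⟩

end H94G
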