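import Pool.Agent.MP_c98bf6_al.H94.Lin

/-! Properties inherited by regular covers: a finite `p`-group acting on a non-zero group of
exponent `p` has a non-zero fixed vector. -/

set_option autoImplicit false

open Module

noncomputable section

namespace H94G

variable (p : ℕ) [Fact p.Prime]

namespace Inh

theorem fixed {Q ι B : Type} [Group Q] [Finite Q] (hQ : IsPGroup p Q) (P : Subgroup Q)
    [AddCommGroup B] (hB : ∀ b : B, p • b = 0) (Y : AddSubgroup (ι → Q → B))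
    (hY : ∀ g ∈ P, ∀ y ∈ Y, (fun i q => y i (q * g)) ∈ Y) {y0 : ι → Q → B} (h0 : y0 ∈ Y)
    (hne : y0 ≠ 0) : ∃ y ∈ Y, y ≠ 0 ∧ ∀ g ∈ P, ∀ i q, y i (q * g) = y i q := by
  let T : Q → (ι → Q → B) →+ (ι → Q → B) := fun g =>
    { toFun := fun y i q => y i (q * g)
      map_zero' := rfl
      map_add' := fun _ _ => rfl }
  have hT : ∀ g h y, T (g * h) y = T g (T h y) := fun g h y => by
    funext i q
    exact congrArg (y i) (mul_assoc q g h).symm
  have hT1 : ∀ y, T 1 y = y := fun y => by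
    funext i q
    exact congrArg (y i) (mul_one q)
  let Z := AddSubgroup.closure (Set.range fun g : P => T g y0)
  have hZY : Z ≤ Y := (AddSubgroup.closure_le _).2 (by
    rintro _ ⟨g, rfl⟩
    exact hY g g.2 y0 h0)
  have hZ : ∀ g : P, Z ≤ Z.comap (T g) := fun g => (AddSubgroup.closure_le _).2 (by
    rintro _ ⟨h, rfl⟩
    exact AddSubgroup.subset_closure ⟨g * h, hT g h y0⟩)
  have hp : ∀ z : Z, p • z = 0 := fun z => by
    ext i q
    exact hB _
  have : AddGroup.FG Z := (AddGroup.fg_iff_addSubgroup_fg Z).2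
    ((AddSubgroup.fg_iff _).2 ⟨_, rfl, Set.finite_range _⟩)
  have : Finite Z := AddCommGroup.finite_of_fg_isAddTorsion Z fun z =>
    isOfFinAddOrder_iff_nsmul_eq_zero.2 ⟨p, (Fact.out : p.Prime).pos, hp z⟩
  let _ : MulAction P Z :=
    { smul := fun g z => ⟨T g z, hZ g z.2⟩
      one_smul := fun z => Subtype.ext (hT1 z)
      mul_smul := fun g h z => Subtype.ext (hT g h z) }
  have hy : y0 ∈ Z := AddSubgroup.subset_closure ⟨1, hT1 y0⟩
  have hd : p ∣ Nat.card Z := by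
    rw [← addOrderOf_eq_prime (hp ⟨y0, hy⟩) fun h => hne (congrArg Subtype.val h)]
    exact addOrderOf_dvd_natCard _
  obtain ⟨z, hz, hz0⟩ := (hQ.to_subgroup P).exists_fixed_point_of_prime_dvd_card_of_fixed_point
    Z hd (a := 0) fun g => Subtype.ext (map_zero (T g))
  exact ⟨z, hZY z.2, fun h => hz0 (Subtype.ext h.symm), fun g hg i q =>
    congrFun (congrFun (congrArg Subtype.val (hz ⟨g, hg⟩)) i) q⟩

theorem fixedN {ι B : Type} (N : ON p) (H : Subgroup F) [AddCommGroup B] [Module (ZMod p) B]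
    (Y : AddSubgroup (ι → N.Q → B)) (hY : ∀ f ∈ H, ∀ y ∈ Y, (fun i => y i ∘ N.rm f) ∈ Y)
    {y0 : ι → N.Q → B} (h0 : y0 ∈ Y) (hne : y0 ≠ 0) :
    ∃ y ∈ Y, y ≠ 0 ∧ ∀ f ∈ H, ∀ i, y i ∘ N.rm f = y i := by
  obtain ⟨y, h1, h2, h3⟩ := fixed p N.isPGroup (H.map (QuotientGroup.mk' N.M))
    (fun b => by rw [← Nat.cast_smul_eq_nsmul (ZMod p), ZMod.natCast_self, zero_smul]) Y
    (by rintro _ ⟨f, hf, rfl⟩; exact hY f hf) h0 hne
  exact ⟨y, h1, h2, fun f hf i => funext fun q => h3 _ ⟨f, hf, rfl⟩ i q⟩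

section Supp
variable {ι V V' : Type} [Fintype ι] [MulAction F V] [MulAction F V'] {A K : Type} [CommRing A]
  [CommRing K] [Algebra K A] {π : V' → V}

theorem ex_ind (K : Type) [CommRing K] (h : Eqv π) : ∃ e : V → K, (∀ (f : F) v, e (f • v) = e v) ∧
    (∀ u ∉ Set.range π, e u = 0) ∧ ∀ w : V → K, (∀ u ∉ Set.range π, w u = 0) → e * w = w := by
  classical
  have h1 : ∀ (f : F) v, v ∈ Set.range π → f • v ∈ Set.range π := by
    rintro f _ ⟨q, rfl⟩
    exact ⟨f • q, h f q⟩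
  refine ⟨fun u => if u ∈ Set.range π then 1 else 0, fun f v => ?_, fun u hu => if_neg hu,
    fun w hw => funext fun u => ?_⟩
  · exact if_congr ⟨fun h2 => inv_smul_smul f v ▸ h1 f⁻¹ _ h2, h1 f v⟩ rfl rfl
  · rw [Pi.mul_apply]
    split_ifs with hu
    · exact one_mul _
    · rw [zero_mul, hw u hu]

theorem bd_supp (h : Eqv π) (ω : V → Aˣ) (r : ι → F) {b : ι → V → A}
    (hb : ∀ i, ∀ u ∉ Set.range π, b i u = 0) : ∀ u ∉ Set.range π, bd ω r b u = 0 := by
  obtain ⟨e, h1, h2, h3⟩ := ex_ind A h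
  intro u hu
  rw [bd_apply, Finset.sum_apply]
  refine Finset.sum_eq_zero fun i _ => ?_
  rw [← h3 _ (hb i), ← D_mulfun ω e h1, Pi.mul_apply, h2 u hu, zero_mul]

theorem capc_supp (h : Eqv π) (ω : V → Aˣ) (r : ι → F) {c : ι → V → K}
    (hc : ∀ i, ∀ u ∉ Set.range π, c i u = 0) (α : V → A) :
    ∀ u ∉ Set.range π, capc ω r c α u = 0 := by
  obtain ⟨e, h1, h2, h3⟩ := ex_ind K h
  intro u hu
  rw [capc, Finset.sum_apply]
  refine Finset.sum_eq_zero fun i _ => ?_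
  rw [← h3 _ (hc i), ← kap_mulfun ω e h1, dg_apply, h2 u hu, zero_smul]

omit [MulAction F V] [MulAction F V'] in
theorem ext_supp {w w' : V → A} (hw : ∀ u ∉ Set.range π, w u = 0)
    (hw' : ∀ u ∉ Set.range π, w' u = 0) (h : w ∘ π = w' ∘ π) : w = w' := by
  funext u
  by_cases hu : u ∈ Set.range π
  · obtain ⟨q, rfl⟩ := hu
    exact congrFun h q
  · rw [hw u hu, hw' u hu]

variable {σ : V' → V'} (hσ : Eqv σ) (hπ : π ∘ σ = π) {S : ι → V → Prop}

omit [Fintype ι] [MulAction F V] [MulAction F V'] in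
include hπ in
theorem pb_inv : pb (pb S π) σ = pb S π := congrArg (pb S) hπ

omit [MulAction F V] [MulAction F V'] in
include hπ in
theorem om_inv (ω : V → Aˣ) : (ω ∘ π) ∘ σ = ω ∘ π := congrArg (ω ∘ ·) hπ

omit [Fintype ι] [MulAction F V] [MulAction F V'] in
include hπ in
theorem C2_inv {b : ι → V' → A} (hb : b ∈ C2 A (pb S π)) :
    (fun i => b i ∘ σ) ∈ C2 A (pb S π) := by
  have h := pull_mem_C2 σ hb
  rwa [pb_inv hπ] at h

omit [MulAction F V] in
include hσ hπ in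
theorem bd_inv (ω : V → Aˣ) (r : ι → F) (b : ι → V' → A) :
    (bd (ω ∘ π) r fun i => b i ∘ σ) = bd (ω ∘ π) r b ∘ σ := by
  rw [bd_pull hσ, om_inv hπ]

end Supp

section Orb
variable {p} {ι V : Type} [MulAction F V] {N : ON p} (hN : N.Triv V) (v : V)

omit [Fact p.Prime]
include hN

theorem orb_rm {f : F} (hf : f ∈ MulAction.stabilizer F v) : N.orb v ∘ N.rm f = N.orb v := by
  funext q
  induction q using QuotientGroup.induction_on with
  | H g => rw [Function.comp_apply, ON.rm_mk, ON.orb_mk hN, ON.orb_mk hN, mul_smul, hf]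

theorem desc {A : Type} [CommRing A] {S : ι → V → Prop} {b : ι → N.Q → A}
    (hb : b ∈ C2 A (pb S (N.orb v)))
    (h : ∀ f ∈ MulAction.stabilizer F v, ∀ i, b i ∘ N.rm f = b i) :
    ∃ b₀ ∈ C2 A S, (∀ i, ∀ u ∉ Set.range (N.orb v), b₀ i u = 0) ∧
      (fun i => b₀ i ∘ N.orb v) = b := by
  have h1 : ∀ i, (b i).FactorsThrough (N.orb v) := fun i q q' e => by
    induction q using QuotientGroup.induction_on with
    | H g =>
    induction q' using QuotientGroup.induction_on with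
    | H g' =>
    rw [ON.orb_mk hN, ON.orb_mk hN] at e
    have h2 := congrFun (h (g⁻¹ * g') (by
      rw [MulAction.mem_stabilizer_iff, mul_smul, ← e, inv_smul_smul]) i) g
    rw [Function.comp_apply, ON.rm_mk, mul_inv_cancel_left] at h2
    exact h2.symm
  have h2 : ∀ i, ∀ u ∉ Set.range (N.orb v), Function.extend (N.orb v) (b i) 0 u = 0 :=
    fun i u hu => Function.extend_apply' _ _ _ hu
  refine ⟨fun i => Function.extend (N.orb v) (b i) 0, fun i u hs => ?_, h2,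
    funext fun i => (h1 i).extend_comp _⟩
  by_cases hu : u ∈ Set.range (N.orb v)
  · obtain ⟨q, rfl⟩ := hu
    exact ((h1 i).extend_apply _ q).trans (hb i q hs)
  · exact h2 i u hu

end Orb

end Inh

open Inh

theorem inhInj : SpecInhInj p := by
  intro ι V _ _ _ r S β N v hN hI b hb e
  by_contra hne
  obtain ⟨c, ⟨h1, h2⟩, h3, h4⟩ := fixedN p N (MulAction.stabilizer F v)
    (C2 (LL p) (pb S (N.orb v)) ⊓ LinearMap.ker (bd (wL p β ∘ N.orb v) r)).toAddSubgroup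
    (fun f hf y hy => ⟨C2_inv (orb_rm hN v hf) hy.1, by
      have h : bd (wL p β ∘ N.orb v) r y = 0 := hy.2
      change bd _ r _ = 0
      rw [bd_inv (N.eqv_rm f) (orb_rm hN v hf), h]
      rfl⟩) (y0 := b) ⟨hb, e⟩ hne
  obtain ⟨b₀, h5, h6, rfl⟩ := desc hN v h1 h4
  have h7 : bd (wL p β) r b₀ = 0 := ext_supp (bd_supp (ON.eqv_orb hN v) _ r h6) (fun _ _ => rfl)
    ((bd_pull (ON.eqv_orb hN v) _ r b₀).trans h2)
  rw [hI b₀ h5 h7] at h3
  exact h3 rfl

theorem inhCup : SpecInhCup p := by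
  intro ι V _ _ _ r S β N v hN hI hC c hc hne
  by_contra hno
  have hπ := ON.eqv_orb hN v
  let Y : AddSubgroup (ι → N.Q → ZMod p) := (H2 (ZMod p) r (pb S (N.orb v)) ⊓
    ⨅ α ∈ Z1 (wL p β ∘ N.orb v) r (pb S (N.orb v)),
      ((Bred (wL p β ∘ N.orb v) r (pb S (N.orb v))).restrictScalars (ZMod p)).comap
        (capC (ZMod p) (wL p β ∘ N.orb v) r α)).toAddSubgroup
  have hY : ∀ y, y ∈ Y ↔ y ∈ H2 (ZMod p) r (pb S (N.orb v)) ∧
      ∀ α ∈ Z1 (wL p β ∘ N.orb v) r (pb S (N.orb v)),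
        capc (wL p β ∘ N.orb v) r y α ∈ Bred (wL p β ∘ N.orb v) r (pb S (N.orb v)) := fun y => by
    simp only [Y, Submodule.mem_toAddSubgroup, Submodule.mem_inf, Submodule.mem_iInf,
      Submodule.mem_comap, Submodule.restrictScalars_mem, capC_apply]
  obtain ⟨c', h0, h3, h4⟩ := fixedN p N (MulAction.stabilizer F v) Y (fun f hf y hy => by
    obtain ⟨⟨h1, h2⟩, h3⟩ := (hY y).1 hy
    have hf' := orb_rm hN v hf
    refine (hY _).2 ⟨⟨C2_inv hf' h1, ?_⟩, fun α hα => ?_⟩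
    · have h : bd 1 r y = 0 := h2
      exact (bd_pull (N.eqv_rm f) 1 r y).symm.trans (by rw [h]; rfl)
    · have h4 := pull_mem_Z1 (N.eqv_rm f⁻¹) hα
      rw [om_inv (orb_rm hN v (inv_mem hf)), pb_inv (orb_rm hN v (inv_mem hf))] at h4
      have h5 := pull_mem_Bred (N.eqv_rm f) (h3 _ h4)
      have h6 : (α ∘ N.rm f⁻¹) ∘ N.rm f = α := funext fun q => congrArg α (by
        simp only [ON.rm, QuotientGroup.mk_inv, mul_inv_cancel_right])
      rwa [capc_pull (N.eqv_rm f), om_inv hf', pb_inv hf', h6] at h5) (y0 := c)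
    ((hY c).2 ⟨hc, fun α hα => by_contra fun h => hno ⟨α, hα, h⟩⟩) hne
  obtain ⟨⟨h1, h2⟩, h5⟩ := (hY c').1 h0
  obtain ⟨c₀, h6, h7, rfl⟩ := desc hN v h1 h4
  have h8 : bd 1 r c₀ = 0 := ext_supp (bd_supp hπ _ r h7) (fun _ _ => rfl)
    ((bd_pull hπ 1 r c₀).trans h2)
  obtain ⟨α₀, h9, h10⟩ := hC c₀ ⟨h6, h8⟩ fun h => h3 (by rw [h]; rfl)
  obtain ⟨b, hb, e⟩ := h5 _ (pull_mem_Z1 hπ h9)
  rw [← capc_pull hπ] at e
  obtain ⟨b₀, h11, h12, rfl⟩ := desc hN v hb fun f hf i => by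
    have hf' := orb_rm hN v hf
    have h := inhInj p ι V r S β N v hN hI ((fun i => b i ∘ N.rm f) - b)
      (sub_mem (C2_inv hf' hb) hb) (by
        rw [map_sub, wL_comp, bd_inv (N.eqv_rm f) hf', e, Function.comp_assoc, hf', sub_self])
    exact congrFun (sub_eq_zero.1 h) i
  exact h10 ⟨b₀, h11, ext_supp (bd_supp hπ _ r h12) (capc_supp hπ _ r h7 α₀)
    ((bd_pull hπ _ r b₀).trans e)⟩

theorem fixv : SpecFix p := by
  intro ι _ r z N ⟨_, γ, hγ, hd⟩
  let φ : (N.Q → ℤ) →+ (Unit → N.Q → ZMod p) := AddMonoidHom.mk'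
    (fun γ _ q => ((intg γ q z : ℤ) : ZMod p)) fun a b => by
      funext _ q
      simp only [intg, pr_add, Int.cast_add, Pi.add_apply]
  obtain ⟨_, ⟨β, hβ, rfl⟩, h2, h3⟩ := fixedN p N ⊤
    ((Zc r (full ι N.Q)).toAddSubgroup.map φ) (by
      rintro f - _ ⟨γ, hγ, rfl⟩
      exact ⟨γ ∘ N.rm f, pull_mem_Z1 (N.eqv_rm f) hγ, funext fun _ => funext fun q =>
        congrArg Int.cast (intg_pull (N.eqv_rm f) γ q z)⟩) (y0 := φ γ) ⟨γ, hγ, rfl⟩
    fun h => hd ((ZMod.intCast_zmod_eq_zero_iff_dvd _ _).1 (congrFun (congrFun h ()) 1))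
  refine ⟨β, hβ, fun q hq => h2 (funext fun i => funext fun q' => ?_)⟩
  obtain ⟨f, hf⟩ := QuotientGroup.mk_surjective (q'⁻¹ * q)
  have h4 := congrFun (h3 f trivial i) q'
  rw [Function.comp_apply, ON.rm, hf, mul_inv_cancel_left] at h4
  exact h4.symm.trans ((ZMod.intCast_zmod_eq_zero_iff_dvd _ _).2 hq)

end H94G
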