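import Pool.Agent.MP_c98bf6_al.H94.Lin

/-! Row JUMP: carry cocycles, the homology cover and the jump cocycle. -/

set_option autoImplicit false

open Module

noncomputable section

namespace H94G

namespace Jump

/-- The integral of a coboundary. -/
theorem intg_cob {V W A : Type} [Fintype V] [MulAction F V] [MulAction F W] [CommRing A]
    {π : W → V} (hπ : Eqv π) (α : V → A) (φ : W → A) (hx : ∀ w, φ (x • w) = φ w)
    (hy : ∀ w, α (π w) = φ (y • w) - φ w) (f : F) (w : W) :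
    intg α (π w) f = φ (f • w) - φ w := by
  induction f using F_ind generalizing w with
  | h1 => simp
  | hx => simp [hx]
  | hy => simp [hy]
  | hinv f h => rw [intg_inv, ← hπ, h, smul_inv_smul]; ring
  | hmul f g hf hg => rw [intg_mul, ← hπ, hf, hg, mul_smul]; ring

/-- A potential for a relation with costs. -/
theorem exists_pot {X K : Type} [AddCommGroup K] (R : X → X → K → Prop) (h0 : ∀ a, R a a 0)
    (hs : ∀ a b c, R a b c → R b a (-c))
    (ht : ∀ a b d c c', R a b c → R b d c' → R a d (c + c'))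
    (hl : ∀ a c, R a a c → c = 0) : ∃ Φ : X → K, ∀ a b c, R a b c → Φ b = Φ a + c := by
  let s : Setoid X := ⟨fun a b => ∃ c, R a b c, fun a => ⟨0, h0 a⟩,
    fun ⟨c, h⟩ => ⟨-c, hs _ _ _ h⟩, fun ⟨c, h⟩ ⟨c', h'⟩ => ⟨c + c', ht _ _ _ _ _ h h'⟩⟩
  have hex : ∀ a, ∃ c, R (Quotient.mk s a).out a c := fun a => Quotient.mk_out (s := s) a
  choose Φ hΦ using hex
  refine ⟨Φ, fun a b c h => ?_⟩
  have e : Quotient.mk s a = Quotient.mk s b := Quotient.sound ⟨c, h⟩
  have h1 := ht _ _ _ _ _ (hΦ a) h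
  have h2 := hΦ b
  rw [← e] at h2
  have h3 := hl _ _ (ht _ _ _ _ _ h1 (hs _ _ _ h2))
  rw [← sub_eq_add_neg, sub_eq_zero] at h3
  exact h3.symm

/-- A non-trivial finite `p`-group maps non-trivially to `ZMod p`. -/
theorem exists_chi {p : ℕ} [Fact p.Prime] {P : Type} [Group P] [Finite P] [Nontrivial P]
    (hP : IsPGroup p P) : ∃ χ : P →* Multiplicative (ZMod p), ∃ a, χ a ≠ 1 := by
  have hp : p.Prime := Fact.out
  obtain ⟨n, hn0, hn⟩ := hP.nontrivial_iff_card.1 inferInstance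
  obtain ⟨n, rfl⟩ : ∃ m, n = m + 1 := ⟨n - 1, by omega⟩
  obtain ⟨H, hH⟩ := Sylow.exists_subgroup_card_pow_prime (G := P) p (n := n)
    (by rw [hn]; exact pow_dvd_pow p n.le_succ)
  have hi : H.index = p := by
    have h1 := H.card_mul_index
    rw [hH, hn, pow_succ] at h1
    exact Nat.eq_of_mul_eq_mul_left (pow_pos hp.pos n) h1
  have : H.Normal := Subgroup.normal_of_index_eq_minFac_card (by
    rw [hi, hn, hp.pow_minFac (by omega)])
  let e : (P ⧸ H) ≃* Multiplicative (ZMod p) :=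
    mulEquivOfPrimeCardEq (p := p) hi (by simp)
  refine ⟨e.toMonoidHom.comp (QuotientGroup.mk' H), ?_⟩
  have hne : H ≠ ⊤ := fun h => by
    rw [h, Subgroup.index_top] at hi
    exact hp.one_lt.ne hi
  obtain ⟨a, ha⟩ : ∃ a, a ∉ H := by
    by_contra h
    push Not at h
    exact hne (eq_top_iff.2 fun a _ => h a)
  refine ⟨a, fun h => ha ?_⟩
  have h' : e (a : P ⧸ H) = 1 := h
  rw [map_eq_one_iff _ e.injective, QuotientGroup.eq_one_iff] at h'
  exact h'

/-- An additive function on the normal closure of `z` that does not vanish at `z`. -/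
theorem exists_psi {p : ℕ} [Fact p.Prime] {Q : Type} [Group Q] [Finite Q] (hQ : IsPGroup p Q)
    {z : Q} (hz : z ≠ 1) : ∃ ψ : Q → ZMod p,
      (∀ a ∈ Subgroup.normalClosure {z}, ∀ b ∈ Subgroup.normalClosure {z},
        ψ (a * b) = ψ a + ψ b) ∧ ψ z ≠ 0 := by
  classical
  set P := Subgroup.normalClosure ({z} : Set Q) with hPdef
  have hzP : z ∈ P := Subgroup.subset_normalClosure rfl
  have hN : P.Normal := Subgroup.normalClosure_normal
  have : Nontrivial P := ⟨⟨⟨z, hzP⟩, 1, fun h => hz (congrArg Subtype.val h)⟩⟩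
  obtain ⟨χ, a, ha⟩ := exists_chi (hQ.to_subgroup P)
  have hg : ∃ g : Q, χ ⟨g * z * g⁻¹, hN.conj_mem z hzP g⟩ ≠ 1 := by
    by_contra h
    push Not at h
    have hle : P ≤ χ.ker.map P.subtype := by
      refine (Subgroup.closure_le _).2 fun b hb => ?_
      obtain ⟨c, hc, hcb⟩ := Group.mem_conjugatesOfSet_iff.1 hb
      obtain rfl : c = z := hc
      obtain ⟨g, rfl⟩ := isConj_iff.1 hcb
      exact ⟨_, h g, rfl⟩
    obtain ⟨b, hb, hba⟩ := hle a.2
    exact ha (by rw [← Subtype.ext hba]; exact hb)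
  obtain ⟨g, hg⟩ := hg
  refine ⟨fun a => if h : a ∈ P then (χ ⟨g * a * g⁻¹, hN.conj_mem a h g⟩).toAdd else 0,
    fun a ha b hb => ?_, ?_⟩
  · simp only [dif_pos ha, dif_pos hb, dif_pos (P.mul_mem ha hb)]
    rw [← toAdd_mul, ← map_mul]
    congr 2
    ext
    simp only [Subgroup.coe_mul]
    group
  · simp only [dif_pos hzP]
    exact fun h => hg (toAdd_eq_zero.1 h)

theorem x_zpow_mem {p : ℕ} [Fact p.Prime] {N : ON p} (hx : x ∉ N.M) (N' : ON p) {k : ℤ}
    (h : x ^ k ∈ N.M) : x ^ k ∈ N'.M := by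
  have h1 : orderOf (x : N.Q) = p := orderOf_eq_prime
    (by rw [← QuotientGroup.mk_pow, QuotientGroup.eq_one_iff]; exact N.xp)
    (by rw [Ne, QuotientGroup.eq_one_iff]; exact hx)
  have h2 : (x : N.Q) ^ k = 1 := by
    rw [← QuotientGroup.mk_zpow, QuotientGroup.eq_one_iff]; exact h
  rw [← orderOf_dvd_iff_zpow_eq_one, h1] at h2
  obtain ⟨j, rfl⟩ := h2
  rw [zpow_mul, zpow_natCast]
  exact zpow_mem N'.xp j

section Hom
variable {p : ℕ} {ι : Type} [Fintype ι] {r : ι → F} {N : ON p}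

omit [Fintype ι] in
theorem rm_mem {γ : N.Q → ℤ} (h : γ ∈ Zc r (full ι N.Q)) (g : F) :
    γ ∘ N.rm g ∈ Zc r (full ι N.Q) := pull_mem_Z1 (N.eqv_rm g) h

theorem intg_rm (γ : N.Q → ℤ) (g f : F) : intg (γ ∘ N.rm g) 1 f = intg γ (g : N.Q) f := by
  rw [intg_pull (N.eqv_rm g), ON.rm, one_mul]

/-- The subgroup of the homology cover. -/
def hM (r : ι → F) (N : ON p) (n : ℤ) : Subgroup F where
  carrier := {f | f ∈ N.M ∧ ∀ γ ∈ Zc r (full ι N.Q), n ∣ intg γ 1 f}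
  one_mem' := ⟨one_mem _, fun γ _ => by simp⟩
  mul_mem' := by
    rintro f g ⟨hf, hf'⟩ ⟨hg, hg'⟩
    refine ⟨mul_mem hf hg, fun γ h => ?_⟩
    rw [intg_mul, (N.smul_eq_iff g 1).2 hg]
    exact dvd_add (hg' γ h) (hf' γ h)
  inv_mem' := by
    rintro f ⟨hf, hf'⟩
    refine ⟨inv_mem hf, fun γ h => ?_⟩
    rw [intg_inv, (N.smul_eq_iff f⁻¹ 1).2 (inv_mem hf)]
    exact (hf' γ h).neg_right

omit [Fintype ι] in
theorem hM_normal (n : ℤ) : (hM r N n).Normal := ⟨by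
  rintro f ⟨hf, hf'⟩ g
  refine ⟨N.normal.conj_mem f hf g, fun γ h => ?_⟩
  have h1 := intg_conj γ (1 : N.Q) f g⁻¹ ((N.smul_eq_iff f _).2 hf)
  rw [inv_inv] at h1
  rw [h1, ON.smul_def, mul_one, ← intg_rm]
  exact hf' _ (rm_mem h _)⟩

/-- Reduction of integral chains. -/
def redθ (V : Type) (n : ℕ) : (V → ℤ) →+ (V → ZMod n) := (Int.castAddHom (ZMod n)).compLeft V

end Hom

end Jump

open Jump

theorem carry : SpecCarry := by
  intro V _ _ β n _
  have hd : ∀ a : Cyc β n, (n : ℤ) ∣ (a.snd.val : ℤ) + β a.fst - ((y • a).snd.val : ℤ) := by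
    intro a
    rw [← ZMod.intCast_zmod_eq_zero_iff_dvd, Cyc.smul_snd]
    simp
  choose γ hγ using hd
  refine ⟨γ, fun a f hf => ?_⟩
  have h := intg_cob (π := id) (fun _ _ => rfl) ((n : ℤ) • γ + -(β ∘ Cov.fst))
    (fun a : Cyc β n => -(a.snd.val : ℤ)) (fun a => by rw [Cyc.smul_snd]; simp)
    (fun a => by
      have := hγ a
      simp only [id, Pi.add_apply, Pi.smul_apply, Pi.neg_apply, Function.comp, smul_eq_mul]
      linarith) f a
  rw [hf, sub_self, intg, pr_add, pr_smul, pr_neg] at h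
  have h2 := intg_pull Cov.eqv_fst β a f
  simp only [intg, id] at h h2 ⊢
  linarith

variable (p : ℕ) [Fact p.Prime]

theorem homc : SpecHom p := by
  classical
  intro ι _ r N e hN
  have hp : p.Prime := Fact.out
  have : NeZero (p ^ e) := ⟨pow_ne_zero e hp.ne_zero⟩
  have : IsP p (Cov (redθ N.Q (p ^ e))) := Cov.isP _ e fun g => by
    funext v
    rw [Pi.smul_apply, nsmul_eq_mul, ZMod.natCast_self, zero_mul, Pi.zero_apply]
  have hle : (ON.ker p (Cov (redθ N.Q (p ^ e)))).M ≤ hM r N ((p : ℤ) ^ e) := by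
    intro f hf
    have h1 := (Cov.smul_eq_iff f _).1 (ON.mem_ker.1 hf ⟨1, 0⟩)
    refine ⟨(N.smul_eq_iff f 1).1 h1.1, fun γ _ => ?_⟩
    rw [intg_def, dotProduct]
    refine Finset.dvd_sum fun v _ => Dvd.dvd.mul_left ?_ _
    have h2 : (((un ℤ N.Q).D f (dl ℤ 1) v : ℤ) : ZMod (p ^ e)) = 0 := congrFun h1.2 v
    rw [ZMod.intCast_zmod_eq_zero_iff_dvd] at h2
    exact_mod_cast h2
  let N' : ON p := ON.ofLE _ _ (hM_normal _) hle
  have hrel : N'.Rel r := fun i => ⟨hN i, fun γ h => by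
    rw [show intg γ 1 (r i) = 0 from h i 1 trivial]; exact dvd_zero _⟩
  have htriv : ∀ γ ∈ Zc r (full ι N.Q), N'.Triv (Cyc γ (p ^ e)) := by
    intro γ h f hf a
    rw [Cyc.smul_eq_iff]
    refine ⟨(N.smul_eq_iff f _).2 hf.1, ?_⟩
    obtain ⟨g, hg⟩ := QuotientGroup.mk_surjective a.fst
    rw [← hg, ← intg_rm]
    exact_mod_cast hf.2 _ (rm_mem h g)
  refine ⟨N', hrel, fun f => Iff.rfl, htriv, ?_⟩
  rintro z hz ⟨γ, hγ, hnd⟩
  obtain ⟨γ', hγ'⟩ := carry N.Q γ (p ^ e)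
  have hT := htriv γ hγ
  refine ⟨hz, γ' ∘ N'.orb (⟨1, 0⟩ : Cyc γ (p ^ e)), fun i q _ => ?_, fun hd => hnd ?_⟩
  · have h1 := intg_pull (ON.eqv_orb hT ⟨1, 0⟩) γ' q (r i)
    have h2 := hγ' _ (r i) (hT _ (hrel i) (N'.orb ⟨1, 0⟩ q))
    rw [show intg γ _ (r i) = 0 from hγ i _ trivial, ← h1] at h2
    exact (mul_eq_zero.1 h2).resolve_left (by exact_mod_cast NeZero.ne (p ^ e))
  · rw [intg_pull (ON.eqv_orb hT ⟨1, 0⟩), ON.orb_one hT] at hd
    have h2 := hγ' ⟨1, 0⟩ z (hT _ hz _)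
    rw [← h2, pow_succ]
    push_cast
    exact mul_dvd_mul_left _ hd

theorem jump : SpecJump p := by
  intro ι _ r N u _ hx hu
  obtain ⟨a, ha⟩ := N.pexp u
  obtain ⟨N2, hrel, hle, hz⟩ := hu a
  set z := u ^ p ^ a
  obtain ⟨ψ, hadd, hψ⟩ := exists_psi N2.isPGroup (z := (z : N2.Q))
    (by rw [Ne, QuotientGroup.eq_one_iff]; exact hz)
  set P := Subgroup.normalClosure ({(z : N2.Q)} : Set N2.Q)
  have h1 : ψ 1 = 0 := by
    have := hadd 1 (one_mem _) 1 (one_mem _)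
    rw [one_mul] at this
    exact left_eq_add.1 this
  have hinv : ∀ b ∈ P, ψ b⁻¹ = -ψ b := fun b hb => by
    have := hadd b hb b⁻¹ (inv_mem hb)
    rw [mul_inv_cancel, h1] at this
    exact eq_neg_of_add_eq_zero_right this.symm
  have h21 : N2.M ≤ P.comap (QuotientGroup.mk' N2.M) := fun m hm => by
    have : (m : N2.Q) = 1 := (QuotientGroup.eq_one_iff m).2 hm
    change (m : N2.Q) ∈ P
    rw [this]; exact one_mem _
  let N1 : ON p := N2.ofLE (P.comap (QuotientGroup.mk' N2.M)) inferInstance h21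
  have hmem : ∀ m : F, m ∈ N1.M ↔ (m : N2.Q) ∈ P := fun _ => Iff.rfl
  have h1N : N1.M ≤ N.M := by
    have : (N.M.map (QuotientGroup.mk' N2.M)).Normal :=
      N.normal.map _ (QuotientGroup.mk'_surjective _)
    have hP : P ≤ N.M.map (QuotientGroup.mk' N2.M) :=
      Subgroup.normalClosure_le_normal (Set.singleton_subset_iff.2 ⟨z, ha, rfl⟩)
    intro m hm
    obtain ⟨m', hm', e⟩ := hP ((hmem m).1 hm)
    have h3 : m'⁻¹ * m ∈ N2.M := QuotientGroup.eq.1 e
    have h4 := mul_mem hm' (hle h3)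
    rwa [mul_inv_cancel_left] at h4
  have hzN : z ∈ N1.M := (hmem z).2 (Subgroup.subset_normalClosure rfl)
  obtain ⟨Φ, hΦ⟩ := exists_pot
    (fun (g g' : F) (c : ZMod p) => ∃ k : ℤ, ∃ m ∈ N1.M, g' = x ^ k * g * m ∧ c = ψ m)
    (fun g => ⟨0, 1, one_mem _, by simp, by simp [h1]⟩)
    (by
      rintro g _ _ ⟨k, m, hm, rfl, rfl⟩
      exact ⟨-k, m⁻¹, inv_mem hm, by group,
        by rw [QuotientGroup.mk_inv, hinv _ ((hmem m).1 hm)]⟩)
    (by
      rintro g _ _ _ _ ⟨k, m, hm, rfl, rfl⟩ ⟨k', m', hm', rfl, rfl⟩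
      exact ⟨k' + k, m * m', mul_mem hm hm', by group,
        by rw [QuotientGroup.mk_mul, hadd _ ((hmem m).1 hm) _ ((hmem m').1 hm')]⟩)
    (by
      rintro g _ ⟨k, m, hm, e, rfl⟩
      have e1 : x ^ (-k) = g * m * g⁻¹ := by
        calc x ^ (-k) = x ^ (-k) * g * g⁻¹ := by group
          _ = x ^ (-k) * (x ^ k * g * m) * g⁻¹ := by rw [← e]
          _ = g * m * g⁻¹ := by group
      have h3 : x ^ (-k) ∈ N2.M :=
        x_zpow_mem hx N2 (by rw [e1]; exact N.normal.conj_mem m (h1N hm) g)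
      have h4 := N2.normal.conj_mem' _ h3 g
      have e2 : g⁻¹ * x ^ (-k) * g = m := by rw [e1]; group
      rw [e2] at h4
      rw [(QuotientGroup.eq_one_iff m).2 h4, h1])
  have hΦx : ∀ g : F, Φ (x • g) = Φ g := fun g => by
    have := hΦ g (x * g) 0 ⟨1, 1, one_mem _, by simp, by simp [h1]⟩
    rwa [add_zero] at this
  have hΦm : ∀ g : F, ∀ m ∈ N1.M, Φ (g * m) = Φ g + ψ m := fun g m hm =>
    hΦ g (g * m) _ ⟨0, m, hm, by simp, rfl⟩
  have key : ∀ f g : F, intg (fun q : N1.Q => Φ (y * q.out) - Φ q.out) (g : N1.Q) f =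
      Φ (f * g) - Φ g := fun f g =>
    intg_cob (π := fun g : F => (g : N1.Q)) (fun _ _ => rfl) _ Φ hΦx (fun g => by
      obtain ⟨m, hm⟩ := QuotientGroup.mk_out_eq_mul N1.M g
      rw [hm, ← mul_assoc, hΦm _ _ m.2, hΦm _ _ m.2, smul_eq_mul]
      ring) f g
  refine ⟨N1, hrel.mono h21, h1N, a, hzN, fun q : N1.Q => Φ (y * q.out) - Φ q.out,
    fun i q _ => ?_, ?_⟩
  · obtain ⟨g, rfl⟩ := QuotientGroup.mk_surjective q
    have h3 := N2.normal.conj_mem' _ (hrel i) g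
    have e : r i * g = g * (g⁻¹ * r i * g) := by group
    have h4 := key (r i) g
    rw [e, hΦm _ _ (h21 h3), (QuotientGroup.eq_one_iff _).2 h3, h1, add_zero, sub_self] at h4
    exact h4
  · have h4 := key z 1
    rw [mul_one, ← one_mul z, hΦm _ _ hzN, add_sub_cancel_left, one_mul] at h4
    rw [← QuotientGroup.mk_one, h4]
    exact hψ

end H94G
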