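import Pool.Agent.MP_c98bf6_al.H94.Lin

/-! Row NC: torsion and elements of unbounded order, good cocycles, projection of cycles. -/

set_option autoImplicit false

open Module

noncomputable section

namespace H94G

variable (p : ℕ) [Fact p.Prime]

namespace NCA

variable {p}

omit [Fact p.Prime] in
theorem comm_mono {N N' : ON p} (h : N'.M ≤ N.M) {a b : F}
    (hc : Commute (a : N'.Q) (b : N'.Q)) : Commute (a : N.Q) (b : N.Q) :=
  hc.map (QuotientGroup.map N'.M N.M (MonoidHom.id F) h)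

omit [Fact p.Prime] in
theorem exists_zpow {N : ON p} {g e : F} (h : e ∈ Subgroup.zpowers g ⊔ N.M) :
    ∃ k : ℤ, (e : N.Q) = (g : N.Q) ^ k := by
  obtain ⟨_, ⟨k, rfl⟩, m, hm, rfl⟩ := Subgroup.mem_sup_of_normal_right.1 h
  exact ⟨k, by simp [(QuotientGroup.eq_one_iff m).2 hm]⟩

omit [Fact p.Prime] in
theorem pow_of_conj {N : ON p} {u w : F} {j k : ℕ} (hj : j ≤ k)
    (h : (w⁻¹ * u * w) ^ p ^ j ∈ N.M) : u ^ p ^ k ∈ N.M := by
  have h1 := N.normal.conj_mem _ h w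
  rw [← conj_pow] at h1
  have e : w * (w⁻¹ * u * w) * w⁻¹ = u := by simp [mul_assoc]
  obtain ⟨d, rfl⟩ := Nat.exists_eq_add_of_le hj
  rw [e] at h1
  rw [pow_add, pow_mul]
  exact pow_mem h1 _

theorem pow_bound {N : ON p} {E : Subgroup F} {c : ℕ} (hc : N.M.relIndex E ≤ c) {e : F}
    (he : e ∈ E) : e ^ p ^ c ∈ N.M := by
  have h1 : (e : N.Q) ^ N.M.relIndex E = 1 := by
    rw [← QuotientGroup.mk_pow, QuotientGroup.eq_one_iff]
    exact N.M.pow_relIndex_mem he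
  obtain ⟨j, hj⟩ := IsPGroup.iff_orderOf.1 N.isPGroup (e : N.Q)
  have h2 : N.M.relIndex E ≠ 0 := Subgroup.FiniteIndex.index_ne_zero
  have h3 := Nat.le_of_dvd (Nat.pos_of_ne_zero h2) (orderOf_dvd_of_pow_eq_one h1)
  have h4 : j < p ^ j := Nat.lt_pow_self (Fact.out : p.Prime).one_lt
  rw [← QuotientGroup.eq_one_iff, QuotientGroup.mk_pow, ← orderOf_dvd_iff_pow_eq_one, hj]
  exact pow_dvd_pow p (by omega)

omit [Fact p.Prime] in
theorem comm_conj {N : ON p} {g u w : F} (h : Commute ((w * g * w⁻¹ : F) : N.Q) (u : N.Q)) :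
    Commute ((w⁻¹ * u * w : F) : N.Q) (g : N.Q) := by
  have := h.symm.map (MulAut.conj ((w : N.Q))⁻¹)
  simpa [mul_assoc] using this

theorem last {N Nb : ON p} (hN : N.M ≤ Nb.M) {g u e w : F} (hg : g ^ p ∈ N.M)
    (hu : ∀ w : F, ¬ Commute ((w * g * w⁻¹ : F) : Nb.Q) (u : Nb.Q))
    (hc : Commute (e : N.Q) (u : N.Q)) (h : w * e * w⁻¹ ∈ Subgroup.zpowers g ⊔ N.M) :
    e ∈ N.M := by
  obtain ⟨k, hk⟩ := exists_zpow h
  have h1 : (g : N.Q) ^ (p : ℤ) = 1 := by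
    rw [zpow_natCast, ← QuotientGroup.mk_pow, QuotientGroup.eq_one_iff]
    exact hg
  by_cases hd : (p : ℤ) ∣ k
  · obtain ⟨d, rfl⟩ := hd
    rw [zpow_mul, h1, one_zpow, QuotientGroup.eq_one_iff] at hk
    simpa [mul_assoc] using N.normal.conj_mem _ hk w⁻¹
  · obtain ⟨a, b, hab⟩ :=
      (Nat.prime_iff_prime_int.1 (Fact.out : p.Prime)).coprime_iff_not_dvd.2 hd
    have h2 : (g : N.Q) = ((w * e * w⁻¹ : F) : N.Q) ^ b := by
      rw [hk, ← zpow_mul, ← one_mul (_ ^ (k * b)), ← one_zpow a, ← h1, ← zpow_mul, ← zpow_add,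
        mul_comm _ a, mul_comm k, hab, zpow_one]
    refine absurd (comm_mono hN ?_) (hu w⁻¹)
    have h3 : ((w⁻¹ * g * w⁻¹⁻¹ : F) : N.Q) = (e : N.Q) ^ b := by
      simp only [QuotientGroup.mk_mul, QuotientGroup.mk_inv] at h2 ⊢
      rw [h2, conj_zpow]
      simp [mul_assoc]
    rw [h3]
    exact hc.zpow_left b

end NCA

open NCA in
theorem nc : SpecNC p := by
  intro σ u hCZ hF hU
  obtain ⟨N1, d1, h1⟩ := hU (1 + ∑ i, σ.c i)
  obtain ⟨Nb, db, -, hx, hτ⟩ := hCZ N1 d1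
  have a1 : ∀ w : F, ¬ Commute ((w * x * w⁻¹ : F) : Nb.Q) (u : Nb.Q) := by
    intro w h
    obtain ⟨k, hk⟩ := exists_zpow (hx _ (comm_conj h))
    refine h1 (pow_of_conj (w := w) (j := 1) (by omega) ?_)
    rw [pow_one, ← QuotientGroup.eq_one_iff, QuotientGroup.mk_pow, hk, ← zpow_natCast,
      ← zpow_mul, mul_comm, zpow_mul, zpow_natCast, ← QuotientGroup.mk_pow,
      (QuotientGroup.eq_one_iff _).2 N1.xp, one_zpow]
  have a2 : ∀ i (w : F), ¬ Commute ((w * σ.τ i * w⁻¹ : F) : Nb.Q) (u : Nb.Q) := by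
    intro i w h
    have h2 := Finset.single_le_sum (f := σ.c) (fun _ _ => Nat.zero_le _) (Finset.mem_univ i)
    exact h1 (pow_of_conj (by omega) (pow_bound (σ.bound i N1 d1.1 d1.2) (hτ i _ (comm_conj h))))
  refine ⟨Nb, db, a1, a2, fun N dN hN => ?_⟩
  obtain ⟨N', d', h', h2⟩ := hF N dN
  refine ⟨N', d', h', fun e he hc => ?_⟩
  rcases h2 e he with ⟨w, hw⟩ | ⟨i, w, hw⟩
  · exact last hN N.xp a1 (comm_mono h' hc) hw
  · exact last hN (dN.1 i) (a2 i) (comm_mono h' hc) hw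

theorem good (h1 : SpecFO p) (h2 : SpecRed p) (h3 : SpecCupA p) (h4 : SpecInhInj p)
    (h5 : SpecInhCup p) : SpecGood p := by
  intro σ
  obtain ⟨β, hβ, i1, i2⟩ := h1 σ.ι σ.V σ.r σ.S σ.rk0
  rw [h2 σ.ι σ.V σ.r σ.S σ.gen fun i v _ => σ.closed i v trivial] at hβ
  exact ⟨β, hβ, fun N dN => ⟨h4 σ.ι σ.V σ.r σ.S β N σ.v0 dN.2 i1,
    h4 σ.ι σ.V σ.r σ.S (-β) N σ.v0 dN.2 i2,
    h5 σ.ι σ.V σ.r σ.S β N σ.v0 dN.2 i1 (h3 σ.ι σ.V σ.r σ.S σ.rk0 β)⟩⟩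

theorem pzs (h1 : SpecGood p) (h2 : SpecPZ p) : SpecPZs p := by
  intro σ N dN
  obtain ⟨β, hβ, hG⟩ := h1 σ
  obtain ⟨e, he⟩ := (h2 σ.ι N.Q σ.r (σ.SQ N) _ (hG N dN).1).exists
  have hZ : β ∘ N.orb σ.v0 ∈ Zc σ.r (full σ.ι N.Q) := pull_mem_Z1 (ON.eqv_orb dN.2 σ.v0) hβ
  have hT := ON.triv_ker (p := p) (V := Cyc (β ∘ N.orb σ.v0) (p ^ e))
  have hle := ON.triv_Q.1 (hT.of_eqv Cov.eqv_fst fun q => ⟨⟨q, 0⟩, rfl⟩)
  refine ⟨_, ⟨rel_ker (closed_cyc (dN.1.closed _) hZ _), dN.2.mono hle⟩, hle, fun b hb i => ?_⟩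
  generalize ON.ker p (Cyc (β ∘ N.orb σ.v0) (p ^ e)) = N' at hT hle b hb
  have e1 := ON.orb_comp (N := N') (Cov.eqv_fst (θ := cycθ (β ∘ N.orb σ.v0) (p ^ e))) ⟨1, 0⟩
  have e2 := ON.orb_comp (N := N') (ON.eqv_orb dN.2 σ.v0) 1
  rw [ON.orb_one dN.2, ← e1] at e2
  have h3 := he (fun i => push (ZMod p) (N'.orb ⟨1, 0⟩) (b i))
    ⟨push_mem_C2 _ (by
      have h4 := hb.1
      rw [State.SQ, ← e2] at h4
      exact h4), by
      have h4 := bd_push (ON.eqv_orb hT ⟨1, 0⟩) 1 σ.r b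
      exact h4.symm.trans ((congrArg _ hb.2).trans (map_zero _))⟩ i
  rwa [push_push, e1] at h3

end H94G
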