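import Pool.Agent.MP_c98bf6_al.H94.Lin

/-! Row NP: projections of 2-cycles vanish on long cyclic covers, and `U`-loops over `T` are
non-zero and pairwise different in rational homology. -/

set_option autoImplicit false

open Module

noncomputable section

namespace H94G

variable (p : ℕ) [Fact p.Prime]

namespace NP

theorem finrank_ann_le {n : ℕ} [NeZero n] {z : An p n} {a k : ℕ}
    (h : z ∣ sG (ZMod p) (ZMod n) ^ k) :
    finrank (ZMod p) (ann p (sG (ZMod p) (ZMod n) ^ a * z)) ≤ a + k := by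
  obtain ⟨c, hc⟩ := h
  refine le_trans (Submodule.finrank_mono fun g hg => ?_) (finrank_ann_s_pow p n (a + k))
  rw [mem_ann] at hg ⊢
  rw [pow_add, hc]
  linear_combination c * hg

theorem aug_eq_zero {e a : ℕ} (h : a < p ^ e) {z : An p (p ^ e)}
    (hz : sG (ZMod p) (ZMod (p ^ e)) ^ a * z = 0) : aug (ZMod p) _ z = 0 := by
  by_contra h0
  have h1 := finrank_ann_le p (a := a) (k := 0) ((isUnit_of_aug p h0).dvd (a := sG _ _ ^ 0))
  have h2 : ann p (sG (ZMod p) (ZMod (p ^ e)) ^ a * z) = ⊤ := by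
    rw [eq_top_iff]; intro g _; rw [mem_ann, hz, zero_mul]
  rw [h2, finrank_top, finrank_An] at h1
  omega

section Cx
variable {ι V : Type} [Fintype ι] [Fintype V] [MulAction F V]

omit [Fintype ι] in
theorem cast_mem {r : ι → F} {S : ι → V → Prop} {γ : V → ℤ} (h : γ ∈ Zc r S) :
    (fun v => ((γ v : ℤ) : ZMod p)) ∈ Z1 (1 : V → (ZMod p)ˣ) r S := fun i v hs => by
  have h1 := intg_map (Int.castRingHom (ZMod p)) γ v (r i)
  rw [show intg γ v (r i) = 0 from h i v hs, map_zero] at h1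
  exact h1.symm

theorem Bred_le_Aperp (r : ι → F) (S : ι → V → Prop) :
    Bred (1 : V → (ZMod p)ˣ) r S ≤ Aperp p r S := fun w hw γ hγ =>
  mem_Z1_iff.1 (cast_mem p hγ) w (by rwa [inv_one])

theorem cast_dot (γ : V → ℤ) (v : V) (f : F) :
    (fun v => ((γ v : ℤ) : ZMod p)) ⬝ᵥ (un (ZMod p) V).D f (dl _ v) =
      ((intg γ v f : ℤ) : ZMod p) := by
  rw [← intg_def]; exact (intg_map (Int.castRingHom (ZMod p)) γ v f).symm

variable (β : V → ℤ) (n : ℕ) [NeZero n]

omit [Fact p.Prime] [Fintype ι] in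
theorem Aperp_sh {r : ι → F} {S : ι → V → Prop} {w : Cyc β n → ZMod p}
    (hw : w ∈ Aperp p r (pb S (Cov.fst : Cyc β n → V))) (g : ZMod n) :
    w ∘ Cov.sh g ∈ Aperp p r (pb S (Cov.fst : Cyc β n → V)) := fun γ hγ => by
  let E : Cyc β n ≃ Cyc β n :=
    ⟨Cov.sh g, Cov.sh (-g), fun a => by ext <;> simp, fun a => by ext <;> simp⟩
  have h1 := hw (γ ∘ Cov.sh (-g)) (pull_mem_Z1 (Cov.eqv_sh (-g)) hγ)
  rw [← h1, dotProduct, dotProduct, ← E.sum_comp (fun a => _ * w a)]
  refine Finset.sum_congr rfl fun a _ => ?_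
  have : Cov.sh (-g) (E a) = a := E.left_inv a
  simp only [Function.comp, this]; rfl

/-- The chain of the first `m` points of the `U`-orbit of `a`, as a twisted chain of the base. -/
def xi (U : F) (m : ℕ) (a : Cyc β n) : V → An p n :=
  ∑ l ∈ Finset.range m, (mon (ZMod p) (U ^ l • a).snd : An p n) • dl _ (U ^ l • a).fst

theorem D_xi (U : F) (m : ℕ) (a : Cyc β n) :
    (un (ZMod p) (Cyc β n)).D U (Phi p β n (xi p β n U m a)) =
      (un (ZMod p) (Cyc β n)).D (U ^ m) (dl _ a) := by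
  rw [Act.D_pow, xi, map_sum, map_sum]
  refine Finset.sum_congr rfl fun l _ => ?_
  rw [Phi_mon_dl, un_rho_dl]

omit [Fact p.Prime] [NeZero n] in
theorem xi_zero {U : F} {m : ℕ} {a : Cyc β n} {v : V} (h : ∀ l < m, U ^ l • a.fst ≠ v) :
    xi p β n U m a v = 0 := by
  rw [xi, Finset.sum_apply]
  refine Finset.sum_eq_zero fun l hl => ?_
  rw [Pi.smul_apply, Cov.smul_fst, dl_ne (h l (Finset.mem_range.1 hl)).symm, smul_zero]

omit [Fintype V] in
theorem T_pow {U : F} {T : V → Prop} (hT : ∀ v, T v → T (U • v)) {v : V} (h : T v) (l : ℕ) :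
    T (U ^ l • v) := by
  induction l with
  | zero => simpa using h
  | succ l ih => rw [pow_succ', mul_smul]; exact hT _ ih

omit [Fact p.Prime] [NeZero n] in
theorem xi_eq {U : F} {T : V → Prop} {m : ℕ} (hT : ∀ v, T v → T (U • v))
    (hm : ∀ v, T v → ∀ l, 0 < l → l < m → U ^ l • v ≠ v) {a : Cyc β n} (ha : T a.fst) {l : ℕ}
    (hl : l < m) : xi p β n U m a (U ^ l • a.fst) = mon (ZMod p) (U ^ l • a).snd := by
  have key : ∀ i j, i < j → j < m → U ^ j • a.fst ≠ U ^ i • a.fst := fun i j h1 h2 e => by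
    refine hm _ (T_pow hT ha i) (j - i) (by omega) (by omega) ?_
    rw [← mul_smul, ← pow_add, Nat.sub_add_cancel h1.le, e]
  rw [xi, Finset.sum_apply, Finset.sum_eq_single l]
  · simp
  · intro j hj hne
    rw [Pi.smul_apply, Cov.smul_fst, dl_ne, smul_zero]
    rcases lt_or_gt_of_ne hne with h | h
    · exact key j l h hl
    · exact (key l j h (Finset.mem_range.1 hj)).symm
  · intro h; exact absurd (Finset.mem_range.2 hl) h

/-- The key dimension count. -/
theorem key (hA : SpecAperp p) (r : ι → F) (S : ι → V → Prop) (U : F) (T : V → Prop)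
    (hI : Inj (wL p β) (oW U r) (oS T S)) : ∃ a C : ℕ, ∀ (e : ℕ) (ξ : V → An p (p ^ e)),
      (∀ v, ¬ T v → ξ v = 0) →
      (un (ZMod p) (Cyc β (p ^ e))).D U (Phi p β _ ξ) ∈
        Aperp p r (pb S (Cov.fst : Cyc β (p ^ e) → V)) →
      ∀ v, p ^ e ≤ C + finrank (ZMod p) (ann p (sG (ZMod p) (ZMod (p ^ e)) ^ a * ξ v)) := by
  obtain ⟨a, ha⟩ := exists_kill p β _ _ hI
  obtain ⟨C, hC⟩ := exists_H2_bound p β r S hI.of_oS
  refine ⟨a, C, fun e ξ hξ hD v => ?_⟩
  let φ : An p (p ^ e) →ₗ[ZMod p] (Cyc β (p ^ e) → ZMod p) :=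
    { toFun := fun g => (un (ZMod p) (Cyc β (p ^ e))).D U (Phi p β _ (g • ξ))
      map_add' := fun _ _ => by rw [add_smul, map_add, map_add]
      map_smul' := fun _ _ => by rw [smul_assoc, map_smul, map_smul]; rfl }
  have h1 : ∀ g, φ g ∈ Aperp p r (pb S (Cov.fst : Cyc β (p ^ e) → V)) := fun g => by
    induction g using mon_ind with
    | h1 j =>
      change (un (ZMod p) (Cyc β (p ^ e))).D U (Phi p β _ (_ • ξ)) ∈ _
      rw [Phi_mon_smul, ← un_D_pull (Cov.eqv_sh (-j))]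
      exact Aperp_sh p β _ hD _
    | h2 g g' hg hg' => rw [map_add]; exact add_mem hg hg'
    | h3 c g hg => rw [map_smul]; exact Submodule.smul_mem _ _ hg
  have h2 := finrank_comap_ge φ (Bred 1 r (pb S (Cov.fst : Cyc β (p ^ e) → V))) _
    (Bred_le_Aperp p r _) h1
  have h3 := hA _ _ r (pb S (Cov.fst : Cyc β (p ^ e) → V))
  have h4 := finrank_Bred_H2 (L := ZMod p) r (pb S (Cov.fst : Cyc β (p ^ e) → V))
  have h5 := hC e
  have h6 : (Bred 1 r (pb S (Cov.fst : Cyc β (p ^ e) → V))).comap φ ≤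
      ann p (sG (ZMod p) (ZMod (p ^ e)) ^ a * ξ v) := fun g hg => by
    have h7 : (un (ZMod p) (Cyc β (p ^ e))).D U (Phi p β _ (g • ξ)) ∈
      Bred 1 r (pb S (Cov.fst : Cyc β (p ^ e) → V)) := hg
    rw [← Phi_D, Phi_mem_Bred] at h7
    obtain ⟨b, hb, hb'⟩ := h7
    have h8 := ha e (fun o => o.elim (g • ξ) (-b))
      (mem_C2_oS.2 ⟨fun u hu => by simp [hξ u hu], neg_mem hb⟩)
      (by
        rw [bd_oW]
        change _ + bd _ r (-b) = 0
        rw [map_neg, hb']; exact add_neg_cancel _) none v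
    rw [mem_ann]
    simp only [Option.elim, Pi.smul_apply, smul_eq_mul] at h8
    linear_combination h8
  have h9 := Submodule.finrank_mono h6
  rw [finrank_An] at h2
  have h10 : p ^ e + finrank (ZMod p) (Bred (1 : Cyc β (p ^ e) → (ZMod p)ˣ) r (pb S Cov.fst)) ≤
      finrank (ZMod p) (ann p (sG (ZMod p) (ZMod (p ^ e)) ^ a * ξ v)) +
        (finrank (ZMod p) (Bred (1 : Cyc β (p ^ e) → (ZMod p)ˣ) r (pb S Cov.fst)) + C) :=
    h2.trans (Nat.add_le_add h9 (h3.trans (h4.symm.le.trans (Nat.add_le_add_left h5 _))))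
  omega

end Cx

end NP

theorem pz : SpecPZ p := by
  intro ι V _ _ _ r S β hI
  obtain ⟨a, ha⟩ := exists_kill p β r S hI
  filter_upwards [Filter.eventually_ge_atTop a] with e he b hb i
  have h1 : a < p ^ e := lt_of_le_of_lt he (Nat.lt_pow_self (Fact.out : p.Prime).one_lt)
  have h2 := ha e (fun i => (Phi p β (p ^ e)).symm (b i))
    ((Phi_mem_C2 p β _).1 (by simpa using hb.1))
    ((Phi p β (p ^ e)).injective (by rw [Phi_bd, map_zero]; simpa using hb.2)) i
  rw [← (Phi p β (p ^ e)).apply_symm_apply (b i), push_Phi]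
  funext v
  exact NP.aug_eq_zero p h1 (h2 v)

theorem np (hA : SpecAperp p) : SpecNP p := by
  intro ι V _ _ _ r S U T β m hm0 hT hm hI
  obtain ⟨a, C, hk⟩ := NP.key p β hA r S U T hI
  have hp : p.Prime := Fact.out
  filter_upwards [Filter.eventually_ge_atTop (C + a + 1)] with e he c hc
  obtain ⟨e, rfl⟩ : ∃ e', e = e' + 1 := ⟨e - 1, by omega⟩
  have h1 : C + a < p ^ e := lt_of_le_of_lt (by omega) (Nat.lt_pow_self hp.one_lt)
  have h2 : 2 * p ^ e ≤ p ^ (e + 1) := by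
    rw [pow_succ, mul_comm]; exact Nat.mul_le_mul_left _ hp.two_le
  have hs : ∀ b : Cyc β (p ^ (e + 1)), T b.fst → ∀ v, ¬ T v → NP.xi p β _ U m b v = 0 :=
    fun b hb v hv => NP.xi_zero p β _ fun l _ e => hv (e ▸ NP.T_pow hT hb l)
  have h0 : NP.xi p β _ U m c c.fst = mon (ZMod p) c.snd := by
    simpa using NP.xi_eq p β _ hT hm hc hm0
  have hfin : ∀ ξ : V → An p (p ^ (e + 1)), (∀ v, ¬ T v → ξ v = 0) →
      (un (ZMod p) (Cyc β (p ^ (e + 1)))).D U (Phi p β _ ξ) ∈
        Aperp p r (pb S (Cov.fst : Cyc β (p ^ (e + 1)) → V)) →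
      ¬ ξ c.fst ∣ sG (ZMod p) (ZMod (p ^ (e + 1))) ^ p ^ e := fun ξ h3 h4 h5 => by
    have h6 := hk _ ξ h3 h4 c.fst
    have h7 := NP.finrank_ann_le p (a := a) h5
    omega
  refine ⟨?_, fun c' hc' hγ => ?_⟩
  · by_contra hn
    push Not at hn
    refine hfin _ (hs c hc) (fun γ hγ => ?_) (by rw [h0]; exact Units.coe_dvd)
    rw [NP.D_xi, NP.cast_dot, ZMod.intCast_zmod_eq_zero_iff_dvd]
    exact hn γ hγ
  · by_contra hn
    push Not at hn
    refine hfin (NP.xi p β _ U m c - NP.xi p β _ U m c')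
      (fun v hv => by rw [Pi.sub_apply, hs c hc v hv, hs c' hc' v hv, sub_zero])
      (fun γ h => ?_) ?_
    · rw [map_sub, map_sub, NP.D_xi, NP.D_xi, dotProduct_sub, NP.cast_dot, NP.cast_dot, hγ γ h,
        sub_self]
    · rw [Pi.sub_apply, h0]
      by_cases h3 : ∃ l < m, U ^ l • c'.fst = c.fst
      · obtain ⟨l, hl, h4⟩ := h3
        rw [← h4, NP.xi_eq p β _ hT hm hc' hl]
        have h5 : c.snd - (U ^ l • c').snd ≠ 0 := fun h => hn l (Cov.ext h4 (sub_eq_zero.1 h).symm)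
        have h6 : (mon (ZMod p) c.snd : An p (p ^ (e + 1))) - mon (ZMod p) (U ^ l • c').snd =
            mon (ZMod p) (U ^ l • c').snd * ((mon (ZMod p) (c.snd - (U ^ l • c').snd) :
              An p (p ^ (e + 1))) - 1) := by
          rw [mul_sub, mul_one, ← Units.val_mul, ← mon_add, add_sub_cancel]
        rw [h6, Units.mul_left_dvd]
        exact mon_sub_one_dvd p h5
      · push Not at h3
        rw [NP.xi_zero p β _ h3, sub_zero]; exact Units.coe_dvd

end H94G
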