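import Pool.Agent.MP_c98bf6_al.H94.Lin

/-! Openness: generic combinations, semicontinuity of kernels. -/

set_option autoImplicit false

open Module

noncomputable section

namespace H94G

namespace Opn

theorem ev_lin (a b : ℤ) : ∀ᶠ M : ℕ in Filter.atTop, b + (M : ℤ) * a = 0 → a = 0 ∧ b = 0 := by
  refine Filter.eventually_atTop.2 ⟨b.natAbs + 1, fun M hM h => ?_⟩
  by_cases ha : a = 0
  · subst ha; simpa using h
  · exfalso
    have h1 : b = -((M : ℤ) * a) := by linarith
    have h2 : b.natAbs = M * a.natAbs := by rw [h1]; simp [Int.natAbs_mul]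
    have h3 : 1 ≤ a.natAbs := Int.natAbs_pos.2 ha
    nlinarith

theorem ev_inj (s : Finset (ℤ × ℤ)) : ∀ᶠ M : ℕ in Filter.atTop,
    Set.InjOn (fun q : ℤ × ℤ => q.2 + (M : ℤ) * q.1) s ∧
      Set.InjOn (fun q : ℤ × ℤ => q.1 + (M : ℤ) * q.2) s := by
  have h : ∀ᶠ M : ℕ in Filter.atTop, ∀ q ∈ s, ∀ q' ∈ s,
      ((q.2 - q'.2) + (M : ℤ) * (q.1 - q'.1) = 0 → q.1 - q'.1 = 0 ∧ q.2 - q'.2 = 0) ∧
      ((q.1 - q'.1) + (M : ℤ) * (q.2 - q'.2) = 0 → q.2 - q'.2 = 0 ∧ q.1 - q'.1 = 0) :=
    (Filter.eventually_all_finset s).2 fun q _ => (Filter.eventually_all_finset s).2 fun q' _ =>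
      (ev_lin _ _).and (ev_lin _ _)
  refine h.mono fun M hM => ⟨fun q hq q' hq' e => ?_, fun q hq q' hq' e => ?_⟩
  · have := (hM q hq q' hq').1 (by simp only at e; linear_combination e)
    exact Prod.ext (sub_eq_zero.1 this.1) (sub_eq_zero.1 this.2)
  · have := (hM q hq q' hq').2 (by simp only at e; linear_combination e)
    exact Prod.ext (sub_eq_zero.1 this.2) (sub_eq_zero.1 this.1)

theorem mapDomain_ne {X Y K : Type} [AddCommMonoid K] {ν : X →₀ K} (hν : ν ≠ 0) {f : X → Y}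
    (hf : Set.InjOn f ν.support) : Finsupp.mapDomain f ν ≠ 0 := fun e =>
  hν (Finsupp.mapDomain_injOn _ hf (fun _ h => h) (by simp) (by simpa using e))

theorem ev_map {G K : Type} [AddCommMonoid K] (μ : G →₀ K) (a b : G → ℤ)
    (h : Finsupp.mapDomain a μ ≠ 0) : ∀ᶠ M : ℕ in Filter.atTop,
    Finsupp.mapDomain (fun g => b g + (M : ℤ) * a g) μ ≠ 0 ∧
      Finsupp.mapDomain (fun g => a g + (M : ℤ) * b g) μ ≠ 0 := by
  have hν : Finsupp.mapDomain (fun g => (a g, b g)) μ ≠ 0 := fun e => h (by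
    have := congrArg (Finsupp.mapDomain Prod.fst) e
    rwa [← Finsupp.mapDomain_comp, Finsupp.mapDomain_zero] at this)
  refine (ev_inj (Finsupp.mapDomain (fun g => (a g, b g)) μ).support).mono fun M hM => ⟨?_, ?_⟩
  · have := mapDomain_ne hν hM.1
    rwa [← Finsupp.mapDomain_comp] at this
  · have := mapDomain_ne hν hM.2
    rwa [← Finsupp.mapDomain_comp] at this

theorem spec_ne (p : ℕ) {V : Type} [Fintype V] (β : V → ℤ) (μ : RU p V) :
    spec p β μ ≠ 0 ↔ Finsupp.mapDomain (fun m => β ⬝ᵥ m) μ.coeff ≠ 0 := by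
  rw [ne_eq, ← AddMonoidAlgebra.coeff_injective.eq_iff]
  rfl

/-- A non-vanishing minor of maximal size. -/
theorem exists_minor {L m k : Type} [Field L] [Fintype m] [Fintype k] (A : Matrix k m L) :
    ∃ (κ : Type) (_ : Fintype κ) (_ : DecidableEq κ) (r : κ → k) (c : κ → m),
      Fintype.card κ = A.rank ∧ (A.submatrix r c).det ≠ 0 := by
  classical
  obtain ⟨κ, a, ha, hs, hl⟩ := exists_linearIndependent' L A.col
  have : Finite κ := Finite.of_injective a ha
  let _ : Fintype κ := Fintype.ofFinite κ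
  have h1 : Fintype.card κ = A.rank := by
    rw [A.rank_eq_finrank_span_cols, ← hs, finrank_span_eq_card hl]
  have h2 : (A.submatrix id a).rank = Fintype.card κ := by
    rw [Matrix.rank_eq_finrank_span_cols]; exact finrank_span_eq_card hl
  obtain ⟨κ', b, hb, hs', hl'⟩ := exists_linearIndependent' L (A.submatrix id a).row
  have : Finite κ' := Finite.of_injective b hb
  let _ : Fintype κ' := Fintype.ofFinite κ'
  have h3 : Fintype.card κ = Fintype.card κ' := by
    rw [← h2, Matrix.rank_eq_finrank_span_row, ← hs', finrank_span_eq_card hl']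
  let e := Fintype.equivOfCardEq h3
  refine ⟨κ, inferInstance, inferInstance, b ∘ e, a, h1, ?_⟩
  have h4 : LinearIndependent L (A.submatrix (b ∘ e) a).row := hl'.comp e e.injective
  exact ((Matrix.isUnit_iff_isUnit_det _).1 (Matrix.linearIndependent_rows_iff_isUnit.1 h4)).ne_zero

theorem ker_rank {R L m k : Type} [CommRing R] [Field L] [Fintype m] [Fintype k] [DecidableEq m]
    (Ψ : (m → R) →ₗ[R] (k → R)) (φ : R →+* L) (Ψφ : (m → L) →ₗ[L] (k → L))
    (h : ∀ u, Ψφ (φ ∘ u) = φ ∘ Ψ u) :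
    ((LinearMap.toMatrix' Ψ).map φ).rank + finrank L (LinearMap.ker Ψφ) = Fintype.card m := by
  have e : (LinearMap.toMatrix' Ψ).map φ = LinearMap.toMatrix' Ψφ := by
    ext i j
    have h1 : φ ∘ (Pi.single j 1 : m → R) = Pi.single j 1 := by
      funext l; by_cases hl : l = j
      · subst hl; simp
      · simp [hl]
    have h2 := congrFun (h (Pi.single j 1)) i
    rw [h1] at h2
    simp [LinearMap.toMatrix'_apply, h2]
  have h3 := Ψφ.finrank_range_add_finrank_ker
  rw [finrank_fintype_fun_eq_card] at h3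
  rw [e, Matrix.rank, ← Matrix.toLin'_apply', Matrix.toLin'_toMatrix', h3]

end Opn

open Opn

variable (p : ℕ) [Fact p.Prime]

omit [Fact p.Prime] in
theorem gc1 : SpecGC1 p := by
  rintro V _ P β β' ⟨μ, h1, h2⟩
  refine (ev_map μ.coeff (fun m => β ⬝ᵥ m) (fun m => β' ⬝ᵥ m) ((spec_ne p β μ).1 h1)).mono
    fun M hM => ⟨⟨μ, (spec_ne p _ μ).2 ?_, h2⟩, ⟨μ, (spec_ne p _ μ).2 ?_, h2⟩⟩
  · simpa only [add_dotProduct, smul_dotProduct, smul_eq_mul] using hM.1
  · simpa only [add_dotProduct, smul_dotProduct, smul_eq_mul] using hM.2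

omit [Fact p.Prime] in
theorem gc : SpecGC p := by
  intro V _ Z κ _ P hP β0 n hn
  classical
  let _ : Fintype κ := Fintype.ofFinite κ
  suffices h : ∀ s : Finset κ, ∃ γ ∈ Z, ∀ k ∈ s, OpenAt p (P k) (β0 + (n : ℤ) • γ) by
    obtain ⟨γ, h1, h2⟩ := h Finset.univ
    exact ⟨γ, h1, fun k => h2 k (Finset.mem_univ k)⟩
  intro s
  induction s using Finset.induction_on with
  | empty => exact ⟨0, Z.zero_mem, by simp⟩
  | insert k s _ ih =>
    obtain ⟨γ, h1, h2⟩ := ih
    obtain ⟨β, hβ, hk⟩ := hP k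
    have e1 := (gc1 p V (P k) β (β0 + (n : ℤ) • γ) hk).mono fun _ h => h.1
    have e2 := (Filter.eventually_all_finset s).2 fun j hj =>
      (gc1 p V (P j) (β0 + (n : ℤ) • γ) β (h2 j hj)).mono fun _ h => h.2
    obtain ⟨M, hM⟩ := Filter.eventually_atTop.1 (e1.and e2)
    have h3 := hM (n * M) (Nat.le_mul_of_pos_left M (Nat.pos_of_ne_zero hn))
    have e : β0 + (n : ℤ) • (γ + (M : ℤ) • β) = β0 + (n : ℤ) • γ + ((n * M : ℕ) : ℤ) • β := by
      rw [smul_add, smul_smul, add_assoc, Nat.cast_mul]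
    refine ⟨γ + (M : ℤ) • β, Z.add_mem h1 (Z.smul_mem _ hβ), fun j hj => ?_⟩
    rw [e]
    rcases Finset.mem_insert.1 hj with rfl | hj
    · exact h3.1
    · exact h3.2 j hj

theorem kerOpen : SpecKer := by
  intro R L _ _ m k _ _ Ψ φ Ψφ h
  classical
  obtain ⟨κ, _, _, r, c, h1, h2⟩ := exists_minor ((LinearMap.toMatrix' Ψ).map φ)
  refine ⟨((LinearMap.toMatrix' Ψ).submatrix r c).det, ?_, fun L' _ ψ Ψψ h' hμ => ?_⟩
  · rw [RingHom.map_det]; exact h2
  · rw [RingHom.map_det] at hμ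
    have h3 : (((LinearMap.toMatrix' Ψ).map ψ).submatrix r c).rank = Fintype.card κ :=
      Matrix.rank_of_det_ne_zero hμ
    have h4 := Matrix.rank_submatrix_le ((LinearMap.toMatrix' Ψ).map ψ) r c
    have h5 := ker_rank Ψ φ Ψφ h
    have h6 := ker_rank Ψ ψ Ψψ h'
    omega

namespace Opn

variable {ι V : Type} [Fintype ι] [Fintype V] [MulAction F V]

open Classical in
/-- The boundary together with the coefficients off the cells. -/
def Psi {A : Type} [CommRing A] (ω : V → Aˣ) (r : ι → F) (S : ι → V → Prop) :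
    (ι × V → A) →ₗ[A] (V ⊕ (ι × V) → A) where
  toFun u := Sum.elim (bd ω r fun i v => u (i, v)) fun c => if S c.1 c.2 then 0 else u c
  map_add' u u' := by
    funext o
    rcases o with v | c
    · exact congrFun ((bd ω r).map_add (fun i v => u (i, v)) fun i v => u' (i, v)) v
    · simp only [Sum.elim_inr, Pi.add_apply]; split_ifs <;> simp
  map_smul' a u := by
    funext o
    rcases o with v | c
    · exact congrFun ((bd ω r).map_smul a fun i v => u (i, v)) v
    · simp only [Sum.elim_inr, Pi.smul_apply, RingHom.id_apply]; split_ifs <;> simp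

theorem Psi_map {A A' : Type} [CommRing A] [CommRing A'] (φ : A →+* A') {ω : V → Aˣ}
    {ω' : V → A'ˣ} (h : ∀ v, (ω' v : A') = φ (ω v)) (r : ι → F) (S : ι → V → Prop)
    (u : ι × V → A) : Psi ω' r S (φ ∘ u) = φ ∘ Psi ω r S u := by
  funext o
  rcases o with v | c
  · exact (congrFun (bd_map φ h r fun i v => u (i, v)) v).symm
  · simp only [Psi, LinearMap.coe_mk, AddHom.coe_mk, Sum.elim_inr, Function.comp]
    split_ifs <;> simp

theorem inj_iff_ker {A : Type} [CommRing A] (ω : V → Aˣ) (r : ι → F) (S : ι → V → Prop) :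
    Inj ω r S ↔ LinearMap.ker (Psi ω r S) = ⊥ := by
  rw [LinearMap.ker_eq_bot']
  constructor
  · intro h u hu
    have := h (fun i v => u (i, v)) (fun i v hs => by
      have := congrFun hu (.inr (i, v))
      simpa [Psi, hs] using this) (by funext v; exact congrFun hu (.inl v))
    funext c; exact congrFun (congrFun this c.1) c.2
  · intro h b hb e
    have := h (fun c => b c.1 c.2) (by
      funext o
      rcases o with v | c
      · exact congrFun e v
      · by_cases hs : S c.1 c.2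
        · simp [Psi, hs]
        · simpa [Psi, hs] using hb c.1 c.2 hs)
    funext i v; exact congrFun this (i, v)

theorem open_aux (r : ι → F) (S : ι → V → Prop) (ω : V → (RU p V)ˣ)
    (w : (V → ℤ) → V → (LL p)ˣ) (hw : ∀ β v, (w β v : LL p) = (specL p β).toRingHom (ω v))
    (β : V → ℤ) (h : Inj (w β) r S) : OpenAt p (fun β' => Inj (w β') r S) β := by
  obtain ⟨μ, h1, h2⟩ := kerOpen (RU p V) (LL p) (ι × V) (V ⊕ (ι × V)) (Psi ω r S)
    (specL p β).toRingHom (Psi (w β) r S) (Psi_map _ (hw β) r S)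
  refine ⟨μ, (specL_ne p β μ).1 h1, fun β' hβ' => ?_⟩
  have h3 := h2 (LL p) (specL p β').toRingHom (Psi (w β') r S) (Psi_map _ (hw β') r S)
    ((specL_ne p β' μ).2 hβ')
  rw [(inj_iff_ker _ r S).1 h, finrank_bot, Nat.le_zero, Submodule.finrank_eq_zero] at h3
  exact (inj_iff_ker _ r S).2 h3

end Opn

theorem openInj : SpecOpenInj p := by
  intro ι V _ _ _ r S β
  refine ⟨open_aux p r S (wU p V) (wL p) (wL_specL p) β,
    open_aux p r S (wU p V)⁻¹ (fun β => wL p (-β)) (fun β v => ?_) β⟩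
  rw [wL_neg]
  exact inv_map (specL p β).toRingHom (wL_specL p β) v

theorem openNe : SpecOpenNe p := by
  intro V _ _ β v f h
  have key : ∀ β' : V → ℤ, spec p β' (hol (wU p V) v f - 1) ≠ 0 ↔ intg β' v f ≠ 0 := fun β' => by
    have e : spec p β' (hol (wU p V) v f) = mon (ZMod p) (intg β' v f) :=
      (hol_map (spec p β').toRingHom (wP_spec p β') v f).trans (hol_wP p β' v f)
    rw [map_sub, map_one, e, sub_ne_zero]
    refine not_congr ⟨fun h => mon_injective (K := ZMod p) (by rw [h, mon_zero]; rfl), fun h => ?_⟩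
    rw [h, mon_zero]; rfl
  exact ⟨_, (key β).2 h, fun β' h' => (key β').1 h'⟩

end H94G
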