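import Pool.Agent.MP_c98bf6_al.H94.Lin

/-! Row RFL: generating cells span all relators; small consequences. -/

set_option autoImplicit false

open Module

noncomputable section

namespace H94G

variable (p : ℕ) [Fact p.Prime]

namespace RFL

theorem isP_aff {W : Type} [MulAction F W] [IsP p W] (B : Submodule (ZMod p) (W → ZMod p)) :
    IsP p (Cov B.mkQ.toAddMonoidHom) :=
  Cov.isP _ 1 fun g => by
    rw [pow_one, ← Nat.cast_smul_eq_nsmul (ZMod p), ZMod.natCast_self, zero_smul]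

theorem aff_iff {W : Type} [MulAction F W] (B : Submodule (ZMod p) (W → ZMod p)) (f : F)
    (a : Cov B.mkQ.toAddMonoidHom) :
    f • a = a ↔ f • a.fst = a.fst ∧ (un (ZMod p) W).D f (dl _ a.fst) ∈ B := by
  rw [Cov.smul_eq_iff]
  exact and_congr_right fun _ => Submodule.Quotient.mk_eq_zero B

theorem aff {ι W : Type} [Fintype ι] [Fintype W] [MulAction F W] [IsP p W] {r : ι → F}
    {S : ι → W → Prop} (hG : GEN p r S) (hc : Closed r S) (i : ι) (a : W) :
    (un (ZMod p) W).D (r i) (dl _ a) ∈ Bred (1 : W → (ZMod p)ˣ) r S := by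
  let B := Bred (1 : W → (ZMod p)ˣ) r S
  have : Finite ((W → ZMod p) ⧸ B) := Finite.of_surjective _ B.mkQ_surjective
  let : Fintype ((W → ZMod p) ⧸ B) := Fintype.ofFinite _
  have := isP_aff p B
  have h := hG (Cov B.mkQ.toAddMonoidHom) Cov.fst Cov.eqv_fst fun j b hb =>
    (aff_iff p B _ b).2 ⟨hc j _ hb, D_dl_mem_Bred _ r hb⟩
  exact ((aff_iff p B _ ⟨a, 0⟩).1 (h i _ trivial)).2

theorem s_pow_ne (a : ℕ) : sG (ZMod p) (ZMod (p ^ a)) ^ a ≠ 0 := by
  intro h
  have hp : p.Prime := Fact.out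
  have h1 := finrank_ann_s_pow p (p ^ a) a
  have h2 : ann p (sG (ZMod p) (ZMod (p ^ a)) ^ a) = ⊤ := by
    rw [eq_top_iff]
    intro z _
    rw [mem_ann, h, zero_mul]
  rw [h2, finrank_top, finrank_An] at h1
  exact absurd (Nat.lt_pow_self hp.one_lt) (not_lt.2 h1)

end RFL

theorem rfl' : SpecRFL p := by
  intro ι V _ _ _ _ r S β hG hc hβ
  refine le_antisymm (Bred_le fun i v _ => D_dl_mem_Bred _ r trivial) (Bred_le fun i v _ => ?_)
  by_contra hn
  have hw : algebraMap (Lam p) (LL p) ∘ (tw (wP p β)).D (r i) (dl _ v) ∉ Bred (wL p β) r S := by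
    rwa [D_map _ (wL_val p β), map_dl]
  obtain ⟨ℓ, h1, h2⟩ := exists_sep p β r S _ hw
  obtain ⟨a, ha⟩ := exists_ann p h1
  refine RFL.s_pow_ne p a ?_
  refine (mul_one _).symm.trans (ha a 1 ?_)
  have h3 : (tw (wA p β (p ^ a))).D (r i) (dl _ v) ∈ Bred (wA p β (p ^ a)) r S := by
    have h4 := Phi_mon_dl p β (p ^ a) v 0
    rw [mon_zero, Units.val_one, one_smul] at h4
    rw [← Phi_mem_Bred, Phi_D, h4]
    exact RFL.aff p (hG.pb Cov.eqv_fst) (closed_cyc hc hβ _) i _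
  have h5 := RingHom.map_dotProduct (red p (p ^ a)).toRingHom ℓ
    ((tw (wP p β)).D (r i) (dl _ v))
  rw [D_map _ (wA_red p β _), map_dl] at h5
  rw [mul_one]
  exact h5.trans (h2 _ _ h3)

theorem swap : SpecSwap := by
  intro ι V _ _ _ L _ ω r S S' z T hB hn hI b hb e
  obtain ⟨hb0, hb1⟩ := mem_C2_oS.1 hb
  rw [bd_oW] at e
  have h1 : bd ω r (fun i => b (some i)) ∈ Bred ω r S := hB ▸ ⟨_, hb1, rfl⟩
  obtain ⟨b₁, hb₁, e₁⟩ := h1
  have h2 := hI (fun o => o.elim (b none) b₁) (mem_C2_oS.2 ⟨hb0, hb₁⟩) (by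
    rw [bd_oW]
    simpa [e₁] using e)
  have h3 : b none = 0 := congrFun h2 none
  rw [h3, map_zero, zero_add] at e
  have hI' : Inj ω r S' := by
    rw [inj_iff, ← hB, ← hn, ← inj_iff]
    exact hI.of_oS
  have h4 := hI' _ hb1 e
  funext o
  cases o with
  | none => exact h3
  | some i => exact congrFun h4 i

theorem single : SpecSingle := by
  intro ι V _ _ _ L _ ω r S U T v m hm hT hv hl hI b hb e
  obtain ⟨hb0, hb1⟩ := mem_C2_oS.1 hb
  have hTl : ∀ l : ℕ, T (U ^ l • v) := fun l => by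
    induction l with
    | zero => simpa using hv
    | succ l ih => rw [pow_succ', mul_smul]; exact hT _ ih
  have h0 : b none = b none v • dl L v := by
    funext u
    by_cases hu : u = v
    · subst hu; simp
    · rw [hb0 u hu, Pi.smul_apply, dl_ne hu, smul_zero]
  let χ : V → L := ∑ l ∈ Finset.range m, (tw ω).rho (U ^ l) (dl L v)
  have hχ : ∀ u, χ u = ∑ l ∈ Finset.range m, hol ω v (U ^ l) * dl L (U ^ l • v) u := fun u => by
    simp only [χ, Finset.sum_apply, tw_rho_dl, Pi.smul_apply, smul_eq_mul]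
  have hχv : χ v = 1 := by
    rw [hχ, Finset.sum_eq_single 0]
    · simp
    · intro l hl1 hl2
      rw [dl_ne (hl l (Nat.pos_of_ne_zero hl2) (Finset.mem_range.1 hl1)).symm, mul_zero]
    · intro h; exact absurd (Finset.mem_range.2 hm) h
  have hχT : ∀ u, ¬ T u → χ u = 0 := fun u hu => by
    rw [hχ]
    exact Finset.sum_eq_zero fun l _ => by
      rw [dl_ne (v := U ^ l • v) (w := u) fun e => hu (e ▸ hTl l), mul_zero]
  have hD : (tw ω).D (U ^ m) (b none) = (tw ω).D U (b none v • χ) := by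
    rw [h0, map_smul, map_smul, Act.D_pow, map_sum]
    simp
  rw [bd_oW, hD] at e
  have h2 := hI (fun o => o.elim (b none v • χ) fun i => b (some i))
    (mem_C2_oS.2 ⟨fun u hu => by simp [hχT u hu], hb1⟩) (by rw [bd_oW]; exact e)
  have h3 : b none v = 0 := by
    have := congrFun (congrFun h2 none) v
    simpa [hχv] using this
  funext o
  cases o with
  | none => rw [h0, h3, zero_smul]; rfl
  | some i => exact congrFun h2 (some i)

theorem redc : SpecRed p := by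
  intro ι V _ _ _ _ r S hG hc
  have hp : p.Prime := Fact.out
  refine le_antisymm (fun β hβ i v _ => ?_) fun β hβ i v _ => hβ i v trivial
  have h : ∀ e : ℕ, ((p ^ e : ℕ) : ℤ) ∣ intg β v (r i) := fun e =>
    ((Cyc.smul_eq_iff β (p ^ e) _ ⟨v, 0⟩).1
      (hG (Cyc β (p ^ e)) Cov.fst Cov.eqv_fst (closed_cyc hc hβ _) i _ trivial)).2
  refine Int.eq_zero_of_dvd_of_natAbs_lt_natAbs (h (intg β v (r i)).natAbs) ?_
  rw [Int.natAbs_natCast]
  exact Nat.lt_pow_self hp.one_lt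

theorem sharp : SpecSharp p := by
  intro ι _ r N hN
  let B := Bred (1 : N.Q → (ZMod p)ˣ) r (full ι N.Q)
  have : Finite ((N.Q → ZMod p) ⧸ B) := Finite.of_surjective _ B.mkQ_surjective
  let : Fintype ((N.Q → ZMod p) ⧸ B) := Fintype.ofFinite _
  have := RFL.isP_aff p B
  refine ⟨ON.ker p (Cov B.mkQ.toAddMonoidHom), rel_ker fun i a _ =>
    (RFL.aff_iff p B _ a).2 ⟨hN.closed (full ι N.Q) i _ trivial, D_dl_mem_Bred _ r trivial⟩,
    fun f hf => ?_, fun μ hμ q => ?_⟩
  · exact (N.smul_eq_iff f 1).1 ((RFL.aff_iff p B f ⟨1, 0⟩).1 (ON.mem_ker.1 hf _)).1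
  · exact ((RFL.aff_iff p B μ ⟨q, 0⟩).1 (ON.mem_ker.1 hμ _)).2

end H94G
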