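import Pool.Agent.MP_c98bf6_al.H94.Lin

/-! Row STAR: the cover with a surviving loop, and the new base. -/

set_option autoImplicit false

open Module

noncomputable section

namespace H94G

namespace Star

section Aux
variable {ι V : Type} [Fintype ι] [Fintype V] [MulAction F V]

omit [Fintype ι] in
theorem of_full {A : Type} [CommRing A] {ω : V → Aˣ} {r : ι → F} (S : ι → V → Prop) {α : V → A}
    (h : α ∈ Z1 ω r (full ι V)) : α ∈ Z1 ω r S := fun i v _ => h i v trivial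

omit [Fintype ι] in
theorem pull_full {V' : Type} [Fintype V'] [MulAction F V'] {A : Type} [CommRing A] {r : ι → F}
    {π : V' → V} (hπ : Eqv π) {α : V → A} (h : α ∈ Z1 (1 : V → Aˣ) r (full ι V)) :
    α ∘ π ∈ Z1 (1 : V' → Aˣ) r (full ι V') := pull_mem_Z1 hπ h

theorem not_mem_Bred {K : Type} [CommRing K] {r : ι → F} {S : ι → V → Prop} {α : V → K}
    (hα : α ∈ Z1 (1 : V → Kˣ) r S) {v : V} {f : F} (h : intg α v f ≠ 0) :
    (un K V).D f (dl K v) ∉ Bred 1 r S := fun hm => by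
  apply h
  rw [intg_def]
  refine mem_Z1_iff.1 hα _ ?_
  rwa [inv_one]

omit [Fintype V] in
theorem some_mem_H2 {K : Type} [CommRing K] {z : F} {r : ι → F} {T : V → Prop}
    {S : ι → V → Prop} {c : Option ι → V → K} (hc : c ∈ H2 K (oW z r) (oS T S)) (h0 : c ≠ 0)
    (hn : c none = 0) : (fun i => c (some i)) ∈ H2 K r S ∧ (fun i => c (some i)) ≠ 0 := by
  refine ⟨mem_H2.2 ⟨(mem_C2_oS.1 hc.1).2, ?_⟩, fun e => h0 ?_⟩
  · have := (mem_H2.1 hc).2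
    rwa [bd_oW, hn, map_zero, zero_add] at this
  · funext o
    cases o with
    | none => exact hn
    | some i => exact congrFun e i

end Aux

variable (p : ℕ) [Fact p.Prime]

/-- The end of the proof of `star`. -/
theorem fin (h6 : SpecExt p) (h7 : SpecFO p) (h8 : SpecRed p) (σ : State p) (W : Type)
    [Fintype W] [MulAction F W] [IsP p W] (π : W → σ.V) (w : W) (hπ : Eqv π) (hw : π w = σ.v0)
    (hc : Closed σ.r (pb σ.S π)) (z U : F) (T : W → Prop) (hT : ∀ u, ¬ T u)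
    (hR : RK p 2 (oW z σ.r) (oS T (pb σ.S π))) (hU : U • w = w) (α : W → ZMod p)
    (hα : α ∈ Z1 (1 : W → (ZMod p)ˣ) σ.r (pb σ.S π)) (hα' : intg α w U ≠ 0) :
    ∃ β, σ.StarAt U W π w β := by
  have h1 := h6 _ _ σ.r (pb σ.S π) z U T w hT hR (not_mem_Bred hα hα')
  obtain ⟨β, hβ, hI, hI'⟩ := h7 _ _ _ _ h1
  obtain ⟨h2, h3⟩ := mem_Z1_oS.1 hβ
  refine ⟨β, hπ, hw, σ.gen W π hπ hc, hU, ?_, h2 w rfl, hI, hI'⟩
  rw [← h8 _ _ σ.r (pb σ.S π) (σ.gen.pb hπ) hc]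
  exact h3

theorem prim_pow {ι : Type} [Fintype ι] {r : ι → F} {U : F} {a : ℕ} {N : ON p}
    (h : Prim r (U ^ p ^ a) N) {l : ℕ} (h0 : 0 < l) (hl : l < p ^ a) : U ^ l ∉ N.M := by
  intro hm
  have hp : p.Prime := Fact.out
  obtain ⟨hz, γ, -, hγ⟩ := h
  have key : ∀ n : ℕ, U ^ n ∈ N.M ↔ orderOf (U : N.Q) ∣ n := fun n => by
    rw [orderOf_dvd_iff_pow_eq_one, ← QuotientGroup.mk_pow, QuotientGroup.eq_one_iff]
  obtain ⟨k, hk⟩ := (key _).1 hz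
  have h1 : orderOf (U : N.Q) ≤ l := Nat.le_of_dvd h0 ((key _).1 hm)
  obtain ⟨j, -, hj⟩ := (Nat.dvd_prime_pow hp).1 (Dvd.intro_left _ hk.symm)
  have h2 : j ≠ 0 := by
    rintro rfl
    rw [hj, pow_zero, mul_one] at hk
    omega
  apply hγ
  rw [hk, pow_mul, intg_pow γ ((N.smul_eq_iff _ 1).2 ((key _).2 dvd_rfl)), hj]
  refine Dvd.dvd.mul_right ?_ _
  exact_mod_cast dvd_pow_self p h2

/-- Injectivity with one extra cell at an arbitrary point of a deep level. -/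
theorem inj_at (h2 : SpecInhInj p) (h3 : SpecSingle) (h4 : SpecRFL p) (h5 : SpecSwap)
    (σ : State p) (U : F) (W : Type) [Fintype W] [MulAction F W] (π : W → σ.V) (w : W)
    (hπ : Eqv π) (hw : π w = σ.v0) (hU : U • w = w) (β : W → ℤ)
    (hβ : β ∈ Zc σ.r (full σ.ι W)) (hI : Inj (wL p β) (oW U σ.r) (oS (· = w) (pb σ.S π)))
    (N : ON p) (a : ℕ) (hN : σ.Deep N) (hW : N.Triv W) (hP : Prim σ.r (U ^ p ^ a) N) (t : N.Q) :
    Inj (wL p (β ∘ N.orb (t.out⁻¹ • w))) (oW (U ^ p ^ a) σ.r) (oS (· = t) (σ.SQ N)) := by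
  have hp : p.Prime := Fact.out
  have hρ := ON.eqv_orb hW (t.out⁻¹ • w)
  have hσ := ON.eqv_orb hN.2 σ.v0
  have hb := pull_full hρ hβ
  have e1 := h2 _ _ _ _ β N (t.out⁻¹ • w) hW hI
  rw [pb_oS] at e1
  have e2 := h3 _ _ _ _ σ.r _ U _ t (p ^ a) (pow_pos hp.pos a)
    (fun u hu => by rw [hρ, hu, hU]) (by simp [ON.orb])
    (fun l h0 hl e => prim_pow p hP h0 hl ((N.smul_eq_iff _ _).1 e)) e1
  refine h5 _ _ _ _ σ.r _ _ _ _ ?_ ?_ e2
  · rw [h4 _ _ σ.r _ _ ((σ.gen.pb hπ).pb hρ) (hN.1.closed _) (of_full _ hb),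
      h4 _ _ σ.r _ _ (σ.gen.pb hσ) (hN.1.closed _) (of_full _ hb)]
  · refine Nat.card_congr (Equiv.subtypeEquiv
      (Equiv.prodCongr (Equiv.refl _) (Equiv.mulRight ((t.out⁻¹ : F) : N.Q))) ?_)
    rintro ⟨i, q⟩
    have e3 : π (N.orb (t.out⁻¹ • w) q) = N.orb σ.v0 (q * ((t.out⁻¹ : F) : N.Q)) := by
      induction q using QuotientGroup.induction_on with
      | H g =>
        rw [← QuotientGroup.mk_mul, ON.orb_mk hW, ON.orb_mk hN.2, hπ, hπ, hw, mul_smul]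
    change σ.S i (π (N.orb (t.out⁻¹ • w) q)) ↔ σ.S i (N.orb σ.v0 (q * ((t.out⁻¹ : F) : N.Q)))
    rw [e3]

end Star

open _root_.H94G.Star

variable (p : ℕ) [Fact p.Prime]

theorem star (h1 : SpecGood p) (h2 : SpecJump p) (h3 : SpecN6 p) (h4 : SpecCupC p)
    (h5 : SpecCarry) (h6 : SpecExt p) (h7 : SpecFO p) (h8 : SpecRed p) : SpecStar p := by
  intro σ u hu
  have hp : p.Prime := Fact.out
  obtain ⟨β, hβ, hG⟩ := h1 σ
  obtain ⟨N, hR, hle, a, hz, α, hα, hα'⟩ := h2 _ σ.r (ON.ker p σ.V) u (rel_ker σ.closed)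
    (fun h => σ.xv (ON.mem_ker.1 h _)) fun k => by
      obtain ⟨N', h, h'⟩ := hu k
      exact ⟨N', h.1, ON.triv_iff.1 h.2, h'⟩
  have hN : σ.Deep N := ⟨hR, ON.triv_iff.2 hle⟩
  obtain ⟨hI, -, hC⟩ := hG N hN
  have hσ := ON.eqv_orb hN.2 σ.v0
  have hb := pull_full hσ hβ
  set β₁ := β ∘ N.orb σ.v0 with hβ₁
  have hev := h3 _ N.Q σ.r (σ.SQ N) 1 (fun _ => False) β₁ (hR.closed _) (of_full _ hb)
    (fun _ h => h.elim) (fun _ h => h.elim) hI (fun c hc h0 => by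
      have hn : c none = 0 := funext fun v => (mem_C2_oS.1 hc.1).1 v id
      obtain ⟨e1, e2⟩ := some_mem_H2 hc h0 hn
      exact h4 _ _ _ _ _ _ _ c hn (fun _ h => h.elim) (hC _ e1 e2)) 2
  have hz1 : u ^ p ^ a • (1 : N.Q) = 1 := (N.smul_eq_iff _ _).2 hz
  have hcl : ∀ n : ℕ, Closed σ.r (pb (σ.SQ N) (Cov.fst : Cyc β₁ n → N.Q)) :=
    closed_cyc (hR.closed _) (of_full _ hb)
  have main : ∀ (e : ℕ) (U : F) (α' : Cyc β₁ (p ^ e) → ZMod p),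
      RK p 2 (oW (1 ^ p ^ e) σ.r) (cycS (fun _ => False) (σ.SQ N) β₁ (p ^ e)) →
      U • (⟨1, 0⟩ : Cyc β₁ (p ^ e)) = ⟨1, 0⟩ →
      α' ∈ Z1 (1 : Cyc β₁ (p ^ e) → (ZMod p)ˣ) σ.r (pb (σ.SQ N) Cov.fst) →
      intg α' ⟨1, 0⟩ U ≠ 0 →
      ∃ β', σ.StarAt U (Cyc β₁ (p ^ e)) (N.orb σ.v0 ∘ Cov.fst) ⟨1, 0⟩ β' := by
    intro e U α' e1 e2 e3 e4
    exact fin p h6 h7 h8 σ (Cyc β₁ (p ^ e)) _ ⟨1, 0⟩ (hσ.comp Cov.eqv_fst)
      (ON.orb_one hN.2 σ.v0) (hcl _) _ U _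
      (fun _ h => h.1) e1 e2 α' e3 e4
  by_cases hk : intg β₁ 1 (u ^ p ^ a) = 0
  · obtain ⟨e, he⟩ := hev.exists
    obtain ⟨β', h⟩ := main e (u ^ p ^ a) (α ∘ Cov.fst) he
      ((Cyc.smul_eq_iff _ _ _ _).2 ⟨hz1, by rw [hk]; exact dvd_zero _⟩)
      (of_full _ (pull_full Cov.eqv_fst hα)) (by rw [intg_pull Cov.eqv_fst]; exact hα')
    exact ⟨_, _, _, inferInstance, _, _, a, β', h⟩
  · have hf : FiniteMultiplicity (p : ℤ) (intg β₁ 1 (u ^ p ^ a)) :=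
      Int.finiteMultiplicity_iff.2 ⟨by simpa using hp.ne_one, hk⟩
    obtain ⟨m, hm, hpm⟩ := hf.exists_eq_pow_mul_and_not_dvd
    generalize multiplicity (p : ℤ) (intg β₁ 1 (u ^ p ^ a)) = ν at hm
    obtain ⟨e, he, hν⟩ := (hev.and (Filter.eventually_ge_atTop ν)).exists
    obtain ⟨d, rfl⟩ := Nat.exists_eq_add_of_le hν
    have hU : intg β₁ 1 (u ^ p ^ (a + d)) = ((p ^ (ν + d) : ℕ) : ℤ) * m := by
      rw [pow_add, pow_mul, intg_pow _ hz1, hm]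
      push_cast
      ring
    have hfix : u ^ p ^ (a + d) • (⟨1, 0⟩ : Cyc β₁ (p ^ (ν + d))) = ⟨1, 0⟩ := by
      refine (Cyc.smul_eq_iff _ _ _ _).2 ⟨?_, ?_⟩
      · rw [pow_add, pow_mul]
        exact pow_smul_eq hz1 _
      · rw [hU]
        exact Dvd.intro _ rfl
    obtain ⟨γ, hγ⟩ := h5 N.Q β₁ (p ^ (ν + d))
    have hne : ((p ^ (ν + d) : ℕ) : ℤ) ≠ 0 := by exact_mod_cast (pow_pos hp.pos _).ne'
    obtain ⟨β', h⟩ := main (ν + d) (u ^ p ^ (a + d)) (Int.castRingHom (ZMod p) ∘ γ) he hfix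
      (fun i b hs => by
        have e1 := hγ b (σ.r i) (hcl _ i b hs)
        rw [show intg β₁ b.fst (σ.r i) = 0 from hb i _ trivial] at e1
        have e2 := intg_map (Int.castRingHom (ZMod p)) γ b (σ.r i)
        rw [(mul_eq_zero.1 e1).resolve_left hne, map_zero] at e2
        exact e2.symm)
      (by
        have e1 := hγ _ _ hfix
        rw [hU] at e1
        rw [← intg_map, mul_left_cancel₀ hne e1]
        exact fun e => hpm ((ZMod.intCast_zmod_eq_zero_iff_dvd m p).1 e))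
    exact ⟨_, _, _, inferInstance, _, _, a + d, β', h⟩

theorem base (h1 : SpecGood p) (h2 : SpecInhInj p) (h3 : SpecSingle) (h4 : SpecRFL p)
    (h5 : SpecSwap) (h6 : SpecOpenInj p) (h7 : SpecOpenNe p) (h8 : SpecGC p) (h9 : SpecCupB p)
    (h10 : SpecCupC p) (h11 : SpecCupD p) (h12 : SpecFix p) (h13 : SpecN6 p) : SpecBase p := by
  intro σ U W _ _ _ π w β hS N a T hN hW hP hT
  have hp : p.Prime := Fact.out
  obtain ⟨hπ, hw, -, hU, hβ, hβU, hI, hI'⟩ := hS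
  obtain ⟨βg, hβg, hG⟩ := h1 σ
  obtain ⟨gI, gI', gC⟩ := hG N hN
  have hb := pull_full (ON.eqv_orb hN.2 σ.v0) hβg
  have key : ∀ c ∈ H2 (ZMod p) (oW (U ^ p ^ a) σ.r) (oS T (σ.SQ N)), c ≠ 0 →
      ∃ βc ∈ Zc σ.r (full σ.ι N.Q), OpenAt p (fun β' => (∀ v, T v → intg β' v (U ^ p ^ a) ≠ 0) →
        Cup p σ.r (σ.SQ N) (U ^ p ^ a) T c β') βc := by
    intro c hc h0
    by_cases hn : c none = 0
    · obtain ⟨e1, e2⟩ := some_mem_H2 hc h0 hn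
      exact ⟨_, hb, (h9 _ _ _ _ _ _ gI gI' (gC _ e1 e2)).mono p fun β' h h' =>
        h10 _ _ _ _ _ _ _ c hn h' h⟩
    · obtain ⟨t, ht⟩ := Function.ne_iff.1 hn
      have hcT := (mem_C2_oS.1 hc.1).1
      have hTt : T t := by
        by_contra h
        exact ht (hcT t h)
      have hρ := ON.eqv_orb hW (t.out⁻¹ • w)
      have hmem : β ∘ N.orb (t.out⁻¹ • w) ∈
          Zc (oW (U ^ p ^ a) σ.r) (oS (· = t) (full σ.ι N.Q)) := by
        refine mem_Z1_oS.2 ⟨?_, pull_full hρ hβ⟩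
        rintro v rfl
        have e1 : N.orb (v.out⁻¹ • w) v = w := by simp [ON.orb]
        have e2 := intg_pull hρ β v (U ^ p ^ a)
        rw [e1, intg_pow _ hU, hβU, mul_zero] at e2
        exact e2
      have i1 := inj_at p h2 h3 h4 h5 σ U W π w hπ hw hU β hβ hI N a hN hW hP t
      have i2 := inj_at p h2 h3 h4 h5 σ U W π w hπ hw hU (-β) (neg_mem hβ) hI' N a hN hW hP t
      obtain ⟨γ, hγ, ho⟩ := h8 N.Q (Zc (oW (U ^ p ^ a) σ.r) (oS (· = t) (full σ.ι N.Q)))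
        (Option (Option {t' : N.Q // T t' ∧ t' ≠ t}))
        (fun k β' => k.elim (Inj (wL p β') (oW (U ^ p ^ a) σ.r) (oS (· = t) (σ.SQ N)))
          fun k => k.elim (Inj (wL p (-β')) (oW (U ^ p ^ a) σ.r) (oS (· = t) (σ.SQ N)))
            fun t' => intg β' t'.1 (U ^ p ^ a) ≠ 0)
        (by
          rintro (_ | _ | t')
          · exact ⟨_, hmem, (h6 _ _ _ _ _).1 i1⟩
          · exact ⟨_, hmem, (h6 _ _ _ _ _).2 i2⟩
          · obtain ⟨γ, g1, g2, g3⟩ := hT t t'.1 hTt t'.2.1 t'.2.2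
            refine ⟨γ, mem_Z1_oS.2 ⟨?_, g1⟩, h7 _ _ _ _ g3⟩
            rintro v rfl
            exact g2) 0 1 one_ne_zero
      simp only [Nat.cast_one, one_smul, zero_add] at ho
      obtain ⟨g1, g2⟩ := mem_Z1_oS.1 hγ
      exact ⟨γ, g2, h11 _ _ _ _ _ _ _ c t hcT ht (g1 t rfl)
        (fun v hv hvt => (ho (some (some ⟨v, hv, hvt⟩))).self p) ((ho none).self p)
        ((ho (some none)).self p)⟩
  obtain ⟨β0, hβ0, hu⟩ := h12 _ _ _ _ hP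
  obtain ⟨γ, hγ, ho⟩ := h8 N.Q (Zc σ.r (full σ.ι N.Q))
    (Option {c : Option σ.ι → N.Q → ZMod p //
      c ∈ H2 (ZMod p) (oW (U ^ p ^ a) σ.r) (oS T (σ.SQ N)) ∧ c ≠ 0})
    (fun k β' => k.elim (Inj (wL p β') σ.r (σ.SQ N))
      fun c => (∀ v, T v → intg β' v (U ^ p ^ a) ≠ 0) →
        Cup p σ.r (σ.SQ N) (U ^ p ^ a) T c.1 β')
    (by
      rintro (_ | c)
      · exact ⟨_, hb, (h6 _ _ _ _ _).1 gI⟩
      · exact key c.1 c.2.1 c.2.2) β0 p hp.ne_zero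
  have hmem : β0 + (p : ℤ) • γ ∈ Zc σ.r (full σ.ι N.Q) :=
    add_mem hβ0 (Submodule.smul_mem _ _ hγ)
  have hnd : ∀ q : N.Q, ¬ (p : ℤ) ∣ intg (β0 + (p : ℤ) • γ) q (U ^ p ^ a) := fun q h => by
    rw [intg, pr_add, pr_smul] at h
    exact hu q ((dvd_add_left (Dvd.intro _ rfl)).1 h)
  refine ⟨_, hmem, hnd, h13 _ N.Q σ.r (σ.SQ N) _ T _ (hN.1.closed _) (of_full _ hmem)
    (fun v _ => (N.smul_eq_iff _ v).2 hP.1) (fun v _ => hnd v) ((ho none).self p)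
    (fun c hc h0 => (ho (some ⟨c, hc, h0⟩)).self p fun v _ e => hnd v ?_) 0⟩
  rw [e]
  exact dvd_zero _

end H94G
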