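import Pool.Agent.MP_c98bf6_al.H94.Lin

/-! Tight levels. -/

set_option autoImplicit false

open Module

noncomputable section

namespace H94G

variable (p : ℕ) [Fact p.Prime]

namespace TightA

section gen
variable {ι V V' : Type} [Fintype ι] [Fintype V] [Fintype V'] [MulAction F V] [MulAction F V']

/-- integration along a fixed path -/
def lam (v : V) (f : F) : (V → ℤ) →ₗ[ℤ] ℤ where
  toFun γ := intg γ v f
  map_add' a b := pr_add _ a b v f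
  map_smul' c a := pr_smul _ c a v f

omit [Fintype ι] in
theorem pull {r : ι → F} {π : V' → V} (h : Eqv π) {γ : V → ℤ} (hγ : γ ∈ Zc r (full ι V)) :
    γ ∘ π ∈ Zc r (full ι V') := fun i v _ => (intg_pull h γ v (r i)).trans (hγ i _ trivial)

omit [Fact p.Prime] [Fintype ι] in
theorem inL_mul {r : ι → F} {U f : F} {N : ON p} (h : InL r U N f) (l : ℕ) :
    InL r U N (U ^ l * f) := fun o ho γ hγ => by
  rw [← h o ho γ hγ, ← N.smul_mk, ← intg_conj γ (f : N.Q) (U ^ o) (U ^ l)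
    ((N.smul_eq_iff _ _).2 ho)]
  congr 1
  rw [mul_assoc, ← pow_add, add_comm, pow_add]
  group

end gen

omit [Fact p.Prime] in
theorem pow_mem_iff (N : ON p) (U : F) (l : ℕ) : U ^ l ∈ N.M ↔ orderOf (U : N.Q) ∣ l := by
  rw [orderOf_dvd_iff_pow_eq_one, ← QuotientGroup.mk_pow, QuotientGroup.eq_one_iff]

theorem exists_j {c : ℤ} (hc : ¬ (p : ℤ) ∣ c) (e : ℕ) :
    IsCoprime ((p : ℤ) ^ e) c ∧ ∀ t : ℤ, ∃ j : ℕ, (p : ℤ) ^ e ∣ t + j * c := by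
  have hp : Prime (p : ℤ) := Nat.prime_iff_prime_int.1 Fact.out
  have h1 : IsCoprime ((p : ℤ) ^ e) c := (hp.coprime_iff_not_dvd.2 hc).pow_left
  refine ⟨h1, fun t => ?_⟩
  obtain ⟨u, v, h⟩ := h1
  have h0 : (p : ℤ) ^ e ≠ 0 := pow_ne_zero _ hp.ne_zero
  refine ⟨((-t * v) % (p : ℤ) ^ e).toNat, ?_⟩
  rw [Int.toNat_of_nonneg (Int.emod_nonneg _ h0), Int.emod_def]
  exact ⟨t * u - -t * v / (p : ℤ) ^ e * c, by linear_combination (-t) * h⟩

variable {ι W : Type} [Fintype ι] [Fintype W] [MulAction F W] {r : ι → F} {S : ι → W → Prop}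
  {U : F} {w : W} {β : W → ℤ}

/-- the conclusion of the row on loops in a cyclic cover -/
def NPc (r : ι → F) (U : F) (w : W) (N : ON p) (β₁ : N.Q → ℤ) (e : ℕ) : Prop :=
  ∀ a : Cyc β₁ (p ^ e), N.orb w a.fst = w →
    (∃ γ ∈ Zc r (full ι (Cyc β₁ (p ^ e))), ¬ (p : ℤ) ∣ intg γ a (U ^ orderOf (U : N.Q))) ∧
    ∀ a' : Cyc β₁ (p ^ e), N.orb w a'.fst = w →
      (∀ γ ∈ Zc r (full ι (Cyc β₁ (p ^ e))),
        intg γ a (U ^ orderOf (U : N.Q)) = intg γ a' (U ^ orderOf (U : N.Q))) →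
      ∃ l : ℕ, U ^ l • a' = a

/-- injectivity with the extra cells -/
abbrev InjP (r : ι → F) (S : ι → W → Prop) (U : F) (w : W) (N : ON p) (β₁ : N.Q → ℤ) : Prop :=
  Inj (wL p β₁) (oW U r) (oS (fun q => N.orb w q = w) (pb S (N.orb w)))

variable {p}

omit [Fintype W] in
theorem np (h2 : SpecNP p) (h3 : SpecRed p) (hG : GEN p r S) (hU : U • w = w) {N : ON p}
    (hN : N.Rel r) (hT : N.Triv W) {β₁ : N.Q → ℤ} (hβ : β₁ ∈ Zc r (full ι N.Q))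
    (hI : InjP p r S U w N β₁) : ∀ᶠ e : ℕ in Filter.atTop, NPc p r U w N β₁ e := by
  have := h2 ι N.Q r (pb S (N.orb w)) U (fun q => N.orb w q = w) β₁ (orderOf (U : N.Q))
    (orderOf_pos _) (fun v hv => by rw [ON.eqv_orb hT, hv, hU]) (fun v _ l l0 l1 e =>
      absurd (Nat.le_of_dvd l0 ((pow_mem_iff p N U l).1 ((N.smul_eq_iff _ v).1 e))) (by omega)) hI
  refine this.mono fun e he => ?_
  rw [h3 ι (Cyc β₁ (p ^ e)) r _ ((hG.pb (ON.eqv_orb hT w)).pb Cov.eqv_fst)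
    (closed_cyc (hN.closed _) (fun i v _ => hβ i v trivial) _)] at he
  exact he

omit [Fact p.Prime] in
theorem injP (h1 : SpecInhInj p) (hI : Inj (wL p β) (oW U r) (oS (· = w) S)) {N : ON p}
    (hT : N.Triv W) : InjP p r S U w N (β ∘ N.orb w) := by
  have := h1 _ W _ _ β N w hT hI
  rwa [pb_oS] at this

omit [Fact p.Prime] in
theorem star_zero (hU : U • w = w) (h0 : intg β w U = 0) {N : ON p} (hT : N.Triv W) (m : ℕ) :
    intg (β ∘ N.orb w) 1 (U ^ m) = 0 := by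
  rw [intg_pull (ON.eqv_orb hT w), ON.orb_one hT, intg_pow _ hU, h0, mul_zero]

theorem prim (h1 : SpecInhInj p) (h2 : SpecNP p) (h3 : SpecRed p) (h4 : SpecHom p)
    (hG : GEN p r S) (hU : U • w = w) (hβ : β ∈ Zc r (full ι W)) (h0 : intg β w U = 0)
    (hI : Inj (wL p β) (oW U r) (oS (· = w) S)) {N : ON p} (hN : N.Rel r) (hT : N.Triv W) :
    ∃ N' : ON p, N'.Rel r ∧ N'.M ≤ N.M ∧ ∃ β0 ∈ Zc r (full ι N'.Q),
      ¬ (p : ℤ) ∣ intg β0 1 (U ^ orderOf (U : N'.Q)) := by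
  classical
  have hp : p.Prime := Fact.out
  have hs := pull (ON.eqv_orb hT w) hβ
  obtain ⟨e, he⟩ := (np h2 h3 hG hU hN hT hs (injP h1 hI hT)).exists
  let a : Cyc (β ∘ N.orb w) (p ^ e) := ⟨1, 0⟩
  obtain ⟨γ, g1, g2⟩ := (he a (ON.orb_one hT w)).1
  have fa : U ^ orderOf (U : N.Q) • a = a := (Cyc.smul_eq_iff _ _ _ a).2
    ⟨(N.smul_eq_iff _ _).2 ((pow_mem_iff p N U _).2 dvd_rfl), by
      rw [show a.fst = 1 from rfl, star_zero hU h0 hT]; exact dvd_zero _⟩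
  let N2 := N.inf (ON.ker p (Cyc (β ∘ N.orb w) (p ^ e)))
  have r2 : N2.Rel r := hN.inf (rel_ker (closed_cyc (hN.closed _) hs _))
  have t2 : N2.Triv (Cyc (β ∘ N.orb w) (p ^ e)) := ON.triv_ker.mono inf_le_right
  obtain ⟨k, hk⟩ := N2.pexp U
  obtain ⟨j, hj⟩ := (pow_mem_iff p N U _).1 hk.1
  have ne : intg (γ ∘ N2.orb a) 1 (U ^ p ^ k) ≠ 0 := by
    rw [intg_pull (ON.eqv_orb t2 a), ON.orb_one t2, hj, pow_mul, intg_pow _ fa]
    refine mul_ne_zero ?_ fun z => g2 (z ▸ dvd_zero _)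
    rintro z
    have : j = 0 := by exact_mod_cast z
    rw [this, mul_zero] at hj
    exact pow_ne_zero k hp.ne_zero hj
  have ex : ∃ ν : ℕ, ∃ γ ∈ Zc r (full ι N2.Q), ¬ (p : ℤ) ^ (ν + 1) ∣ intg γ 1 (U ^ p ^ k) := by
    refine ⟨(intg (γ ∘ N2.orb a) 1 (U ^ p ^ k)).natAbs, _, pull (ON.eqv_orb t2 a) g1, fun d => ?_⟩
    have h1 := Nat.le_of_dvd (Int.natAbs_pos.2 ne) (Int.natAbs_dvd_natAbs.2 d)
    rw [Int.natAbs_pow, Int.natAbs_natCast] at h1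
    have := Nat.lt_pow_self (n := (intg (γ ∘ N2.orb a) 1 (U ^ p ^ k)).natAbs + 1) hp.one_lt
    omega
  obtain ⟨N', n1, n2, -, n4⟩ := h4 ι r N2 (Nat.find ex) r2
  have zm : U ^ p ^ k ∈ N'.M := (n2 _).2 ⟨hk, fun γ hγ => by
    rcases e : Nat.find ex with _ | ν
    · simp
    · by_contra d
      exact Nat.find_min ex (m := ν) (by omega) ⟨γ, hγ, d⟩⟩
  obtain ⟨-, β0, b1, b2⟩ := n4 _ zm (Nat.find_spec ex)
  refine ⟨N', n1, fun f hf => ((n2 f).1 hf).1.1, β0, b1, fun d => b2 ?_⟩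
  obtain ⟨i, hi⟩ := (pow_mem_iff p N' U _).1 zm
  rw [hi, pow_mul, intg_pow _ ((N'.smul_eq_iff _ _).2 ((pow_mem_iff p N' U _).2 dvd_rfl))]
  exact d.mul_left _

omit [Fintype W] [Fintype ι] in
theorem key {N' N0 : ON p} (hT : N'.Triv W) (hle : N0.M ≤ N'.M) {β₁ : N'.Q → ℤ} {e : ℕ}
    (hβ : β₁ ∈ Zc r (full ι N'.Q)) (hz : intg β₁ 1 (U ^ orderOf (U : N'.Q)) = 0)
    (hnp : NPc p r U w N' β₁ e) (t0 : N0.Triv (Cyc β₁ (p ^ e)))
    (hm : (U ^ orderOf (U : N'.Q)) ^ p ^ e ∈ N0.M) {f : F} (hf : f • w = w) (hL : InL r U N0 f) :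
    ∃ l : ℕ, U ^ l * f ∈ N'.M ∧ (p : ℤ) ^ e ∣ intg β₁ 1 (U ^ l * f) := by
  have hp : p.Prime := Fact.out
  have p0 : ((p ^ e : ℕ) : ℤ) ≠ 0 := by exact_mod_cast pow_ne_zero e hp.ne_zero
  have zm : U ^ orderOf (U : N'.Q) ∈ N'.M := (pow_mem_iff p N' U _).2 dvd_rfl
  have hL' := hL _ (by rwa [pow_mul])
  rw [pow_mul] at hL'
  let a : Cyc β₁ (p ^ e) := ⟨1, 0⟩
  have fa : U ^ orderOf (U : N'.Q) • a = a := (Cyc.smul_eq_iff _ _ _ a).2
    ⟨(N'.smul_eq_iff _ _).2 zm, by rw [show a.fst = 1 from rfl, hz]; exact dvd_zero _⟩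
  have t1 : N0.Triv N'.Q := ON.triv_Q.2 hle
  have fa' : U ^ orderOf (U : N'.Q) • f • a = f • a := by
    refine (Cyc.smul_eq_iff _ _ _ _).2 ⟨(N'.smul_eq_iff _ _).2 zm, ?_⟩
    have := hL' _ (pull (ON.eqv_orb t1 1) hβ)
    rw [intg_pull (ON.eqv_orb t1 1), intg_pull (ON.eqv_orb t1 1), ON.orb_one t1, ON.orb_mk t1,
      intg_pow _ ((N'.smul_eq_iff _ _).2 zm), intg_pow _ ((N'.smul_eq_iff _ _).2 zm), hz,
      mul_zero] at this
    rw [show (f • a).fst = f • 1 from rfl, (mul_eq_zero.1 this).resolve_left p0]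
    exact dvd_zero _
  obtain ⟨l, hl⟩ := (hnp a (ON.orb_one hT w)).2 (f • a)
    (by rw [Cov.smul_fst, ON.eqv_orb hT, show a.fst = 1 from rfl, ON.orb_one hT, hf])
    fun γ hγ => by
      have := hL' _ (pull (ON.eqv_orb t0 a) hγ)
      rw [intg_pull (ON.eqv_orb t0 a), intg_pull (ON.eqv_orb t0 a), ON.orb_one t0, ON.orb_mk t0,
        intg_pow _ fa', intg_pow _ fa] at this
      exact (mul_left_cancel₀ p0 this).symm
  rw [← mul_smul, Cyc.smul_eq_iff] at hl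
  exact ⟨l, (N'.smul_eq_iff _ _).1 hl.1, by exact_mod_cast hl.2⟩

end TightA

open TightA

theorem tight (h1 : SpecInhInj p) (h2 : SpecNP p) (h3 : SpecRed p) (h4 : SpecHom p)
    (h5 : SpecGC1 p) (h6 : SpecOpenInj p) : SpecTight p := by
  intro ι W _ _ _ _ r S U w β hG _ hU hβ h0 hI N hN hle
  have hp : p.Prime := Fact.out
  have hT : N.Triv W := ON.triv_iff.2 hle
  obtain ⟨N', n1, n2, β0, b1, b2⟩ := prim h1 h2 h3 h4 hG hU hβ h0 hI hN hT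
  have t' : N'.Triv W := hT.mono n2
  have zm : U ^ orderOf (U : N'.Q) ∈ N'.M := (pow_mem_iff p N' U _).2 dvd_rfl
  have fx : ∀ {f : F}, f ∈ N'.M → f • (1 : N'.Q) = 1 := fun h => (N'.smul_eq_iff _ _).2 h
  let Z0 := Zc r (full ι N'.Q) ⊓ LinearMap.ker (lam (1 : N'.Q) (U ^ orderOf (U : N'.Q)))
  have s0 : β ∘ N'.orb w ∈ Z0 := ⟨pull (ON.eqv_orb t' w) hβ, star_zero hU h0 t' _⟩
  have i0 := injP h1 hI t'
  obtain ⟨s, hs⟩ : Z0.FG := IsNoetherian.noetherian Z0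
  have ch : ∀ γ : N'.Q → ℤ, ∃ M : ℕ, InjP p r S U w N' (γ + (M : ℤ) • (β ∘ N'.orb w)) := fun γ =>
    (h5 _ _ _ γ ((h6 _ _ _ _ _).1 i0)).exists.imp fun M h => h.1.self
  choose M hM using ch
  have sz : ∀ γ ∈ s, γ + (M γ : ℤ) • (β ∘ N'.orb w) ∈ Z0 := fun γ hγ =>
    Z0.add_mem (hs ▸ Submodule.subset_span hγ) (Z0.smul_mem _ s0)
  obtain ⟨e, e1, e2⟩ := ((np h2 h3 hG hU n1 t' s0.1 i0).and ((Filter.eventually_all_finset s).2
    fun γ hγ => np h2 h3 hG hU n1 t' (sz γ hγ).1 (hM γ))).exists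
  obtain ⟨N0, m1, m2, m3, m4⟩ := h4 ι r N' e n1
  have le0 : N0.M ≤ N'.M := fun f hf => ((m2 f).1 hf).1
  have z0 : (U ^ orderOf (U : N'.Q)) ^ p ^ e ∈ N0.M := (m2 _).2 ⟨pow_mem zm _, fun γ _ => by
    rw [intg_pow _ (fx zm)]
    push_cast
    exact dvd_mul_right _ _⟩
  refine ⟨N0, m1, le0.trans n2, ?_, fun f hf hL => ?_⟩
  · obtain ⟨k, hk⟩ := N'.pexp U
    obtain ⟨a, -, ha⟩ := (Nat.dvd_prime_pow hp).1 ((pow_mem_iff p N' U _).1 hk)
    refine ⟨a + e, ?_⟩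
    rw [pow_add, pow_mul, ← ha]
    refine m4 _ z0 ⟨β0, b1, fun d => b2 ?_⟩
    rw [intg_pow _ (fx zm), pow_succ] at d
    push_cast at d
    exact (mul_dvd_mul_iff_left (pow_ne_zero e (by exact_mod_cast hp.ne_zero))).1 d
  have st : ∀ l : ℕ, (U ^ l * f) • w = w := fun l => by
    rw [mul_smul, show f • w = w from hf, pow_smul_eq hU]
  obtain ⟨l, l1, -⟩ := key t' le0 s0.1 s0.2 e1 (m3 _ s0.1) z0 hf hL
  obtain ⟨cop, hj⟩ := exists_j p b2 e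
  obtain ⟨j, hj⟩ := hj (intg β0 1 (U ^ l * f))
  have e0 : U ^ (orderOf (U : N'.Q) * j + l) * f = (U ^ orderOf (U : N'.Q)) ^ j * (U ^ l * f) := by
    rw [pow_add, pow_mul, mul_assoc]
  generalize orderOf (U : N'.Q) * j + l = k at e0
  have f1 : U ^ k * f ∈ N'.M := e0 ▸ mul_mem (pow_mem zm j) l1
  have d0 : (p : ℤ) ^ e ∣ intg β0 1 (U ^ k * f) := by
    rwa [e0, intg_mul, fx l1, intg_pow _ (fx zm)]
  have kk : ∀ β₁ ∈ Z0, NPc p r U w N' β₁ e → (p : ℤ) ^ e ∣ intg β₁ 1 (U ^ k * f) := by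
    intro β₁ c1 c2
    obtain ⟨i, i1, i2⟩ := key t' le0 c1.1 c1.2 c2 (m3 _ c1.1) z0 (st k) (inL_mul p hL k)
    obtain ⟨t, rfl⟩ := (pow_mem_iff p N' U i).1 ((N'.M.mul_mem_cancel_right f1).1 i1)
    rwa [intg_mul, fx f1, pow_mul, intg_pow _ (fx zm),
      show intg β₁ 1 (U ^ orderOf (U : N'.Q)) = 0 from c1.2, mul_zero, add_zero] at i2
  have all0 : ∀ γ ∈ Z0, (p : ℤ) ^ e ∣ lam (1 : N'.Q) (U ^ k * f) γ := by
    intro γ hγ
    rw [← hs] at hγ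
    induction hγ using Submodule.span_induction with
    | mem γ hγ =>
      have a1 : (p : ℤ) ^ e ∣ lam (1 : N'.Q) (U ^ k * f) _ := kk _ (sz γ hγ) (e2 γ hγ)
      have a2 : (p : ℤ) ^ e ∣ lam (1 : N'.Q) (U ^ k * f) _ := kk _ s0 e1
      rw [map_add, map_smul] at a1
      exact (dvd_add_left (a2.mul_left _)).1 a1
    | zero => simp
    | add a b _ _ ha hb => rw [map_add]; exact ha.add hb
    | smul c a _ ha => rw [map_smul]; exact ha.mul_left c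
  have fin : U ^ k * f ∈ N0.M := (m2 _).2 ⟨f1, fun γ hγ => by
    have := all0 (intg β0 1 (U ^ orderOf (U : N'.Q)) • γ - intg γ 1 (U ^ orderOf (U : N'.Q)) • β0)
      ⟨sub_mem (Submodule.smul_mem _ _ hγ) (Submodule.smul_mem _ _ b1), by
        change lam _ _ _ = 0
        rw [map_sub, map_smul, map_smul]
        exact sub_eq_zero.2 (mul_comm _ _)⟩
    rw [map_sub, map_smul, map_smul] at this
    exact cop.dvd_of_dvd_mul_left ((dvd_sub_left (d0.mul_left _)).1 this)⟩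
  rw [show f = (U ^ k)⁻¹ * (U ^ k * f) by group]
  exact Subgroup.mul_mem_sup (inv_mem (Subgroup.npow_mem_zpowers U k)) fin

end H94G
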