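import Pool.Agent.MP_c98bf6_al.H94.Tate
import Pool.Agent.MP_c98bf6_al.H94.Tight
import Pool.Agent.MP_c98bf6_al.H94.EAn
import Pool.Agent.MP_c98bf6_al.H94.FO
import Pool.Agent.MP_c98bf6_al.H94.Cup
import Pool.Agent.MP_c98bf6_al.H94.Inh
import Pool.Agent.MP_c98bf6_al.H94.Jump
import Pool.Agent.MP_c98bf6_al.H94.Star
import Pool.Agent.MP_c98bf6_al.H94.Open
import Pool.Agent.MP_c98bf6_al.H94.NP
import Pool.Agent.MP_c98bf6_al.H94.NC
import Pool.Agent.MP_c98bf6_al.H94.RFL
import Pool.Agent.MP_c98bf6_al.H94.N6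
import Pool.Agent.MP_c98bf6_al.H94.Final

set_option autoImplicit false

namespace H94G

theorem goal (p : ℕ) [Fact p.Prime] (hp : p ≠ 2) : Goal p := by
  have hG := good p (fo p) (redc p) (cupA p kerOpen) (inhInj p) (inhCup p)
  have hT : ∀ σ : State p, σ.CZ ∧ σ.F1 := fun σ => tate p (sharp p) σ (pzs p hG (pz p) σ)
  exact final p hT (step p hp hT (nc p)
    (star p hG (jump p) (n6 p) (cupC p) carry (extc p) (fo p) (redc p))
    (tight p (inhInj p) (np p (aperp p)) (redc p) (homc p) (gc1 p) (openInj p)) (eAn p)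
    (base p hG (inhInj p) single (rfl' p) swap (openInj p) (openNe p) (gc p) (cupB p kerOpen)
      (cupC p) (cupD p kerOpen) (fixv p) (n6 p)) (sharp p))

end H94G
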