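import Pool.Agent.MP_c98bf6_al.H94.Tw

set_option autoImplicit false

open Module

noncomputable section

namespace H94G

section Cap
variable {V V' : Type} [MulAction F V] [MulAction F V'] {A : Type} [CommRing A]
  {K : Type} [CommRing K] [Algebra K A]

omit [MulAction F V] in
@[simp] theorem dg_apply (α : V → A) (w : V → K) (v : V) : dg K α w v = w v • α v := rfl

@[simp] theorem ext_X (ω : V → Aˣ) (α : V → A) (u : (V → K) × (V → A)) :
    (ext K ω α).X u = ((un K V).X u.1, (tw ω).X u.2) := rfl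

@[simp] theorem ext_Y (ω : V → Aˣ) (α : V → A) (u : (V → K) × (V → A)) :
    (ext K ω α).Y u = ((un K V).Y u.1, (tw ω).Y (u.2 + dg K α u.1)) := by
  rw [map_add]; rfl

theorem ext_D (ω : V → Aˣ) (α : V → A) (f : F) (w' : V → K) (w : V → A) :
    (ext K ω α).D f (w', w) = ((un K V).D f w', kap ω f w' α + (tw ω).D f w) := by
  rw [ext, Act.skew_D, Act.res_D]; rfl

theorem ext_rho (ω : V → Aˣ) (α : V → A) (f : F) (w' : V → K) (w : V → A) :
    (ext K ω α).rho f (w', w) =
      ((un K V).rho f w', ((ext K ω α).rho f (w', 0)).2 + (tw ω).rho f w) := by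
  rw [ext, Act.skew_rho, Act.res_rho]

/-- Pairing formula. -/
theorem ext_rho_dl [Fintype V] (ω : V → Aˣ) (α : V → A) (f : F) (v : V) :
    (ext K ω α).rho f (dl K v, 0) =
      (dl K (f • v), (hol ω v f * pr ω α v f) • dl A (f • v)) := by
  classical
  induction f using F_ind generalizing v with
  | h1 => simp
  | hx =>
    have h1 := un_rho_dl (A := K) x v
    rw [Act.rho_x] at h1
    simp [h1]
  | hy =>
    have h1 := un_rho_dl (A := K) y v
    have h2 := tw_rho_dl ω y v
    rw [Act.rho_y] at h1 h2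
    have h3 : dg K α (dl K v) = α v • dl A v := by
      funext u; simp only [dg_apply, dl_apply, Pi.smul_apply]; split_ifs with h <;> simp [h]
    simp only [Act.rho_y, ext_Y, h1, zero_add, h3, map_smul, h2, hol_y, pr_y, smul_smul,
      mul_comm]
  | hinv f h =>
    apply ((ext K ω α).rho f).injective
    rw [Act.rho_rho_inv, ext_rho, un_rho_dl, h, map_smul, tw_rho_dl, smul_inv_smul, smul_smul,
      ← add_smul]
    have h1 := hol_mul ω v f f⁻¹
    have h2 := pr_mul ω α v f f⁻¹
    rw [mul_inv_cancel] at h1 h2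
    rw [hol_one] at h1; rw [pr_one] at h2
    have h3 := hol_inv_mul ω v f⁻¹
    have : hol ω (f⁻¹ • v) f * pr ω α (f⁻¹ • v) f +
        hol ω v f⁻¹ * pr ω α v f⁻¹ * hol ω (f⁻¹ • v) f = 0 := by
      linear_combination (-(hol ω v f⁻¹ * hol ω (f⁻¹ • v) f)) * h2
        - (hol ω (f⁻¹ • v) f * pr ω α (f⁻¹ • v) f) * h3
    rw [this, zero_smul]
  | hmul f g hf hg =>
    rw [Act.rho_mul, hg, ext_rho, un_rho_dl, hf, map_smul, tw_rho_dl, mul_smul f g v,
      smul_smul (hol ω v g * pr ω α v g), ← add_smul, hol_mul, pr_mul]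
    congr 2
    linear_combination (-(hol ω (g • v) f * pr ω α (g • v) f)) * hol_inv_mul ω v g

theorem kap_add_left (ω : V → Aˣ) (f : F) (w w' : V → K) (α : V → A) :
    kap ω f (w + w') α = kap ω f w α + kap ω f w' α := by
  have : ((w + w', 0) : (V → K) × (V → A)) = (w, 0) + (w', 0) := by simp
  rw [kap, this, map_add]; rfl

theorem kap_smul_left (ω : V → Aˣ) (f : F) (c : K) (w : V → K) (α : V → A) :
    kap ω f (c • w) α = c • kap ω f w α := by
  have : ((c • w, 0) : (V → K) × (V → A)) = c • (w, 0) := by simp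
  rw [kap, this, map_smul]; rfl

theorem kap_add_right (ω : V → Aˣ) (f : F) (w : V → K) (α α' : V → A) :
    kap ω f w (α + α') = kap ω f w α + kap ω f w α' := by
  let b : Act K ((V → A) × (V → A)) := ((tw ω).res K).skew ((tw ω).res K) 0
  let g := fun α : V → A => ((tw ω).Y.restrictScalars K).toLinearMap ∘ₗ dg K α
  let a := (un K V).skew b ((g α).prod (g α'))
  have h1 := Act.nat_D a (ext K ω α)
    ((AddMonoidHom.id _).prodMap (AddMonoidHom.fst _ _)) (fun _ => rfl)
    (fun u => by simp [a, b, g]) f (w, 0)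
  have h2 := Act.nat_D a (ext K ω α')
    ((AddMonoidHom.id _).prodMap (AddMonoidHom.snd _ _)) (fun _ => rfl)
    (fun u => by simp [a, b, g]) f (w, 0)
  have h3 := Act.nat_D a (ext K ω (α + α'))
    ((AddMonoidHom.id _).prodMap (AddMonoidHom.fst _ _ + AddMonoidHom.snd _ _))
    (fun u => by simp [a, b])
    (fun u => by
      simp only [a, b, g, ext_Y]
      ext v
      · simp
      · simp [Algebra.smul_def]; ring) f (w, 0)
  have e1 := congrArg Prod.snd h1
  have e2 := congrArg Prod.snd h2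
  have e3 := congrArg Prod.snd h3
  simp at e1 e2 e3
  unfold kap
  rw [← e1, ← e2, ← e3]

theorem kap_smul_right (ω : V → Aˣ) (f : F) (w : V → K) (c : A) (α : V → A) :
    kap ω f w (c • α) = c • kap ω f w α := by
  have h1 := Act.nat_D (ext K ω α) (ext K ω (c • α))
    ((AddMonoidHom.id _).prodMap (DistribSMul.toAddMonoidHom (V → A) c))
    (fun u => by simp)
    (fun u => by
      ext v
      · simp
      · simp [Algebra.smul_def]; ring) f (w, 0)
  have e1 := congrArg Prod.snd h1
  simp at e1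
  unfold kap
  rw [← e1]

/-- `kap` as a linear map in the cochain. -/
def kapL (ω : V → Aˣ) (f : F) (w : V → K) : (V → A) →ₗ[A] (V → A) where
  toFun := kap ω f w
  map_add' := kap_add_right ω f w
  map_smul' := kap_smul_right ω f w

/-- `kap` as a linear map in the chain. -/
def kapC (K : Type) [CommRing K] [Algebra K A] (ω : V → Aˣ) (f : F) (α : V → A) :
    (V → K) →ₗ[K] (V → A) where
  toFun w := kap ω f w α
  map_add' w w' := kap_add_left ω f w w' α
  map_smul' c w := kap_smul_left ω f c w α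

@[simp] theorem kapL_apply (ω : V → Aˣ) (f : F) (w : V → K) (α : V → A) :
    kapL ω f w α = kap ω f w α := rfl

@[simp] theorem kapC_apply (ω : V → Aˣ) (f : F) (w : V → K) (α : V → A) :
    kapC K ω f α w = kap ω f w α := rfl

@[simp] theorem kap_zero_left (ω : V → Aˣ) (f : F) (α : V → A) : kap ω f (0 : V → K) α = 0 :=
  (kapC K ω f α).map_zero

@[simp] theorem kap_zero_right (ω : V → Aˣ) (f : F) (w : V → K) : kap ω f w (0 : V → A) = 0 :=
  (kapL ω f w).map_zero

theorem kap_map {A' : Type} [CommRing A'] [Algebra K A'] (φ : A →ₐ[K] A') {ω : V → Aˣ}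
    {ω' : V → A'ˣ} (h : ∀ v, (ω' v : A') = φ (ω v)) (f : F) (w : V → K) (α : V → A) :
    φ ∘ kap ω f w α = kap ω' f w (φ ∘ α) := by
  have h1 := Act.nat_D (ext K ω α) (ext K ω' (φ ∘ α))
    ((AddMonoidHom.id _).prodMap (φ.toRingHom.toAddMonoidHom.compLeft V))
    (fun u => rfl)
    (fun u => by
      ext v
      · simp
      · simp [h]) f (w, 0)
  have e1 := congrArg Prod.snd h1
  simp only [AddMonoidHom.coe_prodMap, Prod.map_snd, Prod.map_apply, map_zero] at e1
  exact e1

theorem kap_pull {π : V' → V} (h : Eqv π) (ω : V → Aˣ) (f : F) (w : V → K) (α : V → A) :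
    kap ω f w α ∘ π = kap (ω ∘ π) f (w ∘ π) (α ∘ π) := by
  have h1 := Act.nat_D (ext K ω α) (ext K (ω ∘ π) (α ∘ π))
    ((LinearMap.funLeft K K π).toAddMonoidHom.prodMap (LinearMap.funLeft A A π).toAddMonoidHom)
    (fun u => by ext v <;> simp [h.inv])
    (fun u => by ext v <;> simp [h.inv]) f (w, 0)
  have e1 := congrArg Prod.snd h1
  simp only [AddMonoidHom.coe_prodMap, Prod.map_snd, Prod.map_apply, map_zero] at e1
  exact e1

/-- Multiplication by an invariant function. -/
theorem kap_mulfun (ω : V → Aˣ) (e : V → K) (he : ∀ (f : F) v, e (f • v) = e v) (f : F)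
    (w : V → K) (α : V → A) : dg K (kap ω f w α) e = kap ω f (e * w) α := by
  have h1 := Act.nat_D (ext K ω α) (ext K ω α)
    ((AddMonoidHom.mulLeft e).prodMap (AddMonoidHom.mulLeft fun v => algebraMap K A (e v)))
    (fun u => by ext v <;> simp [he])
    (fun u => by
      ext v
      · simp [he]
      · simp [he, Algebra.smul_def]; ring) f (w, 0)
  have e1 := congrArg Prod.snd h1
  simp only [AddMonoidHom.coe_prodMap, Prod.map_snd, Prod.map_apply, map_zero] at e1
  unfold kap
  funext v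
  have := congrFun e1 v
  simp only [AddMonoidHom.coe_mulLeft, Pi.mul_apply] at this
  rw [dg_apply, Algebra.smul_def, this]

end Cap

/-! ### Complexes -/
section Cx
variable {ι V V' : Type} [Fintype ι] [Fintype V] [MulAction F V] [Fintype V'] [MulAction F V']
  {A : Type} [CommRing A]

omit [Fintype ι] [Fintype V] [MulAction F V] in
theorem mem_C2 {S : ι → V → Prop} {b : ι → V → A} :
    b ∈ C2 A S ↔ ∀ i v, ¬ S i v → b i v = 0 := Iff.rfl

omit [Fintype ι] in
theorem mem_Z1 {ω : V → Aˣ} {r : ι → F} {S : ι → V → Prop} {α : V → A} :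
    α ∈ Z1 ω r S ↔ ∀ i v, S i v → pr ω α v (r i) = 0 := Iff.rfl

omit [Fintype V] in
theorem bd_apply (ω : V → Aˣ) (r : ι → F) (b : ι → V → A) :
    bd ω r b = ∑ i, (tw ω).D (r i) (b i) := by simp [bd]

omit [Fintype V] in
theorem mem_Bred {ω : V → Aˣ} {r : ι → F} {S : ι → V → Prop} {w : V → A} :
    w ∈ Bred ω r S ↔ ∃ b ∈ C2 A S, bd ω r b = w := Iff.rfl

omit [Fintype V] in
theorem mem_H2 {K : Type} [CommRing K] {r : ι → F} {S : ι → V → Prop} {c : ι → V → K} :
    c ∈ H2 K r S ↔ c ∈ C2 K S ∧ bd 1 r c = 0 := Iff.rfl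

omit [Fintype V] in
theorem D_mem_Bred (ω : V → Aˣ) (r : ι → F) (S : ι → V → Prop) (i : ι) (w : V → A)
    (h : ∀ v, ¬ S i v → w v = 0) : (tw ω).D (r i) w ∈ Bred ω r S := by
  classical
  refine ⟨Pi.single i w, fun j v hj => ?_, ?_⟩
  · by_cases hij : j = i
    · subst hij; simp [h v hj]
    · simp [hij]
  · rw [bd_apply, Finset.sum_eq_single i] <;> simp +contextual

omit [Fintype V] in
theorem D_dl_mem_Bred (ω : V → Aˣ) (r : ι → F) {S : ι → V → Prop} {i : ι} {v : V}
    (h : S i v) : (tw ω).D (r i) (dl A v) ∈ Bred ω r S :=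
  D_mem_Bred ω r S i _ fun _ hu => dl_ne fun e => hu (e ▸ h)

/-- `Bred` is spanned by the boundaries of the cells. -/
theorem Bred_le {ω : V → Aˣ} {r : ι → F} {S : ι → V → Prop} {B : Submodule A (V → A)}
    (h : ∀ i v, S i v → (tw ω).D (r i) (dl A v) ∈ B) : Bred ω r S ≤ B := by
  rintro _ ⟨b, hb, rfl⟩
  rw [bd_apply]
  refine B.sum_mem fun i _ => ?_
  rw [← sum_dl (b i), map_sum]
  refine B.sum_mem fun v _ => ?_
  by_cases hs : S i v
  · rw [map_smul]; exact B.smul_mem _ (h i v hs)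
  · rw [hb i v hs]; simp

/-- Cocycles are the cochains orthogonal to the boundaries of the dual complex. -/
theorem mem_Z1_iff {ω : V → Aˣ} {r : ι → F} {S : ι → V → Prop} {α : V → A} :
    α ∈ Z1 ω r S ↔ ∀ w ∈ Bred ω⁻¹ r S, α ⬝ᵥ w = 0 := by
  constructor
  · intro h w hw
    have : Bred ω⁻¹ r S ≤ LinearMap.ker (dotProductBilin A A α) :=
      Bred_le fun i v hs => h i v hs
    exact this hw
  · intro h i v hs
    exact h _ (D_dl_mem_Bred _ r hs)

omit [Fintype V] in
theorem bd_map {A' : Type} [CommRing A'] (φ : A →+* A') {ω : V → Aˣ} {ω' : V → A'ˣ}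
    (h : ∀ v, (ω' v : A') = φ (ω v)) (r : ι → F) (b : ι → V → A) :
    φ ∘ bd ω r b = bd ω' r fun i => φ ∘ b i := by
  rw [bd_apply, bd_apply]
  funext v
  simp only [Function.comp, Finset.sum_apply, map_sum]
  exact Finset.sum_congr rfl fun i _ => congrFun (D_map φ h (r i) (b i)) v

omit [Fintype V] [Fintype V'] in
theorem bd_pull {π : V' → V} (h : Eqv π) (ω : V → Aˣ) (r : ι → F) (b : ι → V → A) :
    bd ω r b ∘ π = bd (ω ∘ π) r fun i => b i ∘ π := by
  rw [bd_apply, bd_apply]
  funext v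
  simp only [Function.comp, Finset.sum_apply]
  exact Finset.sum_congr rfl fun i _ => congrFun (D_pull h ω (r i) (b i)) v

omit [Fintype V] in
theorem bd_push {π : V' → V} (h : Eqv π) (ω : V → Aˣ) (r : ι → F) (b : ι → V' → A) :
    push A π (bd (ω ∘ π) r b) = bd ω r fun i => push A π (b i) := by
  simp only [bd_apply, map_sum, D_push h]

omit [Fintype ι] [Fintype V] [MulAction F V] [MulAction F V'] in
theorem push_mem_C2 {S : ι → V → Prop} (π : V' → V) {b : ι → V' → A} (hb : b ∈ C2 A (pb S π)) :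
    (fun i => push A π (b i)) ∈ C2 A S := fun i v hs =>
  push_eq_zero_of π _ v fun v' e => hb i v' (by rwa [pb, e])

omit [Fintype ι] [Fintype V] [MulAction F V] [Fintype V'] [MulAction F V'] in
theorem pull_mem_C2 {S : ι → V → Prop} (π : V' → V) {b : ι → V → A} (hb : b ∈ C2 A S) :
    (fun i => b i ∘ π) ∈ C2 A (pb S π) := fun i v hs => hb i (π v) hs

omit [Fintype V] in
theorem push_mem_Bred {π : V' → V} (h : Eqv π) {ω : V → Aˣ} {r : ι → F} {S : ι → V → Prop}
    {w : V' → A} (hw : w ∈ Bred (ω ∘ π) r (pb S π)) : push A π w ∈ Bred ω r S := by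
  obtain ⟨b, hb, rfl⟩ := hw
  exact ⟨_, push_mem_C2 π hb, (bd_push h ω r b).symm⟩

omit [Fintype V] [Fintype V'] in
theorem pull_mem_Bred {π : V' → V} (h : Eqv π) {ω : V → Aˣ} {r : ι → F} {S : ι → V → Prop}
    {w : V → A} (hw : w ∈ Bred ω r S) : w ∘ π ∈ Bred (ω ∘ π) r (pb S π) := by
  obtain ⟨b, hb, rfl⟩ := hw
  exact ⟨_, pull_mem_C2 π hb, (bd_pull h ω r b).symm⟩

omit [Fintype ι] in
theorem pull_mem_Z1 {π : V' → V} (h : Eqv π) {ω : V → Aˣ} {r : ι → F} {S : ι → V → Prop}
    {α : V → A} (hα : α ∈ Z1 ω r S) : α ∘ π ∈ Z1 (ω ∘ π) r (pb S π) := fun i v hs => by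
  rw [pr_pull h]; exact hα i _ hs

omit [Fintype V] in
theorem bd_oW (ω : V → Aˣ) (z : F) (r : ι → F) (b : Option ι → V → A) :
    bd ω (oW z r) b = (tw ω).D z (b none) + bd ω r fun i => b (some i) := by
  simp [bd_apply, Fintype.sum_option, oW]

variable {K : Type} [CommRing K] [Algebra K A]

omit [Fintype V] in
theorem capc_oW (ω : V → Aˣ) (z : F) (r : ι → F) (c : Option ι → V → K) (α : V → A) :
    capc ω (oW z r) c α = kap ω z (c none) α + capc ω r (fun i => c (some i)) α := by
  simp [capc, Fintype.sum_option, oW]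

/-- `capc` as a linear map in the cochain. -/
def capL (ω : V → Aˣ) (r : ι → F) (c : ι → V → K) : (V → A) →ₗ[A] (V → A) :=
  ∑ i, kapL ω (r i) (c i)

omit [Fintype V] in
@[simp] theorem capL_apply (ω : V → Aˣ) (r : ι → F) (c : ι → V → K) (α : V → A) :
    capL ω r c α = capc ω r c α := by simp [capL, capc]

/-- `capc` as a linear map in the chain. -/
def capC (K : Type) [CommRing K] [Algebra K A] (ω : V → Aˣ) (r : ι → F) (α : V → A) :
    (ι → V → K) →ₗ[K] (V → A) := ∑ i, kapC K ω (r i) α ∘ₗ LinearMap.proj i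

omit [Fintype V] in
@[simp] theorem capC_apply (ω : V → Aˣ) (r : ι → F) (c : ι → V → K) (α : V → A) :
    capC K ω r α c = capc ω r c α := by simp [capC, capc]

omit [Fintype V] in
theorem capc_map {A' : Type} [CommRing A'] [Algebra K A'] (φ : A →ₐ[K] A') {ω : V → Aˣ}
    {ω' : V → A'ˣ} (h : ∀ v, (ω' v : A') = φ (ω v)) (r : ι → F) (c : ι → V → K) (α : V → A) :
    φ ∘ capc ω r c α = capc ω' r c (φ ∘ α) := by
  funext v
  simp only [capc, Function.comp, Finset.sum_apply, map_sum]
  exact Finset.sum_congr rfl fun i _ => congrFun (kap_map φ h (r i) (c i) α) v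

omit [Fintype V] [Fintype V'] in
theorem capc_pull {π : V' → V} (h : Eqv π) (ω : V → Aˣ) (r : ι → F) (c : ι → V → K)
    (α : V → A) : capc ω r c α ∘ π = capc (ω ∘ π) r (fun i => c i ∘ π) (α ∘ π) := by
  funext v
  simp only [capc, Function.comp, Finset.sum_apply]
  exact Finset.sum_congr rfl fun i _ => congrFun (kap_pull h ω (r i) (c i) α) v

end Cx

end H94G
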