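import Pool.Agent.MP_c98bf6_al.H94.Cap

set_option autoImplicit false

open Module

noncomputable section

namespace H94G

/-! ### The action on covers -/
section Cov
variable {V : Type} [MulAction F V] {A G : Type} [CommRing A] [AddCommGroup G]

instance (θ : (V → A) →+ G) : MulAction F (Cov θ) where
  smul f a := ⟨f • a.fst, a.snd + θ ((un A V).D f (dl A a.fst))⟩
  one_smul a := by
    change (⟨(1 : F) • a.fst, a.snd + θ ((un A V).D 1 (dl A a.fst))⟩ : Cov θ) = a
    simp
  mul_smul f g a := by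
    change (⟨(f * g) • a.fst, a.snd + θ ((un A V).D (f * g) (dl A a.fst))⟩ : Cov θ) =
      ⟨f • g • a.fst, a.snd + θ ((un A V).D g (dl A a.fst)) +
        θ ((un A V).D f (dl A (g • a.fst)))⟩
    rw [Act.D_mul, un_rho_dl, map_add, mul_smul, add_assoc]

namespace Cov
variable {θ : (V → A) →+ G}

@[simp] theorem smul_fst (f : F) (a : Cov θ) : (f • a).fst = f • a.fst := rfl

theorem smul_snd (f : F) (a : Cov θ) :
    (f • a).snd = a.snd + θ ((un A V).D f (dl A a.fst)) := rfl

theorem eqv_fst : Eqv (Cov.fst : Cov θ → V) := fun _ _ => rfl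

theorem smul_eq_iff (f : F) (a : Cov θ) :
    f • a = a ↔ f • a.fst = a.fst ∧ θ ((un A V).D f (dl A a.fst)) = 0 := by
  rw [Cov.ext_iff, smul_fst, smul_snd, add_eq_left]

/-- Deck transformation. -/
def sh (g : G) (a : Cov θ) : Cov θ := ⟨a.fst, a.snd + g⟩

omit [MulAction F V] in
@[simp] theorem sh_fst (g : G) (a : Cov θ) : (sh g a).fst = a.fst := rfl
omit [MulAction F V] in
@[simp] theorem sh_snd (g : G) (a : Cov θ) : (sh g a).snd = a.snd + g := rfl

theorem eqv_sh (g : G) : Eqv (sh g : Cov θ → Cov θ) := fun f a => by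
  ext
  · simp
  · simp [smul_snd]; abel

omit [MulAction F V] in
theorem card [Fintype V] [Fintype G] : Fintype.card (Cov θ) = Fintype.card V * Fintype.card G := by
  rw [Fintype.card_congr (Cov.equiv θ), Fintype.card_prod]

omit [MulAction F V] in
theorem sum_eq {M : Type} [AddCommMonoid M] [Fintype V] [Fintype G] (φ : Cov θ → M) :
    ∑ a, φ a = ∑ v, ∑ g, φ ⟨v, g⟩ := by
  rw [← Fintype.sum_prod_type', ← (Cov.equiv θ).symm.sum_comp]; rfl

end Cov

theorem Cyc.smul_snd [Fintype V] (β : V → ℤ) (n : ℕ) (f : F) (a : Cyc β n) :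
    (f • a).snd = a.snd + ((intg β a.fst f : ℤ) : ZMod n) := by
  rw [Cov.smul_snd, intg_def]; rfl

theorem Cyc.smul_eq_iff [Fintype V] (β : V → ℤ) (n : ℕ) (f : F) (a : Cyc β n) :
    f • a = a ↔ f • a.fst = a.fst ∧ (n : ℤ) ∣ intg β a.fst f := by
  rw [Cov.ext_iff, Cov.smul_fst, Cyc.smul_snd, add_eq_left, ZMod.intCast_zmod_eq_zero_iff_dvd]

omit [MulAction F V] in
theorem Cyc.card [Fintype V] (β : V → ℤ) (n : ℕ) [NeZero n] :
    Fintype.card (Cyc β n) = Fintype.card V * n := by rw [Cov.card, ZMod.card]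

end Cov

/-! ### Finite `p`-sets and open normal subgroups -/

/-- Every word acts with `p`-power order and `x ^ p` acts trivially. -/
class IsP (p : ℕ) (V : Type) [MulAction F V] : Prop where
  pexp : ∀ f : F, ∃ k : ℕ, ∀ v : V, f ^ p ^ k • v = v
  xp : ∀ v : V, x ^ p • v = v

theorem pow_smul_eq {V : Type} [MulAction F V] {f : F} {v : V} (h : f • v = v) (n : ℕ) :
    f ^ n • v = v := by
  induction n with
  | zero => simp
  | succ n ih => rw [pow_succ, mul_smul, h, ih]

theorem D_pow_fix {V A : Type} [MulAction F V] [CommRing A] {f : F} {v : V} (h : f • v = v)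
    (n : ℕ) : (un A V).D (f ^ n) (dl A v) = n • (un A V).D f (dl A v) := by
  rw [Act.D_pow]
  simp only [un_rho_dl, pow_smul_eq h, Finset.sum_const, Finset.card_range]

theorem Cov.isP {p : ℕ} {V : Type} [MulAction F V] [IsP p V] {A G : Type} [CommRing A]
    [AddCommGroup G] (θ : (V → A) →+ G) (j : ℕ) (hj : ∀ g : G, p ^ j • g = 0) :
    IsP p (Cov θ) where
  pexp f := by
    obtain ⟨k, hk⟩ := IsP.pexp (p := p) (V := V) f
    refine ⟨k + j, fun a => ?_⟩
    rw [pow_add, pow_mul, Cov.smul_eq_iff, D_pow_fix (hk _), map_nsmul, hj]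
    exact ⟨pow_smul_eq (hk _) _, rfl⟩
  xp a := by rw [Cov.smul_eq_iff, Act.D_x_pow, map_zero]; exact ⟨IsP.xp _, rfl⟩

instance {p : ℕ} {V : Type} [MulAction F V] [Fintype V] [IsP p V] (β : V → ℤ) (e : ℕ) :
    IsP p (Cyc β (p ^ e)) :=
  Cov.isP _ e fun g => by rw [nsmul_eq_mul, ZMod.natCast_self, zero_mul]

/-- Normal subgroups of `F` containing `x ^ p` with finite `p`-group quotient. -/
structure ON (p : ℕ) where
  M : Subgroup F
  normal : M.Normal
  fi : M.FiniteIndex
  pexp : ∀ f : F, ∃ k : ℕ, f ^ p ^ k ∈ M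
  xp : x ^ p ∈ M

attribute [instance] ON.normal ON.fi

namespace ON
variable {p : ℕ}

abbrev Q (N : ON p) : Type := F ⧸ N.M

instance (N : ON p) : Fintype N.Q := Subgroup.fintypeQuotientOfFiniteIndex

theorem smul_mk (N : ON p) (f g : F) : f • (g : N.Q) = ((f * g : F) : N.Q) := rfl

theorem smul_def (N : ON p) (f : F) (q : N.Q) : f • q = (f : N.Q) * q := by
  induction q using QuotientGroup.induction_on with
  | H g => rfl

theorem smul_eq_iff (N : ON p) (f : F) (q : N.Q) : f • q = q ↔ f ∈ N.M := by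
  rw [smul_def, mul_eq_right, QuotientGroup.eq_one_iff]

instance (N : ON p) : IsP p N.Q where
  pexp f := (N.pexp f).imp fun _ h q => (N.smul_eq_iff _ q).2 h
  xp q := (N.smul_eq_iff _ q).2 N.xp

theorem isPGroup (N : ON p) : IsPGroup p N.Q := fun q => by
  induction q using QuotientGroup.induction_on with
  | H g =>
    obtain ⟨k, h⟩ := N.pexp g
    exact ⟨k, by rw [← QuotientGroup.mk_pow, QuotientGroup.eq_one_iff]; exact h⟩

/-- The kernel of a finite `p`-set. -/
def ker (p : ℕ) (V : Type) [Finite V] [MulAction F V] [IsP p V] : ON p where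
  M := (MulAction.toPermHom F V).ker
  normal := inferInstance
  fi := inferInstance
  pexp f := (IsP.pexp (p := p) (V := V) f).imp fun _ h => Equiv.ext h
  xp := Equiv.ext (IsP.xp (p := p) (V := V))

theorem mem_ker {V : Type} [Finite V] [MulAction F V] [IsP p V] {f : F} :
    f ∈ (ker p V).M ↔ ∀ v : V, f • v = v := Equiv.ext_iff

def inf (N N' : ON p) : ON p where
  M := N.M ⊓ N'.M
  normal := inferInstance
  fi := inferInstance
  pexp f := by
    obtain ⟨k, hk⟩ := N.pexp f
    obtain ⟨j, hj⟩ := N'.pexp f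
    refine ⟨k + j, ?_, ?_⟩
    · rw [pow_add, pow_mul]; exact pow_mem hk _
    · rw [add_comm, pow_add, pow_mul]; exact pow_mem hj _
  xp := ⟨N.xp, N'.xp⟩

@[simp] theorem inf_M (N N' : ON p) : (N.inf N').M = N.M ⊓ N'.M := rfl

/-- Any normal subgroup above an element of `ON p`. -/
def ofLE (N : ON p) (M : Subgroup F) (hM : M.Normal) (h : N.M ≤ M) : ON p where
  M := M
  normal := hM
  fi := Subgroup.finiteIndex_of_le h
  pexp f := (N.pexp f).imp fun _ hk => h hk
  xp := h N.xp

def Rel {ι : Type} (N : ON p) (r : ι → F) : Prop := ∀ i, r i ∈ N.M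

/-- `N` acts trivially on `V`. -/
def Triv (N : ON p) (V : Type) [MulAction F V] : Prop := ∀ f ∈ N.M, ∀ v : V, f • v = v

/-- The orbit map `F / N → V`, `f ↦ f • v`. -/
def orb (N : ON p) {V : Type} [MulAction F V] (v : V) : N.Q → V := fun q => q.out • v

/-- Right multiplication (deck transformations of `F / N`). -/
def rm (N : ON p) (g : F) : N.Q → N.Q := fun q => q * (g : N.Q)

variable {V : Type} [MulAction F V]

theorem orb_mk {N : ON p} (h : N.Triv V) (v : V) (f : F) : N.orb v (f : N.Q) = f • v := by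
  obtain ⟨m, hm⟩ := QuotientGroup.mk_out_eq_mul N.M f
  rw [orb, hm, mul_smul, h _ m.2]

theorem eqv_orb {N : ON p} (h : N.Triv V) (v : V) : Eqv (N.orb v) := fun f q => by
  induction q using QuotientGroup.induction_on with
  | H g => rw [smul_mk, orb_mk h, orb_mk h, mul_smul]

theorem orb_one {N : ON p} (h : N.Triv V) (v : V) : N.orb v 1 = v := by
  rw [← QuotientGroup.mk_one, orb_mk h, one_smul]

theorem eqv_rm (N : ON p) (g : F) : Eqv (N.rm g) := fun f q => by
  simp only [rm, smul_def, mul_assoc]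

theorem rm_mk (N : ON p) (g f : F) : N.rm g (f : N.Q) = ((f * g : F) : N.Q) := rfl

theorem triv_Q {N N' : ON p} : N'.Triv N.Q ↔ N'.M ≤ N.M :=
  ⟨fun h f hf => (N.smul_eq_iff f 1).1 (h f hf 1), fun h f hf q => (N.smul_eq_iff f q).2 (h hf)⟩

theorem Triv.mono {N N' : ON p} (h : N.Triv V) (h' : N'.M ≤ N.M) : N'.Triv V :=
  fun f hf => h f (h' hf)

theorem Triv.of_eqv {V' : Type} [MulAction F V'] {N : ON p} (h : N.Triv V') {π : V' → V}
    (hπ : Eqv π) (hs : Function.Surjective π) : N.Triv V := fun f hf v => by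
  obtain ⟨v', rfl⟩ := hs v
  rw [← hπ, h f hf]

theorem triv_ker [Finite V] [IsP p V] : (ker p V).Triv V := fun _ hf => mem_ker.1 hf

theorem triv_iff [Finite V] [IsP p V] {N : ON p} : N.Triv V ↔ N.M ≤ (ker p V).M :=
  ⟨fun h f hf => mem_ker.2 (h f hf), fun h => triv_ker.mono h⟩

/-- The projection `F / N' → F / N` is `N'.orb 1`. -/
theorem orb_one_mk {N N' : ON p} (h : N'.M ≤ N.M) (f : F) :
    N'.orb (1 : N.Q) (f : N'.Q) = (f : N.Q) := by
  rw [orb_mk (triv_Q.2 h), smul_def, mul_one]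

theorem orb_comp {V' : Type} [MulAction F V'] {N : ON p} {π : V' → V} (hπ : Eqv π) (v : V') :
    π ∘ N.orb v = N.orb (π v) := by
  funext q; exact hπ _ _

theorem Rel.mono {ι : Type} {r : ι → F} {N N' : ON p} (h : N'.Rel r) (h' : N'.M ≤ N.M) :
    N.Rel r := fun i => h' (h i)

theorem Rel.inf {ι : Type} {r : ι → F} {N N' : ON p} (h : N.Rel r) (h' : N'.Rel r) :
    (N.inf N').Rel r := fun i => ⟨h i, h' i⟩

end ON

end H94G
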