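import Mathlib

/-! Definitions for the construction of an infinite residually-`p` torsion group with finite
centralizers (helper94). `F` is free on `x, y`; only `y`-edges carry chains (`x` has order `p`
on every level and is coned off). All actions are left actions. -/

set_option autoImplicit false

open Module

noncomputable section

namespace H94G

abbrev F := FreeGroup Bool

def x : F := FreeGroup.of false
def y : F := FreeGroup.of true

/-! ### Fox calculus for a module with two automorphisms -/

structure Act (R W : Type) [Ring R] [AddCommGroup W] [Module R W] where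
  X : W ≃ₗ[R] W
  Y : W ≃ₗ[R] W

namespace Act
variable {R W W' : Type} [Ring R] [AddCommGroup W] [Module R W] [AddCommGroup W'] [Module R W']

def rho (a : Act R W) : F →* (W ≃ₗ[R] W) := FreeGroup.lift fun b => cond b a.Y a.X

def skew (a : Act R W') (b : Act R W) (g : W' →ₗ[R] W) : Act R (W' × W) :=
  ⟨a.X.prodCongr b.X, a.Y.skewProd b.Y g⟩

def triv : Act R W := ⟨.refl _ _, .refl _ _⟩

/-- Fox derivative with respect to `y`: `D x = 0`, `D y = id`, `D (f g) w = D g w + D f (g w)`. -/
def D (a : Act R W) (f : F) : W →ₗ[R] W :=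
  LinearMap.snd R W W ∘ₗ ((a.skew triv LinearMap.id).rho f).toLinearMap ∘ₗ LinearMap.inl R W W

def res (K : Type) [CommRing K] {A : Type} [CommRing A] [Algebra K A] {U : Type}
    [AddCommGroup U] [Module A U] [Module K U] [IsScalarTower K A U] (a : Act A U) : Act K U :=
  ⟨a.X.restrictScalars K, a.Y.restrictScalars K⟩

end Act

/-! ### Twisted permutation modules -/

section Perm
variable {V V' : Type} [MulAction F V] [MulAction F V'] {A : Type} [CommRing A]

/-- `π` commutes with the action of `F`. -/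
def Eqv (π : V' → V) : Prop := ∀ (f : F) (v : V'), π (f • v) = f • π v

open Classical in
/-- Delta function. -/
def dl (A : Type) [CommRing A] {V : Type} (v : V) : V → A := fun w => if w = v then 1 else 0

def perm (A : Type) [CommRing A] (V : Type) [MulAction F V] (g : F) : (V → A) ≃ₗ[A] (V → A) :=
  LinearEquiv.funCongrLeft A A (MulAction.toPerm g⁻¹)

def mulU (ω : V → Aˣ) : (V → A) ≃ₗ[A] (V → A) :=
  LinearEquiv.piCongrRight fun v => LinearEquiv.smulOfUnit (ω v)

/-- `x δ_v = δ_{x v}`, `y δ_v = ω v • δ_{y v}`. -/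
def tw (ω : V → Aˣ) : Act A (V → A) := ⟨perm A V x, (mulU ω).trans (perm A V y)⟩

/-- The untwisted module. -/
abbrev un (A : Type) [CommRing A] (V : Type) [MulAction F V] : Act A (V → A) := tw (1 : V → Aˣ)

/-- Holonomy: `f δ_v = hol ω v f • δ_{f v}`. -/
def hol (ω : V → Aˣ) (v : V) (f : F) : A := (tw ω).rho f (dl A v) (f • v)

/-- Twisted integral of the cochain `α` along the path `f` from `v`. -/
def pr [Fintype V] (ω : V → Aˣ) (α : V → A) (v : V) (f : F) : A :=
  α ⬝ᵥ (tw ω⁻¹).D f (dl A v)

/-- Untwisted integral. -/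
abbrev intg [Fintype V] (α : V → A) (v : V) (f : F) : A := pr 1 α v f

open Classical in
/-- Push-forward (sum over fibres). -/
def push (A : Type) [CommRing A] {V V' : Type} [Fintype V'] (π : V' → V) :
    (V' → A) →ₗ[A] (V → A) where
  toFun w := fun v => ∑ v' ∈ Finset.univ.filter (fun v' => π v' = v), w v'
  map_add' _ _ := by funext v; simp [Finset.sum_add_distrib]
  map_smul' _ _ := by funext v; simp [Finset.mul_sum]

variable {K : Type} [CommRing K] [Algebra K A]

def dg (K : Type) [CommRing K] [Algebra K A] (α : V → A) : (V → K) →ₗ[K] (V → A) where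
  toFun w := fun v => w v • α v
  map_add' _ _ := by funext v; simp [add_smul]
  map_smul' _ _ := by funext v; simp [mul_smul]

/-- The extension of the untwisted `K`-module by the twisted `A`-module given by `α`. -/
def ext (K : Type) [CommRing K] [Algebra K A] (ω : V → Aˣ) (α : V → A) :
    Act K ((V → K) × (V → A)) :=
  (un K V).skew ((tw ω).res K) (((tw ω).Y.restrictScalars K).toLinearMap ∘ₗ dg K α)

/-- Cap product of the cochain `α` with the 2-cells of word `f` based at the chain `w`. -/
def kap (ω : V → Aˣ) (f : F) (w : V → K) (α : V → A) : V → A := ((ext K ω α).D f (w, 0)).2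

end Perm

/-! ### Complexes: words `r i`, cells `(i, v)` with `S i v` -/

section Cx
variable {ι V : Type} [Fintype ι] [Fintype V] [MulAction F V] {A : Type} [CommRing A]

def C2 (A : Type) [CommRing A] (S : ι → V → Prop) : Submodule A (ι → V → A) where
  carrier := {b | ∀ i v, ¬ S i v → b i v = 0}
  add_mem' := by intro a b ha hb i v h; simp [ha i v h, hb i v h]
  zero_mem' := by intro i v _; rfl
  smul_mem' := by intro c b hb i v h; simp [hb i v h]

def bd (ω : V → Aˣ) (r : ι → F) : (ι → V → A) →ₗ[A] (V → A) :=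
  ∑ i, (tw ω).D (r i) ∘ₗ LinearMap.proj i

def Bred (ω : V → Aˣ) (r : ι → F) (S : ι → V → Prop) : Submodule A (V → A) :=
  (C2 A S).map (bd ω r)

def ncell (S : ι → V → Prop) : ℕ := Nat.card {c : ι × V // S c.1 c.2}

def Inj (ω : V → Aˣ) (r : ι → F) (S : ι → V → Prop) : Prop :=
  ∀ b ∈ C2 A S, bd ω r b = 0 → b = 0

def Z1 (ω : V → Aˣ) (r : ι → F) (S : ι → V → Prop) : Submodule A (V → A) where
  carrier := {α | ∀ i v, S i v → pr ω α v (r i) = 0}
  add_mem' := by
    intro a b ha hb i v h
    have h1 := ha i v h; have h2 := hb i v h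
    simp only [pr, add_dotProduct] at *; rw [h1, h2, add_zero]
  zero_mem' := by intro i v _; simp [pr]
  smul_mem' := by
    intro c b hb i v h
    have h1 := hb i v h
    simp only [pr, smul_dotProduct] at *; rw [h1, smul_zero]

/-- Integral cocycles. -/
abbrev Zc (r : ι → F) (S : ι → V → Prop) : Submodule ℤ (V → ℤ) := Z1 1 r S

/-- All cells. -/
def full (ι V : Type) : ι → V → Prop := fun _ _ => True

/-- Pull-back of the cells. -/
def pb {V' : Type} (S : ι → V → Prop) (π : V' → V) : ι → V' → Prop := fun i v => S i (π v)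

/-- Every cell is a closed loop. -/
def Closed (r : ι → F) (S : ι → V → Prop) : Prop := ∀ i v, S i v → r i • v = v

def H2 (K : Type) [CommRing K] (r : ι → F) (S : ι → V → Prop) : Submodule K (ι → V → K) :=
  C2 K S ⊓ LinearMap.ker (bd (1 : V → Kˣ) r)

def capc {K : Type} [CommRing K] [Algebra K A] (ω : V → Aˣ) (r : ι → F) (c : ι → V → K)
    (α : V → A) : V → A := ∑ i, kap ω (r i) (c i) α

/-- One more word `z` with cell set `T`. -/
def oW (z : F) (r : ι → F) : Option ι → F := fun o => o.elim z r

def oS (T : V → Prop) (S : ι → V → Prop) : Option ι → V → Prop := fun o => o.elim T S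

end Cx

/-! ### Covers -/

section Cov
variable {V : Type} [MulAction F V] {A G : Type} [CommRing A] [AddCommGroup G]

/-- The cover of `V` with fibre `G` given by an additive map on 1-chains. -/
@[ext] structure Cov (θ : (V → A) →+ G) : Type where
  fst : V
  snd : G

def Cov.equiv (θ : (V → A) →+ G) : Cov θ ≃ V × G where
  toFun a := (a.fst, a.snd)
  invFun a := ⟨a.1, a.2⟩

instance (θ : (V → A) →+ G) [Fintype V] [Fintype G] : Fintype (Cov θ) :=
  Fintype.ofEquiv _ (Cov.equiv θ).symm

def cycθ [Fintype V] (β : V → ℤ) (n : ℕ) : (V → ℤ) →+ ZMod n where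
  toFun w := ((β ⬝ᵥ w : ℤ) : ZMod n)
  map_zero' := by simp
  map_add' _ _ := by simp [dotProduct_add]

/-- The cyclic cover along the integral cochain `β`. -/
abbrev Cyc [Fintype V] (β : V → ℤ) (n : ℕ) : Type := Cov (cycθ β n)

end Cov

/-! ### Coefficient rings -/

section Rings

def mon (K : Type) [CommRing K] {G : Type} [AddCommGroup G] (g : G) : (AddMonoidAlgebra K G)ˣ :=
  (AddMonoidAlgebra.of K G).toHomUnits (Multiplicative.ofAdd g)

def aug (K : Type) [CommRing K] (G : Type) [AddCommGroup G] : AddMonoidAlgebra K G →ₐ[K] K :=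
  AddMonoidAlgebra.lift K K G 1

abbrev Lam (p : ℕ) := AddMonoidAlgebra (ZMod p) ℤ
abbrev LL (p : ℕ) := FractionRing (Lam p)
abbrev An (p n : ℕ) := AddMonoidAlgebra (ZMod p) (ZMod n)
abbrev RU (p : ℕ) (V : Type) := AddMonoidAlgebra (ZMod p) (V → ℤ)

variable (p : ℕ) {V : Type}

def wP (β : V → ℤ) : V → (Lam p)ˣ := fun v => mon (ZMod p) (β v)

def wL (β : V → ℤ) : V → (LL p)ˣ :=
  fun v => Units.map (algebraMap (Lam p) (LL p)).toMonoidHom (wP p β v)

def wA (β : V → ℤ) (n : ℕ) : V → (An p n)ˣ := fun v => mon (ZMod p) ((β v : ℤ) : ZMod n)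

def wU (V : Type) : V → (RU p V)ˣ := fun v => mon (ZMod p) (dl ℤ v)

def red (n : ℕ) : Lam p →ₐ[ZMod p] An p n :=
  AddMonoidAlgebra.mapDomainAlgHom (ZMod p) (ZMod p) (Int.castAddHom (ZMod n))

def dotH [Fintype V] (β : V → ℤ) : (V → ℤ) →+ ℤ where
  toFun w := β ⬝ᵥ w
  map_zero' := by simp
  map_add' _ _ := by simp [dotProduct_add]

def spec [Fintype V] (β : V → ℤ) : RU p V →ₐ[ZMod p] Lam p :=
  AddMonoidAlgebra.mapDomainAlgHom (ZMod p) (ZMod p) (dotH β)

/-- `P` holds on a principal open neighbourhood of `β`. -/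
def OpenAt [Fintype V] (P : (V → ℤ) → Prop) (β : V → ℤ) : Prop :=
  ∃ μ : RU p V, spec p β μ ≠ 0 ∧ ∀ β', spec p β' μ ≠ 0 → P β'

end Rings

end H94G
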