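import Pool.Agent.MP_c98bf6_al.H94.Defs

set_option autoImplicit false

open Module

noncomputable section

namespace H94G

theorem F_ind {P : F → Prop} (h1 : P 1) (hx : P x) (hy : P y) (hinv : ∀ f, P f → P f⁻¹)
    (hmul : ∀ f g, P f → P g → P (f * g)) (f : F) : P f := by
  induction f using FreeGroup.induction_on with
  | C1 => exact h1
  | of b => cases b; exact hx; exact hy
  | inv_of b h => exact hinv _ h
  | mul f g hf hg => exact hmul f g hf hg

namespace Act
variable {R W W' : Type} [Ring R] [AddCommGroup W] [Module R W] [AddCommGroup W'] [Module R W']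

@[simp] theorem rho_x (a : Act R W) : a.rho x = a.X := by simp [rho, x]
@[simp] theorem rho_y (a : Act R W) : a.rho y = a.Y := by simp [rho, y]

theorem rho_mul (a : Act R W) (f g : F) (w : W) : a.rho (f * g) w = a.rho f (a.rho g w) := by
  rw [map_mul]; rfl

@[simp] theorem rho_one (a : Act R W) (w : W) : a.rho 1 w = w := by rw [map_one]; rfl

@[simp] theorem rho_rho_inv (a : Act R W) (f : F) (w : W) : a.rho f (a.rho f⁻¹ w) = w := by
  rw [← rho_mul, mul_inv_cancel, rho_one]

@[simp] theorem rho_inv_rho (a : Act R W) (f : F) (w : W) : a.rho f⁻¹ (a.rho f w) = w := by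
  rw [← rho_mul, inv_mul_cancel, rho_one]

/-- Naturality of the action for additive maps (rings may differ). -/
theorem nat_rho {R' : Type} [Ring R'] {U : Type} [AddCommGroup U] [Module R' U]
    (a : Act R W) (b : Act R' U) (φ : W → U)
    (hX : ∀ w, φ (a.X w) = b.X (φ w)) (hY : ∀ w, φ (a.Y w) = b.Y (φ w)) (f : F) (w : W) :
    φ (a.rho f w) = b.rho f (φ w) := by
  induction f using F_ind generalizing w with
  | h1 => simp
  | hx => simpa using hX w
  | hy => simpa using hY w
  | hinv f h =>
    have := h (a.rho f⁻¹ w)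
    rw [rho_rho_inv] at this
    rw [this, rho_inv_rho]
  | hmul f g hf hg => rw [rho_mul, rho_mul, hf, hg]

@[simp] theorem skew_X (a : Act R W') (b : Act R W) (g : W' →ₗ[R] W) (u : W' × W) :
    (a.skew b g).X u = (a.X u.1, b.X u.2) := rfl

@[simp] theorem skew_Y (a : Act R W') (b : Act R W) (g : W' →ₗ[R] W) (u : W' × W) :
    (a.skew b g).Y u = (a.Y u.1, b.Y u.2 + g u.1) := rfl

@[simp] theorem triv_X (w : W) : (triv : Act R W).X w = w := rfl
@[simp] theorem triv_Y (w : W) : (triv : Act R W).Y w = w := rfl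

@[simp] theorem triv_rho (f : F) (w : W) : (triv : Act R W).rho f w = w := by
  induction f using F_ind generalizing w with
  | h1 => simp
  | hx => simp
  | hy => simp
  | hinv f h => have := h ((triv : Act R W).rho f⁻¹ w); rw [rho_rho_inv] at this; exact this.symm
  | hmul f g hf hg => rw [rho_mul, hg, hf]

theorem skew_rho_fst (a : Act R W') (b : Act R W) (g : W' →ₗ[R] W) (f : F) (u : W' × W) :
    ((a.skew b g).rho f u).1 = a.rho f u.1 :=
  nat_rho (a.skew b g) a Prod.fst (fun _ => rfl) (fun _ => rfl) f u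

theorem skew_rho_inr (a : Act R W') (b : Act R W) (g : W' →ₗ[R] W) (f : F) (w : W) :
    (a.skew b g).rho f (0, w) = (0, b.rho f w) :=
  (nat_rho b (a.skew b g) (fun w => (0, w)) (fun _ => by simp) (fun _ => by simp) f w).symm

theorem skew_rho (a : Act R W') (b : Act R W) (g : W' →ₗ[R] W) (f : F) (w' : W') (w : W) :
    (a.skew b g).rho f (w', w) = (a.rho f w', ((a.skew b g).rho f (w', 0)).2 + b.rho f w) := by
  have : (w', w) = (w', 0) + (0, w) := by simp
  rw [this, map_add, skew_rho_inr]
  ext
  · simp [skew_rho_fst]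
  · simp

theorem D_def (a : Act R W) (f : F) (w : W) :
    a.D f w = ((a.skew triv LinearMap.id).rho f (w, 0)).2 := rfl

theorem ext_rho (a : Act R W) (f : F) (w c : W) :
    (a.skew triv LinearMap.id).rho f (w, c) = (a.rho f w, a.D f w + c) := by
  rw [skew_rho, triv_rho]; rfl

@[simp] theorem D_one (a : Act R W) (w : W) : a.D 1 w = 0 := by simp [D_def]
@[simp] theorem D_x (a : Act R W) (w : W) : a.D x w = 0 := by simp [D_def]
@[simp] theorem D_y (a : Act R W) (w : W) : a.D y w = w := by simp [D_def]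

theorem D_mul (a : Act R W) (f g : F) (w : W) :
    a.D (f * g) w = a.D g w + a.D f (a.rho g w) := by
  rw [D_def, rho_mul, ext_rho, ext_rho]; simp [add_comm]

theorem D_inv (a : Act R W) (f : F) (w : W) : a.D f⁻¹ w = - a.D f (a.rho f⁻¹ w) := by
  have := a.D_mul f f⁻¹ w
  rw [mul_inv_cancel, D_one] at this
  exact eq_neg_of_add_eq_zero_left this.symm

theorem D_pow (a : Act R W) (f : F) (n : ℕ) (w : W) :
    a.D (f ^ n) w = ∑ l ∈ Finset.range n, a.D f (a.rho (f ^ l) w) := by
  induction n with
  | zero => simp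
  | succ n ih => rw [pow_succ', D_mul, ih, Finset.sum_range_succ]

theorem D_x_pow (a : Act R W) (n : ℕ) (w : W) : a.D (x ^ n) w = 0 := by
  simp [D_pow]

theorem D_x_zpow (a : Act R W) (n : ℤ) (w : W) : a.D (x ^ n) w = 0 := by
  rcases n.eq_nat_or_neg with ⟨n, rfl | rfl⟩
  · simp [D_x_pow]
  · simp [D_inv, D_x_pow]

/-- Naturality of the Fox derivative. -/
theorem nat_D {R' : Type} [Ring R'] {U : Type} [AddCommGroup U] [Module R' U]
    (a : Act R W) (b : Act R' U) (φ : W →+ U)
    (hX : ∀ w, φ (a.X w) = b.X (φ w)) (hY : ∀ w, φ (a.Y w) = b.Y (φ w)) (f : F) (w : W) :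
    φ (a.D f w) = b.D f (φ w) := by
  have := nat_rho (a.skew triv LinearMap.id) (b.skew triv LinearMap.id)
    (fun u => (φ u.1, φ u.2)) (fun u => by simp [hX]) (fun u => by simp [hY]) f (w, 0)
  rw [D_def, D_def]
  have h2 := congrArg Prod.snd this
  simpa using h2

theorem skew_D_fst (a : Act R W') (b : Act R W) (g : W' →ₗ[R] W) (f : F) (u : W' × W) :
    ((a.skew b g).D f u).1 = a.D f u.1 :=
  nat_D (a.skew b g) a (AddMonoidHom.fst _ _) (fun _ => rfl) (fun _ => rfl) f u

theorem skew_D_inr (a : Act R W') (b : Act R W) (g : W' →ₗ[R] W) (f : F) (w : W) :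
    (a.skew b g).D f (0, w) = (0, b.D f w) :=
  (nat_D b (a.skew b g) (AddMonoidHom.inr _ _) (fun _ => by simp) (fun _ => by simp) f w).symm

theorem skew_D (a : Act R W') (b : Act R W) (g : W' →ₗ[R] W) (f : F) (w' : W') (w : W) :
    (a.skew b g).D f (w', w) = (a.D f w', ((a.skew b g).D f (w', 0)).2 + b.D f w) := by
  have : (w', w) = (w', 0) + (0, w) := by simp
  rw [this, map_add, skew_D_inr]
  ext
  · simp [skew_D_fst]
  · simp

/-- Fundamental formula, paired with an `x`-invariant additive map. -/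
theorem fund {G : Type} [AddCommGroup G] (a : Act R W) (φ : W →+ G) (hX : ∀ w, φ (a.X w) = φ w)
    (f : F) (w : W) : φ (a.Y (a.D f w)) - φ (a.D f w) = φ (a.rho f w) - φ w := by
  induction f using F_ind generalizing w with
  | h1 => simp
  | hx => simp [hX]
  | hy => simp
  | hinv f h =>
    have := h (a.rho f⁻¹ w)
    rw [rho_rho_inv] at this
    rw [D_inv, map_neg, map_neg, map_neg]
    rw [← neg_sub (φ w), ← this]; abel
  | hmul f g hf hg =>
    rw [D_mul, rho_mul, map_add, map_add, map_add]
    have h1 := hf (a.rho g w); have h2 := hg w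
    rw [eq_add_of_sub_eq h1, eq_add_of_sub_eq h2]; abel

section Res
variable (K : Type) [CommRing K] {A : Type} [CommRing A] [Algebra K A] {U : Type}
    [AddCommGroup U] [Module A U] [Module K U] [IsScalarTower K A U]

@[simp] theorem res_X (a : Act A U) (w : U) : (a.res K).X w = a.X w := rfl
@[simp] theorem res_Y (a : Act A U) (w : U) : (a.res K).Y w = a.Y w := rfl

@[simp] theorem res_rho (a : Act A U) (f : F) (w : U) : (a.res K).rho f w = a.rho f w :=
  nat_rho (a.res K) a id (fun _ => rfl) (fun _ => rfl) f w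

@[simp] theorem res_D (a : Act A U) (f : F) (w : U) : (a.res K).D f w = a.D f w :=
  nat_D (a.res K) a (AddMonoidHom.id _) (fun _ => rfl) (fun _ => rfl) f w

end Res

end Act

end H94G
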