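import Pool.Agent.MP_c98bf6_al.H94.Phi

/-! Linear algebra shared by several modules. -/

set_option autoImplicit false

open Module

noncomputable section

namespace H94G

section Dim
variable {L : Type} [Field L] {ι V : Type} [Fintype ι] [Fintype V]

/-- Orthogonal complement for the dot product. -/
def orth (W : Submodule L (V → L)) : Submodule L (V → L) where
  carrier := {α | ∀ w ∈ W, α ⬝ᵥ w = 0}
  add_mem' := by intro a b ha hb w h; rw [add_dotProduct, ha w h, hb w h, add_zero]
  zero_mem' := by intro w _; simp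
  smul_mem' := by intro c b hb w h; rw [smul_dotProduct, hb w h, smul_zero]

theorem mem_orth {W : Submodule L (V → L)} {α : V → L} : α ∈ orth W ↔ ∀ w ∈ W, α ⬝ᵥ w = 0 :=
  Iff.rfl

theorem finrank_orth (W : Submodule L (V → L)) :
    finrank L (orth W) + finrank L W = Fintype.card V := by
  classical
  have h := Subspace.finrank_add_finrank_dualAnnihilator_eq W
  have e : orth W = W.dualAnnihilator.comap (dotProductEquiv L V).toLinearMap := by
    ext α; simp [mem_orth, Submodule.mem_dualAnnihilator]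
  have h2 : finrank L (orth W) = finrank L W.dualAnnihilator := by
    rw [e, Submodule.comap_equiv_eq_map_symm]
    exact LinearEquiv.finrank_map_eq _ _
  rw [h2, add_comm, h, finrank_fintype_fun_eq_card]

/-- A vector outside a subspace is detected by an orthogonal vector. -/
theorem exists_orth {W : Submodule L (V → L)} {w : V → L} (h : w ∉ W) :
    ∃ α ∈ orth W, α ⬝ᵥ w ≠ 0 := by
  classical
  obtain ⟨φ, h1, h2⟩ := W.exists_dual_map_eq_bot_of_notMem h inferInstance
  obtain ⟨α, rfl⟩ := (dotProductEquiv L V).surjective φ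
  refine ⟨α, fun u hu => ?_, h1⟩
  have : dotProductEquiv L V α u ∈ W.map (dotProductEquiv L V α) := ⟨u, hu, rfl⟩
  rw [h2] at this; exact this

theorem finrank_C2 (S : ι → V → Prop) : finrank L (C2 L S) = ncell S := by
  classical
  let e : C2 L S ≃ₗ[L] ({c : ι × V // S c.1 c.2} → L) :=
    { toFun := fun b c => b.1 c.1.1 c.1.2
      invFun := fun u => ⟨fun i v => if h : S i v then u ⟨(i, v), h⟩ else 0,
        fun i v h => dif_neg h⟩
      map_add' := fun _ _ => rfl
      map_smul' := fun _ _ => rfl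
      left_inv := fun b => by
        ext i v
        by_cases h : S i v
        · simp [h]
        · simp [h, b.2 i v h]
      right_inv := fun u => by funext c; simp [c.2] }
  rw [e.finrank_eq, finrank_fintype_fun_eq_card, ncell, Nat.card_eq_fintype_card]

variable [MulAction F V]

theorem finrank_Bred_add (ω : V → Lˣ) (r : ι → F) (S : ι → V → Prop) :
    finrank L (Bred ω r S) + finrank L (C2 L S ⊓ LinearMap.ker (bd ω r) : Submodule L _) =
      ncell S := by
  have h := ((bd ω r).domRestrict (C2 L S)).finrank_range_add_finrank_ker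
  rw [LinearMap.range_domRestrict, LinearMap.ker_domRestrict, finrank_C2] at h
  rw [← h, ← Submodule.finrank_map_subtype_eq (C2 L S), Submodule.map_comap_subtype]; rfl

theorem finrank_Bred_H2 (r : ι → F) (S : ι → V → Prop) :
    finrank L (Bred (1 : V → Lˣ) r S) + finrank L (H2 L r S) = ncell S := finrank_Bred_add 1 r S

theorem finrank_Bred_le (ω : V → Lˣ) (r : ι → F) (S : ι → V → Prop) :
    finrank L (Bred ω r S) ≤ ncell S := by have := finrank_Bred_add ω r S; omega

theorem inj_iff (ω : V → Lˣ) (r : ι → F) (S : ι → V → Prop) :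
    Inj ω r S ↔ finrank L (Bred ω r S) = ncell S := by
  have h := finrank_Bred_add ω r S
  have : Inj ω r S ↔ (C2 L S ⊓ LinearMap.ker (bd ω r) : Submodule L _) = ⊥ := by
    rw [Submodule.eq_bot_iff]
    exact ⟨fun h b hb => h b hb.1 hb.2, fun h b h1 h2 => h b ⟨h1, h2⟩⟩
  rw [this, ← Submodule.finrank_eq_zero]; omega

theorem Z1_eq_orth (ω : V → Lˣ) (r : ι → F) (S : ι → V → Prop) :
    Z1 ω r S = orth (Bred ω⁻¹ r S) := by
  ext α; exact mem_Z1_iff

theorem finrank_Z1 (ω : V → Lˣ) (r : ι → F) (S : ι → V → Prop) :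
    finrank L (Z1 ω r S) + finrank L (Bred ω⁻¹ r S) = Fintype.card V := by
  rw [Z1_eq_orth, finrank_orth]

theorem card_le_finrank_Z1 (ω : V → Lˣ) (r : ι → F) (S : ι → V → Prop) :
    Fintype.card V ≤ finrank L (Z1 ω r S) + ncell S := by
  have := finrank_Z1 ω r S; have := finrank_Bred_le ω⁻¹ r S; omega

/-- Codimension does not increase under pull-back. -/
theorem finrank_comap_ge {X Y : Type} [AddCommGroup X] [Module L X] [AddCommGroup Y] [Module L Y]
    [Module.Finite L X] [Module.Finite L Y] (φ : X →ₗ[L] Y) (P Z : Submodule L Y)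
    (hP : P ≤ Z) (hZ : ∀ u, φ u ∈ Z) :
    finrank L X + finrank L P ≤ finrank L (P.comap φ) + finrank L Z := by
  have h1 := (P.mkQ ∘ₗ φ).finrank_range_add_finrank_ker
  rw [LinearMap.ker_comp, Submodule.ker_mkQ] at h1
  have h2 : finrank L (LinearMap.range (P.mkQ ∘ₗ φ)) ≤ finrank L (Z.map P.mkQ) :=
    Submodule.finrank_mono (by rintro _ ⟨u, rfl⟩; exact ⟨φ u, hZ u, rfl⟩)
  have h3 := (P.mkQ.domRestrict Z).finrank_range_add_finrank_ker
  rw [LinearMap.range_domRestrict, LinearMap.ker_domRestrict, Submodule.ker_mkQ,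
    (Submodule.comapSubtypeEquivOfLe hP).finrank_eq] at h3
  omega

theorem finrank_inf_ge {X : Type} [AddCommGroup X] [Module L X] [Module.Finite L X]
    (P Q : Submodule L X) :
    finrank L P + finrank L Q ≤ finrank L (P ⊓ Q : Submodule L X) + finrank L X := by
  have := Submodule.finrank_sup_add_finrank_inf_eq P Q
  have := (P ⊔ Q).finrank_le
  omega

end Dim

section Opt
variable {ι V : Type} [Fintype ι] [Fintype V] [MulAction F V] {A : Type} [CommRing A]

omit [Fintype ι] [Fintype V] [MulAction F V] in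
theorem mem_C2_oS {T : V → Prop} {S : ι → V → Prop} {b : Option ι → V → A} :
    b ∈ C2 A (oS T S) ↔ (∀ v, ¬ T v → b none v = 0) ∧ (fun i => b (some i)) ∈ C2 A S :=
  ⟨fun h => ⟨h none, fun i => h (some i)⟩, fun h o => by cases o; exacts [h.1, h.2 _]⟩

omit [Fintype ι] in
theorem mem_Z1_oS {ω : V → Aˣ} {z : F} {r : ι → F} {T : V → Prop} {S : ι → V → Prop}
    {α : V → A} : α ∈ Z1 ω (oW z r) (oS T S) ↔ (∀ v, T v → pr ω α v z = 0) ∧ α ∈ Z1 ω r S :=
  ⟨fun h => ⟨h none, fun i => h (some i)⟩, fun h o => by cases o; exacts [h.1, h.2 _]⟩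

omit [Fintype V] in
theorem Inj.of_oS {ω : V → Aˣ} {z : F} {r : ι → F} {T : V → Prop} {S : ι → V → Prop}
    (h : Inj ω (oW z r) (oS T S)) : Inj ω r S := fun b hb e => by
  have := h (fun o => o.elim 0 b) (mem_C2_oS.2 ⟨fun _ _ => rfl, hb⟩) (by simp [bd_oW, e])
  funext i; exact congrFun this (some i)

omit [Fintype ι] [Fintype V] [MulAction F V] in
theorem pb_oS {V' : Type} (T : V → Prop) (S : ι → V → Prop) (π : V' → V) :
    pb (oS T S) π = oS (fun v => T (π v)) (pb S π) := by
  funext o; cases o <;> rfl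

omit [MulAction F V] in
theorem ncell_oS (T : V → Prop) (S : ι → V → Prop) :
    ncell (oS T S) = Nat.card {v // T v} + ncell S := by
  have e : {c : Option ι × V // oS T S c.1 c.2} ≃ {v // T v} ⊕ {c : ι × V // S c.1 c.2} :=
    { toFun := fun c => match c with
        | ⟨(none, v), h⟩ => .inl ⟨v, h⟩
        | ⟨(some i, v), h⟩ => .inr ⟨(i, v), h⟩
      invFun := fun c => match c with
        | .inl v => ⟨(none, v.1), v.2⟩
        | .inr c => ⟨(some c.1.1, c.1.2), c.2⟩
      left_inv := fun c => by rcases c with ⟨⟨_ | i, v⟩, h⟩ <;> rfl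
      right_inv := fun c => by rcases c with v | c <;> rfl }
  rw [ncell, Nat.card_congr e, Nat.card_sum]; rfl

omit [Fintype ι] [Fintype V] in
theorem GEN.pb {p : ℕ} {r : ι → F} {S : ι → V → Prop} (h : GEN p r S) {V' : Type}
    [MulAction F V'] {π : V' → V} (hπ : Eqv π) : GEN p r (pb S π) :=
  fun W _ _ _ ρ hρ hc => h W (π ∘ ρ) (hπ.comp hρ) hc

omit [Fintype ι] in
theorem closed_cyc {r : ι → F} {S : ι → V → Prop} {β : V → ℤ} (hc : Closed r S)
    (hβ : β ∈ Zc r S) (n : ℕ) : Closed r (pb S (Cov.fst : Cyc β n → V)) := fun i a hs =>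
  (Cyc.smul_eq_iff β n _ a).2 ⟨hc i _ hs, by rw [show intg β a.fst (r i) = 0 from hβ i _ hs]; simp⟩

omit [Fintype ι] in
theorem ON.Rel.closed {p : ℕ} {r : ι → F} {N : ON p} (h : N.Rel r) (S : ι → N.Q → Prop) :
    Closed r S := fun i q _ => (N.smul_eq_iff _ q).2 (h i)

omit [Fintype ι] in
theorem rel_ker {p : ℕ} {r : ι → F} [IsP p V] (h : Closed r (full ι V)) : (ON.ker p V).Rel r :=
  fun i => ON.mem_ker.2 fun v => h i v trivial

end Opt

section Frac
variable (p : ℕ) [Fact p.Prime] {ι V : Type} [Fintype ι] [Fintype V] [MulAction F V]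

/-- Clearing denominators. -/
theorem clear_den {κ : Type} [Finite κ] (g : κ → LL p) : ∃ h : Lam p, h ≠ 0 ∧
    ∃ g' : κ → Lam p, ∀ k, algebraMap (Lam p) (LL p) (g' k) = algebraMap (Lam p) (LL p) h * g k := by
  obtain ⟨h, hh⟩ := IsLocalization.exist_integer_multiples_of_finite
    (nonZeroDivisors (Lam p)) g
  choose g' hg' using hh
  exact ⟨h, nonZeroDivisors.coe_ne_zero h, g', fun k => by rw [hg', Algebra.smul_def]⟩

/-- A separating functional over `Lam`, and its reductions. -/
theorem exists_sep (β : V → ℤ) (r : ι → F) (S : ι → V → Prop) (w : V → Lam p)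
    (hw : algebraMap (Lam p) (LL p) ∘ w ∉ Bred (wL p β) r S) :
    ∃ ℓ : V → Lam p, ℓ ⬝ᵥ w ≠ 0 ∧
      ∀ n, ∀ u ∈ Bred (wA p β n) r S, (red p n ∘ ℓ) ⬝ᵥ u = 0 := by
  obtain ⟨α, h1, h2⟩ := exists_orth hw
  obtain ⟨h, h0, ℓ, hℓ⟩ := clear_den p α
  have hi := IsFractionRing.injective (Lam p) (LL p)
  have key : ∀ u : V → Lam p, algebraMap (Lam p) (LL p) (ℓ ⬝ᵥ u) =
      algebraMap (Lam p) (LL p) h * (α ⬝ᵥ (algebraMap (Lam p) (LL p) ∘ u)) := fun u => by
    rw [RingHom.map_dotProduct, ← smul_eq_mul, ← smul_dotProduct]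
    congr 1; funext v; exact hℓ v
  refine ⟨ℓ, fun e => ?_, fun n u hu => ?_⟩
  · have := key w
    rw [e, map_zero] at this
    exact mul_ne_zero ((map_ne_zero_iff _ hi).2 h0) h2 this.symm
  · have : Bred (wA p β n) r S ≤ LinearMap.ker (dotProductBilin (An p n) (An p n) (red p n ∘ ℓ)) := by
      refine Bred_le fun i v hs => ?_
      have h3 := key ((tw (wP p β)).D (r i) (dl _ v))
      rw [D_map _ (wL_val p β), map_dl, h1 _ (D_dl_mem_Bred _ r hs), mul_zero,
        map_eq_zero_iff _ hi] at h3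
      have h4 := congrArg (red p n).toRingHom h3
      rw [RingHom.map_dotProduct, D_map _ (wA_red p β n), map_dl, map_zero] at h4
      exact h4
    exact this hu

/-- Twisted 2-cycles over `An` are killed by a bounded power of `s`. -/
theorem exists_kill (β : V → ℤ) (r : ι → F) (S : ι → V → Prop) (hI : Inj (wL p β) r S) :
    ∃ a : ℕ, ∀ (e : ℕ), ∀ b ∈ C2 (An p (p ^ e)) S, bd (wA p β (p ^ e)) r b = 0 →
      ∀ i v, sG (ZMod p) (ZMod (p ^ e)) ^ a * b i v = 0 := by
  classical
  have key : ∀ c : ι × V, ∃ a : ℕ, ∀ (e : ℕ), ∀ b ∈ C2 (An p (p ^ e)) S,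
      bd (wA p β (p ^ e)) r b = 0 → sG (ZMod p) (ZMod (p ^ e)) ^ a * b c.1 c.2 = 0 := by
    rintro ⟨i, v⟩
    by_cases hs : S i v
    swap
    · exact ⟨0, fun e b hb _ => by rw [hb i v hs, mul_zero]⟩
    let S' : ι → V → Prop := fun j u => S j u ∧ (j, u) ≠ (i, v)
    have hw : algebraMap (Lam p) (LL p) ∘ (tw (wP p β)).D (r i) (dl _ v) ∉ Bred (wL p β) r S' := by
      rw [D_map _ (wL_val p β), map_dl]
      rintro ⟨b, hb, e⟩
      have h1 := hI (b - Pi.single i (dl _ v)) (fun j u hj => by
        have h2 : (j, u) ≠ (i, v) := fun e => hj (by cases e; exact hs)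
        rw [Pi.sub_apply, Pi.sub_apply, hb j u fun h => hj h.1, zero_sub, neg_eq_zero]
        by_cases hji : j = i
        · subst hji; rw [Pi.single_eq_same]; exact dl_ne fun e => h2 (by rw [e])
        · simp [hji]) (by
        rw [map_sub, e, bd_apply, Finset.sum_eq_single i] <;> simp +contextual)
      have h3 := congrFun (congrFun h1 i) v
      rw [Pi.sub_apply, Pi.sub_apply, hb i v fun h => h.2 rfl] at h3
      simp at h3
    obtain ⟨ℓ, h1, h2⟩ := exists_sep p β r S' _ hw
    obtain ⟨a, ha⟩ := exists_ann p h1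
    refine ⟨a, fun e b hb hbd => ha e _ ?_⟩
    have h3 : bd (wA p β (p ^ e)) r (b - Pi.single i (b i v • dl _ v)) ∈
        Bred (wA p β (p ^ e)) r S' := ⟨_, fun j u hj => by
      by_cases hju : (j, u) = (i, v)
      · cases hju; simp
      · have : ¬ S j u := fun h => hj ⟨h, hju⟩
        rw [Pi.sub_apply, Pi.sub_apply, hb j u this, zero_sub, neg_eq_zero]
        by_cases hji : j = i
        · subst hji; rw [Pi.single_eq_same, Pi.smul_apply, dl_ne fun e => hju (by rw [e])]; simp
        · simp [hji], rfl⟩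
    have h4 := h2 _ _ h3
    rw [map_sub, hbd, zero_sub, dotProduct_neg, neg_eq_zero, bd_apply, Finset.sum_eq_single i,
      Pi.single_eq_same, map_smul, dotProduct_smul, smul_eq_mul, mul_comm] at h4
    · rw [← h4]
      congr 1
      have := RingHom.map_dotProduct (red p (p ^ e)).toRingHom ℓ ((tw (wP p β)).D (r i) (dl _ v))
      rw [D_map _ (wA_red p β _), map_dl] at this
      exact this
    · simp +contextual
    · simp
  choose a ha using key
  refine ⟨Finset.univ.sup a, fun e b hb hbd i v => ?_⟩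
  obtain ⟨d, hd⟩ := Nat.exists_eq_add_of_le (Finset.le_sup (f := a) (Finset.mem_univ (i, v)))
  rw [hd, add_comm, pow_add, mul_assoc, ha (i, v) e b hb hbd, mul_zero]

/-- The mod `p` second homology of the cyclic covers is bounded. -/
theorem exists_H2_bound (β : V → ℤ) (r : ι → F) (S : ι → V → Prop) (hI : Inj (wL p β) r S) :
    ∃ C : ℕ, ∀ e : ℕ,
      finrank (ZMod p) (H2 (ZMod p) r (pb S (Cov.fst : Cyc β (p ^ e) → V))) ≤ C := by
  obtain ⟨a, ha⟩ := exists_kill p β r S hI
  refine ⟨Fintype.card ι * (Fintype.card V * a), fun e => ?_⟩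
  let φ : H2 (ZMod p) r (pb S (Cov.fst : Cyc β (p ^ e) → V)) →ₗ[ZMod p]
      (ι → V → ann p (sG (ZMod p) (ZMod (p ^ e)) ^ a)) :=
    { toFun := fun b i v => ⟨(Phi p β (p ^ e)).symm (b.1 i) v,
        ha e (fun i => (Phi p β (p ^ e)).symm (b.1 i))
          ((Phi_mem_C2 p β _).1 (by simpa using b.2.1))
          ((Phi p β (p ^ e)).injective (by rw [Phi_bd, map_zero]; simpa using b.2.2)) i v⟩
      map_add' := fun _ _ => by ext; simp
      map_smul' := fun _ _ => by ext; simp }
  have hφ : Function.Injective φ := by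
    intro b b' h
    ext1; funext i
    apply (Phi p β (p ^ e)).symm.injective
    funext v
    exact congrArg Subtype.val (congrFun (congrFun h i) v)
  refine (LinearMap.finrank_le_finrank_of_injective hφ).trans ?_
  rw [finrank_pi_fintype, Finset.sum_const, Finset.card_univ, smul_eq_mul, finrank_pi_fintype,
    Finset.sum_const, Finset.card_univ, smul_eq_mul]
  gcongr
  exact finrank_ann_s_pow p _ a

end Frac

end H94G
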