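import Pool.Agent.MP_c98bf6_al.H94.Lin

set_option autoImplicit false

open Module

noncomputable section

namespace H94G
namespace N6

variable (p : ℕ) [Fact p.Prime] {ι V : Type} [Fintype ι] [Fintype V] [MulAction F V]
  (β : V → ℤ) (n : ℕ) [NeZero n]

section Line
variable {p β n} {z : F} {t : V} {α : V → An p n} {φ : An p n}

/-- The vector over the point `(t, i)`. -/
def G (β : V → ℤ) (t : V) (φ : An p n) (i : ZMod n) :
    (Cyc β n → ZMod p) × (Cyc β n → ZMod p) :=
  (dl _ (⟨t, i⟩ : Cyc β n), φ.coeff i • dl _ (⟨t, i⟩ : Cyc β n))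

omit [NeZero n] in
theorem smul_pt (ht : z • t = t) (i : ZMod n) :
    z • (⟨t, i⟩ : Cyc β n) = ⟨t, i + (intg β t z : ℤ)⟩ := Cov.ext ht (Cyc.smul_snd β n z _)

theorem rho_G (ht : z • t = t)
    (h : hol (wA p β n) t z * pr (wA p β n) α t z = (1 - hol (wA p β n) t z) * φ) (i : ZMod n) :
    (ext (ZMod p) 1 (Phi p β n α)).rho z (G β t φ i) = G β t φ (i + (intg β t z : ℤ)) := by
  have h1 := intg_Phi p β n α z ⟨t, i⟩
  rw [h, hol_wA, sub_mul, one_mul, smul_pt ht] at h1
  simp only [AddMonoidAlgebra.coeff_sub, Finsupp.sub_apply, coeff_mon_mul,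
    add_sub_cancel_right] at h1
  rw [G, ext_rho, ext_rho_dl, un_rho_dl, map_smul, un_rho_dl, smul_pt ht, hol_un, one_mul, G,
    ← add_smul]
  congr 2
  exact (eq_sub_iff_add_eq.1 h1)

theorem rho_pow_G (ht : z • t = t)
    (h : hol (wA p β n) t z * pr (wA p β n) α t z = (1 - hol (wA p β n) t z) * φ) (l : ℕ) :
    (ext (ZMod p) 1 (Phi p β n α)).rho (z ^ l) (G β t φ 0) =
      G β t φ (l * ((intg β t z : ℤ) : ZMod n)) := by
  induction l with
  | zero => simp
  | succ l ih => rw [pow_succ', Act.rho_mul, ih, rho_G ht h, Nat.cast_succ, add_mul, one_mul]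

theorem intg_new (ht : z • t = t)
    (h : hol (wA p β n) t z * pr (wA p β n) α t z = (1 - hol (wA p β n) t z) * φ) :
    intg (Phi p β n α) ⟨t, 0⟩ (z ^ n) = 0 := by
  have h1 := rho_pow_G ht h n
  rw [ZMod.natCast_self, zero_mul, G, ext_rho, ext_rho_dl, un_rho_dl, map_smul, un_rho_dl,
    hol_un, one_mul] at h1
  have h2 : dl (ZMod p) (z ^ n • (⟨t, 0⟩ : Cyc β n)) = dl _ (⟨t, 0⟩ : Cyc β n) :=
    congrArg Prod.fst h1
  have h3 := congrFun (congrArg Prod.snd h1) ⟨t, 0⟩
  simpa [h2] using h3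

omit [MulAction F V] in
theorem sum_G : ∑ i, G β t φ i = PhiE p β n (dl _ t, φ • dl _ t) := by
  classical
  ext a
  · simp only [G, Prod.fst_sum, Finset.sum_apply, dl_apply, Cov.ext_iff, PhiE_apply,
      Function.comp]
    by_cases hb : a.fst = t <;> simp [hb]
  · simp only [G, Prod.snd_sum, Finset.sum_apply, dl_apply, Cov.ext_iff, PhiE_apply,
      Pi.smul_apply, Phi_apply]
    by_cases hb : a.fst = t <;> simp [hb]

theorem sum_range_unit {M : Type} [AddCommMonoid M] (ψ : ZMod n → M) {k : ZMod n}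
    (hk : IsUnit k) : ∑ l ∈ Finset.range n, ψ (l * k) = ∑ i, ψ i := by
  have h1 : ∑ l ∈ Finset.range n, ψ (l * k) = ∑ i : ZMod n, ψ (i * k) := by
    refine Finset.sum_bij' (fun l _ => (l : ZMod n)) (fun i _ => i.val) (by simp)
      (fun i _ => Finset.mem_range.2 (ZMod.val_lt i)) (fun l hl => ?_) (by simp) (by simp)
    exact ZMod.val_cast_of_lt (Finset.mem_range.1 hl)
  rw [h1]
  exact Fintype.sum_bijective _ (hk.unit.mulRight.bijective) _ _ fun _ => rfl

theorem D_new (ht : z • t = t) (hk : IsUnit ((intg β t z : ℤ) : ZMod n))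
    (h : hol (wA p β n) t z * pr (wA p β n) α t z = (1 - hol (wA p β n) t z) * φ) :
    (ext (ZMod p) 1 (Phi p β n α)).D (z ^ n) (G β t φ 0) =
      PhiE p β n ((ext (ZMod p) (wA p β n) α).D z (dl _ t, φ • dl _ t)) := by
  rw [Act.D_pow, PhiE_D, ← sum_G, map_sum]
  simp only [rho_pow_G ht h]
  exact sum_range_unit (fun i => (ext (ZMod p) 1 (Phi p β n α)).D z (G β t φ i)) hk

/-- The boundary of a new cell. -/
theorem bd_new (ht : z • t = t) (hk : IsUnit ((intg β t z : ℤ) : ZMod n)) :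
    (un (ZMod p) (Cyc β n)).D (z ^ n) (dl _ ⟨t, 0⟩) =
      Phi p β n ((tw (wA p β n)).D z (nm p n • dl _ t)) := by
  have h := congrArg Prod.fst (D_new (p := p) (α := 0) (φ := 0) ht hk (by simp [pr]))
  rw [G, ext_D, ext_D, PhiE_apply] at h
  have h2 : nm p n • dl (An p n) t = fun v => dl (ZMod p) t v • nm p n := by
    classical
    funext v; simp only [Pi.smul_apply, dl_apply]; split_ifs <;> simp
  rw [Phi_D, h2, Phi_nm, ← un_D_pull Cov.eqv_fst]
  exact h

theorem kap_new (ht : z • t = t) (hk : IsUnit ((intg β t z : ℤ) : ZMod n))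
    (h : hol (wA p β n) t z * pr (wA p β n) α t z = (1 - hol (wA p β n) t z) * φ) :
    kap 1 (z ^ n) (dl (ZMod p) (⟨t, 0⟩ : Cyc β n)) (Phi p β n α) =
      Phi p β n (kap (wA p β n) z (dl (ZMod p) t) α + φ • (tw (wA p β n)).D z (dl _ t)
        - φ.coeff 0 • (tw (wA p β n)).D z (nm p n • dl _ t)) := by
  have h1 := congrArg Prod.snd (D_new ht hk h)
  rw [G, ext_D, ext_D, PhiE_apply, map_smul, map_smul] at h1
  rw [map_sub, map_smul, ← bd_new ht hk, eq_sub_iff_add_eq]
  exact h1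

end Line

variable (r : ι → F) (S : ι → V → Prop) (z : F)

/-- Chains that become boundaries after multiplication by `s`. -/
def Bs : Submodule (An p n) (V → An p n) :=
  (Bred (wA p β n) r S).comap (LinearMap.lsmul _ _ (sG (ZMod p) (ZMod n)))

omit [Fintype V] [NeZero n] in
theorem mem_Bs {u : V → An p n} :
    u ∈ Bs p β n r S ↔ sG (ZMod p) (ZMod n) • u ∈ Bred (wA p β n) r S := Iff.rfl

omit [Fintype V] in
theorem nm_mem_Bs (w : V → An p n) : (tw (wA p β n)).D z (nm p n • w) ∈ Bs p β n r S := by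
  rw [mem_Bs, ← map_smul, smul_smul, s_mul_nm, zero_smul, map_zero]; exact zero_mem _

variable (α f : V → An p n)

/-- The cap product along the line `g • α`. -/
def Th (b : ι → V → An p n) (τ : V → ZMod p) : An p n →ₗ[ZMod p] (V → An p n) where
  toFun g := (Phi p β n).symm (capc 1 r (fun i => Phi p β n (b i)) (Phi p β n (g • α))) +
    g • (kap (wA p β n) z τ α + (tw (wA p β n)).D z (dg (ZMod p) f τ))
  map_add' g g' := by
    simp only [add_smul, map_add, ← capL_apply]; abel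
  map_smul' c g := by
    simp only [smul_assoc, map_smul, ← capL_apply, RingHom.id_apply, smul_add]

theorem Th_apply (b : ι → V → An p n) (τ : V → ZMod p) (g : An p n) :
    Th p β n r z α f b τ g =
      (Phi p β n).symm (capc 1 r (fun i => Phi p β n (b i)) (Phi p β n (g • α))) +
        g • (kap (wA p β n) z τ α + (tw (wA p β n)).D z (dg (ZMod p) f τ)) := rfl

theorem Th_shift (b : ι → V → An p n) (τ : V → ZMod p) (g : An p n) :
    (mon (ZMod p) (1 : ZMod n) : An p n) • Th p β n r z α f b τ g =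
      Th p β n r z α f ((mon (ZMod p) (1 : ZMod n) : An p n) • b) τ
        ((mon (ZMod p) (1 : ZMod n) : An p n) * g) := by
  rw [Th_apply, Th_apply, smul_add, smul_smul, mul_smul _ g α]
  congr 1
  apply (Phi p β n).injective
  rw [Phi_mon_smul, LinearEquiv.apply_symm_apply, LinearEquiv.apply_symm_apply,
    capc_pull (Cov.eqv_sh _), Phi_mon_smul]
  simp only [Pi.smul_apply, Phi_mon_smul]
  rfl

theorem Th_sub (b b' : ι → V → An p n) (τ : V → ZMod p) (g : An p n) :
    Th p β n r z α f b τ g - Th p β n r z α f b' τ g = Th p β n r z α f (b - b') 0 g := by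
  have h : (fun i => Phi p β n ((b - b') i)) =
      (fun i => Phi p β n (b i)) - fun i => Phi p β n (b' i) := by
    funext i; simp
  rw [Th_apply, Th_apply, Th_apply, h]
  simp only [← capC_apply, map_sub, kap_zero_left, map_zero, add_zero, smul_zero]
  abel

theorem Th_nm (c : ι → V → ZMod p) (τ : V → ZMod p) (g : An p n) :
    Th p β n r z α f (fun i v => c i v • nm p n) τ g =
      g • (capc (wA p β n) r c α + kap (wA p β n) z τ α
        + (tw (wA p β n)).D z (dg (ZMod p) f τ)) := by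
  rw [Th_apply]
  simp only [Phi_nm]
  rw [← Phi_capc, LinearEquiv.symm_apply_apply, ← capL_apply, map_smul, capL_apply, ← smul_add,
    add_assoc]

/-- The bad part of the line. -/
def Ad (b : ι → V → An p n) (τ : V → ZMod p) : Submodule (ZMod p) (An p n) :=
  ((Bs p β n r S).restrictScalars (ZMod p)).comap (Th p β n r z α f b τ)

theorem Ad_step (b : ι → V → An p n) (τ : V → ZMod p) (ρ : ℕ)
    (h : n ≤ finrank (ZMod p) (Ad p β n r S z α f b τ) + ρ) :
    n ≤ finrank (ZMod p) (Ad p β n r S z α f (sG (ZMod p) (ZMod n) • b) 0) + 2 * ρ := by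
  set t : An p n := (mon (ZMod p) (1 : ZMod n) : An p n) with ht
  have h1 : finrank (ZMod p) (Ad p β n r S z α f b τ) ≤
      finrank (ZMod p) (Ad p β n r S z α f (t • b) τ) := by
    have hi : Function.Injective (LinearMap.mulLeft (ZMod p) t) :=
      fun a b e => (mon (ZMod p) (1 : ZMod n)).isUnit.mul_left_cancel e
    rw [(Submodule.equivMapOfInjective _ hi _).finrank_eq]
    apply Submodule.finrank_mono
    rintro _ ⟨g, hg, rfl⟩
    change Th p β n r z α f (t • b) τ (t * g) ∈ Bs p β n r S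
    rw [← Th_shift]; exact (Bs p β n r S).smul_mem _ hg
  have h2 := finrank_inf_ge (Ad p β n r S z α f (t • b) τ) (Ad p β n r S z α f b τ)
  have h3 : Ad p β n r S z α f (t • b) τ ⊓ Ad p β n r S z α f b τ ≤
      Ad p β n r S z α f (sG (ZMod p) (ZMod n) • b) 0 := fun g hg => by
    change Th p β n r z α f (sG (ZMod p) (ZMod n) • b) 0 g ∈ Bs p β n r S
    rw [sG, sub_smul, one_smul, ← Th_sub]; exact sub_mem hg.1 hg.2
  have h4 := Submodule.finrank_mono h3
  rw [finrank_An] at h2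
  omega

variable (T : V → Prop)

theorem descend (j : ℕ) : ∀ (b : ι → V → An p n) (τ : V → ZMod p), b ∈ C2 (An p n) S →
    (∀ v, ¬ T v → τ v = 0) →
    bd (wA p β n) r b + (tw (wA p β n)).D z (fun v => τ v • nm p n) = 0 → (b ≠ 0 ∨ τ ≠ 0) →
    sG (ZMod p) (ZMod n) ^ j • b = 0 →
    ∃ c ∈ H2 (ZMod p) (oW z r) (oS T S), c ≠ 0 ∧ ∀ (α f : V → An p n) (ρ : ℕ),
      n ≤ finrank (ZMod p) (Ad p β n r S z α f b τ) + ρ →
      n ≤ finrank (ZMod p) (Ad p β n r S z α f (fun i v => c (some i) v • nm p n) (c none))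
        + 2 ^ j * ρ := by
  have base : ∀ (j : ℕ) (b : ι → V → An p n) (τ : V → ZMod p), b ∈ C2 (An p n) S →
      (∀ v, ¬ T v → τ v = 0) →
      bd (wA p β n) r b + (tw (wA p β n)).D z (fun v => τ v • nm p n) = 0 → (b ≠ 0 ∨ τ ≠ 0) →
      sG (ZMod p) (ZMod n) • b = 0 →
      ∃ c ∈ H2 (ZMod p) (oW z r) (oS T S), c ≠ 0 ∧ ∀ (α f : V → An p n) (ρ : ℕ),
        n ≤ finrank (ZMod p) (Ad p β n r S z α f b τ) + ρ →
        n ≤ finrank (ZMod p) (Ad p β n r S z α f (fun i v => c (some i) v • nm p n) (c none))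
          + 2 ^ j * ρ := by
    intro j b τ hb hτ hc h0 hs
    have e : b = fun i v => (b i v).coeff 0 • nm p n := by
      funext i v; exact eq_smul_nm p (congrFun (congrFun hs i) v)
    refine ⟨fun o => o.elim τ fun i v => (b i v).coeff 0,
      ⟨mem_C2_oS.2 ⟨hτ, fun i v h => by simp [hb i v h]⟩, ?_⟩, fun h => ?_, fun α f ρ h => ?_⟩
    · have h1 := congrArg (Phi p β n) hc
      rw [e, map_add, Phi_bd, Phi_D, map_zero] at h1
      simp only [Phi_nm] at h1
      rw [SetLike.mem_coe, LinearMap.mem_ker, bd_oW]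
      funext v
      have h2 := congrFun (bd_pull (Cov.eqv_fst (θ := cycθ β n)) (1 : V → (ZMod p)ˣ) r
        fun i v => (b i v).coeff 0) ⟨v, 0⟩
      have h3 := congrFun (un_D_pull (Cov.eqv_fst (θ := cycθ β n)) z τ) ⟨v, 0⟩
      have h4 := congrFun h1 ⟨v, 0⟩
      simp only [Function.comp, Pi.add_apply, Pi.zero_apply, Option.elim] at h2 h3 h4 ⊢
      rw [h2, h3, add_comm]; exact h4
    · rcases h0 with h0 | h0
      · apply h0; rw [e]; funext i v
        have : (b i v).coeff 0 = 0 := congrFun (congrFun h (some i)) v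
        simp [this]
      · exact h0 (congrFun h none)
    · change n ≤ finrank (ZMod p) (Ad p β n r S z α f (fun i v => (b i v).coeff 0 • nm p n) τ) + _
      rw [← e]
      have : ρ ≤ 2 ^ j * ρ := Nat.le_mul_of_pos_left _ (by positivity)
      omega
  induction j with
  | zero =>
    intro b τ hb hτ hc h0 hs
    rw [pow_zero, one_smul] at hs
    exact base 0 b τ hb hτ hc h0 (by rw [hs, smul_zero])
  | succ j ih =>
    intro b τ hb hτ hc h0 hs
    by_cases h1 : sG (ZMod p) (ZMod n) • b = 0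
    · exact base _ b τ hb hτ hc h0 h1
    obtain ⟨c, hc1, hc2, hc3⟩ := ih (sG (ZMod p) (ZMod n) • b) 0 ((C2 _ S).smul_mem _ hb)
      (fun _ _ => rfl) (by
        have h2 := congrArg (sG (ZMod p) (ZMod n) • ·) hc
        have h3 : sG (ZMod p) (ZMod n) • (fun v => τ v • nm p n) = 0 := by
          funext v; simp [s_mul_nm]
        have h4 : (fun v => (0 : V → ZMod p) v • nm p n) = 0 := by funext v; simp
        simp only [smul_add, ← map_smul, h3, map_zero, add_zero, smul_zero] at h2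
        rw [h4, map_zero, add_zero, h2]) (Or.inl h1) (by rw [smul_smul, ← pow_succ, hs])
    refine ⟨c, hc1, hc2, fun α f ρ h => ?_⟩
    have := hc3 α f _ (Ad_step p β n r S z α f b τ ρ h)
    rw [pow_succ, mul_assoc]; exact this

/-- Integral data attached to a relative cycle. -/
theorem data (c : Option ι → V → ZMod p) (h : Cup p r S z T c β) :
    ∃ (α f : V → Lam p) (a : ℕ), ∀ e : ℕ,
      red p (p ^ e) ∘ α ∈ Z1 (wA p β (p ^ e)) r S ∧
      (∀ v, T v → hol (wA p β (p ^ e)) v z * pr (wA p β (p ^ e)) (red p (p ^ e) ∘ α) v z =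
        (1 - hol (wA p β (p ^ e)) v z) * red p (p ^ e) (f v)) ∧
      finrank (ZMod p) (Ad p β (p ^ e) r S z (red p (p ^ e) ∘ α) (red p (p ^ e) ∘ f)
        (fun i v => c (some i) v • nm p (p ^ e)) (c none)) ≤ a := by
  obtain ⟨α, hα, f, hf, hw⟩ := h
  obtain ⟨h, h0, g, hg⟩ := clear_den p (Sum.elim α f)
  let φ := IsScalarTower.toAlgHom (ZMod p) (Lam p) (LL p)
  have hi : Function.Injective φ := IsFractionRing.injective (Lam p) (LL p)
  have hφ : ∀ v, (wL p β v : LL p) = φ (wP p β v) := wL_val p β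
  have h0' : φ h ≠ 0 := (map_ne_zero_iff _ hi).2 h0
  have e1 : φ ∘ (g ∘ Sum.inl) = φ h • α := funext fun v => hg (.inl v)
  have e2 : φ ∘ (g ∘ Sum.inr) = φ h • f := funext fun v => hg (.inr v)
  let w := capc (wP p β) (oW z r) c (g ∘ Sum.inl) +
    (tw (wP p β)).D z (dg (ZMod p) (g ∘ Sum.inr) (c none))
  have key : ∀ {A : Type} [CommRing A] [Algebra (ZMod p) A] (ψ : Lam p →ₐ[ZMod p] A)
      (ω : V → Aˣ), (∀ v, (ω v : A) = ψ (wP p β v)) → ψ ∘ w =
      capc ω (oW z r) c (ψ ∘ g ∘ Sum.inl) + (tw ω).D z (dg (ZMod p) (ψ ∘ g ∘ Sum.inr) (c none)) := by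
    intro A _ _ ψ ω hω
    have h1 := D_map ψ.toRingHom hω z (dg (ZMod p) (g ∘ Sum.inr) (c none))
    have h2 : ψ.toRingHom ∘ dg (ZMod p) (g ∘ Sum.inr) (c none) =
        dg (ZMod p) (ψ ∘ g ∘ Sum.inr) (c none) := by funext v; simp
    rw [← capc_map ψ hω, ← h2, ← h1]; funext v; simp [w]
  have hw' : algebraMap (Lam p) (LL p) ∘ w ∉ Bred (wL p β) r S := by
    intro hm
    have h1 : dg (ZMod p) (φ h • f) (c none) = φ h • dg (ZMod p) f (c none) := by
      funext v; simp
    have h2 := key φ _ hφ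
    rw [e1, e2, h1, ← capL_apply, map_smul, map_smul, ← smul_add, capL_apply] at h2
    have h3 := (Bred (wL p β) r S).smul_mem (φ h)⁻¹ (h2 ▸ hm : _ ∈ Bred (wL p β) r S)
    rw [smul_smul, inv_mul_cancel₀ h0', one_smul] at h3
    exact hw h3
  obtain ⟨ℓ, h1, h2⟩ := exists_sep p β r S w hw'
  obtain ⟨a, ha⟩ := exists_ann p h1
  refine ⟨g ∘ Sum.inl, g ∘ Sum.inr, a + 1, fun e => ⟨fun i v hs => ?_, fun v hv => ?_, ?_⟩⟩
  · have h3 := pr_map φ.toRingHom hφ (g ∘ Sum.inl) v (r i)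
    rw [show φ.toRingHom ∘ g ∘ Sum.inl = φ h • α from e1, pr_smul, hα i v hs, mul_zero] at h3
    have h4 := pr_map (red p (p ^ e)).toRingHom (wA_red p β _) (g ∘ Sum.inl) v (r i)
    rw [hi (h3.trans (map_zero φ).symm), map_zero] at h4
    exact h4.symm
  · have h3 : hol (wP p β) v z * pr (wP p β) (g ∘ Sum.inl) v z =
        (1 - hol (wP p β) v z) * (g ∘ Sum.inr) v := by
      apply hi
      have h4 := pr_map φ.toRingHom hφ (g ∘ Sum.inl) v z
      have h5 := hol_map φ.toRingHom hφ v z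
      rw [show φ.toRingHom ∘ g ∘ Sum.inl = φ h • α from e1, pr_smul] at h4
      rw [map_mul, map_mul, map_sub, map_one, show φ ((g ∘ Sum.inr) v) = φ h * f v from
        congrFun e2 v, show φ (pr (wP p β) (g ∘ Sum.inl) v z) = _ from h4,
        show φ (hol (wP p β) v z) = _ from h5]
      linear_combination φ h * hf v hv
    have h4 := congrArg (red p (p ^ e)).toRingHom h3
    rw [map_mul, map_mul, map_sub, map_one, hol_map _ (wA_red p β _),
      pr_map _ (wA_red p β _)] at h4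
    exact h4
  · refine le_trans (Submodule.finrank_mono fun u hu => ?_) (finrank_ann_s_pow p (p ^ e) (a + 1))
    have h3 : Th p β (p ^ e) r z _ _ _ _ u ∈ Bs p β (p ^ e) r S := hu
    rw [Th_nm, mem_Bs, add_comm (capc _ _ _ _), ← capc_oW, ← key _ _ (wA_red p β _),
      smul_smul] at h3
    have h4 := h2 _ _ h3
    rw [dotProduct_smul, smul_eq_mul, mul_comm] at h4
    have h5 := RingHom.map_dotProduct (red p (p ^ e)).toRingHom ℓ w
    have h6 := ha e _ ((congrArg (· * _) h5).trans h4)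
    rw [mem_ann, pow_succ, mul_assoc]; exact h6

omit [MulAction F V] [NeZero n] in
theorem chain_new {ξ : Cyc β n → ZMod p} (h : ∀ a, ¬ (T a.fst ∧ a.snd = 0) → ξ a = 0) :
    ξ = ∑ t, ξ ⟨t, 0⟩ • dl _ (⟨t, 0⟩ : Cyc β n) := by
  classical
  funext a
  simp only [Finset.sum_apply, Pi.smul_apply, dl_apply, Cov.ext_iff]
  by_cases h0 : a.snd = 0
  · obtain ⟨t, i⟩ := a
    simp only at h0
    subst h0; simp
  · simp [h0, h a fun e => h0 e.2]

theorem hnew (hT : ∀ v, T v → z • v = v) (hk : ∀ t, T t → IsUnit ((intg β t z : ℤ) : ZMod n))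
    (ξ : Cyc β n → ZMod p) (h : ∀ a, ¬ (T a.fst ∧ a.snd = 0) → ξ a = 0) :
    (un (ZMod p) (Cyc β n)).D (z ^ n) ξ =
      Phi p β n ((tw (wA p β n)).D z fun v => ξ ⟨v, 0⟩ • nm p n) := by
  classical
  have h1 : (fun v => ξ ⟨v, 0⟩ • nm p n) = ∑ t, ξ ⟨t, 0⟩ • nm p n • dl (An p n) t := by
    funext v; simp [Finset.sum_apply, dl_apply]
  conv_lhs => rw [chain_new p β n T h]
  rw [h1, map_sum, map_sum, map_sum]
  refine Finset.sum_congr rfl fun t _ => ?_
  by_cases ht : T t
  · rw [map_smul, bd_new (hT t ht) (hk t ht), ((tw (wA p β n)).D z).map_smul_of_tower (ξ ⟨t, 0⟩),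
      map_smul (Phi p β n)]
  · simp [h ⟨t, 0⟩ fun e => ht e.1]

theorem hB (hT : ∀ v, T v → z • v = v) (hk : ∀ t, T t → IsUnit ((intg β t z : ℤ) : ZMod n)) :
    ∀ w ∈ Bred 1 (oW (z ^ n) r) (cycS T S β n), (Phi p β n).symm w ∈ Bs p β n r S := by
  rintro _ ⟨b, hb, rfl⟩
  obtain ⟨hb1, hb2⟩ := mem_C2_oS.1 hb
  rw [bd_oW, map_add, hnew p β n z T hT hk _ hb1, LinearEquiv.symm_apply_apply]
  refine add_mem ?_ ((Bred _ r S).smul_mem _ ?_)
  · have := nm_mem_Bs p β n r S z fun v => algebraMap _ _ (b none ⟨v, 0⟩)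
    convert this using 2; funext v; simp [Algebra.smul_def, mul_comm]
  · rw [← Phi_mem_Bred, LinearEquiv.apply_symm_apply]; exact ⟨_, hb2, rfl⟩

theorem H2_le : finrank (ZMod p) (H2 (ZMod p) (oW (z ^ n) r) (cycS T S β n)) ≤
    Fintype.card V + finrank (ZMod p) (H2 (ZMod p) r (pb S (Cov.fst : Cyc β n → V))) := by
  let φ : H2 (ZMod p) (oW (z ^ n) r) (cycS T S β n) →ₗ[ZMod p] (V → ZMod p) :=
    { toFun := fun c v => c.1 none ⟨v, 0⟩
      map_add' := fun _ _ => rfl
      map_smul' := fun _ _ => rfl }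
  have h0 : ∀ c : LinearMap.ker φ, c.1.1 none = 0 := fun c => by
    rw [chain_new p β n T (mem_C2_oS.1 c.1.2.1).1]
    refine Finset.sum_eq_zero fun t _ => ?_
    rw [show c.1.1 none ⟨t, 0⟩ = 0 from congrFun c.2 t, zero_smul]
  let ψ : LinearMap.ker φ →ₗ[ZMod p] H2 (ZMod p) r (pb S (Cov.fst : Cyc β n → V)) :=
    { toFun := fun c => ⟨fun i => c.1.1 (some i), (mem_C2_oS.1 c.1.2.1).2, by
        have := c.1.2.2
        rwa [SetLike.mem_coe, LinearMap.mem_ker, bd_oW, h0, map_zero, zero_add] at this⟩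
      map_add' := fun _ _ => rfl
      map_smul' := fun _ _ => rfl }
  have hψ : Function.Injective ψ := fun c c' h => by
    ext1; ext1; funext o
    cases o with
    | none => rw [h0, h0]
    | some i => exact congrFun (congrArg Subtype.val h) i
  have h1 := φ.finrank_range_add_finrank_ker
  have h2 := (LinearMap.range φ).finrank_le
  have h3 := LinearMap.finrank_le_finrank_of_injective hψ
  rw [finrank_fintype_fun_eq_card] at h2
  omega

theorem kap_chain (hT : ∀ v, T v → z • v = v)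
    (hk : ∀ t, T t → IsUnit ((intg β t z : ℤ) : ZMod n))
    (d : ∀ t, T t → hol (wA p β n) t z * pr (wA p β n) α t z = (1 - hol (wA p β n) t z) * f t)
    (ξ : Cyc β n → ZMod p) (h : ∀ a, ¬ (T a.fst ∧ a.snd = 0) → ξ a = 0) :
    kap (wA p β n) z (fun v => ξ ⟨v, 0⟩) α + (tw (wA p β n)).D z (dg (ZMod p) f fun v => ξ ⟨v, 0⟩)
      - (Phi p β n).symm (kap 1 (z ^ n) ξ (Phi p β n α)) ∈ Bs p β n r S := by
  classical
  have h1 := chain_new p β n T h
  set τ : V → ZMod p := fun v => ξ ⟨v, 0⟩ with hτ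
  have h2 : τ = ∑ t, τ t • dl _ t := (sum_dl τ).symm
  have h3 : ξ = ∑ t, τ t • dl _ (⟨t, 0⟩ : Cyc β n) := h1
  have h0 : ∀ t, ¬ T t → τ t = 0 := fun t ht => h ⟨t, 0⟩ fun e => ht e.1
  clear_value τ
  rw [h3]
  conv => enter [2, 1]; rw [h2]
  simp only [← kapC_apply, map_sum, ← Finset.sum_add_distrib, ← Finset.sum_sub_distrib]
  refine sum_mem fun t _ => ?_
  by_cases ht : T t
  · have h4 : dg (ZMod p) f (dl (ZMod p) t) = f t • dl _ t := by
      funext u; simp only [dg_apply, dl_apply, Pi.smul_apply]; split_ifs with h <;> simp [h]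
    rw [map_smul, map_smul, ((tw (wA p β n)).D z).map_smul_of_tower (τ t),
      map_smul (kapC _ _ _ _), map_smul (Phi p β n).symm, ← smul_add, ← smul_sub, kapC_apply, kapC_apply, kap_new (hT t ht) (hk t ht) (d t ht),
      LinearEquiv.symm_apply_apply, h4, map_smul, sub_sub_cancel]
    exact ((Bs p β n r S).restrictScalars (ZMod p)).smul_mem _
      (((Bs p β n r S).restrictScalars (ZMod p)).smul_mem _ (nm_mem_Bs p β n r S z _))
  · simp [h0 t ht]

theorem core (hT : ∀ v, T v → z • v = v) (hk : ∀ t, T t → IsUnit ((intg β t z : ℤ) : ZMod n))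
    (a0 C0 a k : ℕ)
    (ha0 : ∀ b ∈ C2 (An p n) S, bd (wA p β n) r b = 0 →
      ∀ i v, sG (ZMod p) (ZMod n) ^ a0 * b i v = 0)
    (hC0 : finrank (ZMod p) (H2 (ZMod p) r (pb S (Cov.fst : Cyc β n → V))) ≤ C0)
    (hd : ∀ c ∈ H2 (ZMod p) (oW z r) (oS T S), c ≠ 0 → ∃ α f : V → An p n,
      α ∈ Z1 (wA p β n) r S ∧
      (∀ v, T v → hol (wA p β n) v z * pr (wA p β n) α v z = (1 - hol (wA p β n) v z) * f v) ∧
      finrank (ZMod p) (Ad p β n r S z α f (fun i v => c (some i) v • nm p n) (c none)) ≤ a)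
    (hn : a + 2 ^ (a0 + 1) * (2 * (Fintype.card V + C0) + k) < n) :
    RK p k (oW (z ^ n) r) (cycS T S β n) := by
  intro ζ hζ h0
  have hτ := H2_le p β n r S z T
  obtain ⟨hζ1, hζ2⟩ := mem_C2_oS.1 hζ.1
  let b : ι → V → An p n := fun i => (Phi p β n).symm (ζ (some i))
  have hb : (fun i => Phi p β n (b i)) = fun i => ζ (some i) := by funext i; simp [b]
  have hb2 : b ∈ C2 (An p n) S := (Phi_mem_C2 p β n).1 (hb ▸ hζ2)
  have hcyc : bd (wA p β n) r b + (tw (wA p β n)).D z (fun v => ζ none ⟨v, 0⟩ • nm p n) = 0 := by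
    apply (Phi p β n).injective
    rw [map_add, Phi_bd, hb, ← hnew p β n z T hT hk _ hζ1, map_zero, add_comm, ← bd_oW]
    exact hζ.2
  have hkill : sG (ZMod p) (ZMod n) ^ (a0 + 1) • b = 0 := by
    funext i v
    have h3 : sG (ZMod p) (ZMod n) • (fun v => ζ none ⟨v, 0⟩ • nm p n) = 0 := by
      funext v; simp [s_mul_nm]
    have h2 := congrArg (sG (ZMod p) (ZMod n) • ·) hcyc
    simp only [smul_add, ← map_smul, h3, map_zero, add_zero, smul_zero] at h2
    have := ha0 _ ((C2 _ S).smul_mem (sG (ZMod p) (ZMod n)) hb2) h2 i v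
    rw [pow_succ, Pi.smul_apply, Pi.smul_apply, smul_eq_mul, mul_assoc]; exact this
  obtain ⟨c, hc1, hc2, hc3⟩ := descend p β n r S z T (a0 + 1) b (fun v => ζ none ⟨v, 0⟩) hb2
    (fun v hv => hζ1 ⟨v, 0⟩ fun e => hv e.1) hcyc (by
      by_contra hne
      push Not at hne
      apply h0; funext o
      cases o with
      | none =>
        rw [chain_new p β n T hζ1]
        exact Finset.sum_eq_zero fun t _ => by
          rw [show ζ none ⟨t, 0⟩ = 0 from congrFun hne.2 t, zero_smul]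
      | some i => rw [← congrFun hb i, hne.1]; simp) hkill
  obtain ⟨αn, fn, d1, d2, d3⟩ := hd c hc1 hc2
  have d2' : ∀ (g : An p n) t, T t → hol (wA p β n) t z * pr (wA p β n) (g • αn) t z =
      (1 - hol (wA p β n) t z) * (g • fn) t := fun g t ht => by
    rw [pr_smul, Pi.smul_apply, smul_eq_mul]; linear_combination g * d2 t ht
  let ϑ : An p n →ₗ[ZMod p] (Cyc β n → ZMod p) :=
    (Phi p β n).toLinearMap ∘ₗ (LinearMap.toSpanSingleton (An p n) _ αn).restrictScalars (ZMod p)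
  have hϑ : ∀ g, ϑ g = Phi p β n (g • αn) := fun _ => rfl
  have h1 := finrank_comap_ge ϑ (Kc (oW (z ^ n) r) (cycS T S β n) ζ)
    (Z1 1 (oW (z ^ n) r) (cycS T S β n)) inf_le_left fun g => by
      refine mem_Z1_oS.2 ⟨?_, Phi_mem_Z1 p β n ((Z1 _ r S).smul_mem g d1)⟩
      rintro ⟨t, i⟩ ⟨ht, rfl⟩
      exact intg_new (hT t ht) (d2' g t ht)
  have h2 : (Kc (oW (z ^ n) r) (cycS T S β n) ζ).comap ϑ ≤
      Ad p β n r S z αn fn b fun v => ζ none ⟨v, 0⟩ := fun g hg => by
    have h3 := hB p β n r S z T hT hk _ hg.2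
    have h4 := kap_chain p β n r S z (g • αn) (g • fn) T hT hk (d2' g) _ hζ1
    have h5 : dg (ZMod p) (g • fn) (fun v => ζ none ⟨v, 0⟩) =
        g • dg (ZMod p) fn fun v => ζ none ⟨v, 0⟩ := by funext v; simp
    change Th p β n r z αn fn b _ g ∈ Bs p β n r S
    rw [capL_apply, capc_oW, map_add, hϑ, ← hb] at h3
    rw [kap_smul_right, h5, map_smul, ← smul_add] at h4
    rw [Th_apply]
    convert add_mem h3 h4 using 1; abel
  have h4 := Submodule.finrank_mono h2
  have h5 := finrank_Z1 (1 : Cyc β n → (ZMod p)ˣ) (oW (z ^ n) r) (cycS T S β n)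
  have h6 := finrank_Bred_H2 (L := ZMod p) (oW (z ^ n) r) (cycS T S β n)
  have h7 : finrank (ZMod p) (Kc (oW (z ^ n) r) (cycS T S β n) ζ) ≤
      finrank (ZMod p) (Z1 (1 : Cyc β n → (ZMod p)ˣ) (oW (z ^ n) r) (cycS T S β n)) :=
    Submodule.finrank_mono inf_le_left
  rw [inv_one] at h5
  rw [finrank_An] at h1
  obtain ⟨ρ, hρ⟩ := Nat.exists_eq_add_of_le h7
  have h8 := hc3 αn fn ρ (by omega)
  have h10 : 2 * (Fintype.card V + C0) + k < ρ := by
    by_contra hle
    have := Nat.mul_le_mul_left (2 ^ (a0 + 1)) (not_lt.1 hle)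
    omega
  omega

end N6

open N6 in
theorem n6 (p : ℕ) [Fact p.Prime] : SpecN6 p := by
  intro ι V _ _ _ _ r S z T β _ _ hT hu hI hC k
  classical
  have hp : p.Prime := Fact.out
  obtain ⟨a0, ha0⟩ := exists_kill p β r S hI
  obtain ⟨C0, hC0⟩ := exists_H2_bound p β r S hI
  have hd := fun c : {c // c ∈ H2 (ZMod p) (oW z r) (oS T S) ∧ c ≠ 0} =>
    data p β r S z T c.1 (hC c.1 c.2.1 c.2.2)
  choose α f a hd using hd
  have : Fintype {c // c ∈ H2 (ZMod p) (oW z r) (oS T S) ∧ c ≠ 0} := Fintype.ofFinite _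
  filter_upwards [Filter.eventually_ge_atTop
    (Finset.univ.sup a + 2 ^ (a0 + 1) * (2 * (Fintype.card V + C0) + k))] with e he
  refine core p β (p ^ e) r S z T hT (fun t ht => ?_) a0 C0 _ k (ha0 e) (hC0 e)
    (fun c h1 h2 => ?_) (he.trans_lt (Nat.lt_pow_self hp.one_lt))
  · rw [ZMod.coe_int_isUnit_iff_isCoprime, Nat.cast_pow]
    exact ((Nat.prime_iff_prime_int.1 hp).coprime_iff_not_dvd.2 (hu t ht)).pow_left
  · obtain ⟨d1, d2, d3⟩ := hd ⟨c, h1, h2⟩ e
    exact ⟨_, _, d1, d2, d3.trans (Finset.le_sup (f := a) (Finset.mem_univ _))⟩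

end H94G
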