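import Pool.Agent.MP_c98bf6_al.H94.Ring

/-! Chains of the cyclic cover are `An`-twisted chains of the base. -/

set_option autoImplicit false

open Module

noncomputable section

namespace H94G

variable (p : ℕ) [Fact p.Prime] {ι V : Type} [Fintype ι] [Fintype V] [MulAction F V]
  (β : V → ℤ) (n : ℕ) [NeZero n]

def Phi : (V → An p n) ≃ₗ[ZMod p] (Cyc β n → ZMod p) where
  toFun w a := (w a.fst).coeff a.snd
  invFun u v := .ofCoeff (Finsupp.equivFunOnFinite.symm fun i => u ⟨v, i⟩)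
  map_add' _ _ := by funext a; simp
  map_smul' _ _ := by funext a; simp
  left_inv w := by funext v; ext i; simp
  right_inv u := by funext a; simp

omit [MulAction F V] in
theorem Phi_apply (w : V → An p n) (a : Cyc β n) : Phi p β n w a = (w a.fst).coeff a.snd := rfl

omit [NeZero n] in
theorem Cyc.xinv_snd (a : Cyc β n) : (x⁻¹ • a).snd = a.snd := by
  rw [Cyc.smul_snd, intg_inv]; simp

omit [NeZero n] in
theorem Cyc.yinv_snd (a : Cyc β n) : (y⁻¹ • a).snd = a.snd - ((β (y⁻¹ • a.fst) : ℤ) : ZMod n) := by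
  rw [Cyc.smul_snd, intg_inv]; simp [sub_eq_add_neg]

theorem Phi_X (w : V → An p n) :
    Phi p β n ((tw (wA p β n)).X w) = (un (ZMod p) (Cyc β n)).X (Phi p β n w) := by
  funext a; simp [Phi_apply, Cyc.xinv_snd]

theorem Phi_Y (w : V → An p n) :
    Phi p β n ((tw (wA p β n)).Y w) = (un (ZMod p) (Cyc β n)).Y (Phi p β n w) := by
  funext a; simp [Phi_apply, Cyc.yinv_snd, wA, coeff_mon_mul]

theorem Phi_rho (f : F) (w : V → An p n) :
    Phi p β n ((tw (wA p β n)).rho f w) = (un (ZMod p) (Cyc β n)).rho f (Phi p β n w) :=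
  Act.nat_rho _ _ (Phi p β n) (Phi_X p β n) (Phi_Y p β n) f w

theorem Phi_D (f : F) (w : V → An p n) :
    Phi p β n ((tw (wA p β n)).D f w) = (un (ZMod p) (Cyc β n)).D f (Phi p β n w) :=
  Act.nat_D _ _ (Phi p β n).toLinearMap.toAddMonoidHom (Phi_X p β n) (Phi_Y p β n) f w

theorem Phi_bd (r : ι → F) (b : ι → V → An p n) :
    Phi p β n (bd (wA p β n) r b) = bd 1 r fun i => Phi p β n (b i) := by
  simp only [bd_apply, map_sum, Phi_D]

omit [MulAction F V] in
theorem Phi_mon_smul (g : ZMod n) (w : V → An p n) :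
    Phi p β n ((mon (ZMod p) g : An p n) • w) = Phi p β n w ∘ Cov.sh (-g) := by
  funext a; simp [Phi_apply, coeff_mon_mul, sub_eq_add_neg]

omit [MulAction F V] in
theorem Phi_mon_dl (v : V) (i : ZMod n) :
    Phi p β n ((mon (ZMod p) i : An p n) • dl _ v) = dl _ (⟨v, i⟩ : Cyc β n) := by
  classical
  funext a
  obtain ⟨u, j⟩ := a
  by_cases h : u = v
  · subst h; simp [Phi_apply, coeff_mon, dl_apply, eq_comm]
  · simp [Phi_apply, dl_apply, h]

omit [MulAction F V] in
theorem push_Phi (w : V → An p n) :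
    push (ZMod p) Cov.fst (Phi p β n w) = fun v => aug (ZMod p) _ (w v) := by
  classical
  funext v
  rw [push_apply, Finset.sum_filter, Cov.sum_eq, aug_eq_sum, Finset.sum_eq_single v]
  · simp [Phi_apply]
  · intro u _ hu; simp [hu]
  · simp

omit [MulAction F V] in
theorem Phi_nm (c : V → ZMod p) : Phi p β n (fun v => c v • nm p n) = c ∘ Cov.fst := by
  funext a; simp [Phi_apply, coeff_nm]

/-- The comparison map of extension modules. -/
def PhiE : ((V → ZMod p) × (V → An p n)) →+ ((Cyc β n → ZMod p) × (Cyc β n → ZMod p)) :=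
  (LinearMap.funLeft (ZMod p) (ZMod p) Cov.fst).toAddMonoidHom.prodMap
    (Phi p β n).toLinearMap.toAddMonoidHom

omit [MulAction F V] in
@[simp] theorem PhiE_apply (w' : V → ZMod p) (w : V → An p n) :
    PhiE p β n (w', w) = (w' ∘ Cov.fst, Phi p β n w) := rfl

theorem PhiE_X (α : V → An p n) (u : (V → ZMod p) × (V → An p n)) :
    PhiE p β n ((ext (ZMod p) (wA p β n) α).X u) =
      (ext (ZMod p) 1 (Phi p β n α)).X (PhiE p β n u) := by
  obtain ⟨w', w⟩ := u
  rw [ext_X, PhiE_apply, PhiE_apply, ext_X, Phi_X]; rfl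

theorem PhiE_Y (α : V → An p n) (u : (V → ZMod p) × (V → An p n)) :
    PhiE p β n ((ext (ZMod p) (wA p β n) α).Y u) =
      (ext (ZMod p) 1 (Phi p β n α)).Y (PhiE p β n u) := by
  obtain ⟨w', w⟩ := u
  have h : Phi p β n (dg (ZMod p) α w') = dg (ZMod p) (Phi p β n α) (w' ∘ Cov.fst) := by
    funext a; simp [Phi_apply]
  rw [ext_Y, PhiE_apply, PhiE_apply, ext_Y, Phi_Y, map_add, h]; rfl

theorem PhiE_rho (α : V → An p n) (f : F) (u : (V → ZMod p) × (V → An p n)) :
    PhiE p β n ((ext (ZMod p) (wA p β n) α).rho f u) =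
      (ext (ZMod p) 1 (Phi p β n α)).rho f (PhiE p β n u) :=
  Act.nat_rho _ _ (PhiE p β n) (PhiE_X p β n α) (PhiE_Y p β n α) f u

theorem PhiE_D (α : V → An p n) (f : F) (u : (V → ZMod p) × (V → An p n)) :
    PhiE p β n ((ext (ZMod p) (wA p β n) α).D f u) =
      (ext (ZMod p) 1 (Phi p β n α)).D f (PhiE p β n u) :=
  Act.nat_D _ _ (PhiE p β n) (PhiE_X p β n α) (PhiE_Y p β n α) f u

theorem Phi_kap (α : V → An p n) (f : F) (w : V → ZMod p) :
    Phi p β n (kap (wA p β n) f w α) = kap 1 f (w ∘ Cov.fst) (Phi p β n α) := by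
  have := congrArg Prod.snd (PhiE_D p β n α f (w, 0))
  rw [PhiE_apply p β n w 0, map_zero] at this
  exact this

theorem Phi_capc (α : V → An p n) (r : ι → F) (c : ι → V → ZMod p) :
    Phi p β n (capc (wA p β n) r c α) = capc 1 r (fun i => c i ∘ Cov.fst) (Phi p β n α) := by
  simp only [capc, map_sum, Phi_kap]

/-- The integral on the cover is a coefficient of the twisted integral. -/
theorem intg_Phi (α : V → An p n) (f : F) (a : Cyc β n) :
    intg (Phi p β n α) a f = (hol (wA p β n) a.fst f * pr (wA p β n) α a.fst f).coeff (f • a).snd := by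
  classical
  have h := PhiE_rho p β n α f (dl _ a.fst, 0)
  rw [ext_rho_dl, PhiE_apply, PhiE_apply, map_zero] at h
  have h2 : ((dl (ZMod p) a.fst ∘ Cov.fst, 0) : (Cyc β n → ZMod p) × (Cyc β n → ZMod p)) =
      ∑ i : ZMod n, (dl (ZMod p) (⟨a.fst, i⟩ : Cyc β n), 0) := by
    ext b
    · simp only [Function.comp, Prod.fst_sum, Finset.sum_apply, dl_apply, Cov.ext_iff]
      by_cases hb : b.fst = a.fst <;> simp [hb]
    · simp [Prod.snd_sum]
  rw [h2, map_sum] at h
  have h3 := congrFun (congrArg Prod.snd h) (f • a)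
  simp only [ext_rho_dl, Prod.snd_sum, Finset.sum_apply, hol_un, one_mul, Pi.smul_apply,
    dl_apply, smul_left_cancel_iff, Phi_apply, Cov.smul_fst, if_true, smul_eq_mul, mul_one] at h3
  rw [h3, Finset.sum_eq_single a.snd]
  · simp
  · intro i _ hi
    rw [if_neg, mul_zero]
    intro e; exact hi (congrArg Cov.snd e).symm
  · simp

omit [Fintype ι] [MulAction F V] in
theorem Phi_mem_C2 {S : ι → V → Prop} {b : ι → V → An p n} :
    (fun i => Phi p β n (b i)) ∈ C2 (ZMod p) (pb S (Cov.fst : Cyc β n → V)) ↔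
      b ∈ C2 (An p n) S := by
  constructor
  · intro h i v hs
    ext j
    exact h i ⟨v, j⟩ hs
  · intro h i a hs
    change (b i a.fst).coeff a.snd = 0
    rw [h i a.fst hs]; rfl

theorem Phi_mem_Bred {r : ι → F} {S : ι → V → Prop} {w : V → An p n} :
    Phi p β n w ∈ Bred 1 r (pb S (Cov.fst : Cyc β n → V)) ↔ w ∈ Bred (wA p β n) r S := by
  constructor
  · rintro ⟨b, hb, e⟩
    refine ⟨fun i => (Phi p β n).symm (b i), (Phi_mem_C2 p β n).1 (by simpa using hb), ?_⟩
    apply (Phi p β n).injective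
    rw [Phi_bd, ← e]; simp
  · rintro ⟨b, hb, rfl⟩
    exact ⟨_, (Phi_mem_C2 p β n).2 hb, (Phi_bd p β n r b).symm⟩

omit [Fintype ι] in
theorem Phi_mem_Z1 {r : ι → F} {S : ι → V → Prop} {α : V → An p n}
    (h : α ∈ Z1 (wA p β n) r S) : Phi p β n α ∈ Z1 1 r (pb S (Cov.fst : Cyc β n → V)) :=
  fun i a hs => by
    have := intg_Phi p β n α (r i) a
    rw [h i a.fst hs, mul_zero] at this
    exact this

omit [Fintype ι] [MulAction F V] [NeZero n] in
theorem ncell_cyc (S : ι → V → Prop) :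
    ncell (pb S (Cov.fst : Cyc β n → V)) = ncell S * n := by
  have e : {c : ι × Cyc β n // pb S Cov.fst c.1 c.2} ≃ {c : ι × V // S c.1 c.2} × ZMod n :=
    { toFun := fun c => (⟨(c.1.1, c.1.2.fst), c.2⟩, c.1.2.snd)
      invFun := fun c => ⟨(c.1.1.1, ⟨c.1.1.2, c.2⟩), c.1.2⟩
      left_inv := fun _ => rfl
      right_inv := fun _ => rfl }
  rw [ncell, Nat.card_congr e, Nat.card_prod, Nat.card_zmod]; rfl

end H94G
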