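import Pool.Agent.MP_c98bf6_al.H94.Spec

/-! Facts on the coefficient rings. -/

set_option autoImplicit false

open Module

noncomputable section

namespace H94G

section Mon
variable {K G : Type} [CommRing K] [AddCommGroup G]

theorem mon_val (g : G) : (mon K g : AddMonoidAlgebra K G) = AddMonoidAlgebra.single g 1 := rfl

theorem mon_add (g h : G) : mon K (g + h) = mon K g * mon K h := by
  unfold mon; rw [ofAdd_add, map_mul]

@[simp] theorem mon_zero : mon K (0 : G) = 1 := by unfold mon; rw [ofAdd_zero, map_one]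

theorem mon_neg (g : G) : mon K (-g) = (mon K g)⁻¹ := by unfold mon; rw [ofAdd_neg, map_inv]

theorem mon_zsmul (n : ℤ) (g : G) : mon K (n • g) = mon K g ^ n := by
  unfold mon; rw [ofAdd_zsmul, map_zpow]

theorem mon_nsmul (n : ℕ) (g : G) : mon K (n • g) = mon K g ^ n := by
  unfold mon; rw [ofAdd_nsmul, map_pow]

theorem mon_injective [Nontrivial K] {g h : G}
    (e : (mon K g : AddMonoidAlgebra K G) = mon K h) : g = h := by
  classical
  rw [mon_val, mon_val] at e
  exact (AddMonoidAlgebra.single_left_inj one_ne_zero).1 e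

@[simp] theorem aug_mon (g : G) : aug K G (mon K g) = 1 := by
  simp [aug, mon_val]

theorem mapDomain_mon {H : Type} [AddCommGroup H] (φ : G →+ H) (g : G) :
    AddMonoidAlgebra.mapDomainAlgHom K K φ (mon K g) = mon K (φ g) := by
  simp [mon_val]

theorem mon_ind {P : AddMonoidAlgebra K G → Prop} (h1 : ∀ g : G, P (mon K g))
    (h2 : ∀ a b, P a → P b → P (a + b)) (h3 : ∀ (c : K) a, P a → P (c • a))
    (a : AddMonoidAlgebra K G) : P a :=
  AddMonoidAlgebra.induction_on a h1 h2 h3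

theorem aug_mapDomain {H : Type} [AddCommGroup H] (φ : G →+ H) (a : AddMonoidAlgebra K G) :
    aug K H (AddMonoidAlgebra.mapDomainAlgHom K K φ a) = aug K G a := by
  induction a using mon_ind with
  | h1 g => rw [mapDomain_mon, aug_mon, aug_mon]
  | h2 a b ha hb => simp only [map_add, ha, hb]
  | h3 c a ha => simp only [map_smul, ha]

theorem coeff_mon_mul (g : G) (a : AddMonoidAlgebra K G) (i : G) :
    ((mon K g : AddMonoidAlgebra K G) * a).coeff i = a.coeff (i - g) := by
  rw [mon_val, AddMonoidAlgebra.coeff_single_mul_apply, one_mul, neg_add_eq_sub]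

theorem coeff_mon [DecidableEq G] (g i : G) :
    (mon K g : AddMonoidAlgebra K G).coeff i = if g = i then 1 else 0 := by
  rw [mon_val, AddMonoidAlgebra.coeff_single, Finsupp.single_apply]

theorem aug_eq_sum [Fintype G] (a : AddMonoidAlgebra K G) : aug K G a = ∑ i, a.coeff i := by
  classical
  induction a using mon_ind with
  | h1 g => simp [coeff_mon]
  | h2 a b ha hb => simp [ha, hb, Finset.sum_add_distrib]
  | h3 c a ha => simp [ha, Finset.mul_sum]

/-- In a cyclic group generated by `g`, the augmentation ideal is generated by `mon g - 1`. -/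
theorem dvd_of_aug {g : G} (hg : ∀ i : G, ∃ n : ℤ, i = n • g) (a : AddMonoidAlgebra K G) :
    ((mon K g : AddMonoidAlgebra K G) - 1) ∣ a - algebraMap K _ (aug K G a) := by
  induction a using mon_ind with
  | h1 i =>
    obtain ⟨n, rfl⟩ := hg i
    rw [aug_mon, map_one, mon_zsmul]
    rcases n.eq_nat_or_neg with ⟨n, rfl | rfl⟩
    · rw [zpow_natCast, Units.val_pow_eq_pow_val]; exact sub_one_dvd_pow_sub_one _ n
    · have h := sub_one_dvd_pow_sub_one (mon K g : AddMonoidAlgebra K G) n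
      have e : ((mon K g ^ (-(n : ℤ)) : (AddMonoidAlgebra K G)ˣ) : AddMonoidAlgebra K G) - 1 =
          ((mon K g : AddMonoidAlgebra K G) ^ n - 1) *
            (-(mon K g ^ (-(n : ℤ)) : (AddMonoidAlgebra K G)ˣ)) := by
        have : ((mon K g : AddMonoidAlgebra K G) ^ n) *
            (mon K g ^ (-(n : ℤ)) : (AddMonoidAlgebra K G)ˣ) = 1 := by
          rw [← Units.val_pow_eq_pow_val, ← Units.val_mul, zpow_neg, zpow_natCast,
            mul_inv_cancel, Units.val_one]
        linear_combination this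
      rw [e]; exact h.mul_right _
  | h2 a b ha hb =>
    rw [map_add, map_add]
    convert dvd_add ha hb using 1; ring
  | h3 c a ha =>
    rw [map_smul, smul_eq_mul, map_mul, Algebra.smul_def, ← mul_sub]
    exact ha.mul_left _

end Mon

section Spec
variable (p : ℕ) {V : Type}

theorem red_mon (n : ℕ) (g : ℤ) : red p n (mon (ZMod p) g) = mon (ZMod p) (g : ZMod n) :=
  mapDomain_mon _ _

theorem spec_mon [Fintype V] (β m : V → ℤ) :
    spec p β (mon (ZMod p) m) = mon (ZMod p) (β ⬝ᵥ m) := mapDomain_mon _ _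

theorem aug_red (n : ℕ) (a : Lam p) : aug (ZMod p) _ (red p n a) = aug (ZMod p) _ a :=
  aug_mapDomain _ _

theorem aug_spec [Fintype V] (β : V → ℤ) (a : RU p V) :
    aug (ZMod p) _ (spec p β a) = aug (ZMod p) _ a := aug_mapDomain _ _

theorem wP_spec [Fintype V] (β : V → ℤ) (v : V) : (wP p β v : Lam p) = spec p β (wU p V v) := by
  rw [wU, spec_mon, dot_dl]; rfl

theorem wL_val (β : V → ℤ) (v : V) : (wL p β v : LL p) = algebraMap (Lam p) (LL p) (wP p β v) :=
  rfl

theorem wA_red (β : V → ℤ) (n : ℕ) (v : V) : (wA p β n v : An p n) = red p n (wP p β v) :=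
  (red_mon p n _).symm

theorem aug_wU (v : V) : (((1 : V → (ZMod p)ˣ) v : (ZMod p)ˣ) : ZMod p) =
    aug (ZMod p) (V → ℤ) (wU p V v : RU p V) := (aug_mon _).symm

theorem wP_neg (β : V → ℤ) : wP p (-β) = (wP p β)⁻¹ := by
  funext v; exact mon_neg _

theorem wL_neg (β : V → ℤ) : wL p (-β) = (wL p β)⁻¹ := by
  funext v; simp [wL, wP_neg]

theorem wL_comp {V' : Type} (β : V → ℤ) (π : V' → V) : wL p (β ∘ π) = wL p β ∘ π := rfl

theorem hol_wP [Fintype V] [MulAction F V] (β : V → ℤ) (v : V) (f : F) :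
    hol (wP p β) v f = mon (ZMod p) (intg β v f) := by
  have h : wP p β = fun u => mon (ZMod p) (1 : ℤ) ^ β u := by
    funext u; rw [← mon_zsmul, smul_eq_mul, mul_one]; rfl
  rw [h, hol_zpow, ← mon_zsmul, smul_eq_mul, mul_one]

theorem hol_wL [Fintype V] [MulAction F V] (β : V → ℤ) (v : V) (f : F) :
    hol (wL p β) v f = algebraMap (Lam p) (LL p) (mon (ZMod p) (intg β v f)) := by
  rw [← hol_map (algebraMap (Lam p) (LL p)) (wL_val p β), hol_wP]

theorem hol_wA [Fintype V] [MulAction F V] (β : V → ℤ) (n : ℕ) (v : V) (f : F) :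
    hol (wA p β n) v f = mon (ZMod p) ((intg β v f : ℤ) : ZMod n) := by
  rw [← hol_map (red p n).toRingHom (wA_red p β n), hol_wP]; exact red_mon p n _

theorem hol_wL_eq_one [Fact p.Prime] [Fintype V] [MulAction F V] (β : V → ℤ) (v : V) (f : F) :
    hol (wL p β) v f = 1 ↔ intg β v f = 0 := by
  rw [hol_wL]
  constructor
  · intro h
    rw [← map_one (algebraMap (Lam p) (LL p))] at h
    have := IsFractionRing.injective (Lam p) (LL p) h
    exact mon_injective (K := ZMod p) (by rw [this, mon_zero]; rfl)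
  · intro h; rw [h, mon_zero]; simp

theorem OpenAt.self [Fintype V] {P : (V → ℤ) → Prop} {β : V → ℤ} (h : OpenAt p P β) : P β :=
  let ⟨_, h1, h2⟩ := h; h2 β h1

theorem OpenAt.mono [Fintype V] {P P' : (V → ℤ) → Prop} {β : V → ℤ} (h : OpenAt p P β)
    (h' : ∀ β', P β' → P' β') : OpenAt p P' β :=
  let ⟨μ, h1, h2⟩ := h; ⟨μ, h1, fun β' e => h' β' (h2 β' e)⟩

/-- The algebra map `RU → LL` attached to `β`. -/
def specL [Fintype V] (β : V → ℤ) : RU p V →ₐ[ZMod p] LL p :=
  (IsScalarTower.toAlgHom (ZMod p) (Lam p) (LL p)).comp (spec p β)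

theorem wL_specL [Fintype V] (β : V → ℤ) (v : V) :
    (wL p β v : LL p) = specL p β (wU p V v) := by
  rw [wL_val, wP_spec]; rfl

theorem specL_ne [Fact p.Prime] [Fintype V] (β : V → ℤ) (μ : RU p V) :
    specL p β μ ≠ 0 ↔ spec p β μ ≠ 0 :=
  (map_ne_zero_iff _ (IsFractionRing.injective (Lam p) (LL p)))

end Spec

/-! ### The rings `Lam` and `An` -/
section An
variable (p : ℕ) [Fact p.Prime]

/-- `s = t - 1`. -/
def sG (K G : Type) [CommRing K] [AddCommGroup G] [One G] : AddMonoidAlgebra K G :=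
  (mon K (1 : G) : AddMonoidAlgebra K G) - 1

/-- The norm element. -/
def nm (p n : ℕ) [NeZero n] : An p n := ∑ i : ZMod n, (mon (ZMod p) i : An p n)

instance charP_alg (G : Type) [AddCommGroup G] : CharP (AddMonoidAlgebra (ZMod p) G) p :=
  charP_of_injective_algebraMap (algebraMap (ZMod p) _).injective p

theorem red_s (n : ℕ) : red p n (sG (ZMod p) ℤ) = sG (ZMod p) (ZMod n) := by
  simp [sG, red_mon]

theorem s_dvd_Lam {a : Lam p} (h : aug (ZMod p) _ a = 0) : sG (ZMod p) ℤ ∣ a := by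
  have := dvd_of_aug (K := ZMod p) (g := (1 : ℤ)) (fun i => ⟨i, by simp⟩) a
  rwa [h, map_zero, sub_zero] at this

theorem s_dvd_An {n : ℕ} {a : An p n} (h : aug (ZMod p) _ a = 0) : sG (ZMod p) (ZMod n) ∣ a := by
  have := dvd_of_aug (K := ZMod p) (g := (1 : ZMod n))
    (fun i => ⟨ZMod.cast i, by simp⟩) a
  rwa [h, map_zero, sub_zero] at this

@[simp] theorem aug_s (G : Type) [AddCommGroup G] [One G] : aug (ZMod p) G (sG (ZMod p) G) = 0 := by
  simp [sG]

theorem s_pow_pow (G : Type) [AddCommGroup G] [One G] (e : ℕ) :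
    sG (ZMod p) G ^ p ^ e = (mon (ZMod p) (p ^ e • (1 : G)) : AddMonoidAlgebra (ZMod p) G) - 1 := by
  rw [sG, sub_pow_char_pow, one_pow, mon_nsmul, Units.val_pow_eq_pow_val]

theorem s_pow_An (e : ℕ) : sG (ZMod p) (ZMod (p ^ e)) ^ p ^ e = 0 := by
  rw [s_pow_pow, nsmul_one, ZMod.natCast_self, mon_zero, Units.val_one, sub_self]

theorem isUnit_of_aug {e : ℕ} {a : An p (p ^ e)} (h : aug (ZMod p) _ a ≠ 0) : IsUnit a := by
  obtain ⟨b, hb⟩ := dvd_of_aug (K := ZMod p) (g := (1 : ZMod (p ^ e)))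
    (fun i => ⟨ZMod.cast i, by simp⟩) a
  have hn : IsNilpotent (a - algebraMap (ZMod p) _ (aug (ZMod p) _ a)) := by
    rw [hb]; exact (Commute.all _ _).isNilpotent_mul_right ⟨p ^ e, s_pow_An p e⟩
  have hu : IsUnit (algebraMap (ZMod p) (An p (p ^ e)) (aug (ZMod p) _ a)) :=
    (IsUnit.mk0 _ h).map _
  have := hn.isUnit_add_right_of_commute hu (Commute.all _ _)
  rwa [sub_add_cancel] at this

instance : IsNoetherianRing (Lam p) :=
  IsLocalization.isNoetherianRing (Submonoid.powers (Polynomial.X : Polynomial (ZMod p)))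
    (LaurentPolynomial (ZMod p)) inferInstance

/-- Every non-zero element of `Lam` is `s ^ a` times an element of non-zero augmentation. -/
theorem exists_val {h : Lam p} (h0 : h ≠ 0) :
    ∃ (a : ℕ) (h' : Lam p), aug (ZMod p) _ h' ≠ 0 ∧ h = sG (ZMod p) ℤ ^ a * h' := by
  have hs : ¬ IsUnit (sG (ZMod p) ℤ) := fun hu => by
    have := hu.map (aug (ZMod p) ℤ)
    rw [aug_s] at this; exact not_isUnit_zero this
  obtain ⟨a, h', h1, h2⟩ := WfDvdMonoid.max_power_factor' h0 hs
  exact ⟨a, h', fun e => h1 (s_dvd_Lam p e), h2⟩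

/-- Uniform annihilator: `red h * z = 0` forces `s ^ a * z = 0`. -/
theorem exists_ann {h : Lam p} (h0 : h ≠ 0) : ∃ a : ℕ, ∀ (e : ℕ) (z : An p (p ^ e)),
    red p (p ^ e) h * z = 0 → sG (ZMod p) (ZMod (p ^ e)) ^ a * z = 0 := by
  obtain ⟨a, h', h1, rfl⟩ := exists_val p h0
  refine ⟨a, fun e z hz => ?_⟩
  have hu : IsUnit (red p (p ^ e) h') := isUnit_of_aug p (by rwa [aug_red])
  rw [map_mul, map_pow, red_s, mul_comm _ (red p (p ^ e) h'), mul_assoc] at hz
  exact hu.mul_right_eq_zero.1 hz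

theorem finrank_An (n : ℕ) [NeZero n] : finrank (ZMod p) (An p n) = n := by
  rw [(AddMonoidAlgebra.coeffLinearEquiv (ZMod p)).finrank_eq, finrank_finsupp_self, ZMod.card]

theorem coeff_nm (n : ℕ) [NeZero n] (i : ZMod n) : (nm p n).coeff i = 1 := by
  simp [nm, coeff_mon]

theorem mon_mul_nm (n : ℕ) [NeZero n] (g : ZMod n) : (mon (ZMod p) g : An p n) * nm p n = nm p n := by
  ext i; rw [coeff_mon_mul, coeff_nm, coeff_nm]

theorem s_mul_nm (n : ℕ) [NeZero n] : sG (ZMod p) (ZMod n) * nm p n = 0 := by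
  rw [sG, sub_mul, mon_mul_nm, one_mul, sub_self]

theorem mul_nm (n : ℕ) [NeZero n] (a : An p n) : a * nm p n = aug (ZMod p) _ a • nm p n := by
  induction a using mon_ind with
  | h1 g => rw [mon_mul_nm, aug_mon, one_smul]
  | h2 a b ha hb => rw [add_mul, ha, hb, map_add, add_smul]
  | h3 c a ha => rw [smul_mul_assoc, ha, map_smul, smul_smul, smul_eq_mul]

/-- The annihilator of `s` is spanned by the norm element. -/
theorem eq_smul_nm {n : ℕ} [NeZero n] {z : An p n} (h : sG (ZMod p) (ZMod n) * z = 0) :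
    z = z.coeff 0 • nm p n := by
  have h1 : ∀ i : ZMod n, z.coeff (i - 1) = z.coeff i := fun i => by
    rw [sG, sub_mul, one_mul, sub_eq_zero] at h
    rw [← coeff_mon_mul, h]
  have h2 : ∀ k : ℕ, z.coeff (k : ZMod n) = z.coeff 0 := fun k => by
    induction k with
    | zero => simp
    | succ k ih => rw [← h1, Nat.cast_succ, add_sub_cancel_right, ih]
  ext i
  rw [AddMonoidAlgebra.coeff_smul, Finsupp.smul_apply, coeff_nm, smul_eq_mul, mul_one,
    ← ZMod.natCast_zmod_val i, h2]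

/-- The annihilator of an element as a `ZMod p`-subspace. -/
def ann {n : ℕ} (a : An p n) : Submodule (ZMod p) (An p n) :=
  LinearMap.ker (LinearMap.mulLeft (ZMod p) a)

theorem mem_ann {n : ℕ} {a z : An p n} : z ∈ ann p a ↔ a * z = 0 := Iff.rfl

theorem finrank_ann_s_pow (n : ℕ) [NeZero n] (a : ℕ) :
    finrank (ZMod p) (ann p (sG (ZMod p) (ZMod n) ^ a)) ≤ a := by
  induction a with
  | zero =>
    have : ann p (sG (ZMod p) (ZMod n) ^ 0) = ⊥ := by
      rw [eq_bot_iff]; intro z hz; simpa [mem_ann] using hz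
    rw [this]; simp
  | succ a ih =>
    let φ : ann p (sG (ZMod p) (ZMod n) ^ (a + 1)) →ₗ[ZMod p] ZMod p :=
      (Finsupp.lapply (0 : ZMod n)) ∘ₗ (AddMonoidAlgebra.coeffLinearEquiv (ZMod p)).toLinearMap ∘ₗ
        LinearMap.mulLeft (ZMod p) (sG (ZMod p) (ZMod n) ^ a) ∘ₗ Submodule.subtype _
    have h1 := φ.finrank_range_add_finrank_ker
    have h2 : finrank (ZMod p) (LinearMap.range φ) ≤ 1 := by
      simpa using (LinearMap.range φ).finrank_le
    have h3 : finrank (ZMod p) (LinearMap.ker φ) ≤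
        finrank (ZMod p) (ann p (sG (ZMod p) (ZMod n) ^ a)) := by
      rw [← Submodule.finrank_map_subtype_eq]
      apply Submodule.finrank_mono
      rintro _ ⟨z, hz, rfl⟩
      have h4 : sG (ZMod p) (ZMod n) * (sG (ZMod p) (ZMod n) ^ a * z.1) = 0 := by
        rw [← mul_assoc, ← pow_succ']; exact z.2
      have h5 : (sG (ZMod p) (ZMod n) ^ a * z.1).coeff 0 = 0 := hz
      have h6 := eq_smul_nm p h4
      rw [h5, zero_smul] at h6
      exact h6
    omega

/-- For `k ≠ 0`, `t ^ k - 1` divides `s ^ p ^ e` in `An p (p ^ (e + 1))`. -/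
theorem mon_sub_one_dvd {e : ℕ} {k : ZMod (p ^ (e + 1))} (hk : k ≠ 0) :
    ((mon (ZMod p) k : An p (p ^ (e + 1))) - 1) ∣ sG (ZMod p) (ZMod (p ^ (e + 1))) ^ p ^ e := by
  have hp : p.Prime := Fact.out
  have h1 : Nat.gcd k.val (p ^ (e + 1)) ∣ p ^ e := by
    obtain ⟨j, hj, hj'⟩ := (Nat.dvd_prime_pow hp).1 (Nat.gcd_dvd_right k.val (p ^ (e + 1)))
    rw [hj']
    refine pow_dvd_pow p (Nat.le_of_lt_succ (lt_of_le_of_ne hj fun h => hk ?_))
    have := Nat.gcd_dvd_left k.val (p ^ (e + 1))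
    rw [hj', h] at this
    rw [← ZMod.natCast_zmod_val k]; exact (ZMod.natCast_eq_zero_iff _ _).2 this
  obtain ⟨c, hc⟩ := h1
  have h2 := Nat.gcd_eq_gcd_ab k.val (p ^ (e + 1))
  have h3 : (p ^ e • (1 : ZMod (p ^ (e + 1)))) =
      ((Nat.gcdA k.val (p ^ (e + 1)) * c : ℤ) : ZMod (p ^ (e + 1))).val • k := by
    rw [nsmul_one, nsmul_eq_mul, ZMod.natCast_zmod_val, hc]
    have h4 := congrArg (Int.cast : ℤ → ZMod (p ^ (e + 1))) h2
    simp only [Int.cast_natCast, Int.cast_add, Int.cast_mul, ZMod.natCast_self, zero_mul,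
      add_zero, ZMod.natCast_zmod_val] at h4
    rw [Nat.cast_mul, h4]; push_cast; ring
  rw [s_pow_pow, h3, mon_nsmul, Units.val_pow_eq_pow_val]
  exact sub_one_dvd_pow_sub_one _ _

end An

end H94G
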