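import Pool.Agent.MP_c98bf6_al.H94.Cover

/-! Invariants and the statements of the modules. Proof sketches: team-store
`MP_c98bf6_h94_plan.md`. -/

set_option autoImplicit false

open Module

noncomputable section

namespace H94G

section Inv
variable {ι V : Type} [Fintype ι] [Fintype V] [MulAction F V]

/-- Cocycles whose cap product with the 2-chain `c` is a boundary. -/
def Kc {K : Type} [CommRing K] (r : ι → F) (S : ι → V → Prop) (c : ι → V → K) :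
    Submodule K (V → K) := Z1 1 r S ⊓ (Bred 1 r S).comap (capL 1 r c)

/-- Every non-zero 2-cycle has cap rank `> 2 dim H₂ + k`. -/
def RK (p k : ℕ) (r : ι → F) (S : ι → V → Prop) : Prop :=
  ∀ c ∈ H2 (ZMod p) r S, c ≠ 0 →
    finrank (ZMod p) (Kc r S c) + finrank (ZMod p) (H2 (ZMod p) r S) + ncell S + k
      < Fintype.card V

/-- The twisted cap product of `c` with the `β`-twisted cocycles is not zero. -/
def Cup0 (p : ℕ) (r : ι → F) (S : ι → V → Prop) (c : ι → V → ZMod p) (β : V → ℤ) : Prop :=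
  ∃ α ∈ Z1 (wL p β) r S, capc (wL p β) r c α ∉ Bred (wL p β) r S

/-- The same for a relative cycle; `c none` is carried by the loops `z` at the points of `T`. -/
def Cup (p : ℕ) (r : ι → F) (S : ι → V → Prop) (z : F) (T : V → Prop)
    (c : Option ι → V → ZMod p) (β : V → ℤ) : Prop :=
  ∃ α ∈ Z1 (wL p β) r S, ∃ f : V → LL p,
    (∀ v, T v → hol (wL p β) v z * pr (wL p β) α v z = (1 - hol (wL p β) v z) * f v) ∧
    capc (wL p β) (oW z r) c α + (tw (wL p β)).D z (dg (ZMod p) f (c none))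
      ∉ Bred (wL p β) r S

/-- Chains mod `p` killed by the reductions of all integral cocycles. -/
def Aperp (p : ℕ) (r : ι → F) (S : ι → V → Prop) : Submodule (ZMod p) (V → ZMod p) where
  carrier := {w | ∀ γ ∈ Zc r S, (fun v => ((γ v : ℤ) : ZMod p)) ⬝ᵥ w = 0}
  add_mem' := by intro a b ha hb γ h; rw [dotProduct_add, ha γ h, hb γ h, add_zero]
  zero_mem' := by intro γ _; simp
  smul_mem' := by intro c b hb γ h; rw [dotProduct_smul, hb γ h, smul_zero]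

/-- The cells `S` generate all relators on every finite `p`-cover. -/
def GEN (p : ℕ) (r : ι → F) (S : ι → V → Prop) : Prop :=
  ∀ (V' : Type) [Fintype V'] [MulAction F V'] [IsP p V'] (π : V' → V), Eqv π →
    Closed r (pb S π) → Closed r (full ι V')

/-- All cells of the layers below `j`. -/
def lay (rk : ι → ℕ) (j : ℕ) (V : Type) : ι → V → Prop := fun i _ => rk i < j

end Inv

section Grp
variable {ι : Type} [Fintype ι] {p : ℕ}

/-- The loops of `U` at `f` and at `1` have the same rational homology class on `F / N`. -/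
def InL (r : ι → F) (U : F) (N : ON p) (f : F) : Prop :=
  ∀ o : ℕ, U ^ o ∈ N.M → ∀ γ ∈ Zc r (full ι N.Q), intg γ (f : N.Q) (U ^ o) = intg γ 1 (U ^ o)

/-- The loop `z` at `1` is primitive on `F / N`. -/
def Prim (r : ι → F) (z : F) (N : ON p) : Prop :=
  z ∈ N.M ∧ ∃ γ ∈ Zc r (full ι N.Q), ¬ (p : ℤ) ∣ intg γ 1 z

/-- Below `Ns` there are cofinally many tight levels. -/
def Tight (r : ι → F) (U : F) (H : Subgroup F) (Ns : ON p) : Prop :=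
  ∀ N : ON p, N.Rel r → N.M ≤ Ns.M → ∃ N0 : ON p, N0.Rel r ∧ N0.M ≤ N.M ∧
    (∃ a : ℕ, Prim r (U ^ p ^ a) N0) ∧
    ∀ f ∈ H, InL r U N0 f → f ∈ Subgroup.zpowers U ⊔ N0.M

/-- Output of the analysis of the stabiliser of the `U`-line. -/
structure EData (r : ι → F) (U : F) (H : Subgroup F) (Ns : ON p) (m : ℕ) where
  E : ON p → Subgroup F
  le : ∀ N : ON p, N.M ≤ E N
  mem : ∀ N : ON p, U ∈ E N
  mono : ∀ N N' : ON p, N.Rel r → N'.Rel r → N'.M ≤ N.M → E N' ≤ E N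
  lift : ∀ N N' : ON p, N.Rel r → N'.Rel r → N'.M ≤ N.M → ∀ e ∈ E N, ∃ e' ∈ E N', e'⁻¹ * e ∈ N.M
  comm : ∀ N : ON p, N.Rel r → N.M ≤ Ns.M → ∀ e ∈ E N, Commute (e : N.Q) ((U ^ m : F) : N.Q)
  small : ∀ N : ON p, N.Rel r → N.M ≤ Ns.M → ∀ e ∈ E N, e ∈ H → e ∈ Subgroup.zpowers U ⊔ N.M
  sep : ∀ N : ON p, N.Rel r → N.M ≤ Ns.M → ∃ N0 : ON p, N0.Rel r ∧ N0.M ≤ N.M ∧
    ∃ a : ℕ, Prim r (U ^ p ^ a) N0 ∧ ∀ t t' : F, t' * t⁻¹ ∉ E N0 →
      ∃ γ ∈ Zc r (full ι N0.Q), intg γ (t : N0.Q) (U ^ p ^ a) = 0 ∧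
        intg γ (t' : N0.Q) (U ^ p ^ a) ≠ 0

end Grp

/-- The relators are `τ i ^ p`. -/
def rel (p : ℕ) {ι : Type} (τ : ι → F) : ι → F := fun i => τ i ^ p

/-- One stage of the construction. -/
structure State (p : ℕ) where
  ι : Type
  [fι : Fintype ι]
  rk : ι → ℕ
  l : ℕ
  τ : ι → F
  V : Type
  [fV : Fintype V]
  [act : MulAction F V]
  [isP : IsP p V]
  v0 : V
  S : ι → V → Prop
  E : ι → ON p → Subgroup F
  c : ι → ℕ
  rk_inj : Function.Injective rk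
  rk_lt : ∀ i, rk i < l
  closed : Closed (rel p τ) (full ι V)
  xv : x • v0 ≠ v0
  gen : GEN p (rel p τ) S
  rk0 : RK p 0 (rel p τ) S
  le : ∀ i (N : ON p), N.M ≤ E i N
  mem : ∀ i (N : ON p), τ i ∈ E i N
  mono : ∀ i (N N' : ON p), N.Rel (rel p τ) → N'.Rel (rel p τ) → N'.M ≤ N.M → E i N' ≤ E i N
  move : ∀ i (N : ON p), N.Rel (rel p τ) → N.Triv V → ∀ e ∈ E i N, ∀ q : N.Q,
    (un (ZMod p) N.Q).D (τ i ^ p) (dl _ (e • q)) - (un (ZMod p) N.Q).D (τ i ^ p) (dl _ q)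
      ∈ Bred 1 (rel p τ) (lay rk (rk i) N.Q)
  reach : ∀ i (N : ON p), N.Rel (rel p τ) → N.Triv V → ∀ v : V, ∃ e ∈ E i N, S i (e • v)
  p1 : ∀ i (N : ON p), N.Rel (rel p τ) → N.Triv V → ∀ e ∈ E i N, e ^ p ∈ N.M →
    e ∈ Subgroup.zpowers (τ i) ⊔ N.M
  p2x : ∀ i (N : ON p), N.Rel (rel p τ) → N.Triv V → ∀ w : F, w * x * w⁻¹ ∉ E i N
  p2 : ∀ i j (N : ON p), N.Rel (rel p τ) → N.Triv V → rk j < rk i →
    ∀ w : F, w * τ j * w⁻¹ ∉ E i N
  bound : ∀ i (N : ON p), N.Rel (rel p τ) → N.Triv V → N.M.relIndex (E i N) ≤ c i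

attribute [instance] State.fι State.fV State.act State.isP

namespace State
variable {p : ℕ} (σ : State p)

abbrev r : σ.ι → F := rel p σ.τ

def Deep (N : ON p) : Prop := N.Rel σ.r ∧ N.Triv σ.V

/-- The cells on `F / N`. -/
abbrev SQ (N : ON p) : σ.ι → N.Q → Prop := pb σ.S (N.orb σ.v0)

/-- 2-cycles die under projection. -/
def PZ : Prop := ∀ N, σ.Deep N → ∃ N', σ.Deep N' ∧ N'.M ≤ N.M ∧
  ∀ b ∈ H2 (ZMod p) σ.r (σ.SQ N'), ∀ i, push (ZMod p) (N'.orb (1 : N.Q)) (b i) = 0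

/-- Centralizers of the torsion representatives. -/
def CZ : Prop := ∀ N, σ.Deep N → ∃ N', σ.Deep N' ∧ N'.M ≤ N.M ∧
  (∀ h : F, Commute (h : N'.Q) (x : N'.Q) → h ∈ Subgroup.zpowers x ⊔ N.M) ∧
  ∀ i (h : F), Commute (h : N'.Q) (σ.τ i : N'.Q) → h ∈ σ.E i N

/-- Elements of order `p` are conjugate to powers of the representatives. -/
def F1 : Prop := ∀ N, σ.Deep N → ∃ N', σ.Deep N' ∧ N'.M ≤ N.M ∧ ∀ g : F, g ^ p ∈ N'.M →
  (∃ w : F, w * g * w⁻¹ ∈ Subgroup.zpowers x ⊔ N.M) ∨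
  ∃ i, ∃ w : F, w * g * w⁻¹ ∈ Subgroup.zpowers (σ.τ i) ⊔ N.M

/-- `u` has unbounded order on the levels. -/
def Unb (u : F) : Prop := ∀ k : ℕ, ∃ N, σ.Deep N ∧ u ^ p ^ k ∉ N.M

/-- Torsion does not commute with an element of unbounded order. -/
def NC (u : F) : Prop := ∃ Nb, σ.Deep Nb ∧
  (∀ w : F, ¬ Commute ((w * x * w⁻¹ : F) : Nb.Q) (u : Nb.Q)) ∧
  (∀ i (w : F), ¬ Commute ((w * σ.τ i * w⁻¹ : F) : Nb.Q) (u : Nb.Q)) ∧
  ∀ N, σ.Deep N → N.M ≤ Nb.M → ∃ N', σ.Deep N' ∧ N'.M ≤ N.M ∧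
    ∀ e : F, e ^ p ∈ N'.M → Commute (e : N'.Q) (u : N'.Q) → e ∈ N.M

/-- `σ'` is a next stage that keeps the level `Nf` and makes `u` torsion. -/
def Next (σ' : State p) (u : F) (Nf : ON p) : Prop :=
  (∀ N, σ'.Deep N → σ.Deep N) ∧ Nf.Rel σ'.r ∧ (∃ k : ℕ, ∀ N, σ'.Deep N → u ^ p ^ k ∈ N.M) ∧
  ∀ i' : σ'.ι, σ'.τ i' ∈ Nf.M ∨ ∃ i : σ.ι, σ'.τ i' = σ.τ i ∧ σ'.c i' = σ.c i

/-- A good integral cocycle on the base, inherited by all deep levels. -/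
def Good (β : σ.V → ℤ) : Prop := β ∈ Zc σ.r (full σ.ι σ.V) ∧ ∀ N, σ.Deep N →
  Inj (wL p (β ∘ N.orb σ.v0)) σ.r (σ.SQ N) ∧ Inj (wL p (-(β ∘ N.orb σ.v0))) σ.r (σ.SQ N) ∧
  ∀ c ∈ H2 (ZMod p) σ.r (σ.SQ N), c ≠ 0 → Cup0 p σ.r (σ.SQ N) c (β ∘ N.orb σ.v0)

/-- A cover `W` with a closed `U`-loop at `w` that survives in twisted homology. -/
def StarAt (U : F) (W : Type) [Fintype W] [MulAction F W] (π : W → σ.V) (w : W)
    (β : W → ℤ) : Prop :=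
  Eqv π ∧ π w = σ.v0 ∧ Closed σ.r (full σ.ι W) ∧ U • w = w ∧ β ∈ Zc σ.r (full σ.ι W) ∧
    intg β w U = 0 ∧ Inj (wL p β) (oW U σ.r) (oS (· = w) (pb σ.S π)) ∧
    Inj (wL p (-β)) (oW U σ.r) (oS (· = w) (pb σ.S π))

end State

/-- The cells on a cyclic cover: old cells pulled back, one new cell over each point of `T`. -/
def cycS {ι V : Type} [Fintype V] (T : V → Prop) (S : ι → V → Prop) (β : V → ℤ) (n : ℕ) :
    Option ι → Cyc β n → Prop := oS (fun a => T a.fst ∧ a.snd = 0) (pb S Cov.fst)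

/-! ### Statements -/
section Specs
variable (p : ℕ) [Fact p.Prime]

/-- Generic combination on a line. -/
def SpecGC1 : Prop := ∀ (V : Type) [Fintype V] (P : (V → ℤ) → Prop) (β β' : V → ℤ),
  OpenAt p P β → ∀ᶠ M : ℕ in Filter.atTop,
    OpenAt p P (β' + (M : ℤ) • β) ∧ OpenAt p P (β + (M : ℤ) • β')

/-- Finitely many open conditions hold simultaneously in every residue class. -/
def SpecGC : Prop := ∀ (V : Type) [Fintype V] (Z : Submodule ℤ (V → ℤ)) (κ : Type) [Finite κ]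
  (P : κ → (V → ℤ) → Prop), (∀ k, ∃ β ∈ Z, OpenAt p (P k) β) → ∀ (β0 : V → ℤ) (n : ℕ), n ≠ 0 →
  ∃ γ ∈ Z, ∀ k, OpenAt p (P k) (β0 + (n : ℤ) • γ)

/-- Semicontinuity of the dimension of the kernel. -/
def SpecKer : Prop := ∀ (R L : Type) [CommRing R] [Field L] (m k : Type) [Fintype m] [Fintype k]
  (Ψ : (m → R) →ₗ[R] (k → R)) (φ : R →+* L) (Ψφ : (m → L) →ₗ[L] (k → L)),
  (∀ u, Ψφ (φ ∘ u) = φ ∘ Ψ u) → ∃ μ : R, φ μ ≠ 0 ∧
    ∀ (L' : Type) [Field L'] (ψ : R →+* L') (Ψψ : (m → L') →ₗ[L'] (k → L')),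
      (∀ u, Ψψ (ψ ∘ u) = ψ ∘ Ψ u) → ψ μ ≠ 0 →
      finrank L' (LinearMap.ker Ψψ) ≤ finrank L (LinearMap.ker Ψφ)

def SpecOpenInj : Prop := ∀ (ι V : Type) [Fintype ι] [Fintype V] [MulAction F V] (r : ι → F)
  (S : ι → V → Prop) (β : V → ℤ),
  (Inj (wL p β) r S → OpenAt p (fun β' => Inj (wL p β') r S) β) ∧
  (Inj (wL p (-β)) r S → OpenAt p (fun β' => Inj (wL p (-β')) r S) β)

def SpecOpenNe : Prop := ∀ (V : Type) [Fintype V] [MulAction F V] (β : V → ℤ) (v : V) (f : F),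
  intg β v f ≠ 0 → OpenAt p (fun β' => intg β' v f ≠ 0) β

def SpecAperp : Prop := ∀ (ι V : Type) [Fintype ι] [Fintype V] [MulAction F V] (r : ι → F)
  (S : ι → V → Prop), finrank (ZMod p) (Aperp p r S) ≤ ncell S

/-- First-order deformation. -/
def SpecFO : Prop := ∀ (ι V : Type) [Fintype ι] [Fintype V] [MulAction F V] (r : ι → F)
  (S : ι → V → Prop), RK p 0 r S → ∃ β ∈ Zc r S, Inj (wL p β) r S ∧ Inj (wL p (-β)) r S

/-- Adding one cell whose boundary is not a boundary. -/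
def SpecExt : Prop := ∀ (ι V : Type) [Fintype ι] [Fintype V] [MulAction F V] (r : ι → F)
  (S : ι → V → Prop) (z U : F) (T : V → Prop) (v : V), (∀ u, ¬ T u) →
  RK p 2 (oW z r) (oS T S) → (un (ZMod p) V).D U (dl _ v) ∉ Bred 1 r S →
  RK p 0 (oW U r) (oS (· = v) S)

def SpecCupA : Prop := ∀ (ι V : Type) [Fintype ι] [Fintype V] [MulAction F V] (r : ι → F)
  (S : ι → V → Prop), RK p 0 r S → ∀ (β : V → ℤ), ∀ c ∈ H2 (ZMod p) r S, c ≠ 0 →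
  Cup0 p r S c β

def SpecCupB : Prop := ∀ (ι V : Type) [Fintype ι] [Fintype V] [MulAction F V] (r : ι → F)
  (S : ι → V → Prop) (β : V → ℤ) (c : ι → V → ZMod p),
  Inj (wL p β) r S → Inj (wL p (-β)) r S → Cup0 p r S c β → OpenAt p (Cup0 p r S c) β

def SpecCupC : Prop := ∀ (ι V : Type) [Fintype ι] [Fintype V] [MulAction F V] (r : ι → F)
  (S : ι → V → Prop) (z : F) (T : V → Prop) (β : V → ℤ) (c : Option ι → V → ZMod p),
  c none = 0 → (∀ v, T v → intg β v z ≠ 0) → Cup0 p r S (fun i => c (some i)) β →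
  Cup p r S z T c β

/-- The pole of the relative cap product. -/
def SpecCupD : Prop := ∀ (ι V : Type) [Fintype ι] [Fintype V] [MulAction F V] (r : ι → F)
  (S : ι → V → Prop) (z : F) (T : V → Prop) (β : V → ℤ) (c : Option ι → V → ZMod p) (v0 : V),
  (∀ v, ¬ T v → c none v = 0) → c none v0 ≠ 0 → intg β v0 z = 0 →
  (∀ v, T v → v ≠ v0 → intg β v z ≠ 0) →
  Inj (wL p β) (oW z r) (oS (· = v0) S) → Inj (wL p (-β)) (oW z r) (oS (· = v0) S) →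
  OpenAt p (fun β' => (∀ v, T v → intg β' v z ≠ 0) → Cup p r S z T c β') β

/-- Injectivity is inherited by regular covers. -/
def SpecInhInj : Prop := ∀ (ι V : Type) [Fintype ι] [Fintype V] [MulAction F V] (r : ι → F)
  (S : ι → V → Prop) (β : V → ℤ) (N : ON p) (v : V), N.Triv V →
  Inj (wL p β) r S → Inj (wL p (β ∘ N.orb v)) r (pb S (N.orb v))

def SpecInhCup : Prop := ∀ (ι V : Type) [Fintype ι] [Fintype V] [MulAction F V] (r : ι → F)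
  (S : ι → V → Prop) (β : V → ℤ) (N : ON p) (v : V), N.Triv V → Inj (wL p β) r S →
  (∀ c ∈ H2 (ZMod p) r S, c ≠ 0 → Cup0 p r S c β) →
  ∀ c ∈ H2 (ZMod p) r (pb S (N.orb v)), c ≠ 0 → Cup0 p r (pb S (N.orb v)) c (β ∘ N.orb v)

/-- An integral cocycle with unit values on all `z`-loops. -/
def SpecFix : Prop := ∀ (ι : Type) [Fintype ι] (r : ι → F) (z : F) (N : ON p), Prim r z N →
  ∃ β ∈ Zc r (full ι N.Q), ∀ q : N.Q, ¬ (p : ℤ) ∣ intg β q z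

/-- The cap ranks grow linearly along the cyclic tower. -/
def SpecN6 : Prop := ∀ (ι V : Type) [Fintype ι] [Fintype V] [Nonempty V] [MulAction F V]
  (r : ι → F) (S : ι → V → Prop) (z : F) (T : V → Prop) (β : V → ℤ), Closed r S →
  β ∈ Zc r S → (∀ v, T v → z • v = v) → (∀ v, T v → ¬ (p : ℤ) ∣ intg β v z) →
  Inj (wL p β) r S → (∀ c ∈ H2 (ZMod p) (oW z r) (oS T S), c ≠ 0 → Cup p r S z T c β) →
  ∀ k : ℕ, ∀ᶠ e : ℕ in Filter.atTop, RK p k (oW (z ^ p ^ e) r) (cycS T S β (p ^ e))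

def SpecPZ : Prop := ∀ (ι V : Type) [Fintype ι] [Fintype V] [MulAction F V] (r : ι → F)
  (S : ι → V → Prop) (β : V → ℤ), Inj (wL p β) r S → ∀ᶠ e : ℕ in Filter.atTop,
  ∀ b ∈ H2 (ZMod p) r (pb S (Cov.fst : Cyc β (p ^ e) → V)), ∀ i,
    push (ZMod p) Cov.fst (b i) = 0

/-- In a long cyclic cover, `U`-loops over `T` are non-zero and pairwise different in rational
homology. -/
def SpecNP : Prop := ∀ (ι V : Type) [Fintype ι] [Fintype V] [MulAction F V] (r : ι → F)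
  (S : ι → V → Prop) (U : F) (T : V → Prop) (β : V → ℤ) (m : ℕ), 0 < m →
  (∀ v, T v → T (U • v)) → (∀ v, T v → ∀ l, 0 < l → l < m → U ^ l • v ≠ v) →
  Inj (wL p β) (oW U r) (oS T S) → ∀ᶠ e : ℕ in Filter.atTop,
  ∀ a : Cyc β (p ^ e), T a.fst →
    (∃ γ ∈ Zc r (pb S (Cov.fst : Cyc β (p ^ e) → V)), ¬ (p : ℤ) ∣ intg γ a (U ^ m)) ∧
    ∀ a' : Cyc β (p ^ e), T a'.fst →
      (∀ γ ∈ Zc r (pb S (Cov.fst : Cyc β (p ^ e) → V)), intg γ a (U ^ m) = intg γ a' (U ^ m)) →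
      ∃ l : ℕ, U ^ l • a' = a

/-- The cells span all relators over the function field. -/
def SpecRFL : Prop := ∀ (ι V : Type) [Fintype ι] [Fintype V] [MulAction F V] [IsP p V]
  (r : ι → F) (S : ι → V → Prop) (β : V → ℤ), GEN p r S → Closed r S → β ∈ Zc r S →
  Bred (wL p β) r S = Bred (wL p β) r (full ι V)

def SpecSwap : Prop := ∀ (ι V : Type) [Fintype ι] [Fintype V] [MulAction F V] (L : Type)
  [Field L] (ω : V → Lˣ) (r : ι → F) (S S' : ι → V → Prop) (z : F) (T : V → Prop),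
  Bred ω r S = Bred ω r S' → ncell S = ncell S' → Inj ω (oW z r) (oS T S) →
  Inj ω (oW z r) (oS T S')

def SpecSingle : Prop := ∀ (ι V : Type) [Fintype ι] [Fintype V] [MulAction F V] (L : Type)
  [Field L] (ω : V → Lˣ) (r : ι → F) (S : ι → V → Prop) (U : F) (T : V → Prop) (v : V) (m : ℕ),
  0 < m → (∀ u, T u → T (U • u)) → T v → (∀ l, 0 < l → l < m → U ^ l • v ≠ v) →
  Inj ω (oW U r) (oS T S) → Inj ω (oW (U ^ m) r) (oS (· = v) S)

def SpecRed : Prop := ∀ (ι V : Type) [Fintype ι] [Fintype V] [MulAction F V] [IsP p V]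
  (r : ι → F) (S : ι → V → Prop), GEN p r S → Closed r S → Zc r S = Zc r (full ι V)

def SpecSharp : Prop := ∀ (ι : Type) [Fintype ι] (r : ι → F) (N : ON p), N.Rel r →
  ∃ N' : ON p, N'.Rel r ∧ N'.M ≤ N.M ∧ ∀ μ ∈ N'.M, ∀ q : N.Q,
    (un (ZMod p) N.Q).D μ (dl _ q) ∈ Bred 1 r (full ι N.Q)

def SpecJump : Prop := ∀ (ι : Type) [Fintype ι] (r : ι → F) (N : ON p) (u : F), N.Rel r →
  x ∉ N.M → (∀ k : ℕ, ∃ N' : ON p, N'.Rel r ∧ N'.M ≤ N.M ∧ u ^ p ^ k ∉ N'.M) →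
  ∃ N1 : ON p, N1.Rel r ∧ N1.M ≤ N.M ∧ ∃ a : ℕ, u ^ p ^ a ∈ N1.M ∧
    ∃ α ∈ Z1 (1 : N1.Q → (ZMod p)ˣ) r (full ι N1.Q), intg α 1 (u ^ p ^ a) ≠ 0

def SpecCarry : Prop := ∀ (V : Type) [Fintype V] [MulAction F V] (β : V → ℤ) (n : ℕ) [NeZero n],
  ∃ γ : Cyc β n → ℤ, ∀ (a : Cyc β n) (f : F), f • a = a → (n : ℤ) * intg γ a f = intg β a.fst f

/-- The mod `p ^ e` integral homology cover. -/
def SpecHom : Prop := ∀ (ι : Type) [Fintype ι] (r : ι → F) (N : ON p) (e : ℕ), N.Rel r →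
  ∃ N' : ON p, N'.Rel r ∧
    (∀ f, f ∈ N'.M ↔ f ∈ N.M ∧ ∀ γ ∈ Zc r (full ι N.Q), (p : ℤ) ^ e ∣ intg γ 1 f) ∧
    (∀ γ ∈ Zc r (full ι N.Q), N'.Triv (Cyc γ (p ^ e))) ∧
    ∀ z ∈ N'.M, (∃ γ ∈ Zc r (full ι N.Q), ¬ (p : ℤ) ^ (e + 1) ∣ intg γ 1 z) → Prim r z N'

def SpecTight : Prop := ∀ (ι W : Type) [Fintype ι] [Fintype W] [MulAction F W] [IsP p W]
  (r : ι → F) (S : ι → W → Prop) (U : F) (w : W) (β : W → ℤ), GEN p r S →
  Closed r (full ι W) → U • w = w → β ∈ Zc r (full ι W) → intg β w U = 0 →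
  Inj (wL p β) (oW U r) (oS (· = w) S) → Tight r U (MulAction.stabilizer F w) (ON.ker p W)

def SpecE : Prop := p ≠ 2 → ∀ (ι : Type) [Fintype ι] (r : ι → F) (U : F) (H : Subgroup F)
  (Ns : ON p) (m : ℕ), Ns.Rel r → Ns.M ≤ H → U ^ m ∈ Ns.M → Tight r U H Ns →
  Nonempty (EData r U H Ns m)

def SpecGood : Prop := ∀ σ : State p, ∃ β, σ.Good β

def SpecPZs : Prop := ∀ σ : State p, σ.PZ

def SpecTate : Prop := ∀ σ : State p, σ.PZ → σ.CZ ∧ σ.F1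

def SpecNC : Prop := ∀ (σ : State p) (u : F), σ.CZ → σ.F1 → σ.Unb u → σ.NC u

def SpecStar : Prop := ∀ (σ : State p) (u : F), σ.Unb u →
  ∃ (W : Type) (_ : Fintype W) (_ : MulAction F W) (_ : IsP p W) (π : W → σ.V) (w : W) (a : ℕ)
    (β : W → ℤ), σ.StarAt (u ^ p ^ a) W π w β

/-- The new base. -/
def SpecBase : Prop := ∀ (σ : State p) (U : F) (W : Type) [Fintype W] [MulAction F W] [IsP p W]
  (π : W → σ.V) (w : W) (β : W → ℤ), σ.StarAt U W π w β → ∀ (N : ON p) (a : ℕ) (T : N.Q → Prop),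
  σ.Deep N → N.Triv W → Prim σ.r (U ^ p ^ a) N →
  (∀ t t', T t → T t' → t' ≠ t → ∃ γ ∈ Zc σ.r (full σ.ι N.Q),
    intg γ t (U ^ p ^ a) = 0 ∧ intg γ t' (U ^ p ^ a) ≠ 0) →
  ∃ β' ∈ Zc σ.r (full σ.ι N.Q), (∀ q : N.Q, ¬ (p : ℤ) ∣ intg β' q (U ^ p ^ a)) ∧
    ∀ᶠ e : ℕ in Filter.atTop,
      RK p 0 (oW ((U ^ p ^ a) ^ p ^ e) σ.r) (cycS T (σ.SQ N) β' (p ^ e))

def SpecStep : Prop := ∀ (σ : State p) (u : F) (Nf : ON p), σ.Deep Nf →
  ∃ σ' : State p, σ.Next σ' u Nf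

/-- The group statement. -/
def Goal : Prop := ∃ M : Subgroup F, ∃ _ : M.Normal, Infinite (F ⧸ M) ∧
  (∀ f : F, ∃ k : ℕ, f ^ p ^ k ∈ M) ∧
  (∀ f : F, f ∉ M → ∃ N : ON p, M ≤ N.M ∧ f ∉ N.M) ∧
  ∀ g : F ⧸ M, g ≠ 1 → {h : F ⧸ M | h * g = g * h}.Finite

def SpecFinal : Prop := (∀ σ : State p, σ.CZ ∧ σ.F1) → SpecStep p → Goal p

end Specs

end H94G
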