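import Pool.Agent.MP_c98bf6_al.H94.Lin

set_option autoImplicit false

open Module

noncomputable section

namespace H94G
namespace Step

variable {p : ℕ} [Fact p.Prime]

omit [Fact p.Prime] in
theorem commute_iff (N : ON p) (a b : F) :
    Commute (a : N.Q) (b : N.Q) ↔ a * b * (b * a)⁻¹ ∈ N.M := by
  rw [← QuotientGroup.eq_one_iff, QuotientGroup.mk_mul, QuotientGroup.mk_inv, mul_inv_eq_one]
  rfl

omit [Fact p.Prime] in
theorem commute_mono {N N' : ON p} (h : N'.M ≤ N.M) {a b : F}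
    (hc : Commute (a : N'.Q) (b : N'.Q)) : Commute (a : N.Q) (b : N.Q) :=
  (commute_iff N a b).2 (h ((commute_iff N' a b).1 hc))

omit [Fact p.Prime] in
theorem mem_zpowers_sup {N : ON p} {U f : F} :
    f ∈ Subgroup.zpowers U ⊔ N.M ↔ ∃ k : ℤ, (f : N.Q) = (U : N.Q) ^ k := by
  rw [Subgroup.mem_sup_of_normal_right]
  constructor
  · rintro ⟨_, ⟨k, rfl⟩, m, hm, rfl⟩
    exact ⟨k, by simp [(QuotientGroup.eq_one_iff m).2 hm]⟩
  · rintro ⟨k, hk⟩
    refine ⟨U ^ k, ⟨k, rfl⟩, (U ^ k)⁻¹ * f, ?_, by group⟩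
    rw [← QuotientGroup.eq, hk]; simp

section Cyc
variable {V : Type} [Fintype V] [MulAction F V]

omit [Fact p.Prime] in
theorem intg_zpow {A : Type} [CommRing A] (α : V → A) {v : V} {f : F} (h : f • v = v) (n : ℤ) :
    intg α v (f ^ n) = n * intg α v f := by
  rcases n.eq_nat_or_neg with ⟨n, rfl | rfl⟩
  · simp [intg_pow α h]
  · have h1 : (f ^ n)⁻¹ • v = v := by rw [inv_smul_eq_iff, pow_smul_eq h]
    rw [zpow_neg, zpow_natCast, intg_inv, h1, intg_pow α h]; simp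

theorem prim_dvd {ι : Type} [Fintype ι] {r : ι → F} {U : F} {N : ON p} {a : ℕ}
    (h : Prim r (U ^ p ^ a) N) {k : ℤ} (hk : U ^ k ∈ N.M) : ((p ^ a : ℕ) : ℤ) ∣ k := by
  obtain ⟨h1, γ, -, h2⟩ := h
  have h3 : orderOf (U : N.Q) ∣ p ^ a := orderOf_dvd_of_pow_eq_one (by
    rw [← QuotientGroup.mk_pow, QuotientGroup.eq_one_iff]; exact h1)
  obtain ⟨j, hj, hj'⟩ := (Nat.dvd_prime_pow Fact.out).1 h3
  have h4 : U ^ p ^ j ∈ N.M := by
    rw [← QuotientGroup.eq_one_iff, QuotientGroup.mk_pow, ← hj', pow_orderOf_eq_one]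
  obtain ⟨d, rfl⟩ := Nat.exists_eq_add_of_le hj
  have h5 : d = 0 := by
    by_contra hd
    apply h2
    rw [pow_add, pow_mul, intg_pow γ ((N.smul_eq_iff _ _).2 h4)]
    exact Dvd.dvd.mul_right (by exact_mod_cast dvd_pow_self p hd) _
  subst h5
  rw [add_zero, ← hj', orderOf_dvd_iff_zpow_eq_one, ← QuotientGroup.mk_zpow,
    QuotientGroup.eq_one_iff]
  exact hk

theorem isUnit_of_not_dvd {k : ℤ} (h : ¬ (p : ℤ) ∣ k) (e : ℕ) : IsUnit (k : ZMod (p ^ e)) := by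
  rw [ZMod.coe_int_isUnit_iff_isCoprime, Nat.cast_pow]
  exact ((Nat.prime_iff_prime_int.1 Fact.out).coprime_iff_not_dvd.2 h).pow_left

theorem reach_zero {β : V → ℤ} {z : F} {e : ℕ} (a : Cyc β (p ^ e)) (h : z • a.fst = a.fst)
    (hu : ¬ (p : ℤ) ∣ intg β a.fst z) : ∃ l : ℕ, z ^ l • a = ⟨a.fst, 0⟩ := by
  obtain ⟨k, hk⟩ := isUnit_of_not_dvd hu e
  refine ⟨(-a.snd * ↑k⁻¹).val, Cov.ext (pow_smul_eq h _) ?_⟩
  rw [Cyc.smul_snd, intg_pow β h, Int.cast_mul, Int.cast_natCast, ZMod.natCast_zmod_val, ← hk]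
  simp

end Cyc

omit [Fact p.Prime] in
theorem relIndex_zpowers_le (N : ON p) (U : F) {q : ℕ} (hq : q ≠ 0) (h : U ^ q ∈ N.M) :
    N.M.relIndex (Subgroup.zpowers U ⊔ N.M) ≤ q := by
  rw [Subgroup.relIndex_sup_right]
  have h1 : (Subgroup.zpowers (U ^ q)).relIndex (Subgroup.zpowers U) ≠ 0 ∧
      (Subgroup.zpowers (U ^ q)).relIndex (Subgroup.zpowers U) ≤ q := by
    have hf : Function.Surjective fun i : Fin q =>
        (QuotientGroup.mk ⟨U ^ (i : ℕ), pow_mem (Subgroup.mem_zpowers U) _⟩ :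
          Subgroup.zpowers U ⧸ (Subgroup.zpowers (U ^ q)).subgroupOf (Subgroup.zpowers U)) := by
      intro c
      induction c using QuotientGroup.induction_on with
      | H g =>
        obtain ⟨_, k, rfl⟩ := g
        have hq' : (0 : ℤ) < q := by exact_mod_cast Nat.pos_of_ne_zero hq
        refine ⟨⟨(k % q).toNat, by have := Int.emod_lt_of_pos k hq'; omega⟩, ?_⟩
        rw [QuotientGroup.eq, Subgroup.mem_subgroupOf]
        refine ⟨k / q, ?_⟩
        simp only [Subgroup.coe_mul, Subgroup.coe_inv]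
        rw [← zpow_natCast, ← zpow_natCast, ← zpow_mul, ← zpow_neg, ← zpow_add,
          Int.toNat_of_nonneg (Int.emod_nonneg k hq'.ne')]
        congr 1
        have := Int.mul_ediv_add_emod k q
        omega
    have : Finite _ := Finite.of_surjective _ hf
    exact ⟨Nat.card_pos.ne', (Nat.card_le_card_of_surjective _ hf).trans (by simp)⟩
  exact (Subgroup.relIndex_le_of_le_left (Subgroup.zpowers_le.2 h) h1.1).trans h1.2

section New
variable (σ : State p) {U : F} {H : Subgroup F} {Ns : ON p} {am : ℕ}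
  (ed : EData σ.r U H Ns (p ^ am)) (N0 : ON p) (a0 e : ℕ) (β : N0.Q → ℤ) (T : N0.Q → Prop)

/-- The data from which the new stage is built. -/
structure Hyp (Nb : ON p) : Prop where
  hH : H.FiniteIndex
  hNs : Ns.M ≤ H
  deep : σ.Deep N0
  le : N0.M ≤ Ns.M
  leb : N0.M ≤ Nb.M
  prim : Prim σ.r (U ^ p ^ a0) N0
  hβ : β ∈ Zc σ.r (full σ.ι N0.Q)
  unit : ∀ q : N0.Q, ¬ (p : ℤ) ∣ intg β q (U ^ p ^ a0)
  hT : ∀ q : N0.Q, ∃ g ∈ ed.E N0, T (g • q)
  ham : am ≤ e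
  rk0 : RK p 0 (oW ((U ^ p ^ a0) ^ p ^ (e + 1)) σ.r) (cycS T (σ.SQ N0) β (p ^ (e + 1)))
  ncx : ∀ w : F, ¬ Commute ((w * x * w⁻¹ : F) : Nb.Q) ((U ^ p ^ am : F) : Nb.Q)
  ncτ : ∀ i (w : F), ¬ Commute ((w * σ.τ i * w⁻¹ : F) : Nb.Q) ((U ^ p ^ am : F) : Nb.Q)
  nc : ∀ N, σ.Deep N → N.M ≤ Nb.M → ∃ N', σ.Deep N' ∧ N'.M ≤ N.M ∧
    ∀ g : F, g ^ p ∈ N'.M → Commute (g : N'.Q) ((U ^ p ^ am : F) : N'.Q) → g ∈ N.M
  sharp : SpecSharp p

/-- The new torsion representatives. -/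
def τ' (U : F) (a0 e : ℕ) : Option σ.ι → F := fun o => o.elim ((U ^ p ^ a0) ^ p ^ e) σ.τ

omit [Fact p.Prime] in
theorem rel_τ' : rel p (τ' σ U a0 e) = oW ((U ^ p ^ a0) ^ p ^ (e + 1)) σ.r := by
  funext o
  cases o with
  | none => simp only [rel, τ', oW, Option.elim]; rw [← pow_mul _ (p ^ e), ← pow_succ]
  | some i => rfl

variable {σ ed N0 a0 e β T} {Nb : ON p} (h : Hyp σ ed N0 a0 e β T Nb)

omit [Fact p.Prime] in
theorem rel_old {N : ON p} (hN : N.Rel (rel p (τ' σ U a0 e))) : N.Rel σ.r := fun i => hN (some i)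

omit [Fact p.Prime] in
theorem le_of_triv {N : ON p} {n : ℕ} (hN : N.Triv (Cyc β n)) : N.M ≤ N0.M := fun f hf =>
  (N0.smul_eq_iff f 1).1 (congrArg Cov.fst (hN f hf ⟨1, 0⟩))

include h

theorem deep_old {N : ON p} (hN : N.Rel (rel p (τ' σ U a0 e))) {n : ℕ} (hT : N.Triv (Cyc β n)) :
    σ.Deep N := ⟨rel_old hN, h.deep.2.mono (le_of_triv hT)⟩

theorem comm_pow {N : ON p} (hN : N.Rel σ.r) (hl : N.M ≤ N0.M) {g : F} (hg : g ∈ ed.E N) (j : ℕ)
    (hj : e ≤ j) : Commute (g : N.Q) (((U ^ p ^ a0) ^ p ^ j : F) : N.Q) := by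
  obtain ⟨d, rfl⟩ := Nat.exists_eq_add_of_le (h.ham.trans hj)
  have := (ed.comm N hN (hl.trans h.le) g hg).pow_right (p ^ (a0 + d))
  rw [← QuotientGroup.mk_pow, ← pow_mul, ← pow_add] at this
  rw [← pow_mul, ← pow_add]
  convert this using 4; omega

theorem reach_new {N : ON p} (hN : N.Rel σ.r) (hl : N.M ≤ N0.M) (a : Cyc β (p ^ (e + 1))) :
    ∃ g ∈ ed.E N, T (g • a).fst ∧ (g • a).snd = 0 := by
  obtain ⟨g0, hg0, ht⟩ := h.hT a.fst
  obtain ⟨g1, hg1, h1⟩ := ed.lift N0 N h.deep.1 hN hl g0 hg0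
  have h2 : g1 • a.fst = g0 • a.fst := by
    rw [N0.smul_def, N0.smul_def, QuotientGroup.eq.2 h1]
  obtain ⟨l, hl⟩ := reach_zero (g1 • a) ((N0.smul_eq_iff _ _).2 h.prim.1) (h.unit _)
  refine ⟨(U ^ p ^ a0) ^ l * g1, mul_mem (pow_mem (pow_mem (ed.mem N) _) _) hg1, ?_⟩
  rw [mul_smul, hl]
  exact ⟨by rw [Cov.smul_fst, h2]; exact ht, rfl⟩

theorem closed_new : Closed (rel p (τ' σ U a0 e)) (full _ (Cyc β (p ^ (e + 1)))) := by
  rw [rel_τ']
  rintro (_ | i) a -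
  · have h1 := (N0.smul_eq_iff _ a.fst).2 h.prim.1
    exact (Cyc.smul_eq_iff β _ _ a).2 ⟨pow_smul_eq h1 _, by
      rw [show oW _ σ.r none = (U ^ p ^ a0) ^ p ^ (e + 1) from rfl, intg_pow β h1]
      exact dvd_mul_right _ _⟩
  · exact closed_cyc (h.deep.1.closed _) h.hβ _ i a trivial

theorem gen_new : GEN p (rel p (τ' σ U a0 e)) (cycS T (σ.SQ N0) β (p ^ (e + 1))) := by
  rw [rel_τ']
  intro V' _ _ _ π hπ hc
  have h1 := σ.gen V' (N0.orb σ.v0 ∘ Cov.fst ∘ π)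
    ((ON.eqv_orb h.deep.2 _).comp (Cov.eqv_fst.comp hπ)) fun i v hs => hc (some i) v hs
  rintro (_ | i) v -
  swap
  · exact h1 i v trivial
  let M := (ON.ker p V').inf N0
  have hM : M.Rel σ.r := (rel_ker h1).inf h.deep.1
  obtain ⟨g, hg, hs⟩ := reach_new h hM inf_le_right (π v)
  have h2 := hc none (g • v) (by rw [pb, hπ]; exact hs)
  have h3 := (commute_iff M _ _).1 (comm_pow h hM inf_le_right hg (e + 1) (Nat.le_succ e))
  have h4 := ON.mem_ker.1 h3.1 (((U ^ p ^ a0) ^ p ^ (e + 1) * g) • v)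
  rw [← mul_smul, inv_mul_cancel_right, mul_smul, mul_smul] at h4
  exact smul_left_cancel g (h4.trans h2)

theorem move_new (N : ON p) (hN : σ.Deep N) (hl : N.M ≤ N0.M) (hr : (U ^ p ^ a0) ^ p ^ (e + 1) ∈ N.M)
    (g : F) (hg : g ∈ ed.E N) (q : N.Q) :
    (un (ZMod p) N.Q).D ((U ^ p ^ a0) ^ p ^ (e + 1)) (dl _ (g • q)) -
      (un (ZMod p) N.Q).D ((U ^ p ^ a0) ^ p ^ (e + 1)) (dl _ q) ∈ Bred 1 σ.r (full _ N.Q) := by
  obtain ⟨N', h1, h2, h3⟩ := h.sharp σ.ι σ.r N hN.1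
  obtain ⟨g', hg', h4⟩ := ed.lift N N' hN.1 h1 h2 g hg
  have h5 : g • q = g' • q := by rw [N.smul_def, N.smul_def, QuotientGroup.eq.2 h4]
  have h6 := (commute_iff N' _ _).1 (comm_pow h h1 (h2.trans hl) hg' (e + 1) (Nat.le_succ e)).symm
  set r := (U ^ p ^ a0) ^ p ^ (e + 1)
  have h7 := (un (ZMod p) N.Q).D_mul (r * g' * (g' * r)⁻¹) (g' * r) (dl _ q)
  rw [inv_mul_cancel_right, Act.D_mul, Act.D_mul, un_rho_dl, un_rho_dl, un_rho_dl,
    (N.smul_eq_iff r q).2 hr] at h7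
  have h8 := h3 _ h6 ((g' * r) • q)
  rw [h5]
  convert h8 using 1
  rw [sub_eq_iff_eq_add]
  apply add_left_cancel (a := (un (ZMod p) N.Q).D g' (dl _ q))
  rw [h7]; abel

theorem dvd_new {N : ON p} (hT : N.Triv (Cyc β (p ^ (e + 1)))) {k : ℤ} (hk : U ^ k ∈ N.M) :
    ∃ j : ℤ, U ^ k = ((U ^ p ^ a0) ^ p ^ (e + 1)) ^ j := by
  obtain ⟨k1, rfl⟩ := prim_dvd h.prim (le_of_triv hT hk)
  rw [zpow_mul, zpow_natCast] at hk ⊢
  have h1 := ((Cyc.smul_eq_iff β _ _ _).1 (hT _ hk ⟨1, 0⟩)).2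
  rw [intg_zpow β ((N0.smul_eq_iff _ _).2 h.prim.1), Nat.cast_pow] at h1
  obtain ⟨j, rfl⟩ := ((Nat.prime_iff_prime_int.1 Fact.out).coprime_iff_not_dvd.2
    (h.unit 1)).pow_left.dvd_of_dvd_mul_right h1
  exact ⟨j, by rw [← Nat.cast_pow, zpow_mul, zpow_natCast]⟩

theorem p1_new (N : ON p) (hN : σ.Deep N) (hT : N.Triv (Cyc β (p ^ (e + 1))))
    (g : F) (hg : g ∈ ed.E N) (hp : g ^ p ∈ N.M) :
    g ∈ Subgroup.zpowers ((U ^ p ^ a0) ^ p ^ e) ⊔ N.M := by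
  have hl := le_of_triv hT
  obtain ⟨N', h1, h2, h3⟩ := h.nc N hN (hl.trans h.leb)
  obtain ⟨g', hg', h4⟩ := ed.lift N N' hN.1 h1.1 h2 g hg
  have h5 : (g' : N.Q) = g := QuotientGroup.eq.2 h4
  have h6 : g' ^ p ∈ N.M := by
    rw [← QuotientGroup.eq_one_iff, QuotientGroup.mk_pow, h5, ← QuotientGroup.mk_pow,
      QuotientGroup.eq_one_iff]; exact hp
  have hl' := (h2.trans hl).trans h.le
  obtain ⟨k, hk⟩ := mem_zpowers_sup.1
    (ed.small N' h1.1 hl' _ (pow_mem hg' p) (h.hNs (h.le (hl h6))))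
  have h7 : U ^ k ∈ N.M := by
    rw [← QuotientGroup.mk_zpow, QuotientGroup.eq] at hk
    simpa using mul_mem h6 (h2 hk)
  obtain ⟨j, hj⟩ := dvd_new h hT h7
  set t := (U ^ p ^ a0) ^ p ^ e with ht
  have hc : Commute (g' : N'.Q) (t : N'.Q) := comm_pow h h1.1 (h2.trans hl) hg' e le_rfl
  have h8 := h3 (g' * (t ^ j)⁻¹) (by
    rw [← QuotientGroup.eq_one_iff, QuotientGroup.mk_pow, QuotientGroup.mk_mul,
      QuotientGroup.mk_inv, QuotientGroup.mk_zpow, (hc.zpow_right j).inv_right.mul_pow,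
      ← QuotientGroup.mk_pow, hk, ← QuotientGroup.mk_zpow, hj, pow_succ, pow_mul, ← ht,
      QuotientGroup.mk_zpow, QuotientGroup.mk_pow, inv_pow, ← zpow_natCast, ← zpow_natCast,
      ← zpow_mul, ← zpow_mul, mul_comm j, mul_inv_cancel]) (by
    rw [QuotientGroup.mk_mul, QuotientGroup.mk_inv, QuotientGroup.mk_zpow]
    refine (ed.comm N' h1.1 hl' g' hg').mul_left (Commute.inv_left (Commute.zpow_left ?_ _))
    rw [ht, ← pow_mul, QuotientGroup.mk_pow, QuotientGroup.mk_pow]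
    exact (Commute.refl _).pow_pow _ _)
  refine mem_zpowers_sup.2 ⟨j, ?_⟩
  rw [← QuotientGroup.eq_one_iff, QuotientGroup.mk_mul, QuotientGroup.mk_inv, mul_inv_eq_one,
    QuotientGroup.mk_zpow] at h8
  rw [← h5, h8]

theorem bound_new (N : ON p) (hN : σ.Deep N) (hl : N.M ≤ N0.M)
    (hr : (U ^ p ^ a0) ^ p ^ (e + 1) ∈ N.M) :
    N.M.relIndex (ed.E N) ≤ p ^ a0 * p ^ (e + 1) * H.index := by
  have := h.hH
  have hp : p.Prime := Fact.out
  have h1 : N.M ≤ H ⊓ ed.E N := le_inf ((hl.trans h.le).trans h.hNs) (ed.le N)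
  rw [← Subgroup.relIndex_mul_relIndex N.M (H ⊓ ed.E N) (ed.E N) h1 inf_le_right,
    Subgroup.inf_relIndex_right]
  refine Nat.mul_le_mul ?_ ?_
  · refine le_trans (Subgroup.relIndex_le_of_le_right
      (fun g hg => ed.small N hN.1 (hl.trans h.le) g hg.2 hg.1) ?_)
      (relIndex_zpowers_le N U (by have := hp.pos; positivity) (by rwa [pow_mul]))
    exact Subgroup.FiniteIndex.index_ne_zero
  · rw [← Subgroup.relIndex_top_right]
    exact Subgroup.relIndex_le_of_le_right le_top Subgroup.FiniteIndex.index_ne_zero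

/-- The new stage. -/
def mk : State p where
  ι := Option σ.ι
  rk := fun o => o.elim σ.l σ.rk
  l := σ.l + 1
  τ := τ' σ U a0 e
  V := Cyc β (p ^ (e + 1))
  v0 := ⟨1, 0⟩
  S := cycS T (σ.SQ N0) β (p ^ (e + 1))
  E := fun o => o.elim ed.E σ.E
  c := fun o => o.elim (p ^ a0 * p ^ (e + 1) * H.index) σ.c
  rk_inj := by
    rintro (_ | i) (_ | j) e
    · rfl
    · exact absurd e (σ.rk_lt j).ne'
    · exact absurd e (σ.rk_lt i).ne
    · exact congrArg some (σ.rk_inj e)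
  rk_lt := by
    rintro (_ | i)
    · exact Nat.lt_succ_self _
    · exact (σ.rk_lt i).trans (Nat.lt_succ_self _)
  closed := closed_new h
  xv := fun e => σ.xv (h.deep.2 x ((N0.smul_eq_iff x 1).1 (congrArg Cov.fst e)) _)
  gen := gen_new h
  rk0 := by rw [rel_τ']; exact h.rk0
  le := by
    rintro (_ | i) N
    exacts [ed.le N, σ.le i N]
  mem := by
    rintro (_ | i) N
    exacts [pow_mem (pow_mem (ed.mem N) _) _, σ.mem i N]
  mono := by
    rintro (_ | i) N N' h1 h2 h3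
    exacts [ed.mono N N' (rel_old h1) (rel_old h2) h3, σ.mono i N N' (rel_old h1) (rel_old h2) h3]
  move := by
    rintro (_ | i) N h1 h2 g hg q
    · have h3 : τ' σ U a0 e none ^ p = (U ^ p ^ a0) ^ p ^ (e + 1) := congrFun (rel_τ' σ a0 e) none
      rw [h3]
      refine Bred_le (fun j v _ => ?_)
        (move_new h N (deep_old h h1 h2) (le_of_triv h2) (h3 ▸ h1 none) g hg q)
      exact D_dl_mem_Bred 1 (rel p (τ' σ U a0 e)) (i := some j) (σ.rk_lt j)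
    · refine Bred_le (fun j v hj => ?_) (σ.move i N (rel_old h1) (deep_old h h1 h2).2 g hg q)
      exact D_dl_mem_Bred 1 (rel p (τ' σ U a0 e)) (i := some j) hj
  reach := by
    rintro (_ | i) N h1 h2 a
    · exact reach_new h (rel_old h1) (le_of_triv h2) a
    · obtain ⟨g, hg, hs⟩ := σ.reach i N (rel_old h1) (deep_old h h1 h2).2 (N0.orb σ.v0 a.fst)
      refine ⟨g, hg, ?_⟩
      change σ.S i (N0.orb σ.v0 (g • a.fst))
      rw [ON.eqv_orb h.deep.2]; exact hs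
  p1 := by
    rintro (_ | i) N h1 h2 g hg hp
    exacts [p1_new h N (deep_old h h1 h2) h2 g hg hp,
      σ.p1 i N (rel_old h1) (deep_old h h1 h2).2 g hg hp]
  p2x := by
    rintro (_ | i) N h1 h2 w hw
    · exact h.ncx w (commute_mono ((le_of_triv h2).trans h.leb)
        (ed.comm N (rel_old h1) ((le_of_triv h2).trans h.le) _ hw))
    · exact σ.p2x i N (rel_old h1) (deep_old h h1 h2).2 w hw
  p2 := by
    rintro (_ | i) (_ | j) N h1 h2 hlt w hw
    · exact lt_irrefl _ hlt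
    · exact h.ncτ j w (commute_mono ((le_of_triv h2).trans h.leb)
        (ed.comm N (rel_old h1) ((le_of_triv h2).trans h.le) _ hw))
    · exact lt_asymm hlt (σ.rk_lt i)
    · exact σ.p2 i j N (rel_old h1) (deep_old h h1 h2).2 hlt w hw
  bound := by
    rintro (_ | i) N h1 h2
    · have h3 : τ' σ U a0 e none ^ p = (U ^ p ^ a0) ^ p ^ (e + 1) := congrFun (rel_τ' σ a0 e) none
      exact bound_new h N (deep_old h h1 h2) (le_of_triv h2) (h3 ▸ h1 none)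
    · exact σ.bound i N (rel_old h1) (deep_old h h1 h2).2

end New

end Step

open Step in
theorem step (p : ℕ) [Fact p.Prime] (hp : p ≠ 2) (h1 : ∀ σ : State p, σ.CZ ∧ σ.F1)
    (h2 : SpecNC p) (h3 : SpecStar p) (h4 : SpecTight p) (h5 : SpecE p) (h6 : SpecBase p)
    (h7 : SpecSharp p) : SpecStep p := by
  intro σ u Nf hf
  by_cases hu : σ.Unb u
  swap
  · simp only [State.Unb, not_forall, not_exists, not_and, not_not] at hu
    exact ⟨σ, fun _ h => h, hf.1, hu, fun i => .inr ⟨i, rfl, rfl⟩⟩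
  obtain ⟨W, _, _, _, π, w, a, β, hs⟩ := h3 σ u hu
  obtain ⟨s1, s2, s3, s4, s5, s6, s7, s8⟩ := id hs
  have ht := h4 σ.ι W σ.r _ _ w β (σ.gen.pb s1) s3 s4 s5 s6 s7
  obtain ⟨am, ham⟩ := (ON.ker p W).pexp (u ^ p ^ a)
  have hNs : (ON.ker p W).M ≤ MulAction.stabilizer F w := fun f hf => ON.mem_ker.1 hf w
  obtain ⟨ed⟩ := h5 hp σ.ι σ.r _ _ _ (p ^ am) (rel_ker s3) hNs ham ht
  obtain ⟨Nb, b1, b2, b3, b4⟩ := h2 σ ((u ^ p ^ a) ^ p ^ am) (h1 σ).1 (h1 σ).2 fun k => by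
    obtain ⟨N, n1, n2⟩ := hu (a + am + k)
    exact ⟨N, n1, by rwa [← pow_mul, ← pow_mul, ← pow_add, ← pow_add, ← add_assoc]⟩
  obtain ⟨N0, n1, n2, a0, n3, n4⟩ := ed.sep ((Nb.inf Nf).inf (ON.ker p W))
    ((b1.1.inf hf.1).inf (rel_ker s3)) inf_le_right
  have n5 : N0.M ≤ Nb.M := n2.trans (inf_le_left.trans inf_le_left)
  have n6 : N0.M ≤ Nf.M := n2.trans (inf_le_left.trans inf_le_right)
  have n7 : N0.M ≤ (ON.ker p W).M := n2.trans inf_le_right
  have n8 : σ.Deep N0 := ⟨n1, b1.2.mono n5⟩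
  let T : N0.Q → Prop := fun q => q = (Quotient.mk (MulAction.orbitRel (ed.E N0) N0.Q) q).out
  obtain ⟨β', c1, c2, c3⟩ := h6 σ _ W π w β hs N0 a0 T n8 (ON.triv_iff.2 n7) n3
    fun t t' ht ht' hne => by
      have := n4 t.out t'.out fun hm => hne (by
        have h8 : Quotient.mk (MulAction.orbitRel (ed.E N0) N0.Q) t' = Quotient.mk _ t := by
          refine Quotient.sound ⟨⟨_, hm⟩, ?_⟩
          change (t'.out * t.out⁻¹) • t = t'
          rw [N0.smul_def]; simp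
        rw [ht', h8]; exact ht.symm)
      simpa using this
  obtain ⟨e, he1, he2⟩ := ((Filter.tendsto_add_atTop_nat 1).eventually c3).and
    (Filter.eventually_ge_atTop am) |>.exists
  have hH : Hyp σ ed N0 a0 e β' T Nb :=
    { hH := Subgroup.finiteIndex_of_le hNs
      hNs := hNs
      deep := n8
      le := n7
      leb := n5
      prim := n3
      hβ := c1
      unit := c2
      hT := fun q => by
        obtain ⟨g, hg⟩ := Quotient.mk_out (s := MulAction.orbitRel (ed.E N0) N0.Q) q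
        refine ⟨g, g.2, ?_⟩
        have h8 : (g : F) • q = (Quotient.mk (MulAction.orbitRel (ed.E N0) N0.Q) q).out := hg
        simp only [T, h8, Quotient.out_eq]
      ham := he2
      rk0 := he1
      ncx := b2
      ncτ := b3
      nc := b4
      sharp := h7 }
  have hτ : (((u ^ p ^ a) ^ p ^ a0) ^ p ^ e) ∈ Nf.M := pow_mem (n6 n3.1) _
  refine ⟨mk hH, fun N hN => deep_old hH hN.1 hN.2, ?_, ⟨a + a0 + e + 1, fun N hN => ?_⟩, ?_⟩
  · rintro (_ | i)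
    exacts [pow_mem hτ p, hf.1 i]
  · have : (((u ^ p ^ a) ^ p ^ a0) ^ p ^ e) ^ p ∈ N.M := hN.1 none
    rwa [← pow_mul, ← pow_mul, ← pow_mul, ← pow_succ, ← pow_add, ← pow_add, ← add_assoc,
      ← add_assoc] at this
  · rintro (_ | i)
    exacts [.inl hτ, .inr ⟨i, rfl, rfl⟩]

end H94G
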