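import Pool.Agent.MP_c98bf6_al.H94.Lin

/-! Tate cohomology arguments: centralizers and elements of order `p` on the levels. -/

set_option autoImplicit false

open Module

noncomputable section

namespace H94G

namespace Tate

section Op
variable {p : ℕ} {K W W' : Type} [CommRing K] [AddCommGroup W] [Module K W] [AddCommGroup W']
  [Module K W']

/-- The norm and the difference operator. -/
def op (p : ℕ) (b : Bool) (T : Module.End K W) : Module.End K W :=
  cond b (∑ j ∈ Finset.range p, T ^ j) (T - 1)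

theorem op_true (T : Module.End K W) (w : W) :
    op p true T w = ∑ j ∈ Finset.range p, (T ^ j) w := by simp [op, LinearMap.sum_apply]

theorem op_false (T : Module.End K W) (w : W) : op p false T w = T w - w := rfl

theorem pow_nat (φ : W →ₗ[K] W') {T : Module.End K W} {T' : Module.End K W'}
    (h : ∀ w, φ (T w) = T' (φ w)) (j : ℕ) (w : W) : φ ((T ^ j) w) = (T' ^ j) (φ w) := by
  induction j with
  | zero => rfl
  | succ j ih => rw [pow_succ', pow_succ', Module.End.mul_apply, Module.End.mul_apply, h, ih]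

theorem op_nat (φ : W →ₗ[K] W') {T : Module.End K W} {T' : Module.End K W'}
    (h : ∀ w, φ (T w) = T' (φ w)) (b : Bool) (w : W) : φ (op p b T w) = op p b T' (φ w) := by
  cases b
  · rw [op_false, op_false, map_sub, h]
  · simp only [op_true, map_sum, pow_nat φ h]

theorem op_op {T : Module.End K W} (h : T ^ p = 1) (b : Bool) (w : W) :
    op p b T (op p (!b) T w) = 0 := by
  cases b
  · have := mul_geom_sum T p
    rw [h, sub_self] at this
    exact LinearMap.congr_fun this w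
  · have := geom_sum_mul T p
    rw [h, sub_self] at this
    exact LinearMap.congr_fun this w

theorem op_mem {T : Module.End K W} {B : Submodule K W} (h : ∀ w ∈ B, T w ∈ B) (b : Bool) {w : W}
    (hw : w ∈ B) : op p b T w ∈ B := by
  cases b
  · exact B.sub_mem (h w hw) hw
  · rw [op_true]
    refine B.sum_mem fun j _ => ?_
    induction j with
    | zero => exact hw
    | succ j ih =>
      rw [pow_succ', Module.End.mul_apply]
      exact h _ (Module.End.pow_apply_mem_of_forall_mem j h w hw)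

theorem op_fix {U : Type} [AddCommGroup U] [Module (ZMod p) U] {T : Module.End (ZMod p) U}
    (l : U →ₗ[ZMod p] ZMod p) (h : ∀ w, l (T w) = l w) (w : U) : l (op p true T w) = 0 := by
  have : ∀ j : ℕ, l ((T ^ j) w) = l w := fun j => by
    induction j with
    | zero => rfl
    | succ j ih => rw [pow_succ', Module.End.mul_apply, h, ih]
  simp [op_true, map_sum, this]

end Op

section Free
variable {p : ℕ} [Fact p.Prime] {X Y : Type}

omit [Fact p.Prime] in
theorem push_pow [Fintype X] (σ : X → X) (j : ℕ) (w : X → ZMod p) :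
    (push (ZMod p) σ ^ j) w = push (ZMod p) σ^[j] w := by
  induction j with
  | zero => simp
  | succ j ih => rw [pow_succ', Module.End.mul_apply, ih, push_push, Function.iterate_succ']

omit [Fact p.Prime] in
theorem push_pow_one [Fintype X] {σ : X → X} (h : ∀ v, σ^[p] v = v) :
    push (ZMod p) σ ^ p = 1 := by
  refine LinearMap.ext fun w => ?_
  rw [push_pow, show σ^[p] = id from funext h, push_id]; rfl

/-- Partition of unity for a free action of a group of order `p`. -/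
theorem pou (σ : X → X) (h : ∀ v, σ^[p] v = v) (hf : ∀ v, σ v ≠ v) :
    ∃ e : X → ZMod p, ∀ v, ∑ j ∈ Finset.range p, e (σ^[j] v) = 1 := by
  classical
  have hp : 0 < p := (Fact.out : p.Prime).pos
  have hper : ∀ v, Function.IsPeriodicPt σ p v := h
  let s : Setoid X :=
    { r := fun a b => ∃ j : ℕ, σ^[j] a = b
      iseqv :=
        { refl := fun a => ⟨0, rfl⟩
          symm := by
            rintro a _ ⟨j, rfl⟩
            refine ⟨p * j - j, ?_⟩
            rw [← Function.iterate_add_apply, Nat.sub_add_cancel (Nat.le_mul_of_pos_left j hp)]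
            exact (hper a).mul_const j
          trans := by
            rintro a _ _ ⟨j, rfl⟩ ⟨k, rfl⟩
            exact ⟨k + j, Function.iterate_add_apply _ _ _ _⟩ } }
  refine ⟨fun v => if v = (Quotient.mk s v).out then 1 else 0, fun v => ?_⟩
  have hq : ∀ j, Quotient.mk s (σ^[j] v) = Quotient.mk s v := fun j =>
    (Quotient.sound (s := s) ⟨j, rfl⟩).symm
  obtain ⟨j, hj⟩ : s.r v (Quotient.mk s v).out := s.symm (Quotient.mk_out (s := s) v)
  have hm : Function.minimalPeriod σ v = p := Function.minimalPeriod_eq_prime (hper v) (hf v)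
  have hj' : σ^[j % p] v = (Quotient.mk s v).out := by
    rw [(hper v).iterate_mod_apply, hj]
  simp only [hq]
  rw [Finset.sum_eq_single (j % p), if_pos hj']
  · intro k hk hne
    refine if_neg fun e => hne ?_
    exact Function.iterate_injOn_Iio_minimalPeriod (f := σ) (x := v)
      (by rw [hm]; exact Finset.mem_range.1 hk) (by rw [hm]; exact Nat.mod_lt _ hp)
      (e.trans hj'.symm)
  · intro hn
    exact absurd (Finset.mem_range.2 (Nat.mod_lt _ hp)) hn

theorem free1 [Fintype X] {σ : X → X} (h : ∀ v, σ^[p] v = v) (hf : ∀ v, σ v ≠ v)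
    (w : X → ZMod p) (hw : op p false (push (ZMod p) σ) w = 0) :
    ∃ u, w = op p true (push (ZMod p) σ) u := by
  have hp : 0 < p := (Fact.out : p.Prime).pos
  have hl : ∀ v, σ^[p - 1] (σ v) = v := fun v => by
    rw [← Function.iterate_succ_apply, Nat.succ_eq_add_one, Nat.sub_add_cancel hp, h]
  have hr : ∀ v, σ (σ^[p - 1] v) = v := fun v => by
    rw [← Function.iterate_succ_apply' σ, Nat.succ_eq_add_one, Nat.sub_add_cancel hp, h]
  let E : X ≃ X := ⟨σ, σ^[p - 1], hl, hr⟩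
  have hT : ∀ u : X → ZMod p, push (ZMod p) σ u = u ∘ E.symm := fun u => push_equiv E u
  have hTj : ∀ (u : X → ZMod p) (j : ℕ), (push (ZMod p) σ ^ j) u = u ∘ E.symm^[j] := by
    intro u j
    induction j with
    | zero => rfl
    | succ j ih => rw [pow_succ', Module.End.mul_apply, ih, hT]; rfl
  obtain ⟨e, he⟩ := pou (p := p) E.symm
    (fun v => by
      show (σ^[p - 1])^[p] v = v
      rw [← Function.iterate_mul, mul_comm]
      exact (show Function.IsPeriodicPt σ p v from h v).mul_const _)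
    (fun v hv => hf v (by have := congrArg E hv; rw [Equiv.apply_symm_apply] at this; exact this.symm))
  have hwj : ∀ j : ℕ, w ∘ E.symm^[j] = w := fun j => by
    rw [← hTj]
    induction j with
    | zero => rfl
    | succ j ih => rw [pow_succ', Module.End.mul_apply, ih]; exact sub_eq_zero.1 hw
  refine ⟨e * w, funext fun v => ?_⟩
  have : ∀ j : ℕ, ((e * w) ∘ E.symm^[j]) v = e (E.symm^[j] v) * w v := fun j => by
    rw [← congrFun (hwj j) v]; rfl
  simp only [op_true, hTj, Finset.sum_apply, this]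
  rw [← Finset.sum_mul, he, one_mul]

/-- Vanishing of Tate cohomology of a free permutation module. -/
theorem free [Fintype X] {σ : X → X} (h : ∀ v, σ^[p] v = v) (hf : ∀ v, σ v ≠ v) (b : Bool)
    (w : X → ZMod p) (hw : op p b (push (ZMod p) σ) w = 0) :
    ∃ u, w = op p (!b) (push (ZMod p) σ) u := by
  cases b
  · exact free1 h hf w hw
  · have h1 := push_pow_one h
    have e1 : LinearMap.ker (op p false (push (ZMod p) σ)) =
        LinearMap.range (op p true (push (ZMod p) σ)) := by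
      refine le_antisymm (fun u hu => ?_) ?_
      · obtain ⟨u', hu'⟩ := free1 h hf u hu
        exact ⟨u', hu'.symm⟩
      · rintro _ ⟨u, rfl⟩
        exact op_op h1 false u
    have e2 : LinearMap.range (op p false (push (ZMod p) σ)) =
        LinearMap.ker (op p true (push (ZMod p) σ)) := by
      refine Submodule.eq_of_le_of_finrank_eq ?_ ?_
      · rintro _ ⟨u, rfl⟩
        exact op_op h1 true u
      · have h2 := (op p false (push (ZMod p) σ)).finrank_range_add_finrank_ker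
        have h3 := (op p true (push (ZMod p) σ)).finrank_range_add_finrank_ker
        rw [e1] at h2
        omega
    obtain ⟨u, hu⟩ : w ∈ LinearMap.range (op p false (push (ZMod p) σ)) := e2 ▸ hw
    exact ⟨u, hu.symm⟩

variable {W : Type} [AddCommGroup W] [Module (ZMod p) W]

theorem mv [Fintype Y] (L : (Y → ZMod p) →ₗ[ZMod p] W) (B : Submodule (ZMod p) W) (ρ : Y → Y)
    (h : ∀ q, L (dl _ (ρ q)) - L (dl _ q) ∈ B) (ξ : Y → ZMod p) :
    L (push (ZMod p) ρ ξ) - L ξ ∈ B := by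
  rw [← sum_dl ξ]
  simp only [map_sum, map_smul, push_dl, ← Finset.sum_sub_distrib, ← smul_sub]
  exact B.sum_mem fun q _ => B.smul_mem _ (h q)

omit [Fact p.Prime] in
theorem push_surj [Fintype X] [Fintype Y] {φ : Y → X} (h : Function.Surjective φ)
    (u : X → ZMod p) : ∃ u', push (ZMod p) φ u' = u :=
  ⟨push (ZMod p) (Function.surjInv h) u, by
    rw [push_push, show φ ∘ Function.surjInv h = id from funext (Function.surjInv_eq h), push_id]⟩

end Free

section Coset
variable {p : ℕ} (N : ON p) (E : Subgroup F)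

/-- The map to the cosets of `E`. -/
def cs (q : N.Q) : F ⧸ E := ((q.out⁻¹ : F) : F ⧸ E)

variable {N E}

theorem cs_mk (h : N.M ≤ E) (w : F) : cs N E (w : N.Q) = ((w⁻¹ : F) : F ⧸ E) := by
  obtain ⟨m, hm⟩ := QuotientGroup.mk_out_eq_mul N.M w
  rw [cs, hm, QuotientGroup.eq, inv_inv]
  exact h (N.normal.conj_mem _ m.2 w)

theorem cs_smul (h : N.M ≤ E) {e : F} (he : e ∈ E) (q : N.Q) : cs N E (e • q) = cs N E q := by
  induction q using QuotientGroup.induction_on with
  | H w =>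
    rw [N.smul_mk, cs_mk h, cs_mk h, QuotientGroup.eq]
    simpa using he

theorem cs_eq (h : N.M ≤ E) {q q' : N.Q} (e : cs N E q = cs N E q') : ∃ a ∈ E, q = a • q' := by
  induction q using QuotientGroup.induction_on with
  | H w =>
    induction q' using QuotientGroup.induction_on with
    | H w' =>
      rw [cs_mk h, cs_mk h, QuotientGroup.eq, inv_inv] at e
      exact ⟨_, e, by rw [N.smul_mk, inv_mul_cancel_right]⟩

theorem cs_rm (h : N.M ≤ E) (g : F) (q : N.Q) : cs N E (N.rm g q) = g⁻¹ • cs N E q := by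
  induction q using QuotientGroup.induction_on with
  | H w => rw [N.rm_mk, cs_mk h, cs_mk h, mul_inv_rev]; rfl

theorem cs_surj (h : N.M ≤ E) : Function.Surjective (cs N E) := fun v => by
  induction v using QuotientGroup.induction_on with
  | H w => exact ⟨((w⁻¹ : F) : N.Q), by rw [cs_mk h, inv_inv]⟩

theorem cs_free {g : F} (hg : ∀ w : F, w * g * w⁻¹ ∉ E) (v : F ⧸ E) : g⁻¹ • v ≠ v := by
  induction v using QuotientGroup.induction_on with
  | H w =>
    intro e
    have : ((g⁻¹ * w : F) : F ⧸ E) = (w : F ⧸ E) := e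
    rw [QuotientGroup.eq] at this
    exact hg w⁻¹ (by simpa using this)

theorem cs_per (h : N.M ≤ E) {g : F} (hg : g ^ p ∈ N.M) (v : F ⧸ E) :
    (fun v : F ⧸ E => g⁻¹ • v)^[p] v = v := by
  rw [smul_iterate]
  induction v using QuotientGroup.induction_on with
  | H w =>
    show ((g⁻¹ ^ p * w : F) : F ⧸ E) = (w : F ⧸ E)
    rw [QuotientGroup.eq]
    have := h (N.normal.conj_mem _ hg w⁻¹)
    simpa using this

theorem rm_iter (N : ON p) (g : F) (j : ℕ) (q : N.Q) : (N.rm g)^[j] q = q * (g : N.Q) ^ j := by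
  induction j with
  | zero => simp
  | succ j ih => rw [Function.iterate_succ_apply', ih, ON.rm, pow_succ, mul_assoc]

theorem rm_per {g : F} (hg : g ^ p ∈ N.M) (q : N.Q) : (N.rm g)^[p] q = q := by
  rw [rm_iter, ← QuotientGroup.mk_pow, (QuotientGroup.eq_one_iff _).2 hg, mul_one]

theorem rm_free {g : F} (hg : g ∉ N.M) (q : N.Q) : N.rm g q ≠ q := fun e =>
  hg ((QuotientGroup.eq_one_iff _).1 (mul_eq_left.1 e))

/-- The indicator function of `E`. -/
def ind (N : ON p) (E : Subgroup F) : N.Q → ZMod p := dl (ZMod p) ((1 : F) : F ⧸ E) ∘ cs N E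

theorem ind_smul (h : N.M ≤ E) {e : F} (he : e ∈ E) (q : N.Q) : ind N E (e • q) = ind N E q := by
  simp only [ind, Function.comp, cs_smul h he]

theorem ind_rm (h : N.M ≤ E) {e : F} (he : e ∈ E) : ind N E ∘ N.rm e = ind N E := by
  classical
  funext q
  have : e • ((1 : F) : F ⧸ E) = ((1 : F) : F ⧸ E) := by
    show ((e * 1 : F) : F ⧸ E) = _
    rw [QuotientGroup.eq]; simpa using he
  simp only [ind, Function.comp, cs_rm h, dl_apply, inv_smul_eq_iff, this]

theorem ind_one (h : N.M ≤ E) : ind N E 1 = 1 := by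
  rw [← QuotientGroup.mk_one, ind, Function.comp, cs_mk h, inv_one, dl_self]

theorem mem_of_ind [Fact p.Prime] (h : N.M ≤ E) {w : F} (hw : ind N E (w : N.Q) = 1) : w ∈ E := by
  by_contra hn
  rw [ind, Function.comp, cs_mk h, dl_ne] at hw
  · exact zero_ne_one hw
  · rw [Ne, QuotientGroup.eq]; simpa using hn

end Coset

section Lev
variable {p : ℕ} [Fact p.Prime]

/-- Right multiplication on chains. -/
abbrev R (N : ON p) (g : F) : Module.End (ZMod p) (N.Q → ZMod p) := push (ZMod p) (N.rm g)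

/-- Projection on chains. -/
abbrev P (N' N : ON p) : (N'.Q → ZMod p) →ₗ[ZMod p] (N.Q → ZMod p) :=
  push (ZMod p) (N'.orb (1 : N.Q))

/-- Fox derivative on chains. -/
abbrev Dq (N : ON p) (f : F) : Module.End (ZMod p) (N.Q → ZMod p) := (un (ZMod p) N.Q).D f

variable {N N' N'' : ON p}

theorem P_R (h : N'.M ≤ N.M) (g : F) (w : N'.Q → ZMod p) :
    P N' N (R N' g w) = R N g (P N' N w) := by
  rw [push_push, push_push]
  congr 2
  funext q
  induction q using QuotientGroup.induction_on with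
  | H f => simp only [Function.comp, ON.rm_mk, ON.orb_one_mk h]

theorem P_P (h' : N''.M ≤ N'.M) (h : N'.M ≤ N.M) (w : N''.Q → ZMod p) :
    P N' N (P N'' N' w) = P N'' N w := by
  rw [push_push]
  congr 2
  funext q
  induction q using QuotientGroup.induction_on with
  | H f => simp only [Function.comp, ON.orb_one_mk h, ON.orb_one_mk h', ON.orb_one_mk (h'.trans h)]

theorem P_D (h : N'.M ≤ N.M) (f : F) (w : N'.Q → ZMod p) :
    P N' N (Dq N' f w) = Dq N f (P N' N w) := un_D_push (ON.eqv_orb (ON.triv_Q.2 h) _) f w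

theorem P_dl (h : N'.M ≤ N.M) (f : F) :
    P N' N (dl _ (f : N'.Q)) = dl _ (f : N.Q) := by rw [push_dl, ON.orb_one_mk h]

theorem P_one (h : N'.M ≤ N.M) : P N' N (dl _ 1) = dl _ 1 := P_dl h 1

theorem D_R (f g : F) (w : N.Q → ZMod p) : Dq N f (R N g w) = R N g (Dq N f w) :=
  (un_D_push (N.eqv_rm g) f w).symm

theorem R_pow {g : F} (hg : g ^ p ∈ N.M) : R N g ^ p = 1 := push_pow_one (rm_per hg)

theorem D_norm (g : F) (q : N.Q) (h : Commute q (g : N.Q)) :
    op p true (R N g) (Dq N g (dl _ q)) = Dq N (g ^ p) (dl _ q) := by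
  rw [← op_nat (Dq N g) (D_R g g), op_true, map_sum, Act.D_pow]
  refine Finset.sum_congr rfl fun j _ => ?_
  rw [push_pow, push_dl, rm_iter, un_rho_dl, N.smul_def, QuotientGroup.mk_pow, (h.pow_right j).eq]

theorem D_comm (h t : F) : Dq N (h * t * (t * h)⁻¹) (dl _ ((t * h : F) : N.Q)) =
    Dq N t (dl _ 1 - dl _ (h : N.Q)) + op p false (R N t) (Dq N h (dl _ 1)) := by
  have e1 := Act.D_mul (un (ZMod p) N.Q) (h * t * (t * h)⁻¹) (t * h) (dl _ 1)
  have e2 := Act.D_mul (un (ZMod p) N.Q) h t (dl _ 1)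
  have e3 := Act.D_mul (un (ZMod p) N.Q) t h (dl _ 1)
  rw [inv_mul_cancel_right, e2, e3] at e1
  simp only [un_rho_dl, N.smul_def, mul_one] at e1
  rw [op_false, ← D_R, push_dl, map_sub, ON.rm, one_mul]
  linear_combination -e1

/-- The coboundary of `φ`, as a functional. -/
def psi (φ : N.Q → ZMod p) : (N.Q → ZMod p) →ₗ[ZMod p] ZMod p :=
  dotProductBilin (ZMod p) (ZMod p) φ ∘ₗ ((un (ZMod p) N.Q).Y.toLinearMap - LinearMap.id)

theorem psi_apply (φ w : N.Q → ZMod p) :
    psi φ w = φ ⬝ᵥ (un (ZMod p) N.Q).Y w - φ ⬝ᵥ w := by simp [psi]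

theorem dot_rho (φ w : N.Q → ZMod p) (f : F) :
    φ ⬝ᵥ (un (ZMod p) N.Q).rho f w = (fun q => φ (f • q)) ⬝ᵥ w := by
  rw [← sum_dl w]
  simp [map_sum, un_rho_dl, dotProduct_sum]

theorem psi_D {φ : N.Q → ZMod p} (hφ : ∀ q, φ (x • q) = φ q) (f : F) (q : N.Q) :
    psi φ (Dq N f (dl _ q)) = φ (f • q) - φ q := by
  have := Act.fund (un (ZMod p) N.Q) (dotProductBilin (ZMod p) (ZMod p) φ).toAddMonoidHom
    (fun w => by
      have := dot_rho φ w x
      simp only [hφ, Act.rho_x] at this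
      exact this) f (dl _ q)
  rw [un_rho_dl] at this
  rw [psi_apply]
  simpa using this

theorem psi_B {ι : Type} [Fintype ι] {r : ι → F} (hr : N.Rel r) {S : ι → N.Q → Prop}
    {φ : N.Q → ZMod p} (hφ : ∀ q, φ (x • q) = φ q) {z : N.Q → ZMod p} (hz : z ∈ Bred 1 r S) :
    psi φ z = 0 := by
  have : Bred 1 r S ≤ LinearMap.ker (psi φ) := Bred_le fun i q _ => by
    rw [LinearMap.mem_ker, psi_D hφ, (N.smul_eq_iff _ q).2 (hr i), sub_self]
  exact this hz

theorem psi_R (φ w : N.Q → ZMod p) (g : F) : psi φ (R N g w) = psi (φ ∘ N.rm g) w := by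
  have := rho_push (N.eqv_rm g) (1 : N.Q → (ZMod p)ˣ) y w
  rw [Act.rho_y, Act.rho_y] at this
  rw [psi_apply, psi_apply, ← this, dot_push, dot_push]; rfl

theorem Bred_mono {ι V : Type} [Fintype ι] [MulAction F V] {r : ι → F} {S S' : ι → V → Prop}
    (h : ∀ i v, S i v → S' i v) : Bred (1 : V → (ZMod p)ˣ) r S ≤ Bred 1 r S' :=
  Submodule.map_mono fun _ hb i v hn => hb i v fun hs => hn (h i v hs)

theorem bd_single {ι V : Type} [Fintype ι] [DecidableEq ι] [MulAction F V] (r : ι → F) (i : ι)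
    (w : V → ZMod p) : bd 1 r (Pi.single i w : ι → V → ZMod p) = (un (ZMod p) V).D (r i) w := by
  rw [bd_apply, Finset.sum_eq_single i] <;> simp +contextual

variable (σ : State p)

/-- Boundaries of the layers below `j`. -/
abbrev B (j : ℕ) (N : ON p) : Submodule (ZMod p) (N.Q → ZMod p) := Bred 1 σ.r (lay σ.rk j N.Q)

variable {σ}

theorem B_mono {j j' : ℕ} (h : j ≤ j') : B σ j N ≤ B σ j' N :=
  Bred_mono fun _ _ hs => lt_of_lt_of_le hs h

theorem B_full : Bred 1 σ.r (full σ.ι N.Q) ≤ B σ σ.l N := Bred_mono fun i _ _ => σ.rk_lt i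

theorem B_zero {z : N.Q → ZMod p} (hz : z ∈ B σ 0 N) : z = 0 :=
  (Bred_le (B := ⊥) fun _ _ hs => absurd hs (Nat.not_lt_zero _)) hz

theorem P_B (h : N'.M ≤ N.M) {j : ℕ} {z : N'.Q → ZMod p} (hz : z ∈ B σ j N') :
    P N' N z ∈ B σ j N := push_mem_Bred (ω := 1) (ON.eqv_orb (ON.triv_Q.2 h) _) hz

theorem op_B (g : F) (b : Bool) {j : ℕ} {z : N.Q → ZMod p} (hz : z ∈ B σ j N) :
    op p b (R N g) z ∈ B σ j N :=
  op_mem (fun _ hw => push_mem_Bred (ω := 1) (N.eqv_rm g) hw) b hz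

theorem D_B {i : σ.ι} {j : ℕ} (h : σ.rk i < j) (ξ : N.Q → ZMod p) : Dq N (σ.r i) ξ ∈ B σ j N :=
  D_mem_Bred 1 σ.r _ i ξ fun _ hn => absurd h hn

theorem split (i : σ.ι) {z : N.Q → ZMod p} (hz : z ∈ B σ (σ.rk i + 1) N) :
    ∃ ξ, z - Dq N (σ.r i) ξ ∈ B σ (σ.rk i) N := by
  classical
  obtain ⟨b, hb, rfl⟩ := hz
  refine ⟨b i, b - Pi.single i (b i), fun i' q hn => ?_, by rw [map_sub, bd_single]⟩
  by_cases e : i' = i
  · subst e; simp
  · have : σ.rk i' ≠ σ.rk i := fun h => e (σ.rk_inj h)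
    have h2 : ¬ σ.rk i' < σ.rk i := hn
    have := hb i' q (show ¬ σ.rk i' < σ.rk i + 1 by omega)
    simp [e, this]

theorem lemW (hN : σ.Deep N) (i : σ.ι) (ξ : N.Q → ZMod p)
    (h : push (ZMod p) (cs N (σ.E i N)) ξ = 0) : Dq N (σ.r i) ξ ∈ B σ (σ.rk i) N := by
  have hs := cs_surj (σ.le i N)
  have := Subgroup.finiteIndex_of_le (σ.le i N)
  have : Fintype (F ⧸ σ.E i N) := Fintype.ofFinite _
  have := mv (Dq N (σ.r i)) (B σ (σ.rk i) N) (Function.surjInv hs ∘ cs N (σ.E i N)) (fun q => by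
    obtain ⟨a, ha, e⟩ := cs_eq (σ.le i N) (Function.surjInv_eq hs (cs N (σ.E i N) q))
    rw [Function.comp, e]
    exact σ.move i N hN.1 hN.2 a ha q) ξ
  rw [← push_push, h, map_zero, map_zero, zero_sub] at this
  exact (Submodule.neg_mem_iff _).1 this

omit [Fact p.Prime] in
theorem reach' (hN : σ.Deep N) (i : σ.ι) (q : N.Q) : ∃ e ∈ σ.E i N, σ.SQ N i (e • q) := by
  obtain ⟨e, he, hs⟩ := σ.reach i N hN.1 hN.2 (N.orb σ.v0 q)
  exact ⟨e, he, by rw [← ON.eqv_orb hN.2] at hs; exact hs⟩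

theorem lemRed (hN : σ.Deep N) (j : ℕ) :
    B σ j N ≤ Bred 1 σ.r (fun i q => σ.rk i < j ∧ σ.SQ N i q) := by
  induction j using Nat.strong_induction_on with
  | _ j ih =>
    refine Bred_le fun i q (hi : σ.rk i < j) => ?_
    obtain ⟨e, he, hs⟩ := reach' hN i q
    have h1 := Bred_mono (S' := fun i q => σ.rk i < j ∧ σ.SQ N i q)
      (fun _ _ h => ⟨h.1.trans hi, h.2⟩) (ih _ hi (σ.move i N hN.1 hN.2 e he q))
    have h2 := D_dl_mem_Bred (1 : N.Q → (ZMod p)ˣ) σ.r
      (S := fun i q => σ.rk i < j ∧ σ.SQ N i q) ⟨hi, hs⟩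
    have h3 := Submodule.sub_mem _ h2 h1
    rwa [show σ.τ i ^ p = σ.r i from rfl, sub_sub_cancel] at h3

theorem lemI (hz : σ.PZ) (hN : σ.Deep N) : ∃ N', σ.Deep N' ∧ N'.M ≤ N.M ∧ ∀ (i : σ.ι)
    (ξ : N'.Q → ZMod p), Dq N' (σ.r i) ξ ∈ B σ (σ.rk i) N' →
      push (ZMod p) (cs N (σ.E i N)) (P N' N ξ) = 0 := by
  classical
  obtain ⟨N', hN', hle, h⟩ := hz N hN
  refine ⟨N', hN', hle, fun i ξ hξ => ?_⟩
  choose e he hs using reach' hN' i
  have h1 := mv (Dq N' (σ.r i)) (B σ (σ.rk i) N') (fun q => e q • q)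
    (fun q => σ.move i N' hN'.1 hN'.2 _ (he q) q) ξ
  have h2 := Submodule.add_mem _ h1 hξ
  rw [sub_add_cancel] at h2
  obtain ⟨b, hb, hbd⟩ := lemRed hN' _ h2
  have hbi : b i = 0 := funext fun q => hb i q fun h => lt_irrefl _ h.1
  have h3 := h (Pi.single i (push (ZMod p) (fun q => e q • q) ξ) - b)
    ⟨fun i' q hn => by
      rw [Pi.sub_apply, Pi.sub_apply, hb i' q fun h => hn h.2, sub_zero]
      by_cases h' : i' = i
      · subst h'
        rw [Pi.single_eq_same]
        exact push_eq_zero_of _ _ _ fun q' e' => absurd (e' ▸ hs q') hn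
      · simp [h'], LinearMap.mem_ker.2 (by rw [map_sub, bd_single, hbd, sub_self])⟩ i
  rw [Pi.sub_apply, Pi.single_eq_same, hbi, sub_zero] at h3
  have h4 := congrArg (push (ZMod p) (cs N (σ.E i N))) h3
  rw [map_zero, push_push, push_push] at h4
  rw [push_push, ← h4]
  congr 2
  funext q
  simp only [Function.comp]
  rw [ON.eqv_orb (ON.triv_Q.2 hle), cs_smul (σ.le i N) (σ.mono i N N' hN.1 hN'.1 hle (he q))]

theorem descent (hz : σ.PZ) (b : Bool) (j0 j : ℕ) (hj : j0 ≤ j) : ∀ N, σ.Deep N →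
    ∃ N', σ.Deep N' ∧ N'.M ≤ N.M ∧ ∀ g : F, g ^ p ∈ N'.M →
      (∀ i, j0 ≤ σ.rk i → ∀ w : F, w * g * w⁻¹ ∉ σ.E i N) → ∀ z ∈ B σ j N',
        op p b (R N' g) z ∈ B σ j0 N' →
          ∃ η ∈ B σ σ.l N, P N' N z - op p (!b) (R N g) η ∈ B σ j0 N := by
  induction j, hj using Nat.le_induction with
  | base =>
    exact fun N hN => ⟨N, hN, le_rfl, fun g _ _ z hz _ =>
      ⟨0, Submodule.zero_mem _, by simpa using P_B le_rfl hz⟩⟩
  | succ j hj ih =>
    intro N hN
    obtain ⟨N1, hN1, hle1, h1⟩ := ih N hN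
    by_cases hi : ∃ i, σ.rk i = j
    swap
    · refine ⟨N1, hN1, hle1, fun g hg hf z hz => h1 g hg hf z (Bred_mono (fun i _ h => ?_) hz)⟩
      exact lt_of_le_of_ne (Nat.lt_succ_iff.1 h) fun e => hi ⟨i, e⟩
    obtain ⟨i, rfl⟩ := hi
    obtain ⟨N2, hN2, hle2, h2⟩ := lemI hz hN1
    refine ⟨N2, hN2, hle2.trans hle1, fun g hg hf z hz hP => ?_⟩
    obtain ⟨ξ, hξ⟩ := split i hz
    have := Subgroup.finiteIndex_of_le (σ.le i N1)
    have : Fintype (F ⧸ σ.E i N1) := Fintype.ofFinite _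
    have hcs : ∀ w, push (ZMod p) (cs N1 (σ.E i N1)) (R N1 g w) =
        push (ZMod p) (fun v : F ⧸ σ.E i N1 => g⁻¹ • v) (push (ZMod p) (cs N1 (σ.E i N1)) w) :=
      fun w => by
        rw [push_push, push_push]
        congr 2
        exact funext (cs_rm (σ.le i N1) g)
    have h3 : Dq N2 (σ.r i) (op p b (R N2 g) ξ) ∈ B σ (σ.rk i) N2 := by
      have := Submodule.sub_mem _ (B_mono hj hP) (op_B g b hξ)
      rwa [map_sub, sub_sub_cancel, ← op_nat _ (D_R _ g)] at this
    have h4 := h2 i _ h3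
    rw [op_nat _ (P_R hle2 g), op_nat _ hcs] at h4
    obtain ⟨u, hu⟩ := free (cs_per (σ.le i N1) (hle2 hg))
      (cs_free fun w hw => hf i hj w (σ.mono i N N1 hN.1 hN1.1 hle1 hw)) b _ h4
    obtain ⟨u1, rfl⟩ := push_surj (cs_surj (σ.le i N1)) u
    rw [← op_nat _ hcs, ← sub_eq_zero, ← map_sub] at hu
    have h5 := Submodule.add_mem _ (lemW hN1 i _ hu) (P_B hle2 hξ)
    rw [map_sub, map_sub, P_D hle2, op_nat _ (D_R _ g), sub_add_sub_cancel'] at h5
    obtain ⟨η, hη, h6⟩ := h1 g (hle2 hg) hf _ h5 (by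
      rw [map_sub, op_op (R_pow (hle2 hg)), sub_zero, ← op_nat _ (P_R hle2 g)]
      exact P_B hle2 hP)
    refine ⟨η + P N1 N (Dq N1 (σ.r i) u1),
      Submodule.add_mem _ hη (P_B hle1 (D_B (σ.rk_lt i) _)), ?_⟩
    rw [map_sub, P_P hle2 hle1, op_nat _ (P_R hle1 g)] at h6
    rw [map_add]
    convert h6 using 1
    abel

theorem desc' (hs : SpecSharp p) (hz : σ.PZ) (b : Bool) (j0 : ℕ) (hj : j0 ≤ σ.l)
    (hN : σ.Deep N) : ∃ N1 N' : ON p, σ.Deep N1 ∧ σ.Deep N' ∧ N'.M ≤ N1.M ∧ N1.M ≤ N.M ∧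
      ∀ g : F, g ^ p ∈ N1.M → (∀ i, j0 ≤ σ.rk i → ∀ w : F, w * g * w⁻¹ ∉ σ.E i N) →
        ∀ μ ∈ N'.M, ∀ q : N1.Q, op p b (R N1 g) (Dq N1 μ (dl _ q)) ∈ B σ j0 N1 →
          ∃ η ∈ B σ σ.l N, P N1 N (Dq N1 μ (dl _ q)) - op p (!b) (R N g) η ∈ B σ j0 N := by
  obtain ⟨N1, hN1, hle1, h1⟩ := descent hz b j0 σ.l hj N hN
  obtain ⟨N', hr, hle, h2⟩ := hs σ.ι σ.r N1 hN1.1
  exact ⟨N1, N', hN1, ⟨hr, hN1.2.mono hle⟩, hle, hle1, fun g hg hf μ hμ q =>
    h1 g hg hf _ (B_full (h2 μ hμ q))⟩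

theorem czx (hs : SpecSharp p) (hz : σ.PZ) (hN : σ.Deep N) : ∃ N', σ.Deep N' ∧ N'.M ≤ N.M ∧
    ∀ h : F, h * x * (x * h)⁻¹ ∈ N'.M → h ∈ Subgroup.zpowers x ⊔ N.M := by
  obtain ⟨N1, N', hN1, hN', hle', hle, H⟩ := desc' hs hz true 0 (Nat.zero_le _) hN
  refine ⟨N', hN', hle'.trans hle, fun h hμ => ?_⟩
  have e := D_comm (N := N1) h x
  rw [Act.D_x, zero_add] at e
  obtain ⟨η, hη, h1⟩ := H x N1.xp (fun i _ => σ.p2x i N hN.1 hN.2) _ hμ ((x * h : F) : N1.Q) (by
    rw [e, show false = !true from rfl, op_op (R_pow N1.xp)]; exact Submodule.zero_mem _)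
  have h2 := B_zero h1
  rw [e, op_nat _ (P_R hle x), P_D hle, P_one hle, Bool.not_true, ← map_sub] at h2
  obtain ⟨u, hu⟩ := free (rm_per N.xp) (rm_free fun hx => σ.xv (hN.2 x hx _)) false _ h2
  have hx : x ∈ Subgroup.zpowers x ⊔ N.M := Subgroup.mem_sup_left (Subgroup.mem_zpowers x)
  have hφ := ind_smul (N := N) le_sup_right hx
  have h3 := congrArg (psi (ind N (Subgroup.zpowers x ⊔ N.M))) hu
  rw [Bool.not_false, op_fix _ (fun w => by rw [psi_R, ind_rm le_sup_right hx]), map_sub,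
    psi_B hN.1 hφ hη, psi_D hφ, sub_zero, ind_one le_sup_right, N.smul_def, mul_one,
    sub_eq_zero] at h3
  exact mem_of_ind le_sup_right h3

theorem czt (hs : SpecSharp p) (hz : σ.PZ) (hN : σ.Deep N) (i : σ.ι) : ∃ N', σ.Deep N' ∧
    ∀ h : F, h * σ.τ i * (σ.τ i * h)⁻¹ ∈ N'.M → h ∈ σ.E i N := by
  obtain ⟨N0, hN0, hle0, hI⟩ := lemI hz hN
  obtain ⟨N1, N', hN1, hN', hle', hle, H⟩ := desc' hs hz true (σ.rk i + 1) (σ.rk_lt i) hN0
  refine ⟨N', hN', fun h hμ => ?_⟩
  have hc : Commute (h : N1.Q) (σ.τ i : N1.Q) := by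
    have := (QuotientGroup.eq_one_iff _).2 (hle' hμ)
    rwa [QuotientGroup.mk_mul, QuotientGroup.mk_inv, mul_inv_eq_one, QuotientGroup.mk_mul,
      QuotientGroup.mk_mul] at this
  have e : op p true (R N1 (σ.τ i)) (Dq N1 (h * σ.τ i * (σ.τ i * h)⁻¹)
      (dl _ ((σ.τ i * h : F) : N1.Q))) = Dq N1 (σ.r i) (dl _ 1 - dl _ (h : N1.Q)) := by
    rw [D_comm, map_add, show false = !true from rfl, op_op (R_pow (hN1.1 i)), add_zero, map_sub,
      map_sub, map_sub, D_norm _ _ hc, D_norm _ _ (Commute.one_left _)]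
    rfl
  obtain ⟨η, -, h1⟩ := H (σ.τ i) (hN1.1 i) (fun i' hi' => σ.p2 i' i N0 hN0.1 hN0.2 hi') _ hμ
    ((σ.τ i * h : F) : N1.Q) (by rw [e]; exact D_B (Nat.lt_succ_self _) _)
  obtain ⟨ξ, hξ⟩ := split i h1
  have h2 := op_B (σ.τ i) true hξ
  rw [map_sub, map_sub, op_op (R_pow (hN0.1 i)), sub_zero, ← op_nat _ (P_R hle _), e, P_D hle,
    ← op_nat _ (D_R _ _), ← map_sub, map_sub (P N1 N0), P_one hle, P_dl hle] at h2
  have := Subgroup.finiteIndex_of_le (σ.le i N)
  have : Fintype (F ⧸ σ.E i N) := Fintype.ofFinite _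
  have h3 := congrArg (fun w => dl (ZMod p) ((1 : F) : F ⧸ σ.E i N) ⬝ᵥ w) (hI i _ h2)
  have h4 := op_fix (T := R N (σ.τ i)) (dotProductBilin (ZMod p) (ZMod p) (ind N (σ.E i N)))
    (fun w => by
      have := dot_push (N.rm (σ.τ i)) (ind N (σ.E i N)) w
      rw [ind_rm (σ.le i N) (σ.mem i N)] at this
      exact this) (P N0 N ξ)
  rw [dot_push, dotProduct_zero, map_sub, map_sub, P_one hle0, P_dl hle0, op_nat _ (P_R hle0 _),
    dotProduct_sub, dotProduct_sub, dot_dl, dot_dl] at h3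
  have h5 : ind N (σ.E i N) 1 - ind N (σ.E i N) h -
      ind N (σ.E i N) ⬝ᵥ op p true (R N (σ.τ i)) (P N0 N ξ) = 0 := h3
  rw [show ind N (σ.E i N) ⬝ᵥ op p true (R N (σ.τ i)) (P N0 N ξ) = 0 from h4,
    ind_one (σ.le i N), sub_zero, sub_eq_zero] at h5
  exact mem_of_ind (σ.le i N) h5.symm

theorem f1 (hs : SpecSharp p) (hz : σ.PZ) : σ.F1 := by
  intro N hN
  obtain ⟨N1, N', hN1, hN', hle', hle, H⟩ := desc' hs hz false 0 (Nat.zero_le _) hN
  refine ⟨N', hN', hle'.trans hle, fun g hg => ?_⟩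
  by_contra hcon
  rw [not_or, not_exists, not_exists] at hcon
  have hg1 := hle' hg
  have hgN := hle hg1
  obtain ⟨η, hη, h1⟩ := H g hg1 (fun i _ w hw => hcon.2 i ⟨w, σ.p1 i N hN.1 hN.2 _ hw (by
      rw [conj_pow]; exact N.normal.conj_mem _ hgN w)⟩) _ hg 1 (by
    rw [← D_norm _ _ (Commute.one_left _), show true = !false from rfl, op_op (R_pow hg1)]
    exact Submodule.zero_mem _)
  have h2 := B_zero h1
  rw [P_D hle, P_one hle, ← D_norm _ _ (Commute.one_left _), Bool.not_false, ← map_sub] at h2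
  obtain ⟨c, hc⟩ := free (rm_per hgN)
    (rm_free fun h => hcon.1 1 (Subgroup.mem_sup_right (by simpa using h))) true _ h2
  rw [Bool.not_true, op_false] at hc
  have key : ∀ φ : N.Q → ZMod p, (∀ q, φ (x • q) = φ q) →
      (φ ∘ N.rm g) 1 - psi (φ ∘ N.rm g) c = φ 1 - psi φ c := fun φ hφ => by
    have := congrArg (psi φ) hc
    rw [map_sub, map_sub, psi_B hN.1 hφ hη, psi_D hφ, psi_R, N.smul_def, mul_one] at this
    rw [Function.comp, ON.rm, one_mul]
    linear_combination this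
  have hE : N.M ≤ Subgroup.zpowers x ⊔ N.M := le_sup_right
  have hx : x ∈ Subgroup.zpowers x ⊔ N.M := Subgroup.mem_sup_left (Subgroup.mem_zpowers x)
  obtain ⟨e, he⟩ := pou _ (cs_per hE hgN) (cs_free hcon.1)
  let φ : ℕ → N.Q → ZMod p := fun j q =>
    e ((fun v : F ⧸ (Subgroup.zpowers x ⊔ N.M) => g⁻¹ • v)^[j] (cs N _ q))
  have hj : ∀ j, φ j 1 - psi (φ j) c = φ 0 1 - psi (φ 0) c := fun j => by
    induction j with
    | zero => rfl
    | succ j ih =>
      rw [← ih, ← key (φ j) fun q => by simp only [φ, cs_smul hE hx]]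
      have : φ j ∘ N.rm g = φ (j + 1) := funext fun q => by
        simp only [φ, Function.comp, cs_rm hE, Function.iterate_succ_apply]
      rw [this]
  have hsum : ∑ j ∈ Finset.range p, φ j = fun _ => 1 := funext fun q => by
    rw [Finset.sum_apply]; exact he _
  have h3 : ∑ j ∈ Finset.range p, (φ j 1 - psi (φ j) c) = 1 := by
    simp only [psi_apply, Finset.sum_sub_distrib, ← sum_dotProduct, hsum]
    have := dot_rho (fun _ => 1) c y
    rw [Act.rho_y] at this
    rw [this, sub_self, sub_zero]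
    exact he _
  simp [hj] at h3

omit [Fact p.Prime] in
theorem below (hN : σ.Deep N) {κ : Type} (f : κ → ON p) (hf : ∀ k, σ.Deep (f k)) (s : Finset κ) :
    ∃ N', σ.Deep N' ∧ N'.M ≤ N.M ∧ ∀ k ∈ s, N'.M ≤ (f k).M := by
  classical
  induction s using Finset.induction_on with
  | empty => exact ⟨N, hN, le_rfl, by simp⟩
  | insert k s _ ih =>
    obtain ⟨N', h1, h2, h3⟩ := ih
    refine ⟨N'.inf (f k), ⟨h1.1.inf (hf k).1, h1.2.mono inf_le_left⟩, inf_le_left.trans h2,
      fun k' hk' => ?_⟩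
    rcases Finset.mem_insert.1 hk' with rfl | hk'
    · exact inf_le_right
    · exact inf_le_left.trans (h3 k' hk')

omit [Fact p.Prime] in
theorem comm_mem {h t : F} (hc : Commute (h : N.Q) (t : N.Q)) : h * t * (t * h)⁻¹ ∈ N.M := by
  rw [← QuotientGroup.eq_one_iff, QuotientGroup.mk_mul, QuotientGroup.mk_inv, mul_inv_eq_one,
    QuotientGroup.mk_mul, QuotientGroup.mk_mul]
  exact hc

end Lev

end Tate

open Tate in
theorem tate (p : ℕ) [Fact p.Prime] (h : SpecSharp p) : SpecTate p := by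
  refine fun σ hz => ⟨fun N hN => ?_, f1 h hz⟩
  obtain ⟨N1, hN1, hle1, h1⟩ := czx h hz hN
  choose f hf h2 using czt h hz hN
  obtain ⟨N', hN', hle, h3⟩ := below hN1 f hf Finset.univ
  exact ⟨N', hN', hle.trans hle1, fun g hg => h1 g (hle (comm_mem hg)),
    fun i g hg => h2 i g (h3 i (Finset.mem_univ i) (comm_mem hg))⟩

end H94G
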