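import Pool.Agent.MP_c98bf6_al.H94.Fox

set_option autoImplicit false

open Module

noncomputable section

namespace H94G

section Delta
variable {V V' : Type} {A : Type} [CommRing A]

theorem dl_apply [DecidableEq V] (v w : V) : dl A v w = if w = v then 1 else 0 := by
  unfold dl; congr

@[simp] theorem dl_self (v : V) : dl A v v = 1 := by simp [dl]

theorem dl_ne {v w : V} (h : w ≠ v) : dl A v w = 0 := by simp [dl, h]

theorem dl_eq_single [DecidableEq V] (v : V) : dl A v = Pi.single v 1 := by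
  funext w; rw [dl_apply, Pi.single_apply]

theorem sum_dl [Fintype V] (w : V → A) : ∑ v, w v • dl A v = w := by
  classical
  funext u; simp [Finset.sum_apply, dl_apply]

@[simp] theorem dot_dl [Fintype V] (α : V → A) (v : V) : α ⬝ᵥ dl A v = α v := by
  classical
  simp [dl_eq_single]

theorem map_dl {A' : Type} [CommRing A'] (φ : A →+* A') (v : V) : φ ∘ dl A v = dl A' v := by
  classical
  funext w; simp only [Function.comp, dl_apply]; split_ifs <;> simp

theorem push_apply [Fintype V'] [DecidableEq V] (π : V' → V) (w : V' → A) (v : V) :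
    push A π w v = ∑ v' ∈ Finset.univ.filter (fun v' => π v' = v), w v' := by
  simp only [push, LinearMap.coe_mk, AddHom.coe_mk]; congr

@[simp] theorem push_dl [Fintype V'] (π : V' → V) (v : V') : push A π (dl A v) = dl A (π v) := by
  classical
  funext u
  rw [push_apply, dl_apply]
  simp only [dl_apply, Finset.sum_ite_eq', Finset.mem_filter, Finset.mem_univ, true_and]
  simp [eq_comm]

theorem dot_push [Fintype V] [Fintype V'] (π : V' → V) (α : V → A) (w : V' → A) :
    α ⬝ᵥ push A π w = (α ∘ π) ⬝ᵥ w := by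
  rw [← sum_dl w]
  simp [map_sum, dotProduct_sum]

theorem push_push {V'' : Type} [Fintype V'] [Fintype V''] (π : V' → V) (ρ : V'' → V')
    (w : V'' → A) : push A π (push A ρ w) = push A (π ∘ ρ) w := by
  rw [← sum_dl w]; simp [map_sum]

@[simp] theorem push_id [Fintype V] (w : V → A) : push A id w = w := by
  conv_lhs => rw [← sum_dl w, map_sum]
  simp only [map_smul, push_dl, id, sum_dl]

theorem push_eq_zero_of [Fintype V'] (π : V' → V) (w : V' → A) (v : V)
    (h : ∀ v', π v' = v → w v' = 0) : push A π w v = 0 := by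
  classical
  rw [push_apply]; exact Finset.sum_eq_zero fun v' hv => h v' (by simpa using hv)

theorem push_equiv [Fintype V'] (e : V' ≃ V) (w : V' → A) : push A e w = w ∘ e.symm := by
  classical
  funext v
  rw [push_apply, Finset.sum_eq_single (e.symm v)]
  · rfl
  · intro b hb hne; exfalso; apply hne; simp at hb; simp [← hb]
  · simp

end Delta

section Perm
variable {V V' : Type} [MulAction F V] [MulAction F V'] {A : Type} [CommRing A]

@[simp] theorem tw_X (ω : V → Aˣ) (w : V → A) (v : V) : (tw ω).X w v = w (x⁻¹ • v) := rfl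

@[simp] theorem tw_Y (ω : V → Aˣ) (w : V → A) (v : V) :
    (tw ω).Y w v = ω (y⁻¹ • v) * w (y⁻¹ • v) := rfl

theorem un_rho (f : F) (w : V → A) (v : V) : (un A V).rho f w v = w (f⁻¹ • v) := by
  induction f using F_ind generalizing w v with
  | h1 => simp
  | hx => simp
  | hy => simp
  | hinv f h =>
    have := h ((un A V).rho f⁻¹ w) (f • v)
    rw [Act.rho_rho_inv, inv_smul_smul] at this
    rw [← this, inv_inv]
  | hmul f g hf hg => rw [Act.rho_mul, hf, hg, mul_inv_rev, mul_smul]

theorem un_rho_dl (f : F) (v : V) : (un A V).rho f (dl A v) = dl A (f • v) := by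
  classical
  funext u; rw [un_rho, dl_apply, dl_apply]; simp [inv_smul_eq_iff]

/-- Multiplication by an invariant function commutes with the action. -/
theorem rho_mulfun (ω : V → Aˣ) (f : F) (e w : V → A) :
    (tw ω).rho f (e * w) = (un A V).rho f e * (tw ω).rho f w := by
  induction f using F_ind generalizing e w with
  | h1 => simp
  | hx => funext v; simp
  | hy => funext v; simp; ring
  | hinv f h =>
    apply ((tw ω).rho f).injective
    rw [h]; simp
  | hmul f g hf hg => simp only [Act.rho_mul, hf, hg]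

theorem tw_rho_dl (ω : V → Aˣ) (f : F) (v : V) :
    (tw ω).rho f (dl A v) = hol ω v f • dl A (f • v) := by
  classical
  have h : dl A v = dl A v * dl A v := by
    funext u; simp only [Pi.mul_apply, dl_apply]; split_ifs <;> simp
  funext u
  rw [h, rho_mulfun, un_rho_dl]
  by_cases hu : u = f • v
  · subst hu; simp [hol]
  · simp [dl_ne hu]

@[simp] theorem hol_one (ω : V → Aˣ) (v : V) : hol ω v 1 = 1 := by simp [hol]
@[simp] theorem hol_x (ω : V → Aˣ) (v : V) : hol ω v x = 1 := by simp [hol]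
@[simp] theorem hol_y (ω : V → Aˣ) (v : V) : hol ω v y = ω v := by simp [hol]

theorem hol_mul (ω : V → Aˣ) (v : V) (f g : F) :
    hol ω v (f * g) = hol ω v g * hol ω (g • v) f := by
  have := congrFun (tw_rho_dl ω (f * g) v) ((f * g) • v)
  rw [Act.rho_mul, tw_rho_dl, map_smul, tw_rho_dl, mul_smul] at this
  simpa using this.symm

@[simp] theorem hol_un (v : V) (f : F) : hol (1 : V → Aˣ) v f = 1 := by
  rw [hol, un_rho_dl, dl_self]

theorem hol_inv_mul (ω : V → Aˣ) (v : V) (f : F) : hol ω⁻¹ v f * hol ω v f = 1 := by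
  induction f using F_ind generalizing v with
  | h1 => simp
  | hx => simp
  | hy => simp
  | hinv f h =>
    have h1 := hol_mul ω v f f⁻¹
    have h2 := hol_mul ω⁻¹ v f f⁻¹
    rw [mul_inv_cancel, hol_one] at h1 h2
    have h3 := h (f⁻¹ • v)
    linear_combination (-(hol ω⁻¹ v f⁻¹ * hol ω v f⁻¹)) * h3 - h2
      - (hol ω⁻¹ v f⁻¹ * hol ω⁻¹ (f⁻¹ • v) f) * h1
  | hmul f g hf hg =>
    rw [hol_mul, hol_mul]
    linear_combination (hol ω⁻¹ v g * hol ω v g) * hf (g • v) + hg v

theorem isUnit_hol (ω : V → Aˣ) (v : V) (f : F) : IsUnit (hol ω v f) :=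
  IsUnit.of_mul_eq_one_right _ (hol_inv_mul ω v f)

/-! #### Change of rings -/
section Map
variable {A' : Type} [CommRing A'] (φ : A →+* A') {ω : V → Aˣ} {ω' : V → A'ˣ}

theorem rho_map (h : ∀ v, (ω' v : A') = φ (ω v)) (f : F) (w : V → A) :
    φ ∘ (tw ω).rho f w = (tw ω').rho f (φ ∘ w) :=
  Act.nat_rho (tw ω) (tw ω') (fun w => φ ∘ w) (fun _ => rfl)
    (fun w => by funext v; simp [h]) f w

theorem D_map (h : ∀ v, (ω' v : A') = φ (ω v)) (f : F) (w : V → A) :
    φ ∘ (tw ω).D f w = (tw ω').D f (φ ∘ w) :=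
  Act.nat_D (tw ω) (tw ω') (φ.toAddMonoidHom.compLeft V) (fun _ => rfl)
    (fun w => by funext v; simp [h]) f w

omit [MulAction F V] in
theorem inv_map (h : ∀ v, (ω' v : A') = φ (ω v)) (v : V) : (ω'⁻¹ v : A') = φ (ω⁻¹ v) := by
  have : ω' v = Units.map φ.toMonoidHom (ω v) := Units.ext (h v)
  simp [this]

theorem hol_map (h : ∀ v, (ω' v : A') = φ (ω v)) (v : V) (f : F) :
    φ (hol ω v f) = hol ω' v f := by
  have := congrFun (rho_map φ h f (dl A v)) (f • v)
  rwa [map_dl] at this

theorem pr_map [Fintype V] (h : ∀ v, (ω' v : A') = φ (ω v)) (α : V → A) (v : V) (f : F) :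
    φ (pr ω α v f) = pr ω' (φ ∘ α) v f := by
  rw [pr, pr, RingHom.map_dotProduct, D_map φ (inv_map φ h), map_dl]

end Map

/-! #### Pull-back and push-forward -/

theorem Eqv.inv {π : V' → V} (h : Eqv π) (f : F) (v : V') : π (f⁻¹ • v) = f⁻¹ • π v := h _ _

theorem Eqv.comp {V'' : Type} [MulAction F V''] {π : V' → V} {ρ : V'' → V'} (h : Eqv π)
    (h' : Eqv ρ) : Eqv (π ∘ ρ) := fun f v => by simp only [Function.comp]; rw [h' f v, h]

theorem rho_pull {π : V' → V} (h : Eqv π) (ω : V → Aˣ) (f : F) (w : V → A) :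
    (tw ω).rho f w ∘ π = (tw (ω ∘ π)).rho f (w ∘ π) :=
  Act.nat_rho (tw ω) (tw (ω ∘ π)) (fun w => w ∘ π) (fun w => by funext v; simp [h.inv])
    (fun w => by funext v; simp [h.inv]) f w

theorem D_pull {π : V' → V} (h : Eqv π) (ω : V → Aˣ) (f : F) (w : V → A) :
    (tw ω).D f w ∘ π = (tw (ω ∘ π)).D f (w ∘ π) :=
  Act.nat_D (tw ω) (tw (ω ∘ π)) (LinearMap.funLeft A A π).toAddMonoidHom
    (fun w => by funext v; simp [h.inv]) (fun w => by funext v; simp [h.inv]) f w

theorem hol_pull {π : V' → V} (h : Eqv π) (ω : V → Aˣ) (v : V') (f : F) :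
    hol (ω ∘ π) v f = hol ω (π v) f := by
  induction f using F_ind generalizing v with
  | h1 => simp
  | hx => simp
  | hy => simp
  | hinv f ih =>
    have h1 := hol_mul ω (π v) f f⁻¹
    have h2 := hol_mul (ω ∘ π) v f f⁻¹
    rw [mul_inv_cancel, hol_one] at h1 h2
    rw [ih, h.inv] at h2
    exact (isUnit_hol ω (f⁻¹ • π v) f).mul_right_cancel (h2.symm.trans h1)
  | hmul f g hf hg => rw [hol_mul, hol_mul, hf, hg, h]

theorem rho_push [Fintype V'] {π : V' → V} (h : Eqv π) (ω : V → Aˣ) (f : F) (w : V' → A) :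
    push A π ((tw (ω ∘ π)).rho f w) = (tw ω).rho f (push A π w) := by
  rw [← sum_dl w]
  simp only [map_sum, map_smul, tw_rho_dl, push_dl, hol_pull h, h f]

theorem D_push [Fintype V'] {π : V' → V} (h : Eqv π) (ω : V → Aˣ) (f : F) (w : V' → A) :
    push A π ((tw (ω ∘ π)).D f w) = (tw ω).D f (push A π w) :=
  Act.nat_D (tw (ω ∘ π)) (tw ω) (push A π).toAddMonoidHom
    (fun w => by simpa using rho_push h ω x w) (fun w => by simpa using rho_push h ω y w) f w

theorem un_D_push [Fintype V'] {π : V' → V} (h : Eqv π) (f : F) (w : V' → A) :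
    push A π ((un A V').D f w) = (un A V).D f (push A π w) := D_push h 1 f w

theorem un_D_pull {π : V' → V} (h : Eqv π) (f : F) (w : V → A) :
    (un A V).D f w ∘ π = (un A V').D f (w ∘ π) := D_pull h 1 f w

/-- Multiplication by an `F`-invariant function commutes with `D`. -/
theorem D_mulfun (ω : V → Aˣ) (e : V → A) (he : ∀ (f : F) v, e (f • v) = e v) (f : F)
    (w : V → A) : e * (tw ω).D f w = (tw ω).D f (e * w) :=
  Act.nat_D (tw ω) (tw ω) (AddMonoidHom.mulLeft e) (fun w => by funext v; simp [he])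
    (fun w => by funext v; simp [he]; ring) f w

/-! #### Integrals -/
section Pr
variable [Fintype V] [Fintype V']

@[simp] theorem pr_one (ω : V → Aˣ) (α : V → A) (v : V) : pr ω α v 1 = 0 := by simp [pr]
@[simp] theorem pr_x (ω : V → Aˣ) (α : V → A) (v : V) : pr ω α v x = 0 := by simp [pr]
@[simp] theorem pr_y (ω : V → Aˣ) (α : V → A) (v : V) : pr ω α v y = α v := by simp [pr]

theorem pr_mul (ω : V → Aˣ) (α : V → A) (v : V) (f g : F) :
    pr ω α v (f * g) = pr ω α v g + hol ω⁻¹ v g * pr ω α (g • v) f := by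
  simp [pr, Act.D_mul, tw_rho_dl, dotProduct_add]

theorem pr_add (ω : V → Aˣ) (α α' : V → A) (v : V) (f : F) :
    pr ω (α + α') v f = pr ω α v f + pr ω α' v f := by simp [pr]

theorem pr_smul (ω : V → Aˣ) (c : A) (α : V → A) (v : V) (f : F) :
    pr ω (c • α) v f = c * pr ω α v f := by simp [pr]

theorem pr_neg (ω : V → Aˣ) (α : V → A) (v : V) (f : F) :
    pr ω (-α) v f = - pr ω α v f := by simp [pr]

theorem pr_pull {π : V' → V} (h : Eqv π) (ω : V → Aˣ) (α : V → A) (v : V') (f : F) :
    pr (ω ∘ π) (α ∘ π) v f = pr ω α (π v) f := by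
  rw [pr, pr, ← dot_push, ← push_dl, ← D_push h]; rfl

theorem intg_def (α : V → A) (v : V) (f : F) : intg α v f = α ⬝ᵥ (un A V).D f (dl A v) := by
  rw [intg, pr, inv_one]

theorem intg_mul (α : V → A) (v : V) (f g : F) :
    intg α v (f * g) = intg α v g + intg α (g • v) f := by
  rw [intg, pr_mul, inv_one, hol_un, one_mul]

theorem intg_inv (α : V → A) (v : V) (f : F) : intg α v f⁻¹ = - intg α (f⁻¹ • v) f := by
  have := intg_mul α v f f⁻¹
  rw [mul_inv_cancel, intg, pr_one] at this
  exact eq_neg_of_add_eq_zero_left this.symm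

theorem intg_pull {π : V' → V} (h : Eqv π) (α : V → A) (v : V') (f : F) :
    intg (α ∘ π) v f = intg α (π v) f := pr_pull h 1 α v f

theorem intg_pow (α : V → A) {v : V} {f : F} (h : f • v = v) (n : ℕ) :
    intg α v (f ^ n) = n * intg α v f := by
  induction n with
  | zero => simp
  | succ n ih => rw [pow_succ, intg_mul, h, ih]; push_cast; ring

theorem intg_x_zpow (α : V → A) (v : V) (n : ℤ) : intg α v (x ^ n) = 0 := by
  rw [intg_def, Act.D_x_zpow, dotProduct_zero]

theorem intg_x_pow (α : V → A) (v : V) (n : ℕ) : intg α v (x ^ n) = 0 := by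
  rw [intg_def, Act.D_x_pow, dotProduct_zero]

/-- Conjugate loops: the loop `g⁻¹ f g` at `v` is the loop `f` at `g • v`. -/
theorem intg_conj (α : V → A) (v : V) (f g : F) (h : f • g • v = g • v) :
    intg α v (g⁻¹ * f * g) = intg α (g • v) f := by
  rw [intg_mul, intg_mul, h, intg_inv, inv_smul_smul]; ring

theorem intg_map {A' : Type} [CommRing A'] (φ : A →+* A') (α : V → A) (v : V) (f : F) :
    φ (intg α v f) = intg (φ ∘ α) v f := pr_map φ (by simp) α v f

/-- Holonomy of `t ^ β`. -/
theorem hol_zpow (t : Aˣ) (β : V → ℤ) (v : V) (f : F) :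
    hol (fun u => t ^ β u) v f = (t ^ intg β v f : Aˣ) := by
  induction f using F_ind generalizing v with
  | h1 => simp
  | hx => simp
  | hy => simp
  | hinv f h =>
    have h1 := hol_mul (fun u => t ^ β u) v f f⁻¹
    rw [mul_inv_cancel, hol_one, h] at h1
    rw [intg_inv, zpow_neg]
    exact (Units.eq_inv_of_mul_eq_one_right h1.symm)
  | hmul f g hf hg => rw [hol_mul, hf, hg, intg_mul, zpow_add, Units.val_mul]

end Pr

end Perm

end H94G
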